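import Mathlib
import Pool.Agent.LGO.Mul.Ht
import Pool.Agent.LGO.H.BdC

/-!
# LGO/PA: quotients and smaller fields

PROOFS.  `bd_div`: `n y`, `n' z` integral, `1 ≤ n, n' ≤ exp G`.  `ν = |Norm (n y)|` (norm of `K / ℚ`) is a positive integer, at most `exp (2 G D)`
(`Algebra.norm_eq_prod_embeddings`, all conjugates of `n y` are at most `exp (2 G)`), and `ν (n y)⁻¹` is integral (the product of the other
conjugates up to sign, or: the norm is, up to sign, the constant coefficient of the characteristic polynomial of `n y`; or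
`Algebra.norm`-lemmas; or: `(n y)⁻¹` times the constant coefficient of the minimal polynomial, which divides the norm).  So
`n' ν (z / y) = (n' z) n (ν (n y)⁻¹)` is integral and `n' ν ≤ exp (3 D G)`, `D ≥ 1`.  House: `Bd.lower`: `‖σ y‖ ≥ exp (-(2 D G))`, so `‖σ (z / y)‖ ≤ exp (G + 2 D G)`.
`bd_down`: an embedding of `K` extends to an automorphism of `ℂ` (`exists_aut`), `Bd.aut`.
-/

namespace Pool.Agent.LGO.PA

open Pool.Agent.LGO

private theorem QInt_inv {K : IntermediateField ℚ ℂ} [FiniteDimensional ℚ K] {D h : ℝ} {x : ℂ}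
    (hD : (Module.finrank ℚ K : ℝ) ≤ D) (hh : 0 ≤ h) (hx : Bd K h x) (h0 : x ≠ 0) :
    Bd K (2 * D * h) x⁻¹ := by
  classical
  obtain ⟨n, hn, hnh, hint⟩ := hx.den
  set y : K := ⟨x, hx.mem⟩ with hy
  have hyn : y ≠ 0 := by
    intro e
    apply h0
    have := congrArg (fun z : K => (z : ℂ)) e
    simpa [hy] using this
  set w : K := (n : K) * y with hw
  have hn0 : (n : K) ≠ 0 := Nat.cast_ne_zero.2 hn.ne'
  have hwn : w ≠ 0 := mul_ne_zero hn0 hyn
  have hwint : IsIntegral ℤ w := by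
    have h1 : IsIntegral ℤ ((algebraMap K ℂ) w) := by
      have e : (algebraMap K ℂ) w = (n : ℂ) * x := by
        rw [hw, map_mul, map_natCast]
        rfl
      rw [e]
      exact hint
    exact (isIntegral_algebraMap_iff (algebraMap K ℂ).injective).1 h1
  have hN : IsIntegral ℤ (Algebra.norm ℚ w) := Algebra.isIntegral_norm ℚ hwint
  obtain ⟨z, hz⟩ := IsIntegrallyClosed.isIntegral_iff.1 hN
  have hz0 : z ≠ 0 := by
    intro e
    rw [e, map_zero] at hz
    exact hwn (Algebra.norm_eq_zero_iff.1 hz.symm)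
  have hprod := Algebra.norm_eq_prod_embeddings ℚ ℂ w
  have hzp : (z : ℂ) = ∏ τ : K →ₐ[ℚ] ℂ, τ w := by
    rw [← hprod, ← hz]
    simp
  have hup : ∀ τ : K →ₐ[ℚ] ℂ, ‖τ w‖ ≤ Real.exp (2 * h) := by
    intro τ
    have e : τ w = (n : ℂ) * τ y := by rw [hw, map_mul, map_natCast]
    rw [e, norm_mul, Complex.norm_natCast]
    have h2 := hx.house (τ : K →+* ℂ)
    calc (n : ℝ) * ‖τ y‖ ≤ Real.exp h * Real.exp h :=
          mul_le_mul hnh h2 (norm_nonneg _) (Real.exp_pos _).le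
      _ = Real.exp (2 * h) := by rw [← Real.exp_add]; ring_nf
  have hcard : Fintype.card (K →ₐ[ℚ] ℂ) = Module.finrank ℚ K := AlgHom.card ℚ K ℂ
  refine ⟨K.inv_mem hx.mem, ⟨z.natAbs, Int.natAbs_pos.2 hz0, ?_, ?_⟩, fun σ => ?_⟩
  · have h1 : ((z.natAbs : ℕ) : ℝ) = ‖(z : ℂ)‖ := by
      rw [Complex.norm_intCast, Nat.cast_natAbs, Int.cast_abs]
    rw [h1, hzp, norm_prod]
    calc ∏ τ : K →ₐ[ℚ] ℂ, ‖τ w‖ ≤ ∏ _τ : K →ₐ[ℚ] ℂ, Real.exp (2 * h) :=
          Finset.prod_le_prod (fun _ _ => norm_nonneg _) fun τ _ => hup τ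
      _ = Real.exp (2 * h) ^ Module.finrank ℚ K := by
          rw [Finset.prod_const, Finset.card_univ, hcard]
      _ = Real.exp (Module.finrank ℚ K * (2 * h)) := by rw [← Real.exp_nat_mul]
      _ ≤ Real.exp (2 * D * h) := by
          apply Real.exp_le_exp.2
          nlinarith
  · have h1 : IsIntegral ℤ ((z : ℂ) * x⁻¹) := by
      have e1 : ∏ τ : K →ₐ[ℚ] ℂ, τ w = (K.val w) * ∏ τ ∈ Finset.univ.erase K.val, τ w :=
        (Finset.mul_prod_erase _ _ (Finset.mem_univ _)).symm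
      have e2 : K.val w = (n : ℂ) * x := by
        rw [hw, map_mul, map_natCast]
        rfl
      have e3 : (z : ℂ) * x⁻¹ = (n : ℂ) * ∏ τ ∈ Finset.univ.erase K.val, τ w := by
        rw [hzp, e1, e2]
        field_simp
      rw [e3]
      refine isIntegral_natCast_mul n ?_
      refine IsIntegral.prod _ fun τ _ => ?_
      exact map_isIntegral_int (τ : K →+* ℂ) hwint
    rcases Int.natAbs_eq z with h2 | h2
    · have h3 : ((z.natAbs : ℕ) : ℂ) = (z : ℂ) := by
        conv_rhs => rw [h2]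
        simp
      rw [h3]
      exact h1
    · have h3 : ((z.natAbs : ℕ) : ℂ) = -(z : ℂ) := by
        conv_rhs => rw [h2]
        simp
      rw [h3, neg_mul]
      exact h1.neg
  · have h1 := hx.lower hD hh h0 σ
    have h2 : σ ⟨x⁻¹, K.inv_mem hx.mem⟩ = (σ ⟨x, hx.mem⟩)⁻¹ := by
      rw [← map_inv₀]
      rfl
    rw [h2, norm_inv]
    refine inv_le_of_inv_le₀ (Real.exp_pos _) ?_
    rw [← Real.exp_neg]
    exact h1

theorem bd_div {K : IntermediateField ℚ ℂ} [FiniteDimensional ℚ K] {D G : ℝ}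
    (hD : (Module.finrank ℚ K : ℝ) ≤ D) {y z : ℂ} (hy : Bd K G y) (hz : Bd K G z)
    (hy0 : y ≠ 0) : Bd K (3 * D * G) (z / y) := by
  have hG : 0 ≤ G := hy.nonneg
  have h1 : (1 : ℝ) ≤ Module.finrank ℚ K := by
    exact_mod_cast (Module.finrank_pos : 0 < Module.finrank ℚ K)
  rw [div_eq_mul_inv]
  refine (hz.mul (QInt_inv hD hG hy hy0)).mono ?_
  nlinarith

theorem bd_down {K K' : IntermediateField ℚ ℂ} [FiniteDimensional ℚ K] {M : ℝ} {x : ℂ}
    (h : Bd K' M x) (hx : x ∈ K) : Bd K M x := by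
  refine ⟨hx, h.den, fun σ => ?_⟩
  obtain ⟨s, hs⟩ := exists_aut K σ
  rw [← hs ⟨x, hx⟩]
  exact h.aut s

end Pool.Agent.LGO.PA
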