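import Mathlib
import Pool.Agent.Hhelper14.ZPL.Hecke
import Pool.Agent.Hhelper14.ZP2.Tate
import Pool.Agent.Hhelper14.ZP2.Formal
import Pool.Agent.Hhelper14.ZP2.Emb

/-!
# LGO/PA: `p`-adic evaluation of `q`-expansions: definitions

`φ : ℂ →+* ℂ_[p]` is an embedding of the complex numbers into the `p`-adic complex numbers (they exist, `exists_embedding` in
`Hhelper14/ZP2/Emb.lean`).
-/

namespace Pool.Agent.LGO.PA

open PowerSeries Pool.Agent.Hhelper14.ZP Pool.Agent.Hhelper14.ZPL UpperHalfPlane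
open scoped ArithmeticFunction.sigma

variable {p : ℕ} [Fact p.Prime]

/-- an embedding restricted to the algebraic integers -/
noncomputable def sO (φ : ℂ →+* ℂ_[p]) : OO →+* ℂ_[p] := φ.comp OO.subtype

/-- the value at `q` of a power series, the coefficients are mapped by `f` -/
noncomputable def ev {R : Type} [CommRing R] (f : R →+* ℂ_[p]) (A : R⟦X⟧) (q : ℂ_[p]) : ℂ_[p] :=
  ∑' n, f (coeff n A) * q ^ n

/-- `∑ σ₃(n) zⁿ` -/
noncomputable def sA : ℤ⟦X⟧ := PowerSeries.mk fun n => (σ 3 n : ℤ)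

/-- `∑ σ₅(n) zⁿ` -/
noncomputable def sB : ℤ⟦X⟧ := PowerSeries.mk fun n => (σ 5 n : ℤ)

/-- the `q`-expansion of `E₄` -/
noncomputable def E4s : ℤ⟦X⟧ := 1 + C 240 * sA

/-- the `q`-expansion of `Δ` -/
noncomputable def Ds : ℤ⟦X⟧ := PowerSeries.mk (fun n => (5 * (σ 3 n : ℤ) + 7 * (σ 5 n : ℤ)) / 12) +
  C 100 * sA ^ 2 + C 8000 * sA ^ 3 - C 147 * sB ^ 2

/-- `E₄(q)`, `q` in the open unit disc of `ℂ_[p]` -/
noncomputable def E4P (q : ℂ_[p]) : ℂ_[p] := ev (Int.castRingHom ℂ_[p]) E4s q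

/-- `Δ(q)` -/
noncomputable def DP (q : ℂ_[p]) : ℂ_[p] := ev (Int.castRingHom ℂ_[p]) Ds q

/-- `j(q) = E₄(q)³ / Δ(q)` -/
noncomputable def jP (q : ℂ_[p]) : ℂ_[p] := E4P q ^ 3 / DP q

/-- the function `F` on the complex unit disc and `y` are the values of the same power series with coefficients in
the ring of algebraic integers, `y` at the point `r` of `ℂ_[p]` -/
def EvAt (φ : ℂ →+* ℂ_[p]) (r : ℂ_[p]) (F : ℂ → ℂ) (y : ℂ_[p]) : Prop :=
  ∃ a : ℕ → OO, (∀ z : ℂ, ‖z‖ < 1 → HasSum (fun n => (a n : ℂ) * z ^ n) (F z)) ∧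
    HasSum (fun n => sO φ (a n) * r ^ n) y

/-- `y` is the value at `q_N = r` of the expansion of the function `f` on the upper half plane in powers of
`q_N = exp (2 π i τ / N)` -/
def EvR (N : ℕ) (φ : ℂ →+* ℂ_[p]) (r : ℂ_[p]) (f : ℍ → ℂ) (y : ℂ_[p]) : Prop :=
  ∃ (K : ℕ) (F : ℂ → ℂ), EvAt φ r F (y * r ^ K) ∧ ∀ τ : ℍ, f τ * qN N τ ^ K = F (qN N τ)

/-- `N ^ 12 Δ(A τ) / ((c τ + d) ^ 12 Δ(τ))`, `(c, d)` the second row of `A`, `det A = N` -/
noncomputable def bA {N : ℕ} (hN : 0 < N) (A : DD N) (τ : ℍ) : ℂ :=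
  (N : ℂ) ^ 12 * ModularForm.discriminant (act hN A τ) /
    (((A.1 1 0 : ℂ) * (τ : ℂ) + (A.1 1 1 : ℂ)) ^ 12 * ModularForm.discriminant τ)

end Pool.Agent.LGO.PA
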