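import Mathlib
import Pool.Agent.LGO.PA.Defs

/-!
# LGO/PA: evaluation of power series with integral coefficients in the open unit disc of `ℂ_[p]`

`f : R →+* ℂ_[p]` with `‖f r‖ ≤ 1` for all `r`, `‖q‖ < 1`.

PROOFS.  `‖f (a_n) q ^ n‖ ≤ ‖q‖ ^ n`, so the series is absolutely convergent (`ℂ_[p]` is a complete normed field).
`ev_mul`: Cauchy product (`tsum_mul_tsum_eq_tsum_sum_antidiagonal_of_summable_norm`, as in `Good.mul` in
`Pool/Agent/Hhelper14/ZP/Disc.lean`).  `ev_norm_le`, `ev_lip`, `ev_lip2`: the norm is nonarchimedean (`IsUltrametricDist ℂ_[p]`), so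
the norm of a convergent sum is at most the supremum of the norms (`IsUltrametricDist.norm_tsum_le`, or partial sums and limits);
`q ^ n - q' ^ n = (q - q') ∑_{i + j = n - 1} q ^ i q' ^ j` has norm at most `‖q - q'‖ max(‖q‖, ‖q'‖) ^ (n - 1)`.
`ev_order`: `‖f (a_n) q ^ n‖ ≤ ‖q‖ ^ M` for `n ≥ M`.
`ev_divX`: if `A = X ^ M * B` then `ev A q = q ^ M * ev B q` (`ev_mul`, `ev_X`, `ev_pow`).
-/

namespace Pool.Agent.LGO.PA

open PowerSeries

variable {p : ℕ} [Fact p.Prime] {R : Type} [CommRing R] {f : R →+* ℂ_[p]} {q q' : ℂ_[p]}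

theorem Ev_int_eq (n : ℤ) : ‖(n : ℂ_[p])‖ = ‖(n : ℚ_[p])‖ := by
  have h := PadicComplex.norm_extends' p (n : ℚ_[p])
  rw [← h, map_intCast, PadicComplex.coe_eq, map_intCast]

theorem Ev_hs {g h : ℕ → ℂ_[p]} {a : ℂ_[p]} (hh : HasSum h a) (e : ∀ n, g n = h n) : HasSum g a := by
  rwa [show g = h from funext e]

theorem Ev_term_le (hf : ∀ r, ‖f r‖ ≤ 1) (A : R⟦X⟧) (q : ℂ_[p]) (n : ℕ) :
    ‖f (coeff n A) * q ^ n‖ ≤ ‖q‖ ^ n := by
  rw [norm_mul, norm_pow]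
  exact mul_le_of_le_one_left (pow_nonneg (norm_nonneg _) _) (hf _)

theorem ev_hasSum (hf : ∀ r, ‖f r‖ ≤ 1) (hq : ‖q‖ < 1) (A : R⟦X⟧) :
    HasSum (fun n => f (coeff n A) * q ^ n) (ev f A q) :=
  (Summable.of_norm_bounded (summable_geometric_of_lt_one (norm_nonneg q) hq)
    (Ev_term_le hf A q)).hasSum

theorem ev_add (hf : ∀ r, ‖f r‖ ≤ 1) (hq : ‖q‖ < 1) (A B : R⟦X⟧) :
    ev f (A + B) q = ev f A q + ev f B q := by
  have h := (ev_hasSum hf hq A).add (ev_hasSum hf hq B)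
  refine (ev_hasSum hf hq (A + B)).unique (Ev_hs h fun n => ?_)
  rw [map_add, map_add, add_mul]

theorem ev_sub (hf : ∀ r, ‖f r‖ ≤ 1) (hq : ‖q‖ < 1) (A B : R⟦X⟧) :
    ev f (A - B) q = ev f A q - ev f B q := by
  have h := (ev_hasSum hf hq A).sub (ev_hasSum hf hq B)
  refine (ev_hasSum hf hq (A - B)).unique (Ev_hs h fun n => ?_)
  rw [map_sub, map_sub, sub_mul]

theorem ev_mul (hf : ∀ r, ‖f r‖ ≤ 1) (hq : ‖q‖ < 1) (A B : R⟦X⟧) :
    ev f (A * B) q = ev f A q * ev f B q := by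
  have hA : Summable fun n => ‖f (coeff n A) * q ^ n‖ :=
    Summable.of_nonneg_of_le (fun _ => norm_nonneg _) (Ev_term_le hf A q)
      (summable_geometric_of_lt_one (norm_nonneg q) hq)
  have hB : Summable fun n => ‖f (coeff n B) * q ^ n‖ :=
    Summable.of_nonneg_of_le (fun _ => norm_nonneg _) (Ev_term_le hf B q)
      (summable_geometric_of_lt_one (norm_nonneg q) hq)
  have h3 := (summable_norm_sum_mul_antidiagonal_of_summable_norm hA hB).of_norm.hasSum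
  rw [← tsum_mul_tsum_eq_tsum_sum_antidiagonal_of_summable_norm hA hB] at h3
  refine (ev_hasSum hf hq (A * B)).unique (Ev_hs h3 fun n => ?_)
  rw [coeff_mul, map_sum, Finset.sum_mul]
  refine Finset.sum_congr rfl fun kl hkl => ?_
  rw [← Finset.HasAntidiagonal.mem_antidiagonal.mp hkl, pow_add, map_mul]
  ring

theorem ev_C (f : R →+* ℂ_[p]) (q : ℂ_[p]) (c : R) : ev f (C c) q = f c := by
  unfold ev
  rw [tsum_eq_single 0]
  · simp
  · intro n hn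
    rw [coeff_C, if_neg hn, map_zero, zero_mul]

theorem ev_X (f : R →+* ℂ_[p]) (q : ℂ_[p]) : ev f X q = q := by
  unfold ev
  rw [tsum_eq_single 1]
  · simp
  · intro n hn
    rw [coeff_X, if_neg hn, map_zero, zero_mul]

theorem ev_one (f : R →+* ℂ_[p]) (q : ℂ_[p]) : ev f 1 q = 1 := by
  have h := ev_C f q 1
  rwa [map_one, map_one] at h

theorem ev_pow (hf : ∀ r, ‖f r‖ ≤ 1) (hq : ‖q‖ < 1) (A : R⟦X⟧) (n : ℕ) :
    ev f (A ^ n) q = ev f A q ^ n := by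
  induction n with
  | zero => rw [pow_zero, pow_zero, ev_one]
  | succ n ih => rw [pow_succ, pow_succ, ev_mul hf hq, ih]

theorem ev_at_zero (f : R →+* ℂ_[p]) (A : R⟦X⟧) : ev f A 0 = f (coeff 0 A) := by
  unfold ev
  rw [tsum_eq_single 0]
  · rw [pow_zero, mul_one]
  · intro n hn
    rw [zero_pow hn, mul_zero]

theorem ev_sum (hf : ∀ r, ‖f r‖ ≤ 1) (hq : ‖q‖ < 1) {ι : Type} (s : Finset ι) (A : ι → R⟦X⟧) :
    ev f (∑ i ∈ s, A i) q = ∑ i ∈ s, ev f (A i) q := by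
  classical
  induction s using Finset.induction_on with
  | empty =>
    rw [Finset.sum_empty, Finset.sum_empty]
    have h := ev_C f q 0
    rwa [map_zero, map_zero] at h
  | insert a s ha ih =>
    rw [Finset.sum_insert ha, Finset.sum_insert ha, ev_add hf hq, ih]

theorem ev_norm_le (hf : ∀ r, ‖f r‖ ≤ 1) (hq : ‖q‖ < 1) (A : R⟦X⟧) : ‖ev f A q‖ ≤ 1 := by
  unfold ev
  refine IsUltrametricDist.norm_tsum_le_of_forall_le_of_nonneg zero_le_one fun n => ?_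
  exact (Ev_term_le hf A q n).trans (pow_le_one₀ (norm_nonneg _) hq.le)

theorem ev_order (hf : ∀ r, ‖f r‖ ≤ 1) (hq : ‖q‖ < 1) (A : R⟦X⟧) (M : ℕ)
    (hM : ∀ n < M, coeff n A = 0) : ‖ev f A q‖ ≤ ‖q‖ ^ M := by
  unfold ev
  refine IsUltrametricDist.norm_tsum_le_of_forall_le_of_nonneg (pow_nonneg (norm_nonneg _) _) fun n => ?_
  rcases lt_or_ge n M with h | h
  · rw [hM n h, map_zero, zero_mul, norm_zero]
    exact pow_nonneg (norm_nonneg _) _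
  · exact (Ev_term_le hf A q n).trans (pow_le_pow_of_le_one (norm_nonneg _) hq.le h)

theorem Ev_pow_sub {ρ : ℝ} (hρ0 : 0 ≤ ρ) (hq : ‖q‖ ≤ ρ) (hq' : ‖q'‖ ≤ ρ) (n : ℕ) :
    ‖q ^ (n + 1) - q' ^ (n + 1)‖ ≤ ρ ^ n * ‖q - q'‖ := by
  rw [← (Commute.all q q').mul_geom_sum₂ (n + 1), norm_mul, mul_comm]
  refine mul_le_mul_of_nonneg_right ?_ (norm_nonneg _)
  refine IsUltrametricDist.norm_sum_le_of_forall_le_of_nonneg (pow_nonneg hρ0 _) fun i hi => ?_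
  rw [norm_mul, norm_pow, norm_pow]
  have hi' : i ≤ n := Nat.lt_succ_iff.mp (Finset.mem_range.mp hi)
  calc ‖q‖ ^ i * ‖q'‖ ^ (n + 1 - 1 - i) ≤ ρ ^ i * ρ ^ (n + 1 - 1 - i) :=
        mul_le_mul (pow_le_pow_left₀ (norm_nonneg _) hq _) (pow_le_pow_left₀ (norm_nonneg _) hq' _)
          (pow_nonneg (norm_nonneg _) _) (pow_nonneg hρ0 _)
    _ = ρ ^ n := by
        rw [← pow_add]
        congr 1
        omega

theorem Ev_sub_hasSum (hf : ∀ r, ‖f r‖ ≤ 1) (hq : ‖q‖ < 1) (hq' : ‖q'‖ < 1) (A : R⟦X⟧) :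
    ev f A q - ev f A q' = ∑' n, f (coeff n A) * (q ^ n - q' ^ n) := by
  have h := (ev_hasSum hf hq A).sub (ev_hasSum hf hq' A)
  rw [← h.tsum_eq]
  refine tsum_congr fun n => ?_
  rw [mul_sub]

theorem ev_lip (hf : ∀ r, ‖f r‖ ≤ 1) (hq : ‖q‖ < 1) (hq' : ‖q'‖ < 1) (A : R⟦X⟧) :
    ‖ev f A q - ev f A q'‖ ≤ ‖q - q'‖ := by
  rw [Ev_sub_hasSum hf hq hq']
  refine IsUltrametricDist.norm_tsum_le_of_forall_le_of_nonneg (norm_nonneg _) fun n => ?_
  rw [norm_mul]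
  refine (mul_le_of_le_one_left (norm_nonneg _) (hf _)).trans ?_
  rcases n with _ | n
  · simp
  · have h := Ev_pow_sub zero_le_one hq.le hq'.le n
    rwa [one_pow, one_mul] at h

theorem ev_lip2 (hf : ∀ r, ‖f r‖ ≤ 1) {ρ : ℝ} (hρ : ρ < 1) (hq : ‖q‖ ≤ ρ) (hq' : ‖q'‖ ≤ ρ)
    (A : R⟦X⟧) (hA : coeff 1 A = 0) : ‖ev f A q - ev f A q'‖ ≤ ρ * ‖q - q'‖ := by
  have hρ0 : 0 ≤ ρ := (norm_nonneg _).trans hq
  have hnn : 0 ≤ ρ * ‖q - q'‖ := mul_nonneg hρ0 (norm_nonneg _)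
  rw [Ev_sub_hasSum hf (hq.trans_lt hρ) (hq'.trans_lt hρ)]
  refine IsUltrametricDist.norm_tsum_le_of_forall_le_of_nonneg hnn fun n => ?_
  rcases n with _ | _ | n
  · simpa using hnn
  · rw [zero_add, hA, map_zero, zero_mul, norm_zero]
    exact hnn
  · rw [norm_mul]
    refine (mul_le_of_le_one_left (norm_nonneg _) (hf _)).trans ?_
    refine (Ev_pow_sub hρ0 hq hq' (n + 1)).trans ?_
    refine mul_le_mul_of_nonneg_right ?_ (norm_nonneg _)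
    rw [pow_succ]
    exact mul_le_of_le_one_left hρ0 (pow_le_one₀ hρ0 hρ.le)

theorem int_norm_le (n : ℤ) : ‖(n : ℂ_[p])‖ ≤ 1 := by
  rw [Ev_int_eq]
  exact Padic.norm_int_le_one n

theorem castHom_norm_le (n : ℤ) : ‖Int.castRingHom ℂ_[p] n‖ ≤ 1 := by
  rw [eq_intCast]
  exact int_norm_le n

/-- a nonzero integer is not too small -/
theorem int_norm_ge {n : ℤ} (hn : n ≠ 0) : (|n| : ℝ)⁻¹ ≤ ‖(n : ℂ_[p])‖ := by
  rw [Ev_int_eq]
  have hp : (1 : ℝ) < p := by exact_mod_cast (Fact.out : p.Prime).one_lt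
  have h1 : ‖(n : ℚ_[p])‖ = (p : ℝ) ^ (-((padicValInt p n : ℕ) : ℤ)) := by
    have := Padic.norm_eq_zpow_neg_valuation (x := (n : ℚ_[p])) (by exact_mod_cast hn)
    rw [this, Padic.valuation_intCast]
  rw [h1, zpow_neg, zpow_natCast]
  have h2 : ((p : ℤ) ^ padicValInt p n) ∣ n := padicValInt_dvd n
  have h3 : (p : ℤ) ^ padicValInt p n ≤ |n| := Int.le_of_dvd (abs_pos.mpr hn) ((dvd_abs _ _).mpr h2)
  have h4 : (p : ℝ) ^ padicValInt p n ≤ |(n : ℝ)| := by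
    have : (((p : ℤ) ^ padicValInt p n : ℤ) : ℝ) ≤ ((|n| : ℤ) : ℝ) := by exact_mod_cast h3
    push_cast at this
    exact this
  exact inv_anti₀ (pow_pos (by linarith) _) h4

end Pool.Agent.LGO.PA
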