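import Mathlib
import Pool.Agent.LGO.PA.Ev
import Pool.Agent.LGO.Mul.Ht

/-!
# LGO/PA: embeddings of the complex numbers into `ℂ_[p]`

PROOFS.  `norm_le_one_of_integral`: `x` is a root of a monic polynomial with integral coefficients; if `‖φ x‖ > 1` the leading term is
larger than the others (nonarchimedean norm, `‖n‖ ≤ 1` for integers `n`).
`integral_of_norm_le`: let `P` be the minimal polynomial of `x` over `ℚ`, `p` a prime and `φ₀ : ℂ →+* ℂ_[p]` (`exists_embedding`).  Over `ℂ` it is a product of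
factors `X - x'`, every root `x'` is `s x` for an automorphism `s` of `ℂ` (`exists_aut` for the field `ℚ⟮x⟯` and the embedding `x ↦ x'`), so
`‖φ₀ x'‖ = ‖(φ₀ ∘ s) x‖ ≤ 1`, and all coefficients of `P`, mapped to `ℂ_[p]`, have norm at most `1` (they are sums of products of roots,
`Polynomial.coeff_eq_esymm_roots_of_card`, or induction over the product).  For `c : ℚ`: `‖φ₀ c‖ = ‖(c : ℚ_[p])‖` (`PadicComplex.norm_extends'`, ring
homomorphisms agree on `ℚ`).  A rational number with `p`-adic norm at most `1` for every prime `p` is an integer (no prime divides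
the denominator), so `P` comes from `ℤ[X]` and is monic.
`pliou`: as `Bd.lower` (`LGO/Mul/Ht.lean`): `0 < n ≤ exp M`, `w = n x` integral, all conjugates at most `exp (2 M)`.  The norm `ν` of
`w` from `K` to `ℚ` is a nonzero integer, `|ν| ≤ exp (2 M D)` (`Algebra.norm_eq_prod_embeddings` for `ℂ`, `M ≥ 0` because
`1 ≤ n ≤ exp M`), and `ν = ∏_ψ ψ w` over the embeddings `ψ : K → ℂ_[p]` (`Algebra.norm_eq_prod_embeddings ℚ ℂ_[p]`, `ℂ_[p]` is algebraically closed), one of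
them is the restriction of `φ`, and all factors have norm at most `1` (`w` integral, direct argument for `ψ`).  So
`‖φ x‖ ≥ ‖φ w‖ ≥ ‖ν‖ ≥ 1 / |ν|` (`norm_natCast_ge` in `Hhelper14/ZP2/Tate.lean`; `‖n‖ ≤ 1`).
-/

namespace Pool.Agent.LGO.PA

open PowerSeries Pool.Agent.Hhelper14.ZP Pool.Agent.LGO

/-- an integer over the ring of integers of `ℂ_[p]` has norm at most `1` -/
private theorem Crit_norm_of_int {p : ℕ} [Fact p.Prime] {A : Type} [CommRing A]
    (g : A →+* ℂ_[p]) {x : A} (hx : IsIntegral ℤ x) : ‖g x‖ ≤ 1 := by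
  by_contra hlt
  push Not at hlt
  obtain ⟨P, hP, h0⟩ := hx
  replace h0 : P.eval₂ (g.comp (algebraMap ℤ A)) (g x) = 0 := by
    rw [← Polynomial.hom_eval₂, h0, map_zero]
  set y : ℂ_[p] := g x with hy
  have hn : P.natDegree ≠ 0 := by
    intro h
    have h1 : P = 1 := hP.natDegree_eq_zero.1 h
    rw [h1] at h0
    simp at h0
  rw [Polynomial.eval₂_eq_sum_range, Finset.sum_range_succ] at h0
  have hlead : (g.comp (algebraMap ℤ A)) (P.coeff P.natDegree) = 1 := by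
    rw [Polynomial.coeff_natDegree, hP.leadingCoeff, map_one]
  rw [hlead, one_mul] at h0
  have h2 : y ^ P.natDegree =
      -∑ i ∈ Finset.range P.natDegree, (g.comp (algebraMap ℤ A)) (P.coeff i) * y ^ i := by
    rw [eq_neg_iff_add_eq_zero, add_comm]
    exact h0
  have h3 : ‖y‖ ^ P.natDegree ≤ ‖y‖ ^ (P.natDegree - 1) := by
    rw [← norm_pow, h2, norm_neg]
    refine IsUltrametricDist.norm_sum_le_of_forall_le_of_nonneg (by positivity) ?_
    intro i hi
    have hi' := Finset.mem_range.1 hi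
    rw [norm_mul, norm_pow]
    have h4 : ‖(g.comp (algebraMap ℤ A)) (P.coeff i)‖ ≤ 1 := by
      rw [eq_intCast]
      exact norm_intCast_le _
    calc ‖(g.comp (algebraMap ℤ A)) (P.coeff i)‖ * ‖y‖ ^ i ≤ 1 * ‖y‖ ^ i :=
          mul_le_mul_of_nonneg_right h4 (by positivity)
      _ = ‖y‖ ^ i := one_mul _
      _ ≤ ‖y‖ ^ (P.natDegree - 1) := pow_le_pow_right₀ hlt.le (by omega)
  have h5 : ‖y‖ ^ (P.natDegree - 1) < ‖y‖ ^ P.natDegree :=
    pow_lt_pow_right₀ hlt (by omega)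
  linarith

theorem norm_le_one_of_integral {p : ℕ} [Fact p.Prime] (φ : ℂ →+* ℂ_[p]) {x : ℂ}
    (hx : IsIntegral ℤ x) : ‖φ x‖ ≤ 1 :=
  Crit_norm_of_int φ hx

theorem sO_norm_le {p : ℕ} [Fact p.Prime] (φ : ℂ →+* ℂ_[p]) (x : OO) : ‖sO φ x‖ ≤ 1 :=
  norm_le_one_of_integral φ x.2

/-- the complex numbers with norm at most `1` for every prime and every embedding -/
private def Crit_S : Subring ℂ where
  carrier := {y | ∀ (p : ℕ) [Fact p.Prime] (φ : ℂ →+* ℂ_[p]), ‖φ y‖ ≤ 1}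
  mul_mem' := by
    intro a b ha hb p _ φ
    rw [map_mul, norm_mul]
    exact mul_le_one₀ (ha p φ) (norm_nonneg _) (hb p φ)
  one_mem' := by
    intro p _ φ
    rw [map_one, norm_one]
  add_mem' := by
    intro a b ha hb p _ φ
    rw [map_add]
    exact (IsUltrametricDist.norm_add_le_max _ _).trans (max_le (ha p φ) (hb p φ))
  zero_mem' := by
    intro p _ φ
    rw [map_zero, norm_zero]
    exact zero_le_one
  neg_mem' := by
    intro a ha p _ φ
    rw [map_neg, norm_neg]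
    exact ha p φ

private theorem Crit_mem_S {y : ℂ} :
    y ∈ Crit_S ↔ ∀ (p : ℕ) [Fact p.Prime] (φ : ℂ →+* ℂ_[p]), ‖φ y‖ ≤ 1 := Iff.rfl

/-- a rational number in `Crit_S` is an integer -/
private theorem Crit_rat {c : ℚ} (hc : (c : ℂ) ∈ Crit_S) : ∃ z : ℤ, (z : ℚ) = c := by
  have hden : c.den = 1 := by
    by_contra hne
    obtain ⟨p, hp, hdvd⟩ := Nat.exists_prime_and_dvd hne
    haveI : Fact p.Prime := ⟨hp⟩
    obtain ⟨φ⟩ := exists_embedding p
    have h1 := hc p φ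
    rw [map_ratCast] at h1
    have h2 : (c : ℂ_[p]) * (c.den : ℂ_[p]) = (c.num : ℂ_[p]) := by
      exact_mod_cast Rat.mul_den_eq_num c
    have h3 : ‖(c.den : ℂ_[p])‖ < 1 := by
      rw [norm_natCast_eq]
      exact Padic.norm_natCast_lt_one_iff.2 hdvd
    have h4 : ¬ ‖(c.num : ℂ_[p])‖ < 1 := by
      rw [norm_intCast_eq, Padic.norm_intCast_lt_one_iff]
      intro h5
      have h6 : p ∣ c.num.natAbs := Int.natCast_dvd.1 h5
      have h7 := Nat.dvd_gcd h6 hdvd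
      rw [c.reduced] at h7
      exact hp.one_lt.ne' (Nat.dvd_one.1 h7)
    apply h4
    rw [← h2, norm_mul]
    calc ‖(c : ℂ_[p])‖ * ‖(c.den : ℂ_[p])‖ ≤ 1 * ‖(c.den : ℂ_[p])‖ :=
          mul_le_mul_of_nonneg_right h1 (norm_nonneg _)
      _ < 1 := by rw [one_mul]; exact h3
  exact ⟨c.num, Rat.coe_int_num_of_den_eq_one hden⟩

/-- the conjugates of `x` are the images under automorphisms of `ℂ` -/
private theorem Crit_conj {x y : ℂ} (hx : IsAlgebraic ℚ x) (hy : y ∈ (minpoly ℚ x).aroots ℂ) :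
    ∃ s : ℂ ≃+* ℂ, s x = y := by
  have hint : IsIntegral ℚ x := hx.isIntegral
  haveI : FiniteDimensional ℚ (IntermediateField.adjoin ℚ {x}) :=
    IntermediateField.adjoin.finiteDimensional hint
  obtain ⟨s, hs⟩ := exists_aut (IntermediateField.adjoin ℚ {x})
    ((IntermediateField.algHomAdjoinIntegralEquiv ℚ hint).symm ⟨y, hy⟩).toRingHom
  refine ⟨s, ?_⟩
  have h1 := hs (IntermediateField.AdjoinSimple.gen ℚ x)
  have h2 := IntermediateField.algHomAdjoinIntegralEquiv_symm_apply_gen ℚ hint ⟨y, hy⟩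
  have h3 : ((IntermediateField.AdjoinSimple.gen ℚ x :
      IntermediateField.adjoin ℚ {x}) : ℂ) = x := IntermediateField.AdjoinSimple.coe_gen ℚ x
  rw [h3] at h1
  rw [h1]
  exact h2

theorem integral_of_norm_le {x : ℂ} (hx : IsAlgebraic ℚ x)
    (h : ∀ (p : ℕ) [Fact p.Prime] (φ : ℂ →+* ℂ_[p]), ‖φ x‖ ≤ 1) : IsIntegral ℤ x := by
  classical
  have hint : IsIntegral ℚ x := hx.isIntegral
  set P : Polynomial ℚ := minpoly ℚ x with hP
  have hmon : P.Monic := minpoly.monic hint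
  -- the roots are in `Crit_S`
  have hroots : ∀ a ∈ (P.map (algebraMap ℚ ℂ)).roots, a ∈ (Crit_S.subtype).range := by
    intro a ha
    obtain ⟨s, hs⟩ := Crit_conj hx ha
    have h1 : a ∈ Crit_S := by
      intro p _ φ
      have h2 := h p (φ.comp (s : ℂ →+* ℂ))
      rw [RingHom.comp_apply] at h2
      have h3 : (s : ℂ →+* ℂ) x = a := hs
      rw [h3] at h2
      exact h2
    exact ⟨⟨a, h1⟩, rfl⟩
  have hlift := (IsAlgClosed.splits (P.map (algebraMap ℚ ℂ))).mem_lift_of_roots_mem_range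
    (hmon.map _) Crit_S.subtype hroots
  rw [Polynomial.lifts_iff_coeff_lifts] at hlift
  -- the coefficients are integers
  have hcoef : P ∈ Polynomial.lifts (Int.castRingHom ℚ) := by
    rw [Polynomial.lifts_iff_coeff_lifts]
    intro n
    obtain ⟨a, ha⟩ := hlift n
    rw [Polynomial.coeff_map] at ha
    have h1 : ((P.coeff n : ℚ) : ℂ) ∈ Crit_S := by
      have h2 : ((P.coeff n : ℚ) : ℂ) = (a : ℂ) := ha.symm
      rw [h2]
      exact a.2
    obtain ⟨z, hz⟩ := Crit_rat h1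
    exact ⟨z, hz⟩
  obtain ⟨Q, hQ, -, hQm⟩ := Polynomial.lifts_and_degree_eq_and_monic hcoef hmon
  refine ⟨Q, hQm, ?_⟩
  have h1 : Polynomial.aeval x P = 0 := minpoly.aeval ℚ x
  rw [← hQ, Polynomial.aeval_def, Polynomial.eval₂_map] at h1
  have h2 : (algebraMap ℚ ℂ).comp (Int.castRingHom ℚ) = algebraMap ℤ ℂ := by
    ext
    simp
  rw [h2] at h1
  exact h1

theorem pliou {p : ℕ} [Fact p.Prime] (φ : ℂ →+* ℂ_[p]) {K : IntermediateField ℚ ℂ}
    [FiniteDimensional ℚ K] {D M : ℝ} {x : ℂ} (hD : (Module.finrank ℚ K : ℝ) ≤ D)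
    (hx : Bd K M x) (h0 : x ≠ 0) : Real.exp (-(2 * D * M)) ≤ ‖φ x‖ := by
  classical
  obtain ⟨n, hn, hnh, hint⟩ := hx.den
  have hM : 0 ≤ M := by
    have h1 : (1 : ℝ) ≤ Real.exp M := le_trans (by exact_mod_cast hn) hnh
    exact Real.one_le_exp_iff.1 h1
  set y : K := ⟨x, hx.mem⟩ with hy
  have hyn : y ≠ 0 := by
    intro e
    apply h0
    have := congrArg (fun z : K => (z : ℂ)) e
    simpa [hy] using this
  set w : K := (n : K) * y with hw
  have hn0 : (n : K) ≠ 0 := Nat.cast_ne_zero.2 hn.ne'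
  have hwn : w ≠ 0 := mul_ne_zero hn0 hyn
  have hwc : (algebraMap K ℂ) w = (n : ℂ) * x := by
    rw [hw, map_mul, map_natCast]
    rfl
  have hwint : IsIntegral ℤ w := by
    have h1 : IsIntegral ℤ ((algebraMap K ℂ) w) := by
      rw [hwc]
      exact hint
    exact (isIntegral_algebraMap_iff (algebraMap K ℂ).injective).1 h1
  have hN : IsIntegral ℤ (Algebra.norm ℚ w) := Algebra.isIntegral_norm ℚ hwint
  obtain ⟨z, hz⟩ := IsIntegrallyClosed.isIntegral_iff.1 hN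
  have hz0 : z ≠ 0 := by
    intro e
    rw [e, map_zero] at hz
    exact hwn (Algebra.norm_eq_zero_iff.1 hz.symm)
  -- the complex side
  have hprod := Algebra.norm_eq_prod_embeddings ℚ ℂ w
  have hup : ∀ τ : K →ₐ[ℚ] ℂ, ‖τ w‖ ≤ Real.exp (2 * M) := by
    intro τ
    have e : τ w = (n : ℂ) * τ y := by rw [hw, map_mul, map_natCast]
    rw [e, norm_mul, Complex.norm_natCast]
    have h2 := hx.house (τ : K →+* ℂ)
    calc (n : ℝ) * ‖τ y‖ ≤ Real.exp M * Real.exp M :=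
          mul_le_mul hnh h2 (norm_nonneg _) (Real.exp_pos _).le
      _ = Real.exp (2 * M) := by rw [← Real.exp_add]; ring_nf
  have hcard : Fintype.card (K →ₐ[ℚ] ℂ) = Module.finrank ℚ K := AlgHom.card ℚ K ℂ
  have hzle : (z.natAbs : ℝ) ≤ Real.exp (2 * D * M) := by
    have h1 : ‖(algebraMap ℚ ℂ) (Algebra.norm ℚ w)‖ ≤ Real.exp (2 * M) ^ Module.finrank ℚ K := by
      rw [hprod, norm_prod, ← hcard, ← Finset.card_univ, ← Finset.prod_const]
      exact Finset.prod_le_prod (fun τ _ => norm_nonneg _) fun τ _ => hup τ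
    have h2 : ‖(algebraMap ℚ ℂ) (Algebra.norm ℚ w)‖ = (z.natAbs : ℝ) := by
      rw [← hz]
      have e : (algebraMap ℚ ℂ) ((algebraMap ℤ ℚ) z) = (z : ℂ) := by simp
      rw [e, Complex.norm_intCast, Nat.cast_natAbs, Int.cast_abs]
    rw [h2, ← Real.exp_nat_mul] at h1
    refine h1.trans (Real.exp_le_exp.2 ?_)
    nlinarith
  -- the `p`-adic side
  have hprod' := Algebra.norm_eq_prod_embeddings ℚ ℂ_[p] w
  set ψ : K →ₐ[ℚ] ℂ_[p] := RingHom.toRatAlgHom (φ.comp (algebraMap K ℂ)) with hψ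
  have hψw : ψ w = φ ((n : ℂ) * x) := by
    rw [← hwc]
    rfl
  have hle : ∀ τ : K →ₐ[ℚ] ℂ_[p], ‖τ w‖ ≤ 1 := by
    intro τ
    exact Crit_norm_of_int (τ : K →+* ℂ_[p]) hwint
  have hnorm : ‖(z : ℂ_[p])‖ ≤ ‖ψ w‖ := by
    have e : (algebraMap ℚ ℂ_[p]) (Algebra.norm ℚ w) = (z : ℂ_[p]) := by
      rw [← hz]
      simp
    rw [← e, hprod', norm_prod, ← Finset.mul_prod_erase Finset.univ _ (Finset.mem_univ ψ)]
    calc ‖ψ w‖ * ∏ τ ∈ Finset.univ.erase ψ, ‖τ w‖ ≤ ‖ψ w‖ * 1 := by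
          refine mul_le_mul_of_nonneg_left ?_ (norm_nonneg _)
          exact Finset.prod_le_one (fun τ _ => norm_nonneg _) fun τ _ => hle τ
      _ = ‖ψ w‖ := mul_one _
  have hzn : ‖(z : ℂ_[p])‖ = ‖((z.natAbs : ℕ) : ℂ_[p])‖ := by
    rcases Int.natAbs_eq z with h | h
    · conv_lhs => rw [h]
      rw [Int.cast_natCast]
    · conv_lhs => rw [h]
      rw [Int.cast_neg, norm_neg, Int.cast_natCast]
  have hpos : 0 < z.natAbs := Int.natAbs_pos.2 hz0
  have hge : ((z.natAbs : ℕ) : ℝ)⁻¹ ≤ ‖((z.natAbs : ℕ) : ℂ_[p])‖ := norm_natCast_ge hpos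
  have hfin : ‖ψ w‖ ≤ ‖φ x‖ := by
    rw [hψw, map_mul, norm_mul, map_natCast]
    calc ‖(n : ℂ_[p])‖ * ‖φ x‖ ≤ 1 * ‖φ x‖ :=
          mul_le_mul_of_nonneg_right (norm_natCast_le n) (norm_nonneg _)
      _ = ‖φ x‖ := one_mul _
  have hposR : (0 : ℝ) < (z.natAbs : ℝ) := by exact_mod_cast hpos
  calc Real.exp (-(2 * D * M)) = (Real.exp (2 * D * M))⁻¹ := Real.exp_neg _
    _ ≤ ((z.natAbs : ℕ) : ℝ)⁻¹ := inv_anti₀ hposR hzle
    _ ≤ ‖((z.natAbs : ℕ) : ℂ_[p])‖ := hge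
    _ = ‖(z : ℂ_[p])‖ := hzn.symm
    _ ≤ ‖ψ w‖ := hnorm
    _ ≤ ‖φ x‖ := hfin

end Pool.Agent.LGO.PA
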