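import Mathlib
import Pool.Agent.LGO.PA.Crit
import Pool.Agent.LGO.U.RComp

/-!
# LGO/PA: the values of a rational function in `ℂ_[p]`

All constants `m` are positive integers; for an algebraic number `a` there is `m` with `‖m‖ ‖φ a‖ ≤ 1` for all `p`, `φ` (`m a` integral,
`norm_le_one_of_integral`), and if `a ≠ 0` also with `‖m‖ ≤ ‖φ a‖` (the same for `a⁻¹`).  `‖m‖ ≤ 1` for integers.

PROOFS.  `cmp_x`, second inequality: `‖φ B(t)‖ max 1 ‖φ x‖ = max ‖φ B(t)‖ ‖φ A(t)‖ ≤ ‖m‖⁻¹ max 1 ‖φ t‖ ^ n`, `n = rdeg A B`.  First inequality: let `T = ‖φ t‖`.  A polynomial of the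
degree `n` among `A`, `B` (say `A`, leading coefficient `a`): `‖φ A(t)‖ = ‖φ a‖ T ^ n` if `T ≥ ‖m₁‖⁻¹` (`‖m₁‖⁻¹ > ‖φ a_i‖ / ‖φ a‖` for `i < n`: take `m₁` divisible by ... such that
`‖φ a_i‖ T ^ i < ‖φ a‖ T ^ n`; for `n = 0` trivial).  If `T < ‖m₁‖⁻¹`: Bezout `A U + B V = 1`: `1 ≤ max ‖φ A(t)‖ ‖φ B(t)‖ ‖m₂‖⁻¹ max 1 T ^ k ≤
max ‖φ A(t)‖ ‖φ B(t)‖ ‖m₂ m₁ ^ k‖⁻¹` and `max 1 T ^ n ≤ ‖m₁ ^ n‖⁻¹`.
`ratio_inf`: `n = deg B`, `a`, `b` the coefficients of index `n`, `b ≠ 0`.  If `T > ‖m‖⁻¹` then `‖φ B(t)‖ = ‖φ b‖ T ^ n`, `B(t) ≠ 0`, and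
`A(t) / B(t) - a / b = (A - (a / b) B)(t) / B(t)`, where `A - (a / b) B` has degree `< n`.
-/

namespace Pool.Agent.LGO.PA

open Polynomial Pool.Agent.Hhelper14.ZPL Pool.Agent.LGO Pool.Agent.LGO.U

/-- the denominator of an algebraic number -/
private theorem Cmp_up {a : ℂ} (ha : IsAlgebraic ℚ a) : ∃ m : ℕ, 0 < m ∧
    ∀ (p : ℕ) [Fact p.Prime] (φ : ℂ →+* ℂ_[p]), ‖(m : ℂ_[p])‖ * ‖φ a‖ ≤ 1 := by
  have h1 : IsAlgebraic ℤ a := (IsFractionRing.isAlgebraic_iff ℤ ℚ ℂ).2 ha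
  obtain ⟨y, hy, hint⟩ := h1.exists_integral_multiple
  refine ⟨y.natAbs, Int.natAbs_pos.2 hy, fun p _ φ => ?_⟩
  have h2 := norm_le_one_of_integral φ hint
  rw [zsmul_eq_mul, map_mul, map_intCast, norm_mul] at h2
  have h3 : ‖((y.natAbs : ℕ) : ℂ_[p])‖ = ‖(y : ℂ_[p])‖ := by
    rcases Int.natAbs_eq y with h | h
    · conv_rhs => rw [h]
      rw [Int.cast_natCast]
    · conv_rhs => rw [h]
      rw [Int.cast_neg, norm_neg, Int.cast_natCast]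
  rw [h3]
  exact h2

/-- a nonzero algebraic number has norm between those of integers -/
theorem alg_norm {a : ℂ} (ha : IsAlgebraic ℚ a) (h0 : a ≠ 0) : ∃ m : ℕ, 0 < m ∧
    ∀ (p : ℕ) [Fact p.Prime] (φ : ℂ →+* ℂ_[p]),
      ‖(m : ℂ_[p])‖ * ‖φ a‖ ≤ 1 ∧ ‖(m : ℂ_[p])‖ ≤ ‖φ a‖ := by
  obtain ⟨m₁, hm₁, h₁⟩ := Cmp_up ha
  obtain ⟨m₂, hm₂, h₂⟩ := Cmp_up ha.inv
  refine ⟨m₁ * m₂, Nat.mul_pos hm₁ hm₂, fun p _ φ => ?_⟩
  have e1 := h₁ p φ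
  have e2 := h₂ p φ
  have hn1 : ‖(m₁ : ℂ_[p])‖ ≤ 1 := Pool.Agent.Hhelper14.ZP.norm_natCast_le m₁
  have hn2 : ‖(m₂ : ℂ_[p])‖ ≤ 1 := Pool.Agent.Hhelper14.ZP.norm_natCast_le m₂
  have hpos : 0 < ‖φ a‖ := norm_pos_iff.2 ((map_ne_zero φ).2 h0)
  rw [map_inv₀, norm_inv, ← div_eq_mul_inv, div_le_iff₀ hpos, one_mul] at e2
  rw [Nat.cast_mul, norm_mul]
  constructor
  · calc ‖(m₁ : ℂ_[p])‖ * ‖(m₂ : ℂ_[p])‖ * ‖φ a‖
        = ‖(m₂ : ℂ_[p])‖ * (‖(m₁ : ℂ_[p])‖ * ‖φ a‖) := by ring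
      _ ≤ 1 := mul_le_one₀ hn2 (by positivity) e1
  · calc ‖(m₁ : ℂ_[p])‖ * ‖(m₂ : ℂ_[p])‖ ≤ 1 * ‖(m₂ : ℂ_[p])‖ :=
          mul_le_mul_of_nonneg_right hn1 (norm_nonneg _)
      _ = ‖(m₂ : ℂ_[p])‖ := one_mul _
      _ ≤ ‖φ a‖ := e2

private theorem Cmp_alg (g : Qb) : IsAlgebraic ℚ (g : ℂ) := mem_algebraicClosure_iff.1 g.2

/-- upper bound for the values of a polynomial -/
private theorem Cmp_upper (A : Polynomial Qb) : ∃ m : ℕ, 0 < m ∧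
    ∀ (p : ℕ) [Fact p.Prime] (φ : ℂ →+* ℂ_[p]) (t : ℂ),
      ‖(m : ℂ_[p])‖ * ‖φ (aeval t A : ℂ)‖ ≤ max 1 ‖φ t‖ ^ A.natDegree := by
  choose m hm0 hm using fun g : Qb => Cmp_up (Cmp_alg g)
  refine ⟨∏ i ∈ Finset.range (A.natDegree + 1), m (A.coeff i),
    Finset.prod_pos fun i _ => hm0 _, fun p _ φ t => ?_⟩
  have hM1 : (1 : ℝ) ≤ max 1 ‖φ t‖ := le_max_left _ _
  rw [aeval_eq_sum_range, map_sum, ← norm_mul, Finset.mul_sum]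
  refine IsUltrametricDist.norm_sum_le_of_forall_le_of_nonneg (by positivity) ?_
  intro i hi
  have hi' : i ≤ A.natDegree := Nat.lt_succ_iff.1 (Finset.mem_range.1 hi)
  rw [Algebra.smul_def, map_mul, map_pow, norm_mul, norm_mul, norm_pow,
    ← Finset.mul_prod_erase _ _ hi, Nat.cast_mul, norm_mul]
  have e1 := hm (A.coeff i) p φ
  have e2 : ‖((∏ x ∈ (Finset.range (A.natDegree + 1)).erase i, m (A.coeff x) : ℕ) : ℂ_[p])‖ ≤ 1 :=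
    Pool.Agent.Hhelper14.ZP.norm_natCast_le _
  have e3 : ‖φ t‖ ^ i ≤ max 1 ‖φ t‖ ^ A.natDegree :=
    (pow_le_pow_left₀ (norm_nonneg _) (le_max_right _ _) i).trans (pow_le_pow_right₀ hM1 hi')
  have e4 : ‖φ (algebraMap Qb ℂ (A.coeff i))‖ = ‖φ ((A.coeff i : Qb) : ℂ)‖ := rfl
  rw [e4]
  calc _ = (‖((m (A.coeff i) : ℕ) : ℂ_[p])‖ * ‖φ ((A.coeff i : Qb) : ℂ)‖) *
        ‖((∏ x ∈ (Finset.range (A.natDegree + 1)).erase i, m (A.coeff x) : ℕ) : ℂ_[p])‖ *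
          ‖φ t‖ ^ i := by ring
    _ ≤ 1 * max 1 ‖φ t‖ ^ A.natDegree := by
        refine mul_le_mul ?_ e3 (by positivity) zero_le_one
        exact mul_le_one₀ e1 (norm_nonneg _) e2
    _ = _ := one_mul _

/-- the values of a polynomial near infinity -/
private theorem Cmp_lead {P : Polynomial Qb} (hP : P ≠ 0) : ∃ m : ℕ, 0 < m ∧
    ∀ (p : ℕ) [Fact p.Prime] (φ : ℂ →+* ℂ_[p]),
      ‖(m : ℂ_[p])‖ ≤ ‖φ ((P.leadingCoeff : Qb) : ℂ)‖ ∧ ∀ t : ℂ, 1 < ‖(m : ℂ_[p])‖ * ‖φ t‖ →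
      ‖φ (aeval t P : ℂ)‖ = ‖φ ((P.leadingCoeff : Qb) : ℂ)‖ * ‖φ t‖ ^ P.natDegree := by
  have hlc : P.leadingCoeff ≠ 0 := leadingCoeff_ne_zero.2 hP
  have hlc' : ((P.leadingCoeff : Qb) : ℂ) ≠ 0 := by
    intro h
    exact hlc (by exact_mod_cast h)
  obtain ⟨m₂, hm₂, h₂⟩ := alg_norm (Cmp_alg P.leadingCoeff) hlc'
  obtain ⟨m₁, hm₁, h₁⟩ := Cmp_upper P.eraseLead
  have hdec : ∀ t : ℂ, (aeval t P : ℂ) = aeval t P.eraseLead +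
      (P.leadingCoeff : ℂ) * t ^ P.natDegree := by
    intro t
    conv_lhs => rw [← P.eraseLead_add_monomial_natDegree_leadingCoeff]
    rw [map_add, aeval_monomial]
    rfl
  refine ⟨m₁ * m₂, Nat.mul_pos hm₁ hm₂, fun p _ φ => ⟨?_, fun t ht => ?_⟩⟩
  · have hn1 : ‖(m₁ : ℂ_[p])‖ ≤ 1 := Pool.Agent.Hhelper14.ZP.norm_natCast_le m₁
    rw [Nat.cast_mul, norm_mul]
    calc ‖(m₁ : ℂ_[p])‖ * ‖(m₂ : ℂ_[p])‖ ≤ 1 * ‖(m₂ : ℂ_[p])‖ :=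
          mul_le_mul_of_nonneg_right hn1 (norm_nonneg _)
      _ = ‖(m₂ : ℂ_[p])‖ := one_mul _
      _ ≤ _ := (h₂ p φ).2
  rcases Nat.eq_zero_or_pos P.natDegree with h0 | hpos
  · have h1 : P.eraseLead = 0 := by
      rcases P.eraseLead_natDegree_lt_or_eraseLead_eq_zero with h2 | h2
      · omega
      · exact h2
    rw [hdec, h1, map_zero, zero_add, h0, pow_zero, pow_zero, mul_one, mul_one]
  · have hn1 : ‖(m₁ : ℂ_[p])‖ ≤ 1 := Pool.Agent.Hhelper14.ZP.norm_natCast_le m₁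
    have hn2 : ‖(m₂ : ℂ_[p])‖ ≤ 1 := Pool.Agent.Hhelper14.ZP.norm_natCast_le m₂
    have hp1 : 0 < ‖(m₁ : ℂ_[p])‖ := norm_pos_iff.2 (by exact_mod_cast hm₁.ne')
    rw [Nat.cast_mul, norm_mul] at ht
    have hT1 : 1 < ‖φ t‖ := by
      by_contra hle
      push Not at hle
      have : ‖(m₁ : ℂ_[p])‖ * ‖(m₂ : ℂ_[p])‖ * ‖φ t‖ ≤ 1 :=
        mul_le_one₀ (mul_le_one₀ hn1 (norm_nonneg _) hn2) (norm_nonneg _) hle
      linarith
    have hmax : max 1 ‖φ t‖ = ‖φ t‖ := max_eq_right hT1.le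
    have he : ‖(m₁ : ℂ_[p])‖ * ‖φ (aeval t P.eraseLead : ℂ)‖ ≤ ‖φ t‖ ^ (P.natDegree - 1) := by
      refine (h₁ p φ t).trans ?_
      rw [hmax]
      exact pow_le_pow_right₀ hT1.le P.eraseLead_natDegree_le
    have hpow : ‖φ t‖ ^ P.natDegree = ‖φ t‖ ^ (P.natDegree - 1) * ‖φ t‖ := by
      rw [← pow_succ, Nat.sub_add_cancel hpos]
    have hl := (h₂ p φ).2
    have hlt : ‖φ (aeval t P.eraseLead : ℂ)‖ <
        ‖φ ((P.leadingCoeff : ℂ) * t ^ P.natDegree)‖ := by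
      rw [map_mul, map_pow, norm_mul, norm_pow, hpow]
      have hq : 0 < ‖φ t‖ ^ (P.natDegree - 1) := by positivity
      refine lt_of_mul_lt_mul_left (lt_of_le_of_lt he ?_) hp1.le
      calc ‖φ t‖ ^ (P.natDegree - 1) < ‖φ t‖ ^ (P.natDegree - 1) *
            (‖(m₁ : ℂ_[p])‖ * ‖(m₂ : ℂ_[p])‖ * ‖φ t‖) := lt_mul_of_one_lt_right hq ht
        _ = ‖(m₁ : ℂ_[p])‖ * (‖(m₂ : ℂ_[p])‖ * (‖φ t‖ ^ (P.natDegree - 1) * ‖φ t‖)) := by ring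
        _ ≤ _ := mul_le_mul_of_nonneg_left
            (mul_le_mul_of_nonneg_right hl (by positivity)) hp1.le
    rw [hdec, map_add, IsUltrametricDist.norm_add_eq_max_of_norm_ne_norm hlt.ne,
      max_eq_right hlt.le, map_mul, map_pow, norm_mul, norm_pow]

/-- a product of two positive integers is small compared to each factor -/
private theorem Cmp_mul_le {p : ℕ} [Fact p.Prime] (a b : ℕ) :
    ‖((a * b : ℕ) : ℂ_[p])‖ ≤ ‖(a : ℂ_[p])‖ := by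
  rw [Nat.cast_mul, norm_mul]
  exact mul_le_of_le_one_right (norm_nonneg _) (Pool.Agent.Hhelper14.ZP.norm_natCast_le b)

private theorem Cmp_mul_le' {p : ℕ} [Fact p.Prime] (a b : ℕ) :
    ‖((a * b : ℕ) : ℂ_[p])‖ ≤ ‖(b : ℂ_[p])‖ := by
  rw [Nat.mul_comm]
  exact Cmp_mul_le b a

/-- two coprime polynomials are not both small -/
private theorem Cmp_low {A B : Polynomial Qb} (h : IsCoprime A B) : ∃ m : ℕ, 0 < m ∧
    ∀ (p : ℕ) [Fact p.Prime] (φ : ℂ →+* ℂ_[p]) (t : ℂ),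
      ‖(m : ℂ_[p])‖ * max 1 ‖φ t‖ ^ rdeg A B ≤
        max ‖φ (aeval t B : ℂ)‖ ‖φ (aeval t A : ℂ)‖ := by
  obtain ⟨P, hPd, hP, hP0⟩ : ∃ P : Polynomial Qb, P.natDegree = rdeg A B ∧ (P = A ∨ P = B) ∧
      P ≠ 0 := by
    by_cases hA : A = 0
    · refine ⟨B, ?_, Or.inr rfl, ?_⟩
      · rw [rdeg, hA, natDegree_zero, Nat.zero_max]
      · rintro rfl
        rw [hA, isCoprime_zero_left] at h
        exact not_isUnit_zero h
    · by_cases hB : B = 0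
      · refine ⟨A, ?_, Or.inl rfl, hA⟩
        rw [rdeg, hB, natDegree_zero, Nat.max_zero]
      · rcases le_total A.natDegree B.natDegree with h1 | h1
        · exact ⟨B, (max_eq_right h1).symm, Or.inr rfl, hB⟩
        · exact ⟨A, (max_eq_left h1).symm, Or.inl rfl, hA⟩
  obtain ⟨m₁, hm₁, h₁⟩ := Cmp_lead hP0
  obtain ⟨U, V, hUV⟩ := h
  obtain ⟨mU, hmU, hU⟩ := Cmp_upper U
  obtain ⟨mV, hmV, hV⟩ := Cmp_upper V
  have hPle : ∀ (p : ℕ) [Fact p.Prime] (φ : ℂ →+* ℂ_[p]) (t : ℂ),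
      ‖φ (aeval t P : ℂ)‖ ≤ max ‖φ (aeval t B : ℂ)‖ ‖φ (aeval t A : ℂ)‖ := by
    intro p _ φ t
    rcases hP with rfl | rfl
    · exact le_max_right _ _
    · exact le_max_left _ _
  refine ⟨m₁ ^ (rdeg A B + 1) * ((mU * m₁ ^ U.natDegree) * (mV * m₁ ^ V.natDegree)),
    by positivity, fun p _ φ t => ?_⟩
  set M := max ‖φ (aeval t B : ℂ)‖ ‖φ (aeval t A : ℂ)‖ with hM
  have hM0 : 0 ≤ M := (norm_nonneg _).trans (le_max_left _ _)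
  by_cases ht : 1 < ‖(m₁ : ℂ_[p])‖ * ‖φ t‖
  · have e1 := (h₁ p φ).2 t ht
    have e2 := (h₁ p φ).1
    have hT1 : 1 ≤ ‖φ t‖ := by
      refine ht.le.trans ?_
      exact mul_le_of_le_one_left (norm_nonneg _) (Pool.Agent.Hhelper14.ZP.norm_natCast_le m₁)
    have hmax : max 1 ‖φ t‖ = ‖φ t‖ := max_eq_right hT1
    have e3 : ‖((m₁ ^ (rdeg A B + 1) * ((mU * m₁ ^ U.natDegree) * (mV * m₁ ^ V.natDegree)) : ℕ)
        : ℂ_[p])‖ ≤ ‖(m₁ : ℂ_[p])‖ := by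
      refine (Cmp_mul_le _ _).trans ?_
      rw [pow_succ]
      exact Cmp_mul_le' _ _
    rw [hmax]
    calc _ ≤ ‖φ ((P.leadingCoeff : Qb) : ℂ)‖ * ‖φ t‖ ^ rdeg A B :=
          mul_le_mul_of_nonneg_right (e3.trans e2) (by positivity)
      _ = ‖φ (aeval t P : ℂ)‖ := by rw [e1, hPd]
      _ ≤ M := hPle p φ t
  · push Not at ht
    have hn1 : ‖(m₁ : ℂ_[p])‖ ≤ 1 := Pool.Agent.Hhelper14.ZP.norm_natCast_le m₁
    have hT : ‖(m₁ : ℂ_[p])‖ * max 1 ‖φ t‖ ≤ 1 := by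
      rw [mul_max_of_nonneg _ _ (norm_nonneg _), mul_one]
      exact max_le hn1 ht
    have hTk : ∀ k : ℕ, ‖((m₁ ^ k : ℕ) : ℂ_[p])‖ * max 1 ‖φ t‖ ^ k ≤ 1 := by
      intro k
      rw [Nat.cast_pow, norm_pow, ← mul_pow]
      exact pow_le_one₀ (by positivity) hT
    have hval : ∀ (W : Polynomial Qb) (m : ℕ),
        ‖(m : ℂ_[p])‖ * ‖φ (aeval t W : ℂ)‖ ≤ max 1 ‖φ t‖ ^ W.natDegree →
        ‖((m * m₁ ^ W.natDegree : ℕ) : ℂ_[p])‖ * ‖φ (aeval t W : ℂ)‖ ≤ 1 := by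
      intro W m hW
      rw [Nat.cast_mul, norm_mul]
      calc _ = ‖((m₁ ^ W.natDegree : ℕ) : ℂ_[p])‖ * (‖(m : ℂ_[p])‖ * ‖φ (aeval t W : ℂ)‖) := by
            ring
        _ ≤ ‖((m₁ ^ W.natDegree : ℕ) : ℂ_[p])‖ * max 1 ‖φ t‖ ^ W.natDegree :=
            mul_le_mul_of_nonneg_left hW (norm_nonneg _)
        _ ≤ 1 := hTk _
    have eU := hval U mU (hU p φ t)
    have eV := hval V mV (hV p φ t)
    have hone : (1 : ℂ_[p]) = φ (aeval t U : ℂ) * φ (aeval t A : ℂ) +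
        φ (aeval t V : ℂ) * φ (aeval t B : ℂ) := by
      have e : (aeval t U : ℂ) * aeval t A + aeval t V * aeval t B = 1 := by
        rw [← map_mul, ← map_mul, ← map_add, hUV, map_one]
      rw [← map_mul φ, ← map_mul φ, ← map_add φ, e, map_one]
    set c : ℕ := (mU * m₁ ^ U.natDegree) * (mV * m₁ ^ V.natDegree) with hc
    have hcM : ‖(c : ℂ_[p])‖ ≤ M := by
      have e0 : (c : ℂ_[p]) = (c : ℂ_[p]) * (φ (aeval t U : ℂ) * φ (aeval t A : ℂ)) +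
          (c : ℂ_[p]) * (φ (aeval t V : ℂ) * φ (aeval t B : ℂ)) := by
        rw [← mul_add, ← hone, mul_one]
      rw [e0]
      refine (IsUltrametricDist.norm_add_le_max _ _).trans (max_le ?_ ?_)
      · rw [norm_mul, norm_mul, ← mul_assoc]
        calc _ ≤ 1 * ‖φ (aeval t A : ℂ)‖ := by
              refine mul_le_mul_of_nonneg_right ?_ (norm_nonneg _)
              exact (mul_le_mul_of_nonneg_right (Cmp_mul_le _ _) (norm_nonneg _)).trans eU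
          _ ≤ M := by
              rw [one_mul]
              exact le_max_right _ _
      · rw [norm_mul, norm_mul, ← mul_assoc]
        calc _ ≤ 1 * ‖φ (aeval t B : ℂ)‖ := by
              refine mul_le_mul_of_nonneg_right ?_ (norm_nonneg _)
              exact (mul_le_mul_of_nonneg_right (Cmp_mul_le' _ _) (norm_nonneg _)).trans eV
          _ ≤ M := by
              rw [one_mul]
              exact le_max_left _ _
    rw [Nat.cast_mul, norm_mul]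
    have e5 : ‖((m₁ ^ (rdeg A B + 1) : ℕ) : ℂ_[p])‖ ≤ ‖((m₁ ^ rdeg A B : ℕ) : ℂ_[p])‖ := by
      rw [pow_succ]
      exact Cmp_mul_le _ _
    calc _ = (‖((m₁ ^ (rdeg A B + 1) : ℕ) : ℂ_[p])‖ * max 1 ‖φ t‖ ^ rdeg A B) *
          ‖(c : ℂ_[p])‖ := by ring
      _ ≤ 1 * M := by
          refine mul_le_mul ?_ hcM (norm_nonneg _) zero_le_one
          exact (mul_le_mul_of_nonneg_right e5 (by positivity)).trans (hTk _)
      _ = M := one_mul _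

theorem cmp_x {A B : Polynomial Qb} (h : IsCoprime A B) : ∃ m : ℕ, 0 < m ∧
    ∀ (p : ℕ) [Fact p.Prime] (φ : ℂ →+* ℂ_[p]) (t x : ℂ), (aeval t A : ℂ) = x * aeval t B →
      ‖(m : ℂ_[p])‖ * max 1 ‖φ t‖ ^ rdeg A B ≤ ‖φ (aeval t B : ℂ)‖ * max 1 ‖φ x‖ ∧
      ‖(m : ℂ_[p])‖ * (‖φ (aeval t B : ℂ)‖ * max 1 ‖φ x‖) ≤ max 1 ‖φ t‖ ^ rdeg A B := by
  obtain ⟨m₁, hm₁, h₁⟩ := Cmp_low h
  obtain ⟨mA, hmA, hA⟩ := Cmp_upper A
  obtain ⟨mB, hmB, hB⟩ := Cmp_upper B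
  refine ⟨m₁ * (mA * mB), by positivity, fun p _ φ t x htx => ?_⟩
  have hmax : ‖φ (aeval t B : ℂ)‖ * max 1 ‖φ x‖ =
      max ‖φ (aeval t B : ℂ)‖ ‖φ (aeval t A : ℂ)‖ := by
    rw [mul_max_of_nonneg _ _ (norm_nonneg _), mul_one, htx, map_mul, norm_mul, mul_comm ‖φ x‖]
  have hM1 : (1 : ℝ) ≤ max 1 ‖φ t‖ := le_max_left _ _
  rw [hmax]
  constructor
  · exact (mul_le_mul_of_nonneg_right (Cmp_mul_le _ _) (by positivity)).trans (h₁ p φ t)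
  · rw [mul_max_of_nonneg _ _ (norm_nonneg _)]
    refine max_le ?_ ?_
    · refine (mul_le_mul_of_nonneg_right ((Cmp_mul_le' _ _).trans (Cmp_mul_le' _ _))
        (norm_nonneg _)).trans ((hB p φ t).trans (pow_le_pow_right₀ hM1 ?_))
      exact le_max_right _ _
    · refine (mul_le_mul_of_nonneg_right ((Cmp_mul_le' _ _).trans (Cmp_mul_le _ _))
        (norm_nonneg _)).trans ((hA p φ t).trans (pow_le_pow_right₀ hM1 ?_))
      exact le_max_left _ _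

theorem ratio_inf (A B : Polynomial Qb) (h : A.natDegree ≤ B.natDegree) (hB : B ≠ 0) :
    ∃ m : ℕ, 0 < m ∧ ∀ (p : ℕ) [Fact p.Prime] (φ : ℂ →+* ℂ_[p]) (t : ℂ),
      1 < ‖φ ((m : ℂ) * t)‖ → (aeval t B : ℂ) ≠ 0 ∧
        ‖(m : ℂ_[p])‖ * (‖φ ((aeval t A : ℂ) / aeval t B) -
          φ (((A.coeff B.natDegree : Qb) : ℂ) / ((B.leadingCoeff : Qb) : ℂ))‖ * ‖φ t‖) ≤ 1 := by
  obtain ⟨m₁, hm₁, h₁⟩ := Cmp_lead hB
  set r : Qb := A.coeff B.natDegree / B.leadingCoeff with hr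
  set P : Polynomial Qb := A - C r * B with hPdef
  have hlc : B.leadingCoeff ≠ 0 := leadingCoeff_ne_zero.2 hB
  have hrc : (r : ℂ) = ((A.coeff B.natDegree : Qb) : ℂ) / ((B.leadingCoeff : Qb) : ℂ) := by
    rw [hr]
    push_cast
    rfl
  have hPn : P.coeff B.natDegree = 0 := by
    rw [hPdef, coeff_sub, coeff_C_mul, coeff_natDegree, hr, div_mul_cancel₀ _ hlc, sub_self]
  have hPd : P.natDegree ≤ B.natDegree := by
    refine (natDegree_sub_le _ _).trans (max_le h ?_)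
    exact natDegree_C_mul_le _ _
  have hP : P = 0 ∨ P.natDegree + 1 ≤ B.natDegree := by
    by_cases h0 : P = 0
    · exact Or.inl h0
    · right
      refine Nat.lt_of_le_of_ne hPd ?_
      intro e
      rw [← e, coeff_natDegree, leadingCoeff_eq_zero] at hPn
      exact h0 hPn
  obtain ⟨m₂, hm₂, h₂⟩ := Cmp_upper P
  refine ⟨m₁ * m₂ * m₁, by positivity, fun p _ φ t ht => ?_⟩
  have hn1 : ‖(m₁ : ℂ_[p])‖ ≤ 1 := Pool.Agent.Hhelper14.ZP.norm_natCast_le m₁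
  rw [map_mul, map_natCast, norm_mul] at ht
  have ht1 : 1 < ‖(m₁ : ℂ_[p])‖ * ‖φ t‖ :=
    ht.trans_le (mul_le_mul_of_nonneg_right (Cmp_mul_le' _ _) (norm_nonneg _))
  have hT1 : 1 < ‖φ t‖ := ht1.trans_le (mul_le_of_le_one_left (norm_nonneg _) hn1)
  have e1 := (h₁ p φ).2 t ht1
  have e2 := (h₁ p φ).1
  have hp1 : 0 < ‖(m₁ : ℂ_[p])‖ := norm_pos_iff.2 (by exact_mod_cast hm₁.ne')
  have hBpos : 0 < ‖φ (aeval t B : ℂ)‖ := by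
    rw [e1]
    have : 0 < ‖φ ((B.leadingCoeff : Qb) : ℂ)‖ := hp1.trans_le e2
    positivity
  have hB0 : (aeval t B : ℂ) ≠ 0 := by
    intro e
    rw [e, map_zero, norm_zero] at hBpos
    exact lt_irrefl _ hBpos
  refine ⟨hB0, ?_⟩
  have hdiff : φ ((aeval t A : ℂ) / aeval t B) -
      φ (((A.coeff B.natDegree : Qb) : ℂ) / ((B.leadingCoeff : Qb) : ℂ)) =
      φ (aeval t P : ℂ) / φ (aeval t B : ℂ) := by
    have e : (aeval t P : ℂ) = aeval t A - r * aeval t B := by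
      rw [hPdef, map_sub, map_mul, aeval_C]
      rfl
    rw [← hrc, ← map_sub φ, ← map_div₀ φ, e]
    congr 1
    field_simp
  rw [hdiff, norm_div]
  have hmax : max 1 ‖φ t‖ = ‖φ t‖ := max_eq_right hT1.le
  have e3 : ‖(m₂ : ℂ_[p])‖ * (‖φ (aeval t P : ℂ)‖ * ‖φ t‖) ≤ ‖φ t‖ ^ B.natDegree := by
    rcases hP with h0 | h0
    · rw [h0, map_zero, map_zero, norm_zero, zero_mul, mul_zero]
      positivity
    · have e4 := h₂ p φ t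
      rw [hmax] at e4
      calc _ = (‖(m₂ : ℂ_[p])‖ * ‖φ (aeval t P : ℂ)‖) * ‖φ t‖ := by ring
        _ ≤ ‖φ t‖ ^ P.natDegree * ‖φ t‖ := mul_le_mul_of_nonneg_right e4 (norm_nonneg _)
        _ = ‖φ t‖ ^ (P.natDegree + 1) := by rw [pow_succ]
        _ ≤ _ := pow_le_pow_right₀ hT1.le h0
  have e5 : ‖(m₁ : ℂ_[p])‖ * ‖φ t‖ ^ B.natDegree ≤ ‖φ (aeval t B : ℂ)‖ := by
    rw [e1]
    exact mul_le_mul_of_nonneg_right e2 (by positivity)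
  have e6 : ‖((m₁ * m₂ * m₁ : ℕ) : ℂ_[p])‖ ≤ ‖(m₁ : ℂ_[p])‖ * ‖(m₂ : ℂ_[p])‖ := by
    refine (Cmp_mul_le _ _).trans ?_
    rw [Nat.cast_mul, norm_mul]
  calc _ ≤ ‖(m₁ : ℂ_[p])‖ * ‖(m₂ : ℂ_[p])‖ *
        (‖φ (aeval t P : ℂ)‖ / ‖φ (aeval t B : ℂ)‖ * ‖φ t‖) :=
        mul_le_mul_of_nonneg_right e6 (by positivity)
    _ = ‖(m₁ : ℂ_[p])‖ * (‖(m₂ : ℂ_[p])‖ * (‖φ (aeval t P : ℂ)‖ * ‖φ t‖)) /
        ‖φ (aeval t B : ℂ)‖ := by
        field_simp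
    _ ≤ 1 := by
        rw [div_le_one hBpos]
        exact (mul_le_mul_of_nonneg_left e3 hp1.le).trans e5

end Pool.Agent.LGO.PA
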