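import Mathlib
import Pool.Agent.LGO.PA.Defs

/-!
# LGO/PA: the functions `bA` on the classes `SL₂(ℤ) \ M_N`

`bA hN A τ = N ^ 12 Δ(A τ) / ((c τ + d) ^ 12 Δ(τ))`.

PROOFS.  Put `J(A, τ) = A₁₀ τ + A₁₁` (not zero).  `J(A B, τ) = J(A, B τ) J(B, τ)` for `A, B` of positive determinant (`coe_act`, a computation
with `(A₁₀ B₀₀ + A₁₁ B₁₀) τ + ...`) and `Δ(γ τ) = J(γ, τ) ^ 12 Δ(τ)` (`disc_smul`, `ModularGroup.denom_apply`; see `BDef_disc_sl` in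
`LGO/U/BDef.lean`).  `bA_smul`: `act_smul`, `Δ(γ (A τ)) = J(γ, A τ) ^ 12 Δ(A τ)`, `J(γ A, τ) = J(γ, A τ) J(A, τ)`.  `bA_rmul`: `act_rmul`,
`J(A γ, τ) = J(A, γ τ) J(γ, τ)`, `Δ(γ τ) = J(γ, τ) ^ 12 Δ(τ)`.
`bA_mdiff`: `ModularForm.discriminant` is holomorphic and has no zeros, `act hN A` is holomorphic (`mdifferentiable_smul`, see `jA_mdiff`), and
`J(A, τ)` is holomorphic without zeros.
`bQ_rQ`: as `jQ_rQ`.
-/

namespace Pool.Agent.LGO.PA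

open Pool.Agent.Hhelper14.ZP Pool.Agent.Hhelper14.ZPL UpperHalfPlane MatrixGroups
open scoped Manifold

variable {N : ℕ}

private theorem BFun_denom (hN : 0 < N) (A : DD N) (τ : ℍ) :
    denom (toGL hN A) τ = (A.1 1 0 : ℂ) * (τ : ℂ) + (A.1 1 1 : ℂ) := by
  simp [denom, toGL_val]

theorem J_ne (hN : 0 < N) (A : DD N) (τ : ℍ) : (A.1 1 0 : ℂ) * (τ : ℂ) + (A.1 1 1 : ℂ) ≠ 0 := by
  rw [← BFun_denom hN A τ]
  exact denom_ne_zero _ _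

private theorem BFun_disc_sl (γ : SL(2, ℤ)) (τ : ℍ) :
    ModularForm.discriminant (γ • τ) =
      ((γ.1 1 0 : ℂ) * (τ : ℂ) + (γ.1 1 1 : ℂ)) ^ 12 * ModularForm.discriminant τ := by
  rw [disc_smul]
  have : denom (γ : GL (Fin 2) ℝ) τ = (γ.1 1 0 : ℂ) * (τ : ℂ) + (γ.1 1 1 : ℂ) := by
    rw [ModularGroup.denom_apply]
  rw [this]
  norm_cast

private theorem BFun_sl_ne (γ : SL(2, ℤ)) (τ : ℍ) :
    (γ.1 1 0 : ℂ) * (τ : ℂ) + (γ.1 1 1 : ℂ) ≠ 0 := by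
  have : denom (γ : GL (Fin 2) ℝ) τ = (γ.1 1 0 : ℂ) * (τ : ℂ) + (γ.1 1 1 : ℂ) := by
    rw [ModularGroup.denom_apply]
  rw [← this]
  exact denom_ne_zero _ _

private theorem BFun_J_smul (hN : 0 < N) (γ : SL(2, ℤ)) (A : DD N) (τ : ℍ) :
    ((γ • A).1 1 0 : ℂ) * (τ : ℂ) + ((γ • A).1 1 1 : ℂ) =
      ((γ.1 1 0 : ℂ) * (act hN A τ : ℂ) + (γ.1 1 1 : ℂ)) *
        ((A.1 1 0 : ℂ) * (τ : ℂ) + (A.1 1 1 : ℂ)) := by
  have h0 := J_ne hN A τ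
  rw [coe_act, FixedDetMatrices.smul_coe]
  simp only [Matrix.mul_apply, Fin.sum_univ_two]
  push_cast
  field_simp
  ring

private theorem BFun_J_rmul (γ : SL(2, ℤ)) (A : DD N) (τ : ℍ) :
    ((rmul A γ).1 1 0 : ℂ) * (τ : ℂ) + ((rmul A γ).1 1 1 : ℂ) =
      ((A.1 1 0 : ℂ) * ((γ • τ : ℍ) : ℂ) + (A.1 1 1 : ℂ)) *
        ((γ.1 1 0 : ℂ) * (τ : ℂ) + (γ.1 1 1 : ℂ)) := by
  have h0 := BFun_sl_ne γ τ
  have h1 : ((γ • τ : ℍ) : ℂ) = ((γ.1 0 0 : ℂ) * (τ : ℂ) + (γ.1 0 1 : ℂ)) /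
      ((γ.1 1 0 : ℂ) * (τ : ℂ) + (γ.1 1 1 : ℂ)) := by
    rw [UpperHalfPlane.specialLinearGroup_apply γ τ]
    simp
  rw [h1, rmul_val]
  simp only [Matrix.mul_apply, Fin.sum_univ_two]
  push_cast
  field_simp
  ring

theorem bA_smul (hN : 0 < N) (γ : SL(2, ℤ)) (A : DD N) : bA hN (γ • A) = bA hN A := by
  funext τ
  rw [bA, bA, act_smul, BFun_disc_sl, BFun_J_smul hN]
  have h0 := J_ne hN A τ
  have h1 := BFun_sl_ne γ (act hN A τ)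
  have h2 := ModularForm.discriminant_ne_zero τ
  field_simp

theorem bA_rmul (hN : 0 < N) (γ : SL(2, ℤ)) (A : DD N) (τ : ℍ) :
    bA hN (rmul A γ) τ = bA hN A (γ • τ) := by
  rw [bA, bA, act_rmul, BFun_disc_sl, BFun_J_rmul]
  have h0 := J_ne hN A (γ • τ)
  have h1 := BFun_sl_ne γ τ
  have h2 := ModularForm.discriminant_ne_zero τ
  field_simp

theorem bA_mdiff (hN : 0 < N) (A : DD N) : MDiff (bA hN A) := by
  have hd : MDiff (ModularForm.discriminant : ℍ → ℂ) := CuspForm.discriminant.holo'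
  have h1 : MDiff (fun τ : ℍ => ModularForm.discriminant (act hN A τ)) :=
    hd.comp (mdifferentiable_smul (toGL_det hN A))
  have hJ : MDiff (fun τ : ℍ => (A.1 1 0 : ℂ) * (τ : ℂ) + (A.1 1 1 : ℂ)) := by
    rw [UpperHalfPlane.mdifferentiable_iff]
    have : DifferentiableOn ℂ (fun z : ℂ => (A.1 1 0 : ℂ) * z + (A.1 1 1 : ℂ)) {z | 0 < z.im} := by
      fun_prop
    refine this.congr fun z hz => ?_
    simp [Function.comp, ofComplex_apply_of_im_pos hz]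
  have hJ2 : MDiff (fun τ : ℍ => ((A.1 1 0 : ℂ) * (τ : ℂ) + (A.1 1 1 : ℂ)) ^ 12) := hJ.pow 12
  have h2 := (mdifferentiable_const (c := (N : ℂ) ^ 12)).mul h1
  exact h2.div (hJ2.mul hd) fun τ =>
    mul_ne_zero (pow_ne_zero _ (J_ne hN A τ)) (ModularForm.discriminant_ne_zero τ)

/-- the function `bA` attached to a class -/
noncomputable def bQ (hN : 0 < N) (q : QQ N) : ℍ → ℂ :=
  Quotient.liftOn' q (bA hN) (by
    rintro A B ⟨γ, rfl⟩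
    exact bA_smul hN γ B)

theorem bQ_mk (hN : 0 < N) (A : DD N) : bQ hN (Quotient.mk'' A) = bA hN A := rfl

theorem bQ_rQ (hN : 0 < N) (γ : SL(2, ℤ)) (q : QQ N) (τ : ℍ) :
    bQ hN (rQ γ q) τ = bQ hN q (γ • τ) := by
  induction q using Quotient.inductionOn' with
  | h A => exact bA_rmul hN γ A τ

end Pool.Agent.LGO.PA
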