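import Mathlib
import Pool.Agent.LGO.PA.Ev

/-!
# LGO/PA: `Δ(q)`, `E₄(q)` and `j(q)` in the open unit disc of `ℂ_[p]`

PROOFS.  `Ds = X + (terms of order at least 2)`: the coefficients `0` and `1` of `Ds` are `0` and `(5 + 7) / 12 = 1`, because `sA`, `sB`
have constant coefficient `0` (`σ k 0 = 0`).  So `‖DP q - q‖ ≤ ‖q‖ ^ 2 < ‖q‖` for `q ≠ 0` (`ev_order` for `Ds - X`) and `‖DP q‖ = ‖q‖`
(also for `q = 0`).  `‖E4P q - 1‖ ≤ ‖q‖` (`ev_order` for `E4s - 1`, `M = 1`), the same for the cube.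
`DP_lip`: `ev_lip`.
`tate_R`: `E4s ^ 3` has constant coefficient `1`, let `I = PowerSeries.invOfUnit (E4s ^ 3) 1` and `R = Ds * I`: `ev R q = DP q / E4P q ^ 3`
(`ev_mul`), which is `(jP q)⁻¹`, and the coefficients `0`, `1` of `R` are `0`, `1`.
`jP_lip`: `R - X` has coefficients `0`, `1` equal to `0`; `‖(ev R q - q) - (ev R q' - q')‖ ≤ ρ ‖q - q'‖` with `ρ = max ‖q‖ ‖q'‖ < 1` (`ev_lip2`),
so `‖ev R q - ev R q'‖ = ‖q - q'‖`.
`jP_surj`: `w = x⁻¹`, `0 < ‖w‖ < 1`.  The map `q ↦ w - (ev R q - q)` maps the closed ball `‖q‖ ≤ ‖w‖` to itself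
(`‖ev (R - X) q‖ ≤ ‖q‖ ^ 2`, `ev_order`) and is a contraction with the constant `‖w‖` (`ev_lip2`).  The ball is complete, the fixed
point (`ContractingWith.exists_fixedPoint'` or the iteration by hand) satisfies `ev R q = w`, so `q ≠ 0` and `jP q = x`.
-/

namespace Pool.Agent.LGO.PA

open PowerSeries

variable {p : ℕ} [Fact p.Prime] {q q' : ℂ_[p]}

private theorem Tate_eq {x y : ℂ_[p]} (h : ‖x - y‖ < ‖y‖) : ‖x‖ = ‖y‖ := by
  have h1 : ‖x + -y‖ < max ‖x‖ ‖-y‖ := by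
    rw [← sub_eq_add_neg, norm_neg]
    exact h.trans_le (le_max_right _ _)
  have h2 := IsUltrametricDist.norm_eq_of_add_norm_lt_max h1
  rwa [norm_neg] at h2

private theorem Tate_sA0 : coeff 0 sA = 0 := by
  rw [sA, coeff_mk, ArithmeticFunction.map_zero, Nat.cast_zero]

private theorem Tate_sB0 : coeff 0 sB = 0 := by
  rw [sB, coeff_mk, ArithmeticFunction.map_zero, Nat.cast_zero]

private theorem Tate_mul0 {A B : ℤ⟦X⟧} (hA : coeff 0 A = 0) : coeff 0 (A * B) = 0 := by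
  rw [coeff_mul]
  simp [hA]

private theorem Tate_mul1 {A B : ℤ⟦X⟧} (hA : coeff 0 A = 0) (hB : coeff 0 B = 0) :
    coeff 1 (A * B) = 0 := by
  rw [coeff_mul]
  rw [show Finset.HasAntidiagonal.antidiagonal (1 : ℕ) = {(0, 1), (1, 0)} from rfl]
  rw [Finset.sum_pair (by decide), hA, hB, zero_mul, mul_zero, add_zero]

private theorem Tate_Ds0 : coeff 0 Ds = 0 := by
  have h1 : coeff 0 (PowerSeries.mk (fun n => (5 * (ArithmeticFunction.sigma 3 n : ℤ) +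
      7 * (ArithmeticFunction.sigma 5 n : ℤ)) / 12)) = 0 := by
    rw [coeff_mk, ArithmeticFunction.map_zero, ArithmeticFunction.map_zero]
    norm_num
  rw [Ds, map_sub, map_add, map_add, h1, coeff_C_mul, coeff_C_mul, coeff_C_mul, pow_succ, pow_succ,
    pow_zero, one_mul, Tate_mul0 Tate_sA0, pow_succ, Tate_mul0 (by
      rw [pow_succ, pow_succ, pow_zero, one_mul]; exact Tate_mul0 Tate_sA0), pow_succ, pow_succ,
    pow_zero, one_mul, Tate_mul0 Tate_sB0]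
  norm_num

private theorem Tate_Ds1 : coeff 1 Ds = 1 := by
  have h1 : coeff 1 (PowerSeries.mk (fun n => (5 * (ArithmeticFunction.sigma 3 n : ℤ) +
      7 * (ArithmeticFunction.sigma 5 n : ℤ)) / 12)) = 1 := by
    rw [coeff_mk, ArithmeticFunction.sigma_one, ArithmeticFunction.sigma_one]
    norm_num
  rw [Ds, map_sub, map_add, map_add, h1, coeff_C_mul, coeff_C_mul, coeff_C_mul, pow_succ, pow_succ,
    pow_zero, one_mul, Tate_mul1 Tate_sA0 Tate_sA0, pow_succ, Tate_mul1 (by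
      rw [pow_succ, pow_succ, pow_zero, one_mul]; exact Tate_mul0 Tate_sA0) Tate_sA0, pow_succ,
    pow_succ, pow_zero, one_mul, Tate_mul1 Tate_sB0 Tate_sB0]
  norm_num

private theorem Tate_E40 : coeff 0 E4s = 1 := by
  rw [E4s, map_add, coeff_C_mul, Tate_sA0, mul_zero, add_zero, coeff_zero_one]

private theorem Tate_E43 : coeff 0 (E4s ^ 3) = 1 := by
  rw [coeff_zero_eq_constantCoeff_apply, map_pow, ← coeff_zero_eq_constantCoeff_apply, Tate_E40,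
    one_pow]

private theorem Tate_DX (hq : ‖q‖ < 1) : ‖DP q - q‖ ≤ ‖q‖ ^ 2 := by
  have h1 : DP q - q = ev (Int.castRingHom ℂ_[p]) (Ds - X) q := by
    rw [ev_sub castHom_norm_le hq, ev_X]
    rfl
  rw [h1]
  refine ev_order castHom_norm_le hq _ 2 ?_
  intro n hn
  interval_cases n
  · rw [map_sub, Tate_Ds0, coeff_zero_X, sub_zero]
  · rw [map_sub, Tate_Ds1, coeff_one_X, sub_self]

theorem DP_norm (hq : ‖q‖ < 1) : ‖DP q‖ = ‖q‖ := by
  have h1 := Tate_DX hq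
  by_cases h0 : q = 0
  · subst h0
    rw [sub_zero, norm_zero] at h1
    rw [norm_zero]
    refine le_antisymm ?_ (norm_nonneg _)
    simpa using h1
  · have h2 : 0 < ‖q‖ := norm_pos_iff.mpr h0
    refine Tate_eq (h1.trans_lt ?_)
    nlinarith

theorem DP_ne (hq0 : 0 < ‖q‖) (hq : ‖q‖ < 1) : DP q ≠ 0 := by
  intro h
  have h1 := DP_norm hq
  rw [h, norm_zero] at h1
  linarith

theorem DP_lip (hq : ‖q‖ < 1) (hq' : ‖q'‖ < 1) : ‖DP q - DP q'‖ ≤ ‖q - q'‖ :=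
  ev_lip castHom_norm_le hq hq' Ds

theorem E4P_norm (hq : ‖q‖ < 1) : ‖E4P q‖ = 1 := by
  have h1 : E4P q - 1 = ev (Int.castRingHom ℂ_[p]) (E4s - 1) q := by
    rw [ev_sub castHom_norm_le hq, ev_one]
    rfl
  have h2 : ‖E4P q - 1‖ ≤ ‖q‖ ^ 1 := by
    rw [h1]
    refine ev_order castHom_norm_le hq _ 1 ?_
    intro n hn
    interval_cases n
    rw [map_sub, Tate_E40, coeff_zero_one, sub_self]
  have h3 : ‖E4P q - 1‖ < ‖(1 : ℂ_[p])‖ := by
    rw [norm_one]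
    rw [pow_one] at h2
    linarith
  rw [Tate_eq h3, norm_one]

theorem E4P_near (hq : ‖q‖ < 1) : ‖E4P q ^ 3 - 1‖ ≤ ‖q‖ := by
  have h1 : E4P q ^ 3 - 1 = ev (Int.castRingHom ℂ_[p]) (E4s ^ 3 - 1) q := by
    rw [ev_sub castHom_norm_le hq, ev_one, ev_pow castHom_norm_le hq]
    rfl
  rw [h1]
  have h2 : ‖ev (Int.castRingHom ℂ_[p]) (E4s ^ 3 - 1) q‖ ≤ ‖q‖ ^ 1 := by
    refine ev_order castHom_norm_le hq _ 1 ?_
    intro n hn
    interval_cases n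
    rw [map_sub, Tate_E43, coeff_zero_one, sub_self]
  rwa [pow_one] at h2

theorem jP_mul (hq0 : 0 < ‖q‖) (hq : ‖q‖ < 1) : jP q * DP q = E4P q ^ 3 := by
  rw [jP, div_mul_cancel₀ _ (DP_ne hq0 hq)]

theorem jP_norm (hq0 : 0 < ‖q‖) (hq : ‖q‖ < 1) : ‖jP q‖ = ‖q‖⁻¹ := by
  rw [jP, norm_div, norm_pow, E4P_norm hq, DP_norm hq, one_pow, one_div]

theorem tate_R : ∃ R : ℤ⟦X⟧, coeff 0 R = 0 ∧ coeff 1 R = 1 ∧
    ∀ (p : ℕ) [Fact p.Prime] (q : ℂ_[p]), ‖q‖ < 1 →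
      ev (Int.castRingHom ℂ_[p]) R q = (jP q)⁻¹ := by
  have hc : constantCoeff (E4s ^ 3) = ((1 : ℤˣ) : ℤ) := by
    rw [← coeff_zero_eq_constantCoeff_apply, Tate_E43, Units.val_one]
  have hI := PowerSeries.mul_invOfUnit (E4s ^ 3) 1 hc
  have hI0 : coeff 0 (PowerSeries.invOfUnit (E4s ^ 3) 1) = 1 := by
    rw [coeff_zero_eq_constantCoeff_apply, PowerSeries.constantCoeff_invOfUnit, inv_one,
      Units.val_one]
  refine ⟨Ds * PowerSeries.invOfUnit (E4s ^ 3) 1, Tate_mul0 Tate_Ds0, ?_, ?_⟩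
  · rw [coeff_mul]
    rw [show Finset.HasAntidiagonal.antidiagonal (1 : ℕ) = {(0, 1), (1, 0)} from rfl]
    rw [Finset.sum_pair (by decide), Tate_Ds0, Tate_Ds1, hI0, zero_mul, one_mul, zero_add]
  · intro p _ q hq
    have h1 : E4P q ^ 3 * ev (Int.castRingHom ℂ_[p]) (PowerSeries.invOfUnit (E4s ^ 3) 1) q = 1 := by
      have h2 := congrArg (fun A => ev (Int.castRingHom ℂ_[p]) A q) hI
      rw [ev_mul castHom_norm_le hq, ev_pow castHom_norm_le hq, ev_one] at h2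
      exact h2
    have h3 : E4P q ^ 3 ≠ 0 := left_ne_zero_of_mul_eq_one h1
    rw [ev_mul castHom_norm_le hq, jP, inv_div, eq_div_iff h3, mul_assoc,
      mul_comm (ev (Int.castRingHom ℂ_[p]) (PowerSeries.invOfUnit (E4s ^ 3) 1) q), h1, mul_one]
    rfl

theorem jP_lip (hq : ‖q‖ < 1) (hq' : ‖q'‖ < 1) : ‖q - q'‖ ≤ ‖(jP q)⁻¹ - (jP q')⁻¹‖ := by
  obtain ⟨R, hR0, hR1, hR⟩ := tate_R
  by_cases h0 : q = q'
  · rw [h0, sub_self, sub_self]
  · have h2 : 0 < ‖q - q'‖ := norm_pos_iff.mpr (sub_ne_zero.mpr h0)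
    have hρ : max ‖q‖ ‖q'‖ < 1 := max_lt hq hq'
    have h3 := ev_lip2 (f := Int.castRingHom ℂ_[p]) castHom_norm_le hρ (le_max_left ‖q‖ ‖q'‖)
      (le_max_right ‖q‖ ‖q'‖) (R - X) (by rw [map_sub, hR1, coeff_one_X, sub_self])
    rw [ev_sub castHom_norm_le hq, ev_sub castHom_norm_le hq', ev_X, ev_X, hR p q hq, hR p q' hq'] at h3
    have h4 : ‖((jP q)⁻¹ - (jP q')⁻¹) - (q - q')‖ < ‖q - q'‖ := by
      have h5 : ((jP q)⁻¹ - (jP q')⁻¹) - (q - q') = (jP q)⁻¹ - q - ((jP q')⁻¹ - q') := by ring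
      rw [h5]
      refine h3.trans_lt ?_
      nlinarith
    exact (Tate_eq h4).ge

theorem jP_surj {x : ℂ_[p]} (hx : 1 < ‖x‖) : ∃ q : ℂ_[p], 0 < ‖q‖ ∧ ‖q‖ < 1 ∧ jP q = x := by
  obtain ⟨R, hR0, hR1, hR⟩ := tate_R
  have hS1 : coeff 1 (R - X) = 0 := by rw [map_sub, hR1, coeff_one_X, sub_self]
  have hS0 : coeff 0 (R - X) = 0 := by rw [map_sub, hR0, coeff_zero_X, sub_self]
  have hx0 : x ≠ 0 := by
    intro h
    rw [h, norm_zero] at hx
    linarith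
  have hw0 : x⁻¹ ≠ 0 := inv_ne_zero hx0
  have hw1 : ‖x⁻¹‖ < 1 := by
    rw [norm_inv]
    exact inv_lt_one_of_one_lt₀ hx
  have hwp : 0 < ‖x⁻¹‖ := norm_pos_iff.mpr hw0
  set S : ℤ⟦X⟧ := R - X with hS
  set T : ℂ_[p] → ℂ_[p] := fun q => x⁻¹ - ev (Int.castRingHom ℂ_[p]) S q with hT
  set B : Set ℂ_[p] := Metric.closedBall 0 ‖x⁻¹‖ with hB
  have hmem : ∀ q : ℂ_[p], q ∈ B ↔ ‖q‖ ≤ ‖x⁻¹‖ := fun q => by
    rw [hB, mem_closedBall_zero_iff]
  have hev : ∀ q : ℂ_[p], ‖q‖ ≤ ‖x⁻¹‖ → ‖ev (Int.castRingHom ℂ_[p]) S q‖ ≤ ‖x⁻¹‖ := by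
    intro q hq
    have hq1 : ‖q‖ < 1 := hq.trans_lt hw1
    have h1 := ev_order (f := Int.castRingHom ℂ_[p]) castHom_norm_le hq1 S 2 (by
      intro n hn
      interval_cases n
      · exact hS0
      · exact hS1)
    refine h1.trans (le_trans ?_ hq)
    have := norm_nonneg q
    nlinarith
  have hmaps : Set.MapsTo T B B := by
    intro q hq
    rw [hmem] at hq ⊢
    have h1 := IsUltrametricDist.norm_add_le_max (x⁻¹) (-ev (Int.castRingHom ℂ_[p]) S q)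
    rw [← sub_eq_add_neg, norm_neg] at h1
    exact h1.trans (max_le le_rfl (hev q hq))
  have hcontr : ContractingWith ‖x⁻¹‖₊ (hmaps.restrict T B B) := by
    refine ⟨?_, ?_⟩
    · rw [← NNReal.coe_lt_coe]
      exact hw1
    · refine LipschitzWith.of_dist_le_mul ?_
      rintro ⟨a, ha⟩ ⟨b, hb⟩
      rw [hmem] at ha hb
      rw [Subtype.dist_eq, Subtype.dist_eq]
      simp only [Set.MapsTo.val_restrict_apply, hT]
      rw [dist_eq_norm, dist_eq_norm, coe_nnnorm]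
      have h1 := ev_lip2 (f := Int.castRingHom ℂ_[p]) castHom_norm_le hw1 hb ha S hS1
      have h2 : x⁻¹ - ev (Int.castRingHom ℂ_[p]) S a - (x⁻¹ - ev (Int.castRingHom ℂ_[p]) S b) =
          ev (Int.castRingHom ℂ_[p]) S b - ev (Int.castRingHom ℂ_[p]) S a := by ring
      rw [h2, norm_sub_rev a b]
      exact h1
  obtain ⟨q, hqB, hfix, -, -⟩ := hcontr.exists_fixedPoint' (Metric.isClosed_closedBall.isComplete)
    hmaps (x := 0) (by rw [hmem, norm_zero]; exact hwp.le) (edist_ne_top _ _)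
  rw [hmem] at hqB
  have hq1 : ‖q‖ < 1 := hqB.trans_lt hw1
  have h1 : x⁻¹ - ev (Int.castRingHom ℂ_[p]) S q = q := hfix
  have h2 : ev (Int.castRingHom ℂ_[p]) S q = ev (Int.castRingHom ℂ_[p]) R q - q := by
    rw [hS, ev_sub castHom_norm_le hq1, ev_X]
  rw [h2, hR p q hq1] at h1
  have h3 : x⁻¹ = (jP q)⁻¹ := by
    have h4 : x⁻¹ = x⁻¹ - ((jP q)⁻¹ - q) - q + (jP q)⁻¹ := by ring
    rw [h4, h1, sub_self, zero_add]
  have hq0 : q ≠ 0 := by
    intro h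
    have h5 := hR p q hq1
    rw [h, ev_at_zero, hR0, map_zero] at h5
    rw [h, ← h5] at h3
    exact hw0 h3
  exact ⟨q, norm_pos_iff.mpr hq0, hq1, (inv_injective h3).symm⟩

end Pool.Agent.LGO.PA
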