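import Mathlib
import Pool.Agent.LGO.PA.Tate
import Pool.Agent.LGO.PA.Crit

/-!
# LGO/PA: the same power series over `ℂ` and over `ℂ_[p]`

`EvAt φ r F y`: `F(z) = ∑ a_n zⁿ` on the complex unit disc, `a_n` algebraic integers, and `y = ∑ φ(a_n) rⁿ` in `ℂ_[p]`.

PROOFS.  `EvAt.unique`: `F` and `G` are continuous at `0` (`hasFPowerSeriesOnBall_of_hasSum`, `Hhelper14/ZP/Disc.lean`) and equal on the punctured
disc, so `F = G` on the disc and the coefficients are the same (`coeff_unique`), so the sums in `ℂ_[p]` are equal (`HasSum.unique`).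
`EvAt.add`, `EvAt.mul`, `EvAt.const`, `EvAt.id`, `EvAt.comp`: the coefficients are those in the proofs of `Good.add`, `Good.mul`, `Good.const`, `Good.id`,
`Good.comp_mul`, `Good.comp_pow` (same file); the same computation in `ℂ_[p]` (`‖sO φ a‖ ≤ 1`, `sO_norm_le`, and `‖r‖ < 1`: absolutely
convergent; for `EvAt.mul` the Cauchy product).  `EvAt.good`: the series in `ℂ_[p]` converges.
`evAt_int`: `a_n` = the integer `coeff n A`.
`evAt_E4`, `evAt_D`: `hasSum_serA`, `hasSum_serB` (`Hhelper14/ZP/JFun.lean`), `good_mix` (its proof gives the coefficients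
`(5 σ₃(n) + 7 σ₅(n)) / 12`), and `EvAt.add`, `EvAt.mul`, ...; `DP`, `E4P` are the values of the same combinations (`ev_add`, `ev_mul`, `ev_C`).
-/

namespace Pool.Agent.LGO.PA

open PowerSeries Pool.Agent.Hhelper14.ZP Pool.Agent.Hhelper14.ZPL

variable {p : ℕ} [Fact p.Prime] {φ : ℂ →+* ℂ_[p]} {r : ℂ_[p]} {F G : ℂ → ℂ} {y y' : ℂ_[p]}

private theorem EvAt_sn (hr : ‖r‖ < 1) (a : ℕ → OO) : Summable (fun n => ‖sO φ (a n) * r ^ n‖) := by
  refine Summable.of_nonneg_of_le (fun n => norm_nonneg _) (fun n => ?_)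
    (summable_geometric_of_lt_one (norm_nonneg r) hr)
  rw [norm_mul, norm_pow]
  exact mul_le_of_le_one_left (pow_nonneg (norm_nonneg r) n) (sO_norm_le φ (a n))

private theorem EvAt_s (hr : ‖r‖ < 1) (a : ℕ → OO) : Summable (fun n => sO φ (a n) * r ^ n) :=
  (EvAt_sn hr a).of_norm

private theorem EvAt_eq {f g : ℕ → ℂ_[p]} {a : ℂ_[p]} (h : HasSum f a) (hfg : ∀ n, g n = f n) :
    HasSum g a := by
  rwa [show g = f from funext hfg]

private theorem EvAt_gd (h : EvAt φ r F y) : Good OO F := by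
  obtain ⟨a, ha, -⟩ := h
  exact ⟨fun n => (a n : ℂ), fun n => (a n).2, ha⟩

theorem EvAt.unique (h : EvAt φ r F y) (h' : EvAt φ r G y')
    (hFG : ∀ z : ℂ, ‖z‖ < 1 → z ≠ 0 → F z = G z) : y = y' := by
  have cF := (EvAt_gd h).continuousAt_zero
  have cG := (EvAt_gd h').continuousAt_zero
  have h0 : F 0 = G 0 := by
    have e1 : Filter.Tendsto F (nhdsWithin 0 {0}ᶜ) (nhds (F 0)) :=
      cF.tendsto.mono_left nhdsWithin_le_nhds
    have e2 : Filter.Tendsto G (nhdsWithin 0 {0}ᶜ) (nhds (G 0)) :=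
      cG.tendsto.mono_left nhdsWithin_le_nhds
    refine tendsto_nhds_unique_of_eventuallyEq e1 e2 ?_
    have e3 : ∀ᶠ z : ℂ in nhdsWithin 0 {0}ᶜ, ‖z‖ < 1 := by
      refine nhdsWithin_le_nhds ?_
      filter_upwards [Metric.ball_mem_nhds (0 : ℂ) one_pos] with z hz
      simpa using hz
    filter_upwards [e3, self_mem_nhdsWithin] with z hz1 hz2
    exact hFG z hz1 hz2
  obtain ⟨a, ha, hy⟩ := h
  obtain ⟨b, hb, hy'⟩ := h'
  have hab := coeff_unique (F := F) (a := fun n => (a n : ℂ)) (b := fun n => (b n : ℂ)) ha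
    (fun z hz => by
      rcases eq_or_ne z 0 with rfl | hz0
      · rw [h0]; exact hb 0 hz
      · rw [hFG z hz hz0]; exact hb z hz)
  have hab2 : a = b := funext fun n => Subtype.ext (congrFun hab n)
  subst hab2
  exact hy.unique hy'

theorem EvAt.add (hr : ‖r‖ < 1) (h : EvAt φ r F y) (h' : EvAt φ r G y') :
    EvAt φ r (fun z => F z + G z) (y + y') := by
  obtain ⟨a, ha, hy⟩ := h
  obtain ⟨b, hb, hy'⟩ := h'
  refine ⟨fun n => a n + b n, fun z hz => ?_, ?_⟩
  · refine hasSum_of_eq ((ha z hz).add (hb z hz)) fun n => ?_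
    push_cast
    ring
  · refine EvAt_eq (hy.add hy') fun n => ?_
    rw [map_add]
    ring

theorem EvAt.mul (hr : ‖r‖ < 1) (h : EvAt φ r F y) (h' : EvAt φ r G y') :
    EvAt φ r (fun z => F z * G z) (y * y') := by
  obtain ⟨a, ha, hy⟩ := h
  obtain ⟨b, hb, hy'⟩ := h'
  refine ⟨fun n => ∑ kl ∈ Finset.HasAntidiagonal.antidiagonal n, a kl.1 * b kl.2, fun z hz => ?_, ?_⟩
  · have h1 := (ha z hz).summable.norm
    have h2 := (hb z hz).summable.norm
    have h3 := (summable_norm_sum_mul_antidiagonal_of_summable_norm h1 h2).of_norm.hasSum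
    rw [← tsum_mul_tsum_eq_tsum_sum_antidiagonal_of_summable_norm h1 h2, (ha z hz).tsum_eq,
      (hb z hz).tsum_eq] at h3
    refine hasSum_of_eq h3 fun n => ?_
    push_cast
    rw [Finset.sum_mul]
    refine Finset.sum_congr rfl fun kl hkl => ?_
    rw [← Finset.HasAntidiagonal.mem_antidiagonal.mp hkl, pow_add]
    ring
  · have h1 := EvAt_sn (φ := φ) hr a
    have h2 := EvAt_sn (φ := φ) hr b
    have h3 := (summable_norm_sum_mul_antidiagonal_of_summable_norm h1 h2).of_norm.hasSum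
    rw [← tsum_mul_tsum_eq_tsum_sum_antidiagonal_of_summable_norm h1 h2, hy.tsum_eq,
      hy'.tsum_eq] at h3
    refine EvAt_eq h3 fun n => ?_
    rw [map_sum, Finset.sum_mul]
    refine Finset.sum_congr rfl fun kl hkl => ?_
    rw [← Finset.HasAntidiagonal.mem_antidiagonal.mp hkl, pow_add, map_mul]
    ring

theorem EvAt.const (hr : ‖r‖ < 1) (c : OO) : EvAt φ r (fun _ => (c : ℂ)) (sO φ c) := by
  refine ⟨fun n => if n = 0 then c else 0, fun z _ => ?_, ?_⟩
  · have := hasSum_single (f := fun n : ℕ => (((if n = 0 then c else 0 : OO)) : ℂ) * z ^ n) 0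
      (fun n hn => by simp [hn])
    simpa using this
  · have := hasSum_single (f := fun n : ℕ => sO φ (if n = 0 then c else 0) * r ^ n) 0
      (fun n hn => by simp [hn])
    simpa using this

theorem EvAt.id (hr : ‖r‖ < 1) : EvAt φ r (fun z => z) r := by
  refine ⟨fun n => if n = 1 then 1 else 0, fun z _ => ?_, ?_⟩
  · have := hasSum_single (f := fun n : ℕ => (((if n = 1 then 1 else 0 : OO)) : ℂ) * z ^ n) 1
      (fun n hn => by simp [hn])
    simpa using this
  · have := hasSum_single (f := fun n : ℕ => sO φ (if n = 1 then 1 else 0) * r ^ n) 1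
      (fun n hn => by simp [hn])
    simpa using this

theorem EvAt.pow (hr : ‖r‖ < 1) (h : EvAt φ r F y) (n : ℕ) :
    EvAt φ r (fun z => F z ^ n) (y ^ n) := by
  induction n with
  | zero =>
    have := EvAt.const (φ := φ) hr (1 : OO)
    simpa using this
  | succ n ih =>
    have := EvAt.mul hr ih h
    simpa only [pow_succ] using this

theorem EvAt.comp (hr : ‖r‖ < 1) (c : OO) (hc : ‖(c : ℂ)‖ ≤ 1) {m : ℕ} (hm : 0 < m)
    (h : EvAt φ (sO φ c * r ^ m) F y) : EvAt φ r (fun z => F ((c : ℂ) * z ^ m)) y := by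
  obtain ⟨a, ha, hy⟩ := h
  have hinj : Function.Injective (fun n : ℕ => m * n) := fun x y hxy =>
    Nat.eq_of_mul_eq_mul_left hm hxy
  refine ⟨fun n => if m ∣ n then a (n / m) * c ^ (n / m) else 0, fun z hz => ?_, ?_⟩
  · have h := ha ((c : ℂ) * z ^ m) (by
      rw [norm_mul, norm_pow]
      exact (mul_le_of_le_one_left (pow_nonneg (norm_nonneg z) m) hc).trans_lt
        (pow_lt_one₀ (norm_nonneg z) hz hm.ne'))
    have h2 := hinj.hasSum_iff (f := fun n : ℕ =>
      (((if m ∣ n then a (n / m) * c ^ (n / m) else 0 : OO)) : ℂ) * z ^ n)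
      (a := F ((c : ℂ) * z ^ m)) (fun x hx => by
        rw [if_neg, ZeroMemClass.coe_zero, zero_mul]
        rintro ⟨y, rfl⟩
        exact hx ⟨y, rfl⟩)
    refine h2.mp ?_
    refine hasSum_of_eq h fun n => ?_
    simp only [Function.comp_apply, dvd_mul_right, if_true, Nat.mul_div_cancel_left _ hm, pow_mul,
      mul_pow, MulMemClass.coe_mul, SubmonoidClass.coe_pow]
    ring
  · have h2 := hinj.hasSum_iff (f := fun n : ℕ =>
      sO φ (if m ∣ n then a (n / m) * c ^ (n / m) else 0) * r ^ n)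
      (a := y) (fun x hx => by
        rw [if_neg, map_zero, zero_mul]
        rintro ⟨y, rfl⟩
        exact hx ⟨y, rfl⟩)
    refine h2.mp ?_
    refine EvAt_eq hy fun n => ?_
    simp only [Function.comp_apply, dvd_mul_right, if_true, Nat.mul_div_cancel_left _ hm, pow_mul,
      mul_pow, map_mul, map_pow]
    ring

theorem EvAt.good (hr : ‖r‖ < 1) (h : Good OO F) : ∃ y, EvAt φ r F y := by
  obtain ⟨a, ha, hs⟩ := h
  exact ⟨_, fun n => ⟨a n, ha n⟩, hs, (EvAt_s hr _).hasSum⟩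

theorem evAt_int (hr : ‖r‖ < 1) (A : ℤ⟦X⟧)
    (hF : ∀ z : ℂ, ‖z‖ < 1 → HasSum (fun n => ((coeff n A : ℤ) : ℂ) * z ^ n) (F z)) :
    EvAt φ r F (ev (Int.castRingHom ℂ_[p]) A r) := by
  refine ⟨fun n => ((coeff n A : ℤ) : OO), fun z hz => ?_, ?_⟩
  · refine hasSum_of_eq (hF z hz) fun n => ?_
    push_cast
    rfl
  · refine EvAt_eq (ev_hasSum castHom_norm_le hr A) fun n => ?_
    rw [map_intCast]
    rfl

private theorem EvAt_A (hr : ‖r‖ < 1) : EvAt φ r serA (ev (Int.castRingHom ℂ_[p]) sA r) := by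
  refine evAt_int hr sA fun z hz => ?_
  refine hasSum_of_eq (hasSum_serA hz) fun n => ?_
  rw [sA, coeff_mk]
  push_cast
  rfl

private theorem EvAt_B (hr : ‖r‖ < 1) : EvAt φ r serB (ev (Int.castRingHom ℂ_[p]) sB r) := by
  refine evAt_int hr sB fun z hz => ?_
  refine hasSum_of_eq (hasSum_serB hz) fun n => ?_
  rw [sB, coeff_mk]
  push_cast
  rfl

private theorem EvAt_mix (hr : ‖r‖ < 1) : EvAt φ r (fun z => (5 * serA z + 7 * serB z) / 12)
    (ev (Int.castRingHom ℂ_[p]) (PowerSeries.mk (fun n =>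
      (5 * (ArithmeticFunction.sigma 3 n : ℤ) + 7 * (ArithmeticFunction.sigma 5 n : ℤ)) / 12)) r) := by
  refine evAt_int hr _ fun z hz => ?_
  have h1 := (((hasSum_serA hz).mul_left 5).add ((hasSum_serB hz).mul_left 7)).div_const 12
  refine hasSum_of_eq h1 fun n => ?_
  rw [coeff_mk]
  obtain ⟨m, hm⟩ := twelve_dvd n
  rw [hm, Int.mul_ediv_cancel_left _ (by norm_num)]
  have h2 : (5 * (ArithmeticFunction.sigma 3 n : ℂ) + 7 * (ArithmeticFunction.sigma 5 n : ℂ)) =
      12 * m := by exact_mod_cast hm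
  linear_combination (-(z ^ n) / 12) * h2

theorem evAt_E4 (hr : ‖r‖ < 1) : EvAt φ r (fun z => 1 + 240 * serA z) (E4P r) := by
  refine evAt_int hr E4s fun z hz => ?_
  refine hasSum_of_eq ((hasSum_one z).add ((hasSum_serA hz).mul_left 240)) fun n => ?_
  rw [E4s, sA, map_add, coeff_one, coeff_C_mul, coeff_mk]
  push_cast
  ring

theorem evAt_D (hr : ‖r‖ < 1) : EvAt φ r serDelta (DP r) := by
  have hA := EvAt_A (φ := φ) hr
  have hB := EvAt_B (φ := φ) hr
  have hM := EvAt_mix (φ := φ) hr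
  have h1 := (EvAt.const (φ := φ) hr ((100 : ℤ) : OO)).mul hr (hA.pow hr 2)
  have h2 := (EvAt.const (φ := φ) hr ((8000 : ℤ) : OO)).mul hr (hA.pow hr 3)
  have h3 := (EvAt.const (φ := φ) hr ((-147 : ℤ) : OO)).mul hr (hB.pow hr 2)
  have h4 := ((hM.add hr h1).add hr h2).add hr h3
  have e1 : (fun z => (5 * serA z + 7 * serB z) / 12 + (((100 : ℤ) : OO) : ℂ) * serA z ^ 2 +
      (((8000 : ℤ) : OO) : ℂ) * serA z ^ 3 + (((-147 : ℤ) : OO) : ℂ) * serB z ^ 2) = serDelta := by
    have c1 : ∀ k : ℤ, (((k : ℤ) : OO) : ℂ) = (k : ℂ) := fun k => rfl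
    funext z
    rw [serDelta, c1, c1, c1]
    norm_num
    ring
  rw [e1] at h4
  refine (congrArg (EvAt φ r serDelta) ?_).mp h4
  symm
  rw [DP, Ds]
  have c0 : ∀ n, ‖Int.castRingHom ℂ_[p] n‖ ≤ 1 := castHom_norm_le
  rw [ev_sub c0 hr, ev_add c0 hr, ev_add c0 hr, ev_mul c0 hr, ev_mul c0 hr, ev_mul c0 hr,
    ev_pow c0 hr, ev_pow c0 hr, ev_pow c0 hr, ev_C, ev_C, ev_C, map_intCast, map_intCast, map_intCast]
  simp only [eq_intCast]
  push_cast
  ring

end Pool.Agent.LGO.PA
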