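import Mathlib
import Pool.Agent.LGO.PA.EvAt

/-!
# LGO/PA: `p`-adic values of functions on the upper half plane

`EvR N φ r f y`: `f(τ) q_N ^ K = F(q_N)` and `y r ^ K = F(r)` in the sense of `EvAt`; `0 < ‖r‖ < 1`, `N > 0`.

PROOFS.  Every `z` with `0 < ‖z‖ < 1` is `qN N τ` for some `τ` (as `exists_qParam`).  `EvR.unique`: for `(K, F)` and `(K', F')` the functions
`F(z) z ^ K'` and `F'(z) z ^ K` agree for `0 < ‖z‖ < 1`; `EvAt.unique`, `EvAt.mul`, `EvAt.id`, `EvAt.pow`: `y r ^ K r ^ K' = y' r ^ K' r ^ K`.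
`EvR.add`, `EvR.mul`, `EvR.const`: as `HasQ.add`, `HasQ.mul`, `HasQ.const` (`Hhelper14/ZP/Integral.lean`).  `EvR.prod`: induction.  `EvR.poly`: induction on
the polynomial.  `EvR.exists`: `f ∈ RR N` gives `K` and `F` with `Good OO F`, `EvAt.good`; divide by `r ^ K`.
-/

namespace Pool.Agent.LGO.PA

open Pool.Agent.Hhelper14.ZP Pool.Agent.Hhelper14.ZPL UpperHalfPlane Polynomial

variable {p : ℕ} [Fact p.Prime] {φ : ℂ →+* ℂ_[p]} {r : ℂ_[p]} {N : ℕ} {f g : ℍ → ℂ}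
  {y y' : ℂ_[p]}

/-- every point of the punctured disc is a value of `q_N` -/
private theorem EvR_exists_qN (hN : 0 < N) {z : ℂ} (hz : ‖z‖ < 1) (hz0 : z ≠ 0) :
    ∃ τ : ℍ, qN N τ = z := by
  have hN' : (0 : ℝ) < (N : ℝ) := by exact_mod_cast hN
  exact ⟨⟨Function.Periodic.invQParam N z,
    Function.Periodic.im_invQParam_pos_of_norm_lt_one hN' hz hz0⟩,
    Function.Periodic.qParam_right_inv hN'.ne' hz0⟩

private theorem EvR_val {F : ℂ → ℂ} {x x' : ℂ_[p]} (h : EvAt φ r F x) (e : x = x') :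
    EvAt φ r F x' := e ▸ h

theorem EvR.unique (hN : 0 < N) (hr0 : 0 < ‖r‖) (hr : ‖r‖ < 1) (h : EvR N φ r f y)
    (h' : EvR N φ r f y') : y = y' := by
  obtain ⟨K, F, hF, hf⟩ := h
  obtain ⟨L, G, hG, hg⟩ := h'
  have hr1 : r ≠ 0 := norm_pos_iff.mp hr0
  have h1 := hF.mul hr ((EvAt.id (φ := φ) hr).pow hr L)
  have h2 := hG.mul hr ((EvAt.id (φ := φ) hr).pow hr K)
  have h3 := h1.unique h2 fun z hz hz0 => by
    obtain ⟨τ, rfl⟩ := EvR_exists_qN hN hz hz0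
    rw [← hf, ← hg]
    ring
  have h4 : r ^ K * r ^ L ≠ 0 := mul_ne_zero (pow_ne_zero K hr1) (pow_ne_zero L hr1)
  refine mul_right_cancel₀ h4 ?_
  linear_combination h3

theorem EvR.add (hr : ‖r‖ < 1) (h : EvR N φ r f y) (h' : EvR N φ r g y') :
    EvR N φ r (fun τ => f τ + g τ) (y + y') := by
  obtain ⟨K, F, hF, hf⟩ := h
  obtain ⟨L, G, hG, hg⟩ := h'
  have h1 := hF.mul hr ((EvAt.id (φ := φ) hr).pow hr L)
  have h2 := hG.mul hr ((EvAt.id (φ := φ) hr).pow hr K)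
  refine ⟨K + L, _, EvR_val (h1.add hr h2) (by ring), fun τ => ?_⟩
  dsimp only
  rw [← hf, ← hg, pow_add]
  ring

theorem EvR.mul (hr : ‖r‖ < 1) (h : EvR N φ r f y) (h' : EvR N φ r g y') :
    EvR N φ r (fun τ => f τ * g τ) (y * y') := by
  obtain ⟨K, F, hF, hf⟩ := h
  obtain ⟨L, G, hG, hg⟩ := h'
  refine ⟨K + L, _, EvR_val (hF.mul hr hG) (by ring), fun τ => ?_⟩
  dsimp only
  rw [← hf, ← hg, pow_add]
  ring

theorem EvR.const (hr : ‖r‖ < 1) (c : OO) : EvR N φ r (fun _ => (c : ℂ)) (sO φ c) :=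
  ⟨0, _, EvR_val (EvAt.const (φ := φ) hr c) (by rw [pow_zero, mul_one]), fun τ => by simp⟩

theorem EvR.natCast (hr : ‖r‖ < 1) (m : ℕ) : EvR N φ r (fun _ => (m : ℂ)) (m : ℂ_[p]) := by
  have h := EvR.const (N := N) (φ := φ) hr (m : OO)
  rw [map_natCast] at h
  exact h

theorem EvR.sub (hr : ‖r‖ < 1) (h : EvR N φ r f y) (h' : EvR N φ r g y') :
    EvR N φ r (fun τ => f τ - g τ) (y - y') := by
  have h1 := EvR.const (N := N) (φ := φ) hr (-1 : OO)
  rw [map_neg, map_one] at h1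
  have h2 := h.add hr (h1.mul hr h')
  have e1 : (fun τ => f τ + ((-1 : OO) : ℂ) * g τ) = fun τ => f τ - g τ := by
    funext τ
    have : ((-1 : OO) : ℂ) = -1 := rfl
    rw [this]
    ring
  have e2 : y + -1 * y' = y - y' := by ring
  rw [e1, e2] at h2
  exact h2

theorem EvR.prod (hr : ‖r‖ < 1) {ι : Type*} (s : Finset ι) (F : ι → ℍ → ℂ) (Y : ι → ℂ_[p])
    (h : ∀ i ∈ s, EvR N φ r (F i) (Y i)) :
    EvR N φ r (fun τ => ∏ i ∈ s, F i τ) (∏ i ∈ s, Y i) := by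
  classical
  induction s using Finset.induction_on with
  | empty => simpa using EvR.natCast (N := N) (φ := φ) hr 1
  | insert a s ha ih =>
    simp only [Finset.prod_insert ha]
    exact (h a (Finset.mem_insert_self a s)).mul hr
      (ih fun i hi => h i (Finset.mem_insert_of_mem hi))

private theorem EvR_pow (hr : ‖r‖ < 1) (h : EvR N φ r g y) (n : ℕ) :
    EvR N φ r (fun τ => g τ ^ n) (y ^ n) := by
  have h1 := EvR.prod hr (Finset.range n) (fun _ => g) (fun _ => y) fun _ _ => h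
  simpa using h1

theorem EvR.poly (hr : ‖r‖ < 1) (P : Polynomial OO) (h : EvR N φ r g y) :
    EvR N φ r (fun τ => P.eval₂ OO.subtype (g τ)) (P.eval₂ (sO φ) y) := by
  induction P using Polynomial.induction_on' with
  | add P Q hP hQ =>
    simp only [eval₂_add]
    exact hP.add hr hQ
  | monomial n a =>
    simp only [eval₂_monomial]
    exact (EvR.const hr a).mul hr (EvR_pow hr h n)

theorem EvR.exists (hr0 : 0 < ‖r‖) (hr : ‖r‖ < 1) (hf : f ∈ RR N) : ∃ y, EvR N φ r f y := by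
  obtain ⟨-, K, -, F, hF, -, hFf⟩ := hf
  obtain ⟨x, hx⟩ := EvAt.good (φ := φ) hr hF
  have hr1 : r ^ K ≠ 0 := pow_ne_zero K (norm_pos_iff.mp hr0)
  exact ⟨x / r ^ K, K, F, EvR_val hx (div_mul_cancel₀ x hr1).symm, hFf⟩

end Pool.Agent.LGO.PA
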