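import Mathlib
import Pool.Agent.LGO.PA.EvR
import Pool.Agent.LGO.PA.BFun

/-!
# LGO/PA: the `p`-adic values of `j` and of the members of the correspondence of degree `N`

`0 < ‖r‖ < 1`, `q = r ^ N`.

PROOFS.  `evR_j`: `exists_J` gives `J` with `Good OO J` and `jInv τ q(τ) = J(q(τ))`, `q(τ) = qN N τ ^ N` (`qN_pow`); from
`jInv = E₄ ^ 3 / Δ`, `E4_eq`, `disc_eq` one gets `J(z) serDelta(z) = z (1 + 240 serA z) ^ 3` for `0 < ‖z‖ < 1` (`exists_qParam`).  `EvAt.good`: `EvAt φ (r ^ N) J w`,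
and `EvAt.unique` for the two sides at the point `q = r ^ N` (`evAt_E4`, `evAt_D`): `w DP q = q E4P q ^ 3`, so `w = q jP q` (`DP_ne`).
`EvAt.comp` with `c = 1`, `m = N`: `EvR` with `K = N`.
`exp_rep`, for a representative `B`: `qParam_act'` (`Hhelper14/ZPL/Hecke.lean`): `a, d, c` with `exp (2 π i B τ) = c qN N τ ^ (a ^ 2)`, `IsU c`, `‖c‖ = 1`, and
`B.1 1 0 = 0`, `B.1 1 1 = d`.  `q' = φ(c) r ^ (a ^ 2)`, `‖φ(c)‖ = 1` (`c` and `c⁻¹` are algebraic integers), so `‖q'‖ ^ d = ‖r‖ ^ (a ^ 2 d) = ‖q‖ ^ a`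
(`‖q‖ = ‖r‖ ^ (a d)`).  `jA hN B τ = jInv (B τ)`, `jInv(B τ) c qN ^ (a ^ 2) = J(c qN ^ (a ^ 2))`: as for `evR_j` with `EvAt.comp` (`m = a ^ 2`), the value of
`J(c z ^ (a ^ 2))` is `q' jP q'`, and one multiplies by the constant `c⁻¹` (`K = a ^ 2`).
`bA hN B τ = a ^ 12 Δ(B τ) / Δ(τ)` because `N / d = a`: `Δ(B τ) = serDelta(c qN ^ (a ^ 2))`, `Δ(τ) = serDelta(qN ^ N)`, `serDelta(z) = z D(z)` with
`Good OO D`, `D 0 = 1`, `D z ≠ 0`, so `1 / D` is `Good` (see the proof of `exists_J`): `bA hN B τ qN ^ N = a ^ 12 serDelta(c qN ^ (a ^ 2)) / D(qN ^ N)`, `K = N`, and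
the value `v` of `1 / D(z)` at `q` satisfies `v DP q = q`.
`exp_class`: every class has a representative (`exists_rep`, `jQ_mk`, `bQ_mk`, `jA_smul`, `bA_smul`).  `exp_top`: `B = diag(N, 1)` is in `reps`, `a = N`,
`d = 1`, here `exp (2 π i N τ) = qN ^ (N ^ 2)`, so `c = 1` and `q' = r ^ (N ^ 2) = q ^ N`.
`bQ_mem`: from the expansion above, `bA_mdiff`, as `jQ_mem`.
-/

namespace Pool.Agent.LGO.PA

open Pool.Agent.Hhelper14.ZP Pool.Agent.Hhelper14.ZPL UpperHalfPlane MatrixGroups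

variable {p : ℕ} [Fact p.Prime] {φ : ℂ →+* ℂ_[p]} {r : ℂ_[p]} {N : ℕ}

theorem Exp_ne {x : ℂ_[p]} (h : 0 < ‖x‖) : x ≠ 0 := norm_pos_iff.1 h

theorem Exp_J : ∃ J : ℂ → ℂ, Good OO J ∧ (∀ τ : ℍ, jInv τ * Function.Periodic.qParam 1 τ = J (Function.Periodic.qParam 1 τ)) ∧
    ∀ (p : ℕ) [Fact p.Prime] (φ : ℂ →+* ℂ_[p]) (q : ℂ_[p]), 0 < ‖q‖ → ‖q‖ < 1 → EvAt φ q J (q * jP q) := by
  obtain ⟨J, hJ, -, hJτ⟩ := exists_J
  refine ⟨J, hJ, hJτ, ?_⟩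
  intro p _ φ q hq0 hq
  obtain ⟨y, hy⟩ := EvAt.good (φ := φ) hq hJ
  have h1 := EvAt.mul hq hy (evAt_D (φ := φ) hq)
  have h2 := EvAt.mul hq (EvAt.id (φ := φ) hq) (EvAt.pow hq (evAt_E4 (φ := φ) hq) 3)
  have h3 := EvAt.unique h1 h2 (by
    intro z hz hz0
    obtain ⟨τ, hτ⟩ := exists_qParam hz hz0
    have e1 := hJτ τ
    rw [hτ] at e1
    have e2 := disc_eq τ
    rw [hτ] at e2
    have e3 := E4_eq τ
    rw [hτ] at e3
    have e4 := ModularForm.discriminant_ne_zero τ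
    show J z * serDelta z = z * (1 + 240 * serA z) ^ 3
    rw [← e1, ← e2, ← e3, jInv]
    field_simp)
  have h4 : y = q * jP q := by
    have hD := DP_ne hq0 hq
    rw [jP]
    field_simp
    exact h3
  rw [← h4]
  exact hy

theorem Exp_D : ∃ D : ℂ → ℂ, Good OO D ∧ (∀ z : ℂ, ‖z‖ < 1 → serDelta z * D z = z) ∧
    (∀ z : ℂ, ‖z‖ < 1 → z ≠ 0 → D z ≠ 0) ∧
    ∀ (p : ℕ) [Fact p.Prime] (φ : ℂ →+* ℂ_[p]) (q : ℂ_[p]), 0 < ‖q‖ → ‖q‖ < 1 → EvAt φ q D (q / DP q) := by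
  obtain ⟨D, hD, hDz⟩ := good_serDelta.div_id (by simp [serDelta, serA_zero, serB_zero])
  have hDτ : ∀ τ : ℍ, ModularForm.discriminant τ = Function.Periodic.qParam 1 τ * D (Function.Periodic.qParam 1 τ) :=
    fun τ => by rw [disc_eq, hDz _ (norm_qParam_lt τ)]
  have hq : ∀ τ : ℍ, Function.Periodic.qParam 1 (τ : ℂ) ≠ 0 := fun τ => Function.Periodic.qParam_ne_zero _
  have hD0 : D 0 = 1 := by
    have h1 : Filter.Tendsto (fun τ : ℍ => D (Function.Periodic.qParam 1 τ)) atImInfty (nhds (D 0)) :=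
      hD.continuousAt_zero.tendsto.comp (qParam_tendsto_atImInfty one_pos)
    refine tendsto_nhds_unique h1 (ModularForm.tendsto_atImInfty_tprod_one_sub_eta_q_pow.congr fun τ => ?_)
    have h2 := hDτ τ
    rw [ModularForm.discriminant_eq_q_prod] at h2
    exact mul_left_cancel₀ (hq τ) h2
  have hDne : ∀ z : ℂ, ‖z‖ < 1 → D z ≠ 0 := by
    intro z hz
    rcases eq_or_ne z 0 with rfl | hz0
    · rw [hD0]; exact one_ne_zero
    · obtain ⟨τ, hτ⟩ := exists_qParam hz hz0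
      intro h
      apply ModularForm.discriminant_ne_zero τ
      rw [hDτ, hτ, h, mul_zero]
  have hG := hD.inv hD0 hDne
  refine ⟨fun z => (D z)⁻¹, hG, ?_, fun z hz _ => inv_ne_zero (hDne z hz), ?_⟩
  · intro z hz
    have := hDne z hz
    rw [hDz z hz]
    field_simp
  · intro p _ φ q hq0 hq1
    obtain ⟨v, hv⟩ := EvAt.good (φ := φ) hq1 hG
    have h1 := EvAt.mul hq1 (evAt_D (φ := φ) hq1) hv
    have h2 := EvAt.unique h1 (EvAt.id (φ := φ) hq1) (by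
      intro z hz _
      show serDelta z * (D z)⁻¹ = z
      have := hDne z hz
      rw [hDz z hz]
      field_simp)
    have h3 : v = q / DP q := by
      rw [eq_div_iff (DP_ne hq0 hq1), mul_comm]
      exact h2
    rw [← h3]
    exact hv

theorem Exp_sO_one : sO φ 1 = 1 := map_one _

theorem Exp_pow (hr0 : 0 < ‖r‖) (hr : ‖r‖ < 1) {m : ℕ} (hm : 0 < m) : 0 < ‖r ^ m‖ ∧ ‖r ^ m‖ < 1 := by
  rw [norm_pow]
  exact ⟨pow_pos hr0 m, pow_lt_one₀ hr0.le hr hm.ne'⟩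

theorem evR_j (hN : 0 < N) (hr0 : 0 < ‖r‖) (hr : ‖r‖ < 1) : EvR N φ r jInv (jP (r ^ N)) := by
  obtain ⟨J, hJ, hJτ, hJe⟩ := Exp_J
  obtain ⟨hq0, hq⟩ := Exp_pow hr0 hr hN
  have h1 := hJe p φ (r ^ N) hq0 hq
  refine ⟨N, fun z => J (((1 : OO) : ℂ) * z ^ N), ?_, ?_⟩
  · apply EvAt.comp hr 1 (by simp) hN
    rw [Exp_sO_one, one_mul, mul_comm]
    exact h1
  · intro τ
    show jInv τ * qN N τ ^ N = J (((1 : OO) : ℂ) * qN N τ ^ N)
    rw [qN_pow hN, hJτ]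
    simp

/-- the expansion of `bA` for an upper triangular matrix -/
theorem Exp_b (hN : 0 < N) (B : DD N) {a d : ℕ} {c : ℂ} (hd : 0 < d) (had : a * d = N)
    (h10 : B.1 1 0 = 0) (h11 : B.1 1 1 = (d : ℤ))
    (hq : ∀ τ : ℍ, Function.Periodic.qParam 1 (act hN B τ : ℂ) = c * qN N τ ^ (a ^ 2)) {D : ℂ → ℂ}
    (hD : ∀ z : ℂ, ‖z‖ < 1 → serDelta z * D z = z) (τ : ℍ) :
    bA hN B τ * qN N τ ^ N = (a : ℂ) ^ 12 * serDelta (c * qN N τ ^ (a ^ 2)) * D (qN N τ ^ N) := by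
  have hd' : (d : ℂ) ≠ 0 := by exact_mod_cast hd.ne'
  have hN' : (N : ℂ) = a * d := by rw [← had]; push_cast; ring
  have e1 : ModularForm.discriminant (act hN B τ) = serDelta (c * qN N τ ^ (a ^ 2)) := by
    rw [disc_eq, hq]
  have e2 : ModularForm.discriminant τ = serDelta (qN N τ ^ N) := by
    rw [disc_eq, qN_pow hN]
  have e3 := ModularForm.discriminant_ne_zero τ
  have e4 : ‖qN N τ ^ N‖ < 1 := by
    rw [qN_pow hN]
    exact norm_qParam_lt τ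
  have e5 := hD _ e4
  rw [bA, h10, h11, e1, hN']
  rw [e2] at e3 ⊢
  generalize serDelta (qN N τ ^ N) = x at e3 e5 ⊢
  have e6 : D (qN N τ ^ N) = qN N τ ^ N / x := by
    rw [eq_div_iff e3, mul_comm]
    exact e5
  rw [e6]
  push_cast
  rw [zero_mul, zero_add]
  field_simp

theorem Exp_sO_norm {c : OO} {c' : OO} (h : c * c' = 1) : ‖sO φ c‖ = 1 := by
  have h1 := sO_norm_le φ c
  have h2 := sO_norm_le φ c'
  have h3 : ‖sO φ c‖ * ‖sO φ c'‖ = 1 := by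
    rw [← norm_mul, ← map_mul, h, map_one, norm_one]
  have h4 := norm_nonneg (sO φ c)
  nlinarith

/-- values for an upper triangular matrix -/
theorem Exp_rep (hN : 0 < N) (hr0 : 0 < ‖r‖) (hr : ‖r‖ < 1) (B : DD N) {a d : ℕ} {c : ℂ} (ha : 0 < a) (hd : 0 < d)
    (had : a * d = N) (h10 : B.1 1 0 = 0) (h11 : B.1 1 1 = (d : ℤ)) (hc : IsU c) (hc1 : ‖c‖ = 1)
    (hq : ∀ τ : ℍ, Function.Periodic.qParam 1 (act hN B τ : ℂ) = c * qN N τ ^ (a ^ 2)) :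
    ‖sO φ ⟨c, hc.2.1⟩‖ = 1 ∧ EvR N φ r (jA hN B) (jP (sO φ ⟨c, hc.2.1⟩ * r ^ (a ^ 2))) ∧
      EvR N φ r (bA hN B) ((a : ℂ_[p]) ^ 12 * DP (sO φ ⟨c, hc.2.1⟩ * r ^ (a ^ 2)) / DP (r ^ N)) := by
  set cO : OO := ⟨c, hc.2.1⟩ with hcO
  set cI : OO := ⟨c⁻¹, hc.2.2⟩ with hcI
  have hcc : cO * cI = 1 := Subtype.ext (mul_inv_cancel₀ hc.1)
  have hn : ‖sO φ cO‖ = 1 := Exp_sO_norm hcc
  have ha2 : 0 < a ^ 2 := by positivity
  obtain ⟨hs0, hs⟩ := Exp_pow hr0 hr ha2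
  set q' : ℂ_[p] := sO φ cO * r ^ (a ^ 2) with hq'
  have hq0' : 0 < ‖q'‖ := by rw [hq', norm_mul, hn, one_mul]; exact hs0
  have hq1' : ‖q'‖ < 1 := by rw [hq', norm_mul, hn, one_mul]; exact hs
  obtain ⟨hq0, hq1⟩ := Exp_pow hr0 hr hN
  obtain ⟨J, hJ, hJτ, hJe⟩ := Exp_J
  obtain ⟨D, hD, hDm, -, hDe⟩ := Exp_D
  have hcle : ‖(cO : ℂ)‖ ≤ 1 := hc1.le
  refine ⟨hn, ?_, ?_⟩
  · refine ⟨a ^ 2, fun z => ((cI : OO) : ℂ) * J ((cO : ℂ) * z ^ (a ^ 2)), ?_, ?_⟩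
    · have h1 := EvAt.comp hr cO hcle ha2 (hJe p φ q' hq0' hq1')
      have h2 := EvAt.mul hr (EvAt.const (φ := φ) hr cI) h1
      have e : sO φ cI * (q' * jP q') = jP q' * r ^ (a ^ 2) := by
        have e1 : sO φ cI * sO φ cO = 1 := by
          rw [← map_mul, mul_comm, hcc, map_one]
        rw [show sO φ cI * (q' * jP q') = (sO φ cI * sO φ cO) * (r ^ (a ^ 2) * jP q') by rw [hq']; ring, e1]
        ring
      rw [e] at h2
      exact h2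
    · intro τ
      have h1 := hJτ (act hN B τ)
      rw [hq τ] at h1
      show jA hN B τ * qN N τ ^ (a ^ 2) = c⁻¹ * J (c * qN N τ ^ (a ^ 2))
      rw [← h1, jA]
      have := hc.1
      field_simp
  · refine ⟨N, fun z => ((((a : OO) ^ 12 : OO) : ℂ) * serDelta ((cO : ℂ) * z ^ (a ^ 2))) *
      D (((1 : OO) : ℂ) * z ^ N), ?_, ?_⟩
    · have h1 := EvAt.comp hr cO hcle ha2 (evAt_D (φ := φ) hq1')
      have h2 : EvAt φ r (fun z => D (((1 : OO) : ℂ) * z ^ N)) (r ^ N / DP (r ^ N)) := by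
        apply EvAt.comp hr 1 (by simp) hN
        rw [Exp_sO_one, one_mul]
        exact hDe p φ (r ^ N) hq0 hq1
      have h3 := EvAt.mul hr (EvAt.mul hr (EvAt.const (φ := φ) hr ((a : OO) ^ 12)) h1) h2
      have e : sO φ ((a : OO) ^ 12) * DP q' * (r ^ N / DP (r ^ N)) =
          (a : ℂ_[p]) ^ 12 * DP q' / DP (r ^ N) * r ^ N := by
        rw [map_pow, map_natCast]
        ring
      rw [e] at h3
      exact h3
    · intro τ
      rw [Exp_b hN B hd had h10 h11 hq hDm τ]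
      simp [hcO]

theorem bQ_mem (hN : 0 < N) (κ : QQ N) : bQ hN κ ∈ RR N := by
  induction κ using Quotient.inductionOn' with
  | h A =>
    obtain ⟨B, hB, γ, rfl⟩ := exists_rep hN A
    rw [bQ_mk, bA_smul]
    obtain ⟨a, d, c, ha, hd, had, h00, h11, hc, hc1, hq⟩ := Hhelper14.ZPL.qParam_act' hN hB
    obtain ⟨D, hD, hDm, -, -⟩ := Exp_D
    have h10 : B.1 1 0 = 0 := hB.1
    have ha2 : 0 < a ^ 2 := by positivity
    refine ⟨bA_mdiff hN B, N, _, fun z => (a : ℂ) ^ 12 * serDelta (c * z ^ (a ^ 2)) * D (z ^ N), ?_, rfl, fun τ => ?_⟩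
    · have h1 : Good OO (fun z => serDelta (c * z)) := good_serDelta.comp_mul hc.2.1 hc1.le
      exact ((h1.comp_pow ha2).const_mul (OO.pow_mem (natCast_mem_OO a) 12)).mul (hD.comp_pow hN)
    · exact Exp_b hN B hd had h10 h11 hq hDm τ

theorem exp_class (hN : 0 < N) (hr0 : 0 < ‖r‖) (hr : ‖r‖ < 1) (κ : QQ N) :
    ∃ (a d : ℕ) (q' : ℂ_[p]), 0 < a ∧ 0 < d ∧ a * d = N ∧ 0 < ‖q'‖ ∧ ‖q'‖ < 1 ∧
      ‖q'‖ ^ d = ‖r ^ N‖ ^ a ∧ EvR N φ r (jQ hN κ) (jP q') ∧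
      EvR N φ r (bQ hN κ) ((a : ℂ_[p]) ^ 12 * DP q' / DP (r ^ N)) := by
  induction κ using Quotient.inductionOn' with
  | h A =>
    obtain ⟨B, hB, γ, rfl⟩ := exists_rep hN A
    rw [bQ_mk, bA_smul, jQ_mk, jA_smul]
    obtain ⟨a, d, c, ha, hd, had, h00, h11, hc, hc1, hq⟩ := Hhelper14.ZPL.qParam_act' hN hB
    obtain ⟨h1, h2, h3⟩ := Exp_rep (φ := φ) hN hr0 hr B ha hd had hB.1 h11 hc hc1 hq
    have ha2 : 0 < a ^ 2 := by positivity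
    obtain ⟨hs0, hs⟩ := Exp_pow hr0 hr ha2
    refine ⟨a, d, _, ha, hd, had, ?_, ?_, ?_, h2, h3⟩
    · rw [norm_mul, h1, one_mul]
      exact hs0
    · rw [norm_mul, h1, one_mul]
      exact hs
    · rw [norm_mul, h1, one_mul, norm_pow, norm_pow, ← pow_mul, ← pow_mul, ← had]
      congr 1
      ring

theorem exp_top (hN : 0 < N) (hr0 : 0 < ‖r‖) (hr : ‖r‖ < 1) :
    ∃ κ : QQ N, EvR N φ r (jQ hN κ) (jP ((r ^ N) ^ N)) ∧
      EvR N φ r (bQ hN κ) ((N : ℂ_[p]) ^ 12 * DP ((r ^ N) ^ N) / DP (r ^ N)) := by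
  have hN' : (N : ℂ) ≠ 0 := by exact_mod_cast hN.ne'
  have hq : ∀ τ : ℍ, Function.Periodic.qParam 1 (act hN (BN N) τ : ℂ) = 1 * qN N τ ^ (N ^ 2) := by
    intro τ
    rw [one_mul, coe_act]
    simp only [BN, Function.Periodic.qParam, qN]
    rw [← Complex.exp_nat_mul]
    congr 1
    simp only [Matrix.of_apply, Matrix.cons_val', Matrix.cons_val_zero, Matrix.cons_val_one, Matrix.cons_val_fin_one]
    push_cast
    field_simp
    simp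
  obtain ⟨-, h2, h3⟩ := Exp_rep (φ := φ) hN hr0 hr (BN N) hN one_pos (mul_one N) rfl rfl IsU.one norm_one hq
  have e : sO φ ⟨(1 : ℂ), IsU.one.2.1⟩ * r ^ (N ^ 2) = (r ^ N) ^ N := by
    have : (⟨(1 : ℂ), IsU.one.2.1⟩ : OO) = 1 := rfl
    rw [this, Exp_sO_one, one_mul, ← pow_mul, pow_two]
  rw [e] at h2 h3
  exact ⟨Quotient.mk'' (BN N), h2, h3⟩

end Pool.Agent.LGO.PA
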