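import Mathlib
import Pool.Agent.LGO.PA.EvR
import Pool.Agent.LGO.PA.BFun

/-!
# LGO/PA: the symmetric functions of the members of a correspondence, over `ℂ` and over `ℂ_[p]`

`f κ`, `κ ∈ QQ N`, are functions in `RR N` permuted by `SL₂(ℤ)`; `φ(j(τ₀))` is the value `w` of `jInv` at `r`.

PROOFS.  `sym`: let `m ∈ ℕ`.  The function `g(τ) = ∏_κ (m - f κ τ)` is invariant and lies in `RR N`: `g = Q ∘ j` with `Q ∈ OO[X]`.  By `EvR.prod`, `EvR.sub`,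
`EvR.natCast`, `EvR.poly` and `EvR.unique`: `∏_κ (m - y κ) = Q^φ(w)`, `w = φ x`, `x = j(τ₀)`, and `Q^φ(φ x) = φ(Q(x)) = φ(∏_κ (m - f κ τ₀)) = ∏_κ (m - φ (f κ τ₀))`.  So the
polynomials `∏ (X - C (y κ))` and `∏ (X - C (φ (f κ τ₀)))` agree at all natural numbers `m` (infinitely many points of `ℂ_[p]`, characteristic
zero): they are equal (`Polynomial.funext`-type, `Polynomial.eq_of_infinite_eval_eq`).
`sym_multiset`: the multisets of roots (`Polynomial.roots_multiset_prod_X_sub_C` or `Polynomial.roots_prod_X_sub_C`).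
-/

namespace Pool.Agent.LGO.PA

open Pool.Agent.Hhelper14.ZP Pool.Agent.Hhelper14.ZPL UpperHalfPlane MatrixGroups Polynomial

variable {p : ℕ} [Fact p.Prime] {φ : ℂ →+* ℂ_[p]} {r : ℂ_[p]} {N : ℕ}

private theorem Sym_key (hN : 0 < N) [Fintype (QQ N)] (hr0 : 0 < ‖r‖) (hr : ‖r‖ < 1)
    (f : QQ N → ℍ → ℂ) (hf : ∀ κ, f κ ∈ RR N)
    (hinv : ∀ (γ : SL(2, ℤ)) (κ : QQ N) (τ : ℍ), f (rQ γ κ) τ = f κ (γ • τ))
    (y : QQ N → ℂ_[p]) (hy : ∀ κ, EvR N φ r (f κ) (y κ)) (τ₀ : ℍ)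
    (hφ : EvR N φ r jInv (φ (jInv τ₀))) (m : ℕ) :
    ∏ κ, ((m : ℂ_[p]) - y κ) = ∏ κ, ((m : ℂ_[p]) - φ (f κ τ₀)) := by
  have hmem : (fun τ : ℍ => ∏ κ, ((m : ℂ) - f κ τ)) ∈ RR N := by
    have h1 : (∏ κ, ((m : RR N) - ⟨f κ, hf κ⟩) : RR N).1 ∈ RR N := Subtype.property _
    have h2 : (∏ κ, ((m : RR N) - ⟨f κ, hf κ⟩) : RR N).1 = (fun τ : ℍ => ∏ κ, ((m : ℂ) - f κ τ)) := by
      funext τ
      have h3 : evalAt N τ (∏ κ, ((m : RR N) - ⟨f κ, hf κ⟩) : RR N) = ∏ κ, ((m : ℂ) - f κ τ) := by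
        rw [map_prod]
        refine Finset.prod_congr rfl fun κ _ => ?_
        rw [map_sub, map_natCast]
        rfl
      exact h3
    rw [h2] at h1
    exact h1
  have hinv' : ∀ (γ : SL(2, ℤ)) (τ : ℍ), (fun τ : ℍ => ∏ κ, ((m : ℂ) - f κ τ)) (γ • τ) =
      (fun τ : ℍ => ∏ κ, ((m : ℂ) - f κ τ)) τ := by
    intro γ τ
    have h := Function.Bijective.prod_comp (rQ_bijective hN γ) (fun κ => ((m : ℂ) - f κ τ))
    dsimp only
    rw [← h]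
    refine Finset.prod_congr rfl fun κ _ => ?_
    rw [hinv]
  obtain ⟨Q, hQ⟩ := exists_poly_of_mem hN hmem hinv'
  have e1 : EvR N φ r (fun τ : ℍ => ∏ κ, ((m : ℂ) - f κ τ)) (∏ κ, ((m : ℂ_[p]) - y κ)) :=
    EvR.prod hr Finset.univ (fun κ τ => (m : ℂ) - f κ τ) (fun κ => (m : ℂ_[p]) - y κ)
      fun κ _ => EvR.sub hr (EvR.natCast hr m) (hy κ)
  have e2 := EvR.poly hr Q hφ
  have e3 : (fun τ : ℍ => ∏ κ, ((m : ℂ) - f κ τ)) =
      fun τ : ℍ => Q.eval₂ OO.subtype (jInv τ) := funext hQ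
  rw [e3] at e1
  have e4 := EvR.unique hN hr0 hr e1 e2
  rw [e4]
  have e5 : Q.eval₂ (sO φ) (φ (jInv τ₀)) = φ (Q.eval₂ OO.subtype (jInv τ₀)) := by
    rw [Polynomial.hom_eval₂]
    rfl
  rw [e5, ← hQ τ₀, map_prod]
  refine Finset.prod_congr rfl fun κ _ => ?_
  rw [map_sub, map_natCast]

theorem sym (hN : 0 < N) [Fintype (QQ N)] (hr0 : 0 < ‖r‖) (hr : ‖r‖ < 1) (f : QQ N → ℍ → ℂ)
    (hf : ∀ κ, f κ ∈ RR N)
    (hinv : ∀ (γ : SL(2, ℤ)) (κ : QQ N) (τ : ℍ), f (rQ γ κ) τ = f κ (γ • τ))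
    (y : QQ N → ℂ_[p]) (hy : ∀ κ, EvR N φ r (f κ) (y κ)) (τ₀ : ℍ)
    (hφ : EvR N φ r jInv (φ (jInv τ₀))) :
    ∏ κ, (X - C (y κ)) = ∏ κ, (X - C (φ (f κ τ₀))) := by
  refine Polynomial.eq_of_infinite_eval_eq _ _ ?_
  refine Set.Infinite.mono ?_ (Set.infinite_range_of_injective
    (Nat.cast_injective : Function.Injective (Nat.cast : ℕ → ℂ_[p])))
  rintro _ ⟨m, rfl⟩
  simp only [Set.mem_ofPred_eq, Polynomial.eval_prod, Polynomial.eval_sub, Polynomial.eval_X,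
    Polynomial.eval_C]
  exact Sym_key hN hr0 hr f hf hinv y hy τ₀ hφ m

theorem sym_multiset (hN : 0 < N) [Fintype (QQ N)] (hr0 : 0 < ‖r‖) (hr : ‖r‖ < 1)
    (f : QQ N → ℍ → ℂ) (hf : ∀ κ, f κ ∈ RR N)
    (hinv : ∀ (γ : SL(2, ℤ)) (κ : QQ N) (τ : ℍ), f (rQ γ κ) τ = f κ (γ • τ))
    (y : QQ N → ℂ_[p]) (hy : ∀ κ, EvR N φ r (f κ) (y κ)) (τ₀ : ℍ)
    (hφ : EvR N φ r jInv (φ (jInv τ₀))) :
    Multiset.map y Finset.univ.val = Multiset.map (fun κ => φ (f κ τ₀)) Finset.univ.val := by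
  have h := congrArg Polynomial.roots (sym hN hr0 hr f hf hinv y hy τ₀ hφ)
  have h1 : ∀ g : QQ N → ℂ_[p], (∏ κ, (X - C (g κ))).roots =
      Multiset.map g Finset.univ.val := by
    intro g
    have h2 : (∏ κ, (X - C (g κ))) =
        (Multiset.map (fun a => X - C a) (Multiset.map g Finset.univ.val)).prod := by
      rw [Multiset.map_map]
      rfl
    rw [h2, Polynomial.roots_multiset_prod_X_sub_C]
  rw [h1, h1] at h
  exact h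

end Pool.Agent.LGO.PA
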