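import Mathlib
import Pool.Agent.LGO.PA.Exp
import Pool.Agent.LGO.PA.Sym

/-!
# LGO/PA: LINK, the isogenous invariants and the multipliers in `ℂ_[p]`

PROOF.  Choose `r` with `r ^ N = q` (`IsAlgClosed.exists_pow_nat_eq`, `ℂ_[p]` is algebraically closed), `0 < ‖r‖ < 1`.  Put `zj κ = jQ hN κ τ₀`,
`zb κ = bQ hN κ τ₀`.  `exp_class`
gives `yj κ = jP q'_κ`, `yb κ = a ^ 12 DP q'_κ / DP q`.  For `t ∈ ℕ` apply `sym_multiset` to `f κ = jQ κ + t bQ κ` (`jQ_mem`, `jQ_rQ`, `bQ_mem`, `bQ_rQ`, `EvR.add`, `EvR.mul`,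
`EvR.natCast`; `hφ` is `evR_j` because `φ (jInv τ₀) = jP q`): the multisets `{yj κ + t yb κ}` and `{φ(zj κ) + t φ(zb κ)}` are equal.  Choose `t` such that
for all `κ, κ'`: `yj κ + t yb κ = φ(zj κ') + t φ(zb κ')` implies `yj κ = φ(zj κ')` and `yb κ = φ(zb κ')` (for each pair at most one natural number `t`
is excluded: if `yb κ ≠ φ(zb κ')` then `t` is determined, if `yb κ = φ(zb κ')` the implication holds).  So for every `κ'` there is `κ` with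
`(yj κ, yb κ) = (φ(zj κ'), φ(zb κ'))` and conversely.  First part: `κ'` = the class of `A`.  Second part: `κ` from `exp_top`, with
`EvR.unique`; `κ'` is the class of some `A` (`Quotient.inductionOn'`).
-/

namespace Pool.Agent.LGO.PA

open Pool.Agent.Hhelper14.ZP Pool.Agent.Hhelper14.ZPL UpperHalfPlane MatrixGroups

variable {p : ℕ} [Fact p.Prime] {N : ℕ}

private theorem Link_comb {K : Type*} [Field K] [CharZero K] {ι : Type*} [Fintype ι]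
    (u1 u2 v1 v2 : ι → K)
    (h : ∀ t : ℕ, Multiset.map (fun i => u1 i + (t : K) * u2 i) Finset.univ.val =
      Multiset.map (fun i => v1 i + (t : K) * v2 i) Finset.univ.val) :
    (∀ j, ∃ i, u1 i = v1 j ∧ u2 i = v2 j) ∧ (∀ i, ∃ j, u1 i = v1 j ∧ u2 i = v2 j) := by
  classical
  have hfin : Set.Finite (⋃ (i : ι), ⋃ (j : ι), {t : ℕ | ¬ (u1 i = v1 j ∧ u2 i = v2 j) ∧
      u1 i + (t : K) * u2 i = v1 j + (t : K) * v2 j}) := by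
    refine Set.finite_iUnion fun i => Set.finite_iUnion fun j => Set.Subsingleton.finite ?_
    rintro s ⟨hs1, hs2⟩ t ⟨_, ht2⟩
    by_contra hst
    have hst' : (s : K) - (t : K) ≠ 0 := by
      intro h0
      exact hst (by exact_mod_cast sub_eq_zero.mp h0)
    have h1 : ((s : K) - (t : K)) * (u2 i - v2 j) = 0 := by linear_combination hs2 - ht2
    have h2 : u2 i = v2 j := by
      rcases mul_eq_zero.mp h1 with h0 | h0
      · exact absurd h0 hst'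
      · exact sub_eq_zero.mp h0
    refine hs1 ⟨?_, h2⟩
    rw [h2] at hs2
    exact add_right_cancel hs2
  obtain ⟨t, ht⟩ := hfin.exists_notMem
  have ht' : ∀ i j, u1 i + (t : K) * u2 i = v1 j + (t : K) * v2 j →
      (u1 i = v1 j ∧ u2 i = v2 j) := by
    intro i j hij
    by_contra hcon
    exact ht (Set.mem_iUnion.mpr ⟨i, Set.mem_iUnion.mpr ⟨j, hcon, hij⟩⟩)
  refine ⟨fun j => ?_, fun i => ?_⟩
  · have hm : v1 j + (t : K) * v2 j ∈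
        Multiset.map (fun i => v1 i + (t : K) * v2 i) Finset.univ.val :=
      Multiset.mem_map.mpr ⟨j, Finset.mem_univ j, rfl⟩
    rw [← h t] at hm
    obtain ⟨i, -, hi⟩ := Multiset.mem_map.mp hm
    exact ⟨i, ht' i j hi⟩
  · have hm : u1 i + (t : K) * u2 i ∈
        Multiset.map (fun i => u1 i + (t : K) * u2 i) Finset.univ.val :=
      Multiset.mem_map.mpr ⟨i, Finset.mem_univ i, rfl⟩
    rw [h t] at hm
    obtain ⟨j, -, hj⟩ := Multiset.mem_map.mp hm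
    exact ⟨j, ht' i j hj.symm⟩

private theorem Link_root (hN : 0 < N) {q : ℂ_[p]} (hq0 : 0 < ‖q‖) (hq : ‖q‖ < 1) :
    ∃ r : ℂ_[p], r ^ N = q ∧ 0 < ‖r‖ ∧ ‖r‖ < 1 := by
  obtain ⟨r, hr⟩ := IsAlgClosed.exists_pow_nat_eq q hN
  have hn : ‖r‖ ^ N = ‖q‖ := by rw [← norm_pow, hr]
  refine ⟨r, hr, ?_, ?_⟩
  · rcases (norm_nonneg r).eq_or_lt with h0 | h0
    · rw [← h0, zero_pow hN.ne'] at hn
      rw [← hn] at hq0
      exact absurd hq0 (lt_irrefl _)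
    · exact h0
  · by_contra hcon
    push Not at hcon
    have h1 : 1 ≤ ‖r‖ ^ N := one_le_pow₀ hcon
    rw [hn] at h1
    exact absurd hq (not_lt.mpr h1)

private theorem Link_main (hN : 0 < N) (φ : ℂ →+* ℂ_[p]) {r : ℂ_[p]} (hr0 : 0 < ‖r‖)
    (hr : ‖r‖ < 1) (τ₀ : ℍ) (hφ : φ (jInv τ₀) = jP (r ^ N))
    (yj yb : QQ N → ℂ_[p]) (hj : ∀ κ, EvR N φ r (jQ hN κ) (yj κ))
    (hb : ∀ κ, EvR N φ r (bQ hN κ) (yb κ)) :
    (∀ κ', ∃ κ, yj κ = φ (jQ hN κ' τ₀) ∧ yb κ = φ (bQ hN κ' τ₀)) ∧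
    (∀ κ, ∃ κ', yj κ = φ (jQ hN κ' τ₀) ∧ yb κ = φ (bQ hN κ' τ₀)) := by
  have hfi := finite_QQ hN
  have : Fintype (QQ N) := Fintype.ofFinite _
  refine Link_comb yj yb (fun κ => φ (jQ hN κ τ₀)) (fun κ => φ (bQ hN κ τ₀)) fun t => ?_
  have h := sym_multiset (φ := φ) (r := r) hN hr0 hr
    (fun κ τ => jQ hN κ τ + (t : ℂ) * bQ hN κ τ) ?_ ?_
    (fun κ => yj κ + (t : ℂ_[p]) * yb κ) ?_ τ₀ ?_
  · rw [h]
    refine Multiset.map_congr rfl fun κ _ => ?_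
    simp only [map_add, map_mul, map_natCast]
  · intro κ
    have h2 : (fun τ => jQ hN κ τ + (t : ℂ) * bQ hN κ τ) =
        jQ hN κ + (t : ℍ → ℂ) * bQ hN κ := by
      funext τ
      simp
    rw [h2]
    exact (RR N).add_mem (jQ_mem hN κ) ((RR N).mul_mem (natCast_mem (RR N) t) (bQ_mem hN κ))
  · intro γ κ τ
    rw [jQ_rQ, bQ_rQ]
  · intro κ
    exact (hj κ).add hr ((EvR.natCast hr t).mul hr (hb κ))
  · rw [hφ]
    exact evR_j hN hr0 hr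

theorem link (hN : 0 < N) (φ : ℂ →+* ℂ_[p]) {q : ℂ_[p]} (hq0 : 0 < ‖q‖) (hq : ‖q‖ < 1)
    (τ₀ : ℍ) (hφ : φ (jInv τ₀) = jP q) (A : DD N) :
    ∃ (a d : ℕ) (q' : ℂ_[p]), 0 < a ∧ 0 < d ∧ a * d = N ∧ 0 < ‖q'‖ ∧ ‖q'‖ < 1 ∧
      ‖q'‖ ^ d = ‖q‖ ^ a ∧ φ (jA hN A τ₀) = jP q' ∧
      φ (bA hN A τ₀) = (a : ℂ_[p]) ^ 12 * DP q' / DP q := by
  obtain ⟨r, rfl, hr0, hr⟩ := Link_root hN hq0 hq
  choose a d q' h1 h2 h3 h4 h5 h6 h7 h8 using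
    fun κ : QQ N => exp_class (φ := φ) hN hr0 hr κ
  obtain ⟨κ, hκ1, hκ2⟩ := (Link_main hN φ hr0 hr τ₀ hφ _ _ h7 h8).1 (Quotient.mk'' A)
  rw [jQ_mk] at hκ1
  rw [bQ_mk] at hκ2
  exact ⟨a κ, d κ, q' κ, h1 κ, h2 κ, h3 κ, h4 κ, h5 κ, h6 κ, hκ1.symm, hκ2.symm⟩

theorem link_top (hN : 0 < N) (φ : ℂ →+* ℂ_[p]) {q : ℂ_[p]} (hq0 : 0 < ‖q‖) (hq : ‖q‖ < 1)
    (τ₀ : ℍ) (hφ : φ (jInv τ₀) = jP q) :
    ∃ A : DD N, φ (jA hN A τ₀) = jP (q ^ N) ∧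
      φ (bA hN A τ₀) = (N : ℂ_[p]) ^ 12 * DP (q ^ N) / DP q := by
  obtain ⟨r, rfl, hr0, hr⟩ := Link_root hN hq0 hq
  choose a d q' h1 h2 h3 h4 h5 h6 h7 h8 using
    fun κ : QQ N => exp_class (φ := φ) hN hr0 hr κ
  obtain ⟨κ, hκ1, hκ2⟩ := exp_top (φ := φ) hN hr0 hr
  obtain ⟨κ', hκ'1, hκ'2⟩ := (Link_main hN φ hr0 hr τ₀ hφ _ _ h7 h8).2 κ
  rw [EvR.unique hN hr0 hr (h7 κ) hκ1] at hκ'1
  rw [EvR.unique hN hr0 hr (h8 κ) hκ2] at hκ'2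
  induction κ' using Quotient.inductionOn' with
  | h A =>
    rw [jQ_mk] at hκ'1
    rw [bQ_mk] at hκ'2
    exact ⟨A, hκ'1.symm, hκ'2.symm⟩

end Pool.Agent.LGO.PA
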