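import Mathlib
import Pool.Agent.LGO.PA.Crit

/-!
# LGO/PA: a denominator from the norms in all `ℂ_[p]`

PROOF.  `k` the smallest natural number with `k log 2 ≥ G`, `n = m ^ (k + 1)`.  If `p ∣ m` then `‖m ^ k‖ ≤ ‖p‖ ^ k = p ^ (-k) ≤ 2 ^ (-k) ≤ exp (-G)`, so in the second case
`‖φ(n t)‖ ≤ ‖m ^ k‖ ‖φ t‖ ≤ 1`; in the first case `‖φ(n t)‖ ≤ ‖φ(m t)‖ ≤ 1`.  `integral_of_norm_le`.  `n ≤ exp ((k + 1) log m)` and `k + 1 ≤ 2 + G / log 2`.
-/

namespace Pool.Agent.LGO.PA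

theorem den_of (m : ℕ) (hm : 0 < m) : ∃ C : ℝ, 1 ≤ C ∧ ∀ (t : ℂ) (G : ℝ), IsAlgebraic ℚ t →
    0 ≤ G → (∀ (p : ℕ) [Fact p.Prime] (φ : ℂ →+* ℂ_[p]),
      ‖φ ((m : ℂ) * t)‖ ≤ 1 ∨ (p ∣ m ∧ ‖φ t‖ ≤ Real.exp G)) →
    ∃ n : ℕ, 0 < n ∧ (n : ℝ) ≤ Real.exp (C * (1 + G)) ∧ IsIntegral ℤ ((n : ℂ) * t) := by
  have hm1 : (1 : ℝ) ≤ m := by exact_mod_cast hm
  have hlog : 0 ≤ Real.log m := Real.log_nonneg hm1
  refine ⟨1 + 2 * Real.log m, by linarith, fun t G ht hG h => ?_⟩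
  obtain ⟨k, hk⟩ : ∃ k : ℕ, k = ⌈G / Real.log 2⌉₊ := ⟨_, rfl⟩
  have hl2 : 1 / 2 ≤ Real.log 2 := by linarith [Real.log_two_gt_d9]
  have hk1 : G / Real.log 2 ≤ k := hk ▸ Nat.le_ceil _
  have hk2 : (k : ℝ) < G / Real.log 2 + 1 := hk ▸ Nat.ceil_lt_add_one (by positivity)
  have hk3 : G / Real.log 2 ≤ 2 * G := by
    rw [div_le_iff₀ (by linarith)]
    nlinarith
  have hk4 : Real.exp G ≤ 2 ^ k := by
    rw [div_le_iff₀ (by linarith)] at hk1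
    rw [← Real.exp_log (show (0 : ℝ) < 2 by norm_num), ← Real.exp_nat_mul]
    exact Real.exp_le_exp.2 hk1
  refine ⟨m ^ (k + 1), pow_pos hm _, ?_, ?_⟩
  · push_cast
    calc (m : ℝ) ^ (k + 1) = Real.exp (((k + 1 : ℕ) : ℝ) * Real.log m) := by
          rw [Real.exp_nat_mul, Real.exp_log (by linarith)]
      _ ≤ Real.exp ((1 + 2 * Real.log m) * (1 + G)) := by
          refine Real.exp_le_exp.2 ?_
          push_cast
          nlinarith [mul_nonneg hlog hG]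
  · refine integral_of_norm_le ((isAlgebraic_natCast _).mul ht) fun p _ φ => ?_
    push_cast
    rcases h p φ with h1 | ⟨h1, h2⟩
    · have e : (m : ℂ) ^ (k + 1) * t = (m : ℂ) ^ k * ((m : ℂ) * t) := by ring
      rw [e, map_mul, norm_mul, map_pow, norm_pow, map_natCast]
      exact mul_le_one₀ (pow_le_one₀ (norm_nonneg _) (Pool.Agent.Hhelper14.ZP.norm_natCast_le m)) (norm_nonneg _) h1
    · rw [map_mul, norm_mul, map_pow, norm_pow, map_natCast]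
      have h3 : ‖(m : ℂ_[p])‖ ≤ 1 / 2 := by
        obtain ⟨c, rfl⟩ := h1
        have hp : (2 : ℝ) ≤ p := by exact_mod_cast (Fact.out : p.Prime).two_le
        push_cast
        rw [norm_mul, Pool.Agent.Hhelper14.ZP.norm_p_eq]
        calc (p : ℝ)⁻¹ * ‖(c : ℂ_[p])‖ ≤ 2⁻¹ * 1 := by
              gcongr
              exact Pool.Agent.Hhelper14.ZP.norm_natCast_le c
          _ = 1 / 2 := by norm_num
      calc ‖(m : ℂ_[p])‖ ^ (k + 1) * ‖φ t‖ ≤ (1 / 2) ^ (k + 1) * 2 ^ k := by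
            gcongr
            exact h2.trans hk4
        _ = 1 / 2 := by
            rw [pow_succ, div_pow, one_pow]
            field_simp
        _ ≤ 1 := by norm_num

end Pool.Agent.LGO.PA
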