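import Mathlib
import Pool.Agent.LGO.PA.Crit
import Pool.Agent.LGO.U.BInt

/-!
# LGO/PA: the valuation ring of an embedding, and the local form of `BInt`

PROOFS.  `vr φ` is a valuation subring: the norm is multiplicative and nonarchimedean, and `‖φ x‖ ≤ 1` or `‖φ x⁻¹‖ ≤ 1`.
`isog_norm`: `Isog.mem_iff` (`Hhelper14/ZPL/Isog.lean`) for `vr φ`; `IsogDeg N x y` (`τ, τ'`, `g` of determinant `N > 0` with `g τ = τ'`) gives `Isog x y`
(there are already uses of this kind in `LGO`, search for `Isog.mem_iff` or `mem_of_gact`).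
`sol_mem`: the proof of `Sol.isIntegral'` (`LGO/Mul/Int.lean`) is about one valuation subring `V` at a time and uses only that
`g2, g3, h2, h3 ∈ V`: repeat it.
`IsB_mem`: the proof of `IsB.integral` (`LGO/U/BInt.lean`) with a valuation subring `V` in place of integrality over `ℤ`: `a ^ 3 = x`, `b ^ 2 = x - 1728`
lie in `V` (a valuation ring is integrally closed: if `a ∉ V` then `a⁻¹ ∈ V` and `a = x a⁻¹ a⁻¹ ∈ V`), the lattices of discriminant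
`6 ^ 12`, `exists_sol` and `sol_mem`.  (If the lemmas of `BInt.lean` about the models are stated with integrality over `ℤ`, repeat them
with membership in `V`; the lattice part does not change.)
`B_loc`: `IsB_mem` for `vr φ`.
-/

namespace Pool.Agent.LGO.PA

open Polynomial UpperHalfPlane Pool.Agent.Hhelper14.ZP Pool.Agent.Hhelper14.ZPL Pool.Agent.EllSch Pool.Agent.LGO
  Pool.Agent.LGO.U

/-- there is a valuation subring of `ℂ` consisting of the `x` with `‖φ x‖ ≤ 1` -/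
theorem exists_vr {p : ℕ} [Fact p.Prime] (φ : ℂ →+* ℂ_[p]) :
    ∃ V : ValuationSubring ℂ, ∀ x : ℂ, x ∈ V ↔ ‖φ x‖ ≤ 1 := by
  refine ⟨{ carrier := {x : ℂ | ‖φ x‖ ≤ 1}
            mul_mem' := ?_
            one_mem' := ?_
            add_mem' := ?_
            zero_mem' := ?_
            neg_mem' := ?_
            mem_or_inv_mem' := ?_ }, fun x => Iff.rfl⟩
  · intro a b ha hb
    simp only [Set.mem_ofPred_eq, map_mul, norm_mul] at ha hb ⊢
    exact mul_le_one₀ ha (norm_nonneg _) hb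
  · simp
  · intro a b ha hb
    simp only [Set.mem_ofPred_eq, map_add] at ha hb ⊢
    exact (IsUltrametricDist.norm_add_le_max _ _).trans (max_le ha hb)
  · simp
  · intro a ha
    simp only [Set.mem_ofPred_eq, map_neg, norm_neg] at ha ⊢
    exact ha
  · intro x
    show ‖φ x‖ ≤ 1 ∨ ‖φ x⁻¹‖ ≤ 1
    rw [map_inv₀, norm_inv]
    rcases le_total ‖φ x‖ 1 with h | h
    · exact Or.inl h
    · exact Or.inr (inv_le_one_of_one_le₀ h)

theorem Dom_isog_mem (W : ValuationSubring ℂ) {x y : ℂ} (h : ∃ N, 0 < N ∧ IsogDeg N x y) :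
    x ∈ W ↔ y ∈ W := by
  obtain ⟨τ, g, hg, rfl, rfl⟩ := heckeRel_iff.2 h
  exact (gact_mem_iff W hg).symm

theorem isog_norm {p : ℕ} [Fact p.Prime] (φ : ℂ →+* ℂ_[p]) {x y : ℂ}
    (h : ∃ N, 0 < N ∧ IsogDeg N x y) : ‖φ x‖ ≤ 1 ↔ ‖φ y‖ ≤ 1 := by
  obtain ⟨V, hV⟩ := exists_vr φ
  rw [← hV x, ← hV y]
  exact Dom_isog_mem V h

theorem sol_mem (V : ValuationSubring ℂ) {A B : ℂ[X]} {g2 g3 h2 h3 γ : ℂ}
    (h : Sol A B g2 g3 h2 h3 γ) (i2 : g2 ∈ V) (i3 : g3 ∈ V) (j2 : h2 ∈ V) (j3 : h3 ∈ V) :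
    4 * (h2 ^ 3 - 27 * h3 ^ 2) * γ ∈ V := by
  obtain ⟨e1, e2, e3, s1, s2, s3⟩ := Int_roots h2 h3
  obtain ⟨t, ht, hgen⟩ := exists_generic V {B, A - C e1 * B, A - C e2 * B, A - C e3 * B}
  have gB := hgen B (by simp)
  have g1 := hgen (A - C e1 * B) (by simp)
  have g2' := hgen (A - C e2 * B) (by simp)
  have g3' := hgen (A - C e3 * B) (by simp)
  have hne : ∀ e : ℂ, A - C e * B ≠ 0 := by
    intro e h0
    apply h.wron_ne
    have hA : A = C e * B := by linear_combination h0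
    rw [hA, derivative_mul, derivative_C]
    ring
  have hwr : ∀ e : ℂ, derivative (A - C e * B) * B - (A - C e * B) * derivative B =
      derivative A * B - A * derivative B := by
    intro e
    rw [derivative_sub, derivative_mul, derivative_C]
    ring
  have hev : ∀ e : ℂ, (A - C e * B).eval t = A.eval t - e * B.eval t := fun e => by simp
  have hb : B.eval t ≠ 0 := Int_ne V h.den_ne gB
  have w1 := Int_wron_le V ht g1 gB
  have w2 := Int_wron_le V ht g2' gB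
  have w3 := Int_wron_le V ht g3' gB
  have n1 := Int_ne V (hne e1) g1
  have n2 := Int_ne V (hne e2) g2'
  have n3 := Int_ne V (hne e3) g3'
  rw [hwr, hev] at w1 w2 w3
  rw [hev] at n1 n2 n3
  have hode : (4 * t ^ 3 - g2 * t - g3) *
      ((derivative A * B - A * derivative B).eval t) ^ 2 =
      γ * B.eval t * (4 * (A.eval t) ^ 3 - h2 * A.eval t * (B.eval t) ^ 2
        - h3 * (B.eval t) ^ 3) := by
    have := congrArg (Polynomial.eval t) h.ode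
    simpa using this
  have hF : V.valuation (4 * t ^ 3 - g2 * t - g3) ≤ 1 := by
    refine (V.valuation_le_one_iff _).2 (sub_mem (sub_mem (MulMemClass.mul_mem ?_
      (pow_mem ht 3)) (MulMemClass.mul_mem i2 ht)) i3)
    exact_mod_cast intCast_mem V 4
  rcases le_total (V.valuation (A.eval t - e1 * B.eval t))
    (V.valuation (A.eval t - e2 * B.eval t)) with h12 | h12
  · rcases le_total (V.valuation (A.eval t - e1 * B.eval t))
      (V.valuation (A.eval t - e3 * B.eval t)) with h13 | h13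
    · exact Int_core V j2 j3 s1 s2 s3 hF hode hb n1 w1 h12 h13
    · exact Int_core V (e1 := e3) (e2 := e1) (e3 := e2) j2 j3 (by linear_combination s1)
        (by rw [s2]; ring) (by rw [s3]; ring) hF hode hb n3 w3 h13 (h13.trans h12)
  · rcases le_total (V.valuation (A.eval t - e2 * B.eval t))
      (V.valuation (A.eval t - e3 * B.eval t)) with h23 | h23
    · exact Int_core V (e1 := e2) (e2 := e1) (e3 := e3) j2 j3 (by linear_combination s1)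
        (by rw [s2]; ring) (by rw [s3]; ring) hF hode hb n2 w2 h12 h23
    · exact Int_core V (e1 := e3) (e2 := e1) (e3 := e2) j2 j3 (by linear_combination s1)
        (by rw [s2]; ring) (by rw [s3]; ring) hF hode hb n3 w3 (h23.trans h12) h23

/-- a valuation ring is closed under roots -/
theorem Dom_root (V : ValuationSubring ℂ) {a : ℂ} {n : ℕ} (hn : n ≠ 0) (h : a ^ n ∈ V) : a ∈ V := by
  rw [← V.valuation_le_one_iff] at h ⊢
  rw [map_pow] at h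
  by_contra hc
  rw [not_le] at hc
  exact absurd h (not_le.2 (one_lt_pow₀ hc hn))

theorem Dom_model (V : ValuationSubring ℂ) {x : ℂ} (ix : x ∈ V) : ∃ (w : ℂ) (τ : ℍ), w ≠ 0 ∧
    Red (τ : ℂ) ∧ jInv τ = x ∧ G2 w (w * τ) ∈ V ∧ G3 w (w * τ) ∈ V ∧
    G2 w (w * τ) ^ 3 - 27 * G3 w (w * τ) ^ 2 = 6 ^ 12 := by
  obtain ⟨a, ha⟩ := IsAlgClosed.exists_pow_nat_eq x (n := 3) (by norm_num)
  obtain ⟨b, hb⟩ := IsAlgClosed.exists_pow_nat_eq (x - 1728) (n := 2) (by norm_num)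
  have ia : a ∈ V := Dom_root V (n := 3) (by norm_num) (by rw [ha]; exact ix)
  have hn : ∀ n : ℕ, (n : ℂ) ∈ V := fun n => natCast_mem V n
  have ib : b ∈ V := Dom_root V (n := 2) (by norm_num) (by
    rw [hb]
    exact sub_mem ix (by simpa using hn 1728))
  have hd : (108 * a) ^ 3 - 27 * (216 * b) ^ 2 = (6 : ℂ) ^ 12 := by
    linear_combination (1259712 : ℂ) * ha - (1259712 : ℂ) * hb
  have h6 : (6 : ℂ) ^ 12 ≠ 0 := by norm_num
  obtain ⟨w, τ, hw, hred, h2, h3⟩ := exists_lat (g2 := 108 * a) (g3 := 216 * b) (by rw [hd]; exact h6)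
  refine ⟨w, ⟨τ, hred.im_pos⟩, hw, hred, ?_, ?_, ?_, ?_⟩
  · have hj := jInv_mul_w ⟨τ, hred.im_pos⟩ hw
    change jInv _ * (G2 w (w * τ) ^ 3 - 27 * G3 w (w * τ) ^ 2) = 1728 * G2 w (w * τ) ^ 3 at hj
    rw [h2, h3, hd] at hj
    apply mul_right_cancel₀ h6
    rw [hj]
    linear_combination (1728 * 1259712 : ℂ) * ha
  · change G2 w (w * τ) ∈ V
    rw [h2]
    exact MulMemClass.mul_mem (by simpa using hn 108) ia
  · change G3 w (w * τ) ∈ V
    rw [h3]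
    exact MulMemClass.mul_mem (by simpa using hn 216) ib
  · change G2 w (w * τ) ^ 3 - 27 * G3 w (w * τ) ^ 2 = 6 ^ 12
    rw [h2, h3, hd]

theorem Dom_core (V : ValuationSubring ℂ) {w w' τ τ' β : ℂ} {N : ℕ} (hw : w ≠ 0) (hw' : w' ≠ 0)
    (hτ : Red τ) (hτ' : Red τ') (i2 : G2 w (w * τ) ∈ V) (i3 : G3 w (w * τ) ∈ V)
    (j2 : G2 w' (w' * τ') ∈ V) (j3 : G3 w' (w' * τ') ∈ V)
    (hd : G2 w' (w' * τ') ^ 3 - 27 * G3 w' (w' * τ') ^ 2 = 6 ^ 12) (hβ : β ≠ 0) (hN : 0 < N)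
    (hm : LatMap β w (w * τ) w' (w' * τ'))
    (hm' : ∀ y : ℤ × ℤ, ∃ x : ℤ × ℤ, (N : ℂ) * lat w' (w' * τ') y = β * lat w (w * τ) x) :
    (4 * 6 ^ 12) ^ 6 * β ^ 12 ∈ V := by
  obtain ⟨A, Q, hS, -, -⟩ := exists_sol (MulMain.ind_w hw hτ) (MulMain.ind_w hw' hτ') hβ hN hm hm'
  have h := sol_mem V hS i2 i3 j2 j3
  rw [hd] at h
  have e : (4 * 6 ^ 12) ^ 6 * β ^ 12 = (4 * 6 ^ 12 * β ^ 2) ^ 6 := by ring
  rw [e]
  exact pow_mem h 6

theorem IsB_mem (V : ValuationSubring ℂ) {x y B : ℂ} (h : IsB x y B) (hx : NCM x) (ix : x ∈ V)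
    (iy : y ∈ V) : (4 * 6 ^ 12) ^ 6 * B ∈ V ∧
      (4 * 6 ^ 12) ^ 6 * (mdeg x y : ℂ) ^ 12 * B⁻¹ ∈ V := by
  obtain ⟨w, τ, hw, hτ, hj, i2, i3, hd⟩ := Dom_model V ix
  obtain ⟨w', τ', hw', hτ', hj', j2, j3, hd'⟩ := Dom_model V iy
  obtain ⟨g, hdet, hpos, hp, hmap, hB⟩ := h.lat hx hj hj' hw hw'
  have h6 : (6 : ℂ) ^ 12 ≠ 0 := by norm_num
  set N : ℕ := mdeg x y with hNdef
  have hN : 0 < N := by
    have : (0 : ℤ) < (N : ℤ) := by rw [← hdet]; exact hpos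
    exact_mod_cast this
  have hNC : (N : ℂ) ≠ 0 := by exact_mod_cast hN.ne'
  have hne : (g 1 0 : ℂ) * (τ : ℂ) + (g 1 1 : ℂ) ≠ 0 := Gal.den_ne_zero hpos.ne' τ
  set β : ℂ := w * ((g 1 0 : ℂ) * (τ : ℂ) + (g 1 1 : ℂ)) / w' with hβdef
  have hβ : β ≠ 0 := div_ne_zero (mul_ne_zero hw hne) hw'
  have hBβ : B = β ^ 12 := by
    rw [hd, hd'] at hB
    exact mul_right_cancel₀ h6 hB
  obtain ⟨hm, hm'⟩ := BInt_maps (w := w) (w' := w') hw' hdet hmap
  rw [← hβdef] at hm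
  simp only [← hβdef] at hm'
  have dm : LatMap ((N : ℂ) / β) w (w * τ) w' (w' * τ') := by
    intro y
    obtain ⟨x, hx⟩ := hm' y
    refine ⟨x, ?_⟩
    rw [div_mul_eq_mul_div, hx]
    field_simp
  have dm' : ∀ x : ℤ × ℤ, ∃ y : ℤ × ℤ, (N : ℂ) * Pool.Agent.EllSch.lat w' (w' * τ') x =
      (N : ℂ) / β * Pool.Agent.EllSch.lat w (w * τ) y := by
    intro x
    obtain ⟨y, hy⟩ := hm x
    refine ⟨y, ?_⟩
    rw [← hy]
    field_simp
  have c1 := Dom_core V hw' hw hτ' hτ j2 j3 i2 i3 hd hβ hN hm hm'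
  have c2 := Dom_core V hw hw' hτ hτ' i2 i3 j2 j3 hd' (div_ne_zero hNC hβ) hN dm dm'
  constructor
  · rw [hBβ]
    exact c1
  · have e : (4 * 6 ^ 12) ^ 6 * (N : ℂ) ^ 12 * B⁻¹ = (4 * 6 ^ 12) ^ 6 * ((N : ℂ) / β) ^ 12 := by
      rw [hBβ]
      generalize β = b
      ring
    rw [e]
    exact c2

theorem B_loc {p : ℕ} [Fact p.Prime] (φ : ℂ →+* ℂ_[p]) {x y B : ℂ} (h : IsB x y B)
    (hx : NCM x) (ix : ‖φ x‖ ≤ 1) (iy : ‖φ y‖ ≤ 1) :
    ‖((4 * 6 ^ 12) ^ 6 : ℂ_[p])‖ * ‖φ B‖ ≤ 1 ∧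
      ‖((4 * 6 ^ 12) ^ 6 : ℂ_[p])‖ * ‖((mdeg x y : ℕ) : ℂ_[p])‖ ^ 12 ≤ ‖φ B‖ := by
  obtain ⟨V, hV⟩ := exists_vr φ
  obtain ⟨h1, h2⟩ := IsB_mem V h hx ((hV x).2 ix) ((hV y).2 iy)
  rw [hV] at h1 h2
  have e : φ ((4 * 6 ^ 12) ^ 6) = ((4 * 6 ^ 12) ^ 6 : ℂ_[p]) := by
    simp only [map_pow, map_mul, map_ofNat]
  rw [map_mul, e, norm_mul] at h1
  refine ⟨h1, ?_⟩
  have hB0 : B ≠ 0 := h.ne_zero
  have hB1 : 0 < ‖φ B‖ := by
    rw [norm_pos_iff]
    exact (map_ne_zero φ).2 hB0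
  have e2 : φ ((4 * 6 ^ 12) ^ 6 * (mdeg x y : ℂ) ^ 12 * B⁻¹) =
      ((4 * 6 ^ 12) ^ 6 : ℂ_[p]) * ((mdeg x y : ℕ) : ℂ_[p]) ^ 12 * (φ B)⁻¹ := by
    rw [map_mul, map_mul, e, map_pow, map_natCast, map_inv₀]
  rw [e2, norm_mul, norm_mul, norm_inv, norm_pow ((mdeg x y : ℕ) : ℂ_[p])] at h2
  rwa [mul_inv_le_iff₀ hB1, one_mul] at h2

end Pool.Agent.LGO.PA
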