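import Mathlib
import Pool.Agent.LGO.PA.Link
import Pool.Agent.LGO.PA.Dom

/-!
# LGO/PA: the number `B` of a pair of isogenous invariants in `ℂ_[p]`

PROOF.  `linkB`: `IsB x y B`: `τ, τ'`, a primitive `g` of determinant `N > 0` with `g τ = τ'` and `B Δ(τ') = (c τ + d) ^ 12 Δ(τ)`; `N = mdeg x y`
(`IsB.lat`/`exists_prim_mdeg` and `NonCM.prim_unique`, as in `LGO/U/BDef.lean`; `NCM x`).  As an element `A` of `DD N`: `act A τ = τ'` (`coe_act`, `Maps`),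
`jA hN A τ = y`, `bA hN A τ = N ^ 12 / B`.  `link`: `φ y = jP q'`, `N ^ 12 / φ B = a ^ 12 DP q' / DP q`, `N = a d`: `φ B DP q' = d ^ 12 DP q`.
`‖q'‖ ^ d = ‖q‖ ^ a` gives `‖q'‖ ≥ ‖q'‖ ^ d = ‖q‖ ^ a ≥ ‖q‖ ^ N`.
`b_size`: `‖φ x‖ > 1`: `jP_surj` gives `q`, `linkB`; `‖jP q‖ = ‖q‖⁻¹`, `‖DP q‖ = ‖q‖`: `‖φ B‖ ‖φ x‖ = ‖d‖ ^ 12 ‖φ y‖`, `‖φ y‖ > 1`, and `‖N‖ ≤ ‖d‖ ≤ 1`.  `‖φ x‖ ≤ 1`: then
`‖φ y‖ ≤ 1` (`isog_norm`) and `B_loc`.  The constant is `c = (4 * 6 ^ 12) ^ 6`, `‖c‖ ≤ 1`.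
-/

namespace Pool.Agent.LGO.PA

open Pool.Agent.Hhelper14.ZP Pool.Agent.Hhelper14.ZPL UpperHalfPlane Pool.Agent.LGO
  Pool.Agent.LGO.U

variable {p : ℕ} [Fact p.Prime]

theorem linkB (φ : ℂ →+* ℂ_[p]) {x y B : ℂ} (h : IsB x y B)
    (hx : NCM x) {q : ℂ_[p]} (hq0 : 0 < ‖q‖) (hq : ‖q‖ < 1) (hφ : φ x = jP q) :
    ∃ (d : ℕ) (q' : ℂ_[p]), 0 < d ∧ d ∣ mdeg x y ∧ 0 < ‖q'‖ ∧ ‖q'‖ < 1 ∧
      ‖q‖ ^ mdeg x y ≤ ‖q'‖ ∧ φ y = jP q' ∧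
      φ B * DP q' = (d : ℂ_[p]) ^ 12 * DP q := by
  obtain ⟨τ, τ', g₀, hτ, hτ', -⟩ := id h
  have h0 := h.isog
  rw [← hτ, ← hτ'] at h0
  obtain ⟨g, hd, hg, hp, hm⟩ := exists_prim_mdeg h0
  rw [hτ, hτ'] at hd
  have h1 := h.maps hx hτ hτ' hp hg hm
  have hN : 0 < mdeg x y := by
    have h2 : (0 : ℤ) < (mdeg x y : ℤ) := by rw [← hd]; exact hg
    exact_mod_cast h2
  have h2 : τ' = act hN (mkDD g hd) τ := Gal.eq_act_of_maps hN hd hm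
  rw [← hτ] at hφ
  obtain ⟨a, d, q', ha, hd0, had, hq'0, hq', hpow, hj, hb⟩ :=
    link hN φ hq0 hq τ hφ (mkDD g hd)
  have hD' : ModularForm.discriminant τ' ≠ 0 := ModularForm.discriminant_ne_zero τ'
  have hB0 : B ≠ 0 := h.ne_zero
  have hbA : bA hN (mkDD g hd) τ = (mdeg x y : ℂ) ^ 12 / B := by
    have h3 : ((g 1 0 : ℂ) * (τ : ℂ) + (g 1 1 : ℂ)) ^ 12 * ModularForm.discriminant τ =
        B * ModularForm.discriminant τ' := h1.symm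
    show (mdeg x y : ℂ) ^ 12 * ModularForm.discriminant (act hN (mkDD g hd) τ) /
      (((g 1 0 : ℂ) * (τ : ℂ) + (g 1 1 : ℂ)) ^ 12 * ModularForm.discriminant τ) = _
    rw [h3, ← h2]
    exact mul_div_mul_right _ _ hD'
  have hjA : jA hN (mkDD g hd) τ = y := by
    rw [jA, ← h2, hτ']
  rw [hjA] at hj
  refine ⟨d, q', hd0, ⟨a, by rw [← had]; ring⟩, hq'0, hq', ?_, hj, ?_⟩
  · calc ‖q‖ ^ mdeg x y ≤ ‖q‖ ^ a := by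
          refine pow_le_pow_of_le_one (norm_nonneg _) hq.le ?_
          rw [← had]
          exact Nat.le_mul_of_pos_right a hd0
      _ = ‖q'‖ ^ d := hpow.symm
      _ ≤ ‖q'‖ ^ 1 := pow_le_pow_of_le_one (norm_nonneg _) hq'.le hd0
      _ = ‖q'‖ := pow_one _
  · rw [hbA, map_div₀, map_pow, map_natCast] at hb
    have hφB : φ B ≠ 0 := (map_ne_zero φ).2 hB0
    have hDq : DP q ≠ 0 := DP_ne hq0 hq
    rw [div_eq_div_iff hφB hDq] at hb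
    have haC : ((a : ℂ_[p])) ^ 12 ≠ 0 := pow_ne_zero _ (by exact_mod_cast ha.ne')
    have hNad : ((mdeg x y : ℕ) : ℂ_[p]) = (a : ℂ_[p]) * (d : ℂ_[p]) := by
      rw [← had]
      push_cast
      ring
    rw [hNad, mul_pow] at hb
    apply mul_left_cancel₀ haC
    linear_combination -hb

theorem b_size (φ : ℂ →+* ℂ_[p]) {x y B : ℂ} (h : IsB x y B)
    (hx : NCM x) :
    ‖((4 * 6 ^ 12) ^ 6 : ℂ_[p])‖ * (‖φ B‖ * max 1 ‖φ x‖) ≤ max 1 ‖φ y‖ ∧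
      ‖((4 * 6 ^ 12) ^ 6 : ℂ_[p])‖ * (‖((mdeg x y : ℕ) : ℂ_[p])‖ ^ 12 *
        max 1 ‖φ y‖) ≤ ‖φ B‖ * max 1 ‖φ x‖ := by
  rcases le_or_gt ‖φ x‖ 1 with hx1 | hx1
  · have hy1 : ‖φ y‖ ≤ 1 := (isog_norm φ h.isog).1 hx1
    obtain ⟨h1, h2⟩ := B_loc φ h hx hx1 hy1
    rw [max_eq_left hx1, max_eq_left hy1, mul_one, mul_one]
    exact ⟨h1, h2⟩
  · obtain ⟨q, hq0, hq, hjq⟩ := jP_surj hx1
    obtain ⟨d, q', hd, hdN, hq'0, hq', -, hy, hB⟩ := linkB φ h hx hq0 hq hjq.symm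
    have hc : ‖((4 * 6 ^ 12) ^ 6 : ℂ_[p])‖ ≤ 1 := by
      have h3 := Pool.Agent.Hhelper14.ZP.norm_natCast_le (p := p) ((4 * 6 ^ 12) ^ 6)
      have h4 : (((4 * 6 ^ 12) ^ 6 : ℕ) : ℂ_[p]) = ((4 * 6 ^ 12) ^ 6 : ℂ_[p]) := by
        simp only [Nat.cast_pow, Nat.cast_mul, Nat.cast_ofNat]
      rw [← h4]
      exact h3
    have hd1 : ‖(d : ℂ_[p])‖ ≤ 1 := Pool.Agent.Hhelper14.ZP.norm_natCast_le d
    have hNd : ‖((mdeg x y : ℕ) : ℂ_[p])‖ ≤ ‖(d : ℂ_[p])‖ := by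
      obtain ⟨a, ha⟩ := hdN
      rw [ha]
      push_cast
      rw [norm_mul]
      exact mul_le_of_le_one_right (norm_nonneg _) (Pool.Agent.Hhelper14.ZP.norm_natCast_le a)
    have hx2 : ‖φ x‖ = ‖q‖⁻¹ := by rw [← hjq, jP_norm hq0 hq]
    have hy2 : ‖φ y‖ = ‖q'‖⁻¹ := by rw [hy, jP_norm hq'0 hq']
    have hy1 : 1 < ‖φ y‖ := by
      rw [hy2]
      exact (one_lt_inv₀ hq'0).2 hq'
    have hB2 : ‖φ B‖ * ‖q'‖ = ‖(d : ℂ_[p])‖ ^ 12 * ‖q‖ := by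
      have h3 := congrArg norm hB
      rwa [norm_mul, norm_mul, DP_norm hq, DP_norm hq', norm_pow] at h3
    have hB3 : ‖φ B‖ * ‖φ x‖ = ‖(d : ℂ_[p])‖ ^ 12 * ‖φ y‖ := by
      rw [hx2, hy2]
      field_simp
      linear_combination hB2
    rw [max_eq_right hx1.le, max_eq_right hy1.le, hB3]
    have hyn : 0 ≤ ‖φ y‖ := norm_nonneg _
    constructor
    · calc ‖((4 * 6 ^ 12) ^ 6 : ℂ_[p])‖ * (‖(d : ℂ_[p])‖ ^ 12 * ‖φ y‖)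
          ≤ 1 * (1 * ‖φ y‖) := by
            refine mul_le_mul hc ?_ (by positivity) zero_le_one
            exact mul_le_mul_of_nonneg_right (pow_le_one₀ (norm_nonneg _) hd1) hyn
        _ = ‖φ y‖ := by ring
    · calc ‖((4 * 6 ^ 12) ^ 6 : ℂ_[p])‖ * (‖((mdeg x y : ℕ) : ℂ_[p])‖ ^ 12 * ‖φ y‖)
          ≤ 1 * (‖(d : ℂ_[p])‖ ^ 12 * ‖φ y‖) := by
            refine mul_le_mul hc ?_ (by positivity) zero_le_one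
            exact mul_le_mul_of_nonneg_right (pow_le_pow_left₀ (norm_nonneg _) hNd 12) hyn
        _ = ‖(d : ℂ_[p])‖ ^ 12 * ‖φ y‖ := one_mul _

end Pool.Agent.LGO.PA
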