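import Mathlib
import Pool.Agent.LGO.PA.Defs
import Pool.Agent.LGO.H.MDeg
import Pool.Agent.LGO.Mul.Ht
import Pool.Agent.LGO.H.BdC
import Pool.Agent.AHC.Cl

/-!
# LGO/PA: the field generated by an isogenous invariant

PROOF.  Let `R = {y' | IsogDeg s x y'}`, `x = j(τ)`.  By `isogDeg_iff_jQ` (`LGO/Gal/Basic.lean`) `R` is the image of `QQ s` under
`κ ↦ jQ κ τ`: finite, at most `Nat.card (QQ s)` elements (`finite_QQ`).
`alg_isog`: if `y` is transcendental there is an automorphism `α` of `ℂ` which fixes all algebraic numbers with `α y = y + 1`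
(`exists_shift` in `LGO/PW/Conj.lean` is private: copy it); then `y + n = α ^ n y ∈ R` for all `n` (`isogDeg_map`), a contradiction.
`fld_isog`: `y` is algebraic, `K' = K₀ ⊔ ℚ⟮y⟯` or `K₀⟮y⟯` (restricted scalars).  The roots in `ℂ` of the minimal polynomial of `y` over `K₀`
are the images of `y` under the embeddings of `K'` over `K₀`, every such embedding extends to an automorphism of `ℂ`
(`exists_aut`, `LGO/Mul/Ht.lean`) which fixes `x`, so all roots are in `R` (`isogDeg_map`).  The minimal polynomial is separable, so its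
degree is the number of its roots, at most `Nat.card (QQ s)`.
-/

namespace Pool.Agent.LGO.PA

open Pool.Agent.Hhelper14.ZP Pool.Agent.LGO

private theorem FldI_notMem_cl {t : ℂ} (h : ¬ IsAlgebraic ℚ t) : t ∉ Pool.Agent.AHC.cl ∅ := by
  intro h1
  apply h
  have h2 : Algebra.IsAlgebraic ℚ (Algebra.adjoin ℚ (∅ : Set ℂ)) := by
    refine ⟨fun x => ?_⟩
    have h2 : ∀ y : ℂ, y ∈ Algebra.adjoin ℚ (∅ : Set ℂ) → y ∈ Set.range (algebraMap ℚ ℂ) := by
      intro y hy
      rwa [Algebra.adjoin_empty, Algebra.mem_bot] at hy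
    obtain ⟨q, hq⟩ := h2 x x.2
    have h3 : x = algebraMap ℚ _ q := Subtype.ext hq.symm
    rw [h3]
    exact isAlgebraic_algebraMap q
  exact IsAlgebraic.restrictScalars ℚ h1

private theorem FldI_exists_shift {t : ℂ} (h : ¬ IsAlgebraic ℚ t) :
    ∃ α : ℂ ≃+* ℂ, (∀ z : ℂ, IsAlgebraic ℚ z → α z = z) ∧ α t = t + 1 := by
  have h2 : ¬ IsAlgebraic ℚ (t + 1) := by
    intro h1
    apply h
    have h3 : t = (t + 1) - 1 := by ring
    rw [h3]
    exact h1.sub isAlgebraic_one
  obtain ⟨α, h3, h4⟩ := Pool.Agent.AHC.exists_move (FldI_notMem_cl h) (FldI_notMem_cl h2)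
  refine ⟨α, fun z h5 => h3 _ ?_, h4⟩
  exact h5.extendScalars (algebraMap ℚ (Algebra.adjoin ℚ (∅ : Set ℂ))).injective

/-- the invariants at isogeny degree `s` from `x` -/
private theorem FldI_tau {x y : ℂ} {s : ℕ} (hs : 0 < s) (h : IsogDeg s x y) :
    ∃ τ : UpperHalfPlane, ∀ z : ℂ, IsogDeg s x z ↔ ∃ q : QQ s, z = jQ hs q τ := by
  obtain ⟨τ, τ', g, -, -, hx, -⟩ := h
  refine ⟨τ, fun z => ?_⟩
  rw [hx]
  exact Gal.isogDeg_iff_jQ hs τ z

theorem alg_isog {x y : ℂ} {s : ℕ} (hs : 0 < s) (h : IsogDeg s x y) (hx : IsAlgebraic ℚ x) :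
    IsAlgebraic ℚ y := by
  by_contra hc
  obtain ⟨α, hα, hαc⟩ := FldI_exists_shift hc
  obtain ⟨τ, hτ⟩ := FldI_tau hs h
  have := finite_QQ hs
  have hfin : (Set.range fun q : QQ s => jQ hs q τ).Finite := Set.finite_range _
  have key : ∀ k : ℕ, IsogDeg s x (y + k) := by
    intro k
    induction k with
    | zero => simpa using h
    | succ k ih =>
      have h1 : IsogDeg s (α x) (α (y + k)) := IsogDeg.map (α : ℂ →+* ℂ) hs ih
      rw [hα x hx, map_add, hαc, map_natCast] at h1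
      have h2 : y + 1 + (k : ℂ) = y + ((k + 1 : ℕ) : ℂ) := by push_cast; ring
      rwa [h2] at h1
  have hinj : Function.Injective fun k : ℕ => y + (k : ℂ) := by
    intro k l hkl
    have h2 : (k : ℂ) = l := add_left_cancel hkl
    exact_mod_cast h2
  refine Set.infinite_of_injective_forall_mem hinj (fun k => ?_) hfin
  obtain ⟨q, hq⟩ := (hτ _).mp (key k)
  exact ⟨q, hq.symm⟩

theorem fld_isog (K₀ : IntermediateField ℚ ℂ) [FiniteDimensional ℚ K₀] {x y : ℂ} {s : ℕ}
    (hs : 0 < s) (hx : x ∈ K₀) (h : IsogDeg s x y) :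
    ∃ K' : IntermediateField ℚ ℂ, K₀ ≤ K' ∧ FiniteDimensional ℚ K' ∧ y ∈ K' ∧
      Module.finrank ℚ K' ≤ Nat.card (QQ s) * Module.finrank ℚ K₀ := by
  have hxa : IsAlgebraic ℚ x := by
    have h1 : IsAlgebraic ℚ (⟨x, hx⟩ : K₀) := Algebra.IsAlgebraic.isAlgebraic _
    exact h1.algebraMap (A := ℂ)
  have hya : IsAlgebraic ℚ y := alg_isog hs h hxa
  obtain ⟨τ, hτ⟩ := FldI_tau hs h
  have hQfin := finite_QQ hs
  set K : IntermediateField K₀ ℂ := IntermediateField.adjoin K₀ {y} with hK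
  have hyint : IsIntegral K₀ y := hya.isIntegral.tower_top
  have hKfin : FiniteDimensional K₀ K := IntermediateField.adjoin.finiteDimensional hyint
  have hyK : y ∈ K := IntermediateField.mem_adjoin_simple_self K₀ y
  have hKQ : FiniteDimensional ℚ K := FiniteDimensional.trans ℚ K₀ K
  refine ⟨K.restrictScalars ℚ, ?_, hKQ, hyK, ?_⟩
  · intro z hz
    exact K.algebraMap_mem ⟨z, hz⟩
  · have h1 : Module.finrank ℚ (K.restrictScalars ℚ) = Module.finrank ℚ K₀ * Module.finrank K₀ K :=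
      (Module.finrank_mul_finrank ℚ K₀ K).symm
    rw [h1, mul_comm]
    refine Nat.mul_le_mul_right _ ?_
    rw [← AlgHom.card K₀ K ℂ, ← Nat.card_eq_fintype_card]
    have hex : ∀ φ : K →ₐ[K₀] ℂ, ∃ q : QQ s, φ ⟨y, hyK⟩ = jQ hs q τ := by
      intro φ
      obtain ⟨t, ht⟩ := Pool.Agent.AHC.exists_aut (R := K₀) (S := K) (algebraMap K₀ K).injective
        (by
          have : Algebra.trdeg K₀ K = 0 := trdeg_eq_zero
          rw [this]
          exact Cardinal.aleph0_pos)
        (algebraMap K ℂ) φ.toRingHom (algebraMap K ℂ).injective φ.toRingHom.injective (by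
          ext z
          change algebraMap K ℂ (algebraMap K₀ K z) = φ (algebraMap K₀ K z)
          rw [AlgHom.commutes]
          rfl)
      have hfix : t x = x := by
        have h2 := ht (algebraMap K₀ K ⟨x, hx⟩)
        have h3 : φ.toRingHom (algebraMap K₀ K ⟨x, hx⟩) = x := φ.commutes ⟨x, hx⟩
        rw [h3] at h2
        exact h2
      have hty : t y = φ ⟨y, hyK⟩ := ht ⟨y, hyK⟩
      have h4 : IsogDeg s (t x) (t y) := IsogDeg.map (t : ℂ →+* ℂ) hs h
      rw [hfix, hty] at h4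
      exact (hτ _).mp h4
    choose F hF using hex
    refine Nat.card_le_card_of_injective F fun φ ψ hφψ => ?_
    refine IntermediateField.algHom_ext_of_eq_adjoin K₀ hK ?_
    intro z hz
    have hz' : z = y := hz
    subst hz'
    rw [hF φ, hF ψ, hφψ]

end Pool.Agent.LGO.PA
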