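import Mathlib
import Pool.Agent.LGO.PA.Defs

/-!
# LGO/PA: the number of classes

PROOF.  `finite_QQ`: the representatives `FixedDetMatrices.reps N` (upper triangular, `a d = N`, `a > 0`, `0 ≤ b < d`: see the fields of
`FixedDetMatrices.reps` and `exists_rep`, `Hhelper14/ZP/Orbit.lean`) map onto `QQ N`, and a representative is determined by `d ∣ N` and `b < d`.
So `|QQ N| ≤ ∑_{d ∣ N} d = ∑_{d ∣ N} N / d ≤ N ∑_{d = 1}^{N} 1 / √d ≤ 2 N √N` (`1 / d ≤ 1 / √d ≤ 2 (√d - √(d - 1))`), and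
`|QQ N| ^ 2 ≤ 4 N ^ 3`.
-/

namespace Pool.Agent.LGO.PA

open Pool.Agent.Hhelper14.ZP

private theorem QCard_reps {N : ℕ} (hN : 0 < N) :
    Nat.card (QQ N) ≤ ∑ d ∈ N.divisors, d := by
  classical
  have hsurj : Function.Surjective (fun B : FixedDetMatrices.reps (N : ℤ) =>
      (Quotient.mk'' B.1 : QQ N)) := by
    intro q
    induction q using Quotient.inductionOn' with
    | h A =>
      obtain ⟨B, hB, γ, rfl⟩ := exists_rep hN A
      refine ⟨⟨B, hB⟩, ?_⟩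
      exact Quotient.sound' ⟨γ⁻¹, by simp⟩
  have h1 : Nat.card (QQ N) ≤ Nat.card (FixedDetMatrices.reps (N : ℤ)) :=
    Nat.card_le_card_of_surjective _ hsurj
  refine h1.trans ?_
  set S : Finset ((_ : ℕ) × ℕ) := N.divisors.sigma fun d => Finset.range d with hS
  have hSc : S.card = ∑ d ∈ N.divisors, d := by
    rw [hS, Finset.card_sigma]
    simp
  rw [← hSc]
  have key : ∀ B : FixedDetMatrices.reps (N : ℤ), B.1.1 1 0 = 0 ∧ 0 < B.1.1 0 0 ∧ 0 ≤ B.1.1 0 1 ∧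
      B.1.1 0 1 < B.1.1 1 1 ∧ B.1.1 0 0 * B.1.1 1 1 = N := by
    intro B
    obtain ⟨B, h10, h00, h01, hlt⟩ := B
    have hdet := B.2
    change B.1 1 0 = 0 at h10
    change 0 < B.1 0 0 at h00
    change 0 ≤ B.1 0 1 at h01
    change |B.1 0 1| < |B.1 1 1| at hlt
    have h2 : B.1 0 0 * B.1 1 1 = N := by
      rw [Matrix.det_fin_two, h10] at hdet
      linarith
    have hNZ : (0 : ℤ) < N := by exact_mod_cast hN
    have h3 : 0 < B.1 1 1 := by
      by_contra h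
      push Not at h
      have := mul_nonpos_of_nonneg_of_nonpos h00.le h
      omega
    refine ⟨h10, h00, h01, ?_, h2⟩
    rwa [abs_of_nonneg h01, abs_of_pos h3] at hlt
  let f : FixedDetMatrices.reps (N : ℤ) → S := fun B =>
    ⟨⟨(B.1.1 1 1).natAbs, (B.1.1 0 1).natAbs⟩, by
      obtain ⟨h1, h2, h3, h4, h5⟩ := key B
      rw [hS, Finset.mem_sigma]
      refine ⟨?_, ?_⟩
      · rw [Nat.mem_divisors]
        refine ⟨?_, hN.ne'⟩
        have : B.1.1 1 1 ∣ (N : ℤ) := ⟨B.1.1 0 0, by rw [mul_comm]; exact h5.symm⟩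
        simpa using Int.natAbs_dvd_natAbs.2 this
      · rw [Finset.mem_range]
        simp only
        omega⟩
  have hf : Function.Injective f := by
    intro B B' h
    obtain ⟨h1, h2, h3, h4, h5⟩ := key B
    obtain ⟨g1, g2, g3, g4, g5⟩ := key B'
    have e : (⟨(B.1.1 1 1).natAbs, (B.1.1 0 1).natAbs⟩ : (_ : ℕ) × ℕ) =
        ⟨(B'.1.1 1 1).natAbs, (B'.1.1 0 1).natAbs⟩ := congrArg Subtype.val h
    simp only [Sigma.mk.injEq, heq_eq_eq] at e
    have e1 : B.1.1 1 1 = B'.1.1 1 1 := by omega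
    have e2 : B.1.1 0 1 = B'.1.1 0 1 := by omega
    have e3 : B.1.1 0 0 = B'.1.1 0 0 := by
      have : B.1.1 0 0 * B.1.1 1 1 = B'.1.1 0 0 * B.1.1 1 1 := by
        refine h5.trans ?_
        rw [e1]
        exact g5.symm
      exact mul_right_cancel₀ (by omega) this
    apply Subtype.ext
    apply FixedDetMatrices.ext
    intro i j
    fin_cases i <;> fin_cases j
    · exact e3
    · exact e2
    · exact h1.trans g1.symm
    · exact e1
  have := Nat.card_le_card_of_injective f hf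
  simpa using this

private theorem QCard_sum {N : ℕ} (hN : 0 < N) :
    ((∑ d ∈ N.divisors, d : ℕ) : ℝ) ≤ 2 * (N * √(N : ℝ)) := by
  have hN' : (0 : ℝ) < N := by exact_mod_cast hN
  have h1 : ((∑ d ∈ N.divisors, d : ℕ) : ℝ) = ∑ d ∈ N.divisors, (N : ℝ) * (d : ℝ)⁻¹ := by
    rw [← Nat.sum_div_divisors N (fun d => d)]
    push_cast
    refine Finset.sum_congr rfl fun d hd => ?_
    have hd1 := Nat.mem_divisors.1 hd
    have hd0 : (d : ℝ) ≠ 0 := by
      have := Nat.pos_of_mem_divisors hd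
      positivity
    rw [Nat.cast_div hd1.1 hd0]
    rfl
  rw [h1, ← Finset.mul_sum]
  have h2 : ∑ d ∈ N.divisors, ((d : ℝ))⁻¹ ≤ ∑ d ∈ Finset.Icc 1 N, ((d : ℝ))⁻¹ := by
    refine Finset.sum_le_sum_of_subset_of_nonneg ?_ fun d _ _ => by positivity
    intro d hd
    rw [Finset.mem_Icc]
    exact ⟨Nat.pos_of_mem_divisors hd, Nat.divisor_le hd⟩
  have h3 : ∑ d ∈ Finset.Icc 1 N, ((d : ℝ))⁻¹ ≤ 1 + Real.log N := by
    have h := harmonic_le_one_add_log N
    rw [harmonic_eq_sum_Icc] at h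
    push_cast at h
    exact h
  have h4 : Real.log N ≤ 2 * (√(N : ℝ) - 1) := by
    have h5 : (N : ℝ) = √(N : ℝ) ^ 2 := (Real.sq_sqrt hN'.le).symm
    have h6 : Real.log N = 2 * Real.log (√(N : ℝ)) := by
      conv_lhs => rw [h5]
      rw [Real.log_pow]
      norm_num
    rw [h6]
    have := Real.log_le_sub_one_of_pos (Real.sqrt_pos.2 hN')
    linarith
  have h7 : (N : ℝ) * ∑ d ∈ N.divisors, ((d : ℝ))⁻¹ ≤ N * (2 * √(N : ℝ)) := by
    refine mul_le_mul_of_nonneg_left ?_ hN'.le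
    linarith
  linarith

theorem card_QQ {N : ℕ} (hN : 0 < N) : (Nat.card (QQ N) : ℝ) ^ 2 ≤ 4 * (N : ℝ) ^ 3 := by
  have hN' : (0 : ℝ) < N := by exact_mod_cast hN
  have h1 : (Nat.card (QQ N) : ℝ) ≤ 2 * (N * √(N : ℝ)) :=
    (by exact_mod_cast QCard_reps hN : (Nat.card (QQ N) : ℝ) ≤ ((∑ d ∈ N.divisors, d : ℕ) : ℝ)).trans (QCard_sum hN)
  calc (Nat.card (QQ N) : ℝ) ^ 2 ≤ (2 * (N * √(N : ℝ))) ^ 2 := by
        exact pow_le_pow_left₀ (by positivity) h1 2
    _ = 4 * (N : ℝ) ^ 2 * (√(N : ℝ) ^ 2) := by ring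
    _ = 4 * (N : ℝ) ^ 3 := by rw [Real.sq_sqrt hN'.le]; ring

end Pool.Agent.LGO.PA
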