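import Mathlib
import Pool.Agent.LGO.PA.LinkB
import Pool.Agent.LGO.PA.QCard
import Pool.Agent.LGO.PA.FldI
import Pool.Agent.LGO.H.Use
import Pool.Agent.LGO.H.BdC
import Pool.Agent.LGO.Q.Quad
import Pool.Agent.LGO.U.BArch
import Pool.Agent.LGO.U.BMem
import Pool.Agent.LGO.U.BGal

/-!
# LGO/PA: the numbers `j(q ^ s)` and `Δ(q ^ s) / Δ(q)`, `j(q) = β` algebraic

PROOFS.  Let `β = j(τ₀)` (`j_surj`).
`ncm_of_q`: if `β` is a CM value there is `N > 0`, not a square, with `IsogDeg N β β` (`isCMVal_iff`, `ncm_iff`), so `β = jA hN A τ₀` for some `A : DD N`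
(`isogDeg_iff_jQ` or `isogDeg_iff_act`), and `link` gives `β` the value `jP q'` with `‖q'‖ ^ d = ‖q‖ ^ a`, `a d = N`; `‖q'‖ = ‖φ β‖⁻¹ = ‖q‖` (`jP_norm`), so `a = d`
(`0 < ‖q‖ < 1`) and `N = a ^ 2`.
`bA_isB`: `A = k A'` with `A'` primitive (`LGO.exists_prim`), `det A' = N'`, `k ^ 2 N' = s`, `N' = mdeg β y` (`NonCM`, `Gal.det_eq_mdeg`; `IsB.maps`).  `A` and `A'` act in the
same way; with `J' = c' τ₀ + d'`: `bA hs A τ₀ = s ^ 12 Δ(A τ₀) / ((k J') ^ 12 Δ(τ₀)) = (k N') ^ 12 / B`, `B Δ(A τ₀) = J' ^ 12 Δ(τ₀)`, `IsB β y B`.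
`linkS`: `K₀ = ℚ⟮β⟯`.  `link_top` with `N = s` gives `A : DD s`; `y = jA A τ₀`, `b = bA A τ₀`, the last two statements.  `IsogDeg s β y`; `K` from `fld_isog`,
`[K : ℚ] ≤ Nat.card (QQ s) [K₀ : ℚ]`, `card_QQ`.  `NCM β` by `ncm_of_q`.  `B ∈ K` (`IsB.mem`), so `b ∈ K`.
`Bd K (C s) y`: denominator `m ^ s`, where `m β` is integral, `m ≥ 1`: by `integral_of_norm_le` one needs `‖φ'(m ^ s y)‖ ≤ 1` for all primes `p'` and all
`φ'`.  If `‖φ' β‖ ≤ 1` then `‖φ' y‖ ≤ 1` (`isog_norm`).  Otherwise `jP_surj`, `φ' β = jP q₁`, `link` for `A`: `φ' y = jP q'`, `‖φ' y‖ = ‖q'‖⁻¹` and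
`‖q'‖ ≥ ‖q'‖ ^ d = ‖q₁‖ ^ a ≥ ‖q₁‖ ^ s`, so `‖φ' y‖ ≤ ‖φ' β‖ ^ s` and `‖φ'(m ^ s y)‖ ≤ ‖φ'(m β)‖ ^ s ≤ 1`.  House: an embedding of `K` extends to an automorphism `σ` of
`ℂ` (`exists_aut`), `IsogDeg s (σ β) (σ y)`, `log_le` (`LGO/H/Use.lean`): `log ‖σ y‖ ≤ C s (1 + log (1 + ‖σ β‖))`, and `‖σ β‖` is bounded
(`Quad_bd_alg`).
`Bd K (C s) b`: denominator `m c`, `c = (4 * 6 ^ 12) ^ 6`: by `b_size` (second part) for any `φ'`: `‖c‖ ‖N'‖ ^ 12 max 1 ‖φ' y‖ ≤ ‖φ' B‖ max 1 ‖φ' β‖`, so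
`‖φ'(c b)‖ ≤ ‖c‖ ‖N'‖ ^ 12 / ‖φ' B‖ ≤ max 1 ‖φ' β‖` and `‖φ'(m c b)‖ ≤ 1`.  House: `IsB (σ β) (σ y) (σ B)` (`IsB.map`), `B_arch`, second part, with
`H ≤ C s`: `N' ^ 6 ≤ C H ^ 6 ‖σ B‖ max 1 ‖σ β‖`, so `‖σ b‖ = (k N') ^ 12 / ‖σ B‖ ≤ s ^ 12 C H ^ 6 max 1 ‖σ β‖ ≤ exp (C' s)`.
-/

namespace Pool.Agent.LGO.PA

open Pool.Agent.Hhelper14.ZP Pool.Agent.Hhelper14.ZPL UpperHalfPlane Pool.Agent.LGO
  Pool.Agent.LGO.U

theorem ncm_of_q {p : ℕ} [Fact p.Prime] (φ : ℂ →+* ℂ_[p]) {β : ℂ} {q : ℂ_[p]} (hq0 : 0 < ‖q‖)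
    (hq : ‖q‖ < 1) (hφ : φ β = jP q) : NCM β := by
  by_contra hcm
  rw [ncm_iff, not_not] at hcm
  obtain ⟨N, hN, hsq, h⟩ := isCMVal_iff.mp hcm
  obtain ⟨τ₀, rfl⟩ := Pool.Agent.Hhelper14.ZPL.j_surj β
  obtain ⟨A, hA⟩ := (Gal.isogDeg_iff_act hN τ₀ _).mp h
  obtain ⟨a, d, q', ha, hd, had, hq'0, hq', hpow, hj, -⟩ := link hN φ hq0 hq τ₀ hφ A
  have h1 : jA hN A τ₀ = jInv τ₀ := hA.symm
  rw [h1, hφ] at hj
  have h2 : ‖q‖ = ‖q'‖ := by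
    have h3 := congrArg norm hj
    rw [jP_norm hq0 hq, jP_norm hq'0 hq'] at h3
    exact inv_injective h3
  rw [← h2] at hpow
  have h3 : d = a := (pow_right_strictAnti₀ hq0 hq).injective hpow
  exact hsq a (by rw [← had, h3]; ring)

theorem bA_isB {s : ℕ} (hs : 0 < s) (A : DD s) (τ : ℍ) (hx : NCM (jInv τ)) :
    ∃ (B : ℂ) (k : ℕ), 0 < k ∧ IsB (jInv τ) (jA hs A τ) B ∧
      k ^ 2 * mdeg (jInv τ) (jA hs A τ) = s ∧
      bA hs A τ * B = ((k * mdeg (jInv τ) (jA hs A τ) : ℕ) : ℂ) ^ 12 := by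
  have hdet : A.1.det ≠ 0 := by rw [A.2]; exact_mod_cast hs.ne'
  obtain ⟨k, g, hk, hg, hp⟩ := LGO.exists_prim hdet
  have hd : (s : ℤ) = k ^ 2 * g.det := by
    rw [← A.2, hg, Matrix.det_smul]
    simp
  have hkZ : (0 : ℤ) < k := by exact_mod_cast hk
  have hgd : 0 < g.det := by
    have h1 : (0 : ℤ) < k ^ 2 * g.det := by rw [← hd]; exact_mod_cast hs
    exact (mul_pos_iff_of_pos_left (by positivity)).mp h1
  have hm := Gal.maps_act hs A τ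
  rw [hg, Maps.smul_iff hkZ.ne'] at hm
  have hcm : NonCM (τ : ℂ) := (ncm_jInv τ).1 hx
  have hN : g.det = mdeg (jInv τ) (jInv (act hs A τ)) := det_eq_mdeg hcm hgd hp hm
  have hN' : g.det = mdeg (jInv τ) (jA hs A τ) := hN
  have hD' : ModularForm.discriminant (act hs A τ) ≠ 0 := ModularForm.discriminant_ne_zero _
  have hD : ModularForm.discriminant τ ≠ 0 := ModularForm.discriminant_ne_zero _
  have hJ : (g 1 0 : ℂ) * (τ : ℂ) + (g 1 1 : ℂ) ≠ 0 := Gal.den_ne_zero hgd.ne' τ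
  have hs2 : k ^ 2 * mdeg (jInv τ) (jA hs A τ) = s := by
    zify
    rw [← hN', hd]
  refine ⟨((g 1 0 : ℂ) * (τ : ℂ) + (g 1 1 : ℂ)) ^ 12 * ModularForm.discriminant τ /
    ModularForm.discriminant (act hs A τ), k, hk, ⟨τ, act hs A τ, g, rfl, rfl, hp, hgd, hm,
    div_mul_cancel₀ _ hD'⟩, hs2, ?_⟩
  have e0 : (A.1 1 0 : ℂ) = (k : ℂ) * (g 1 0 : ℂ) := by
    rw [hg]
    simp
  have e1 : (A.1 1 1 : ℂ) = (k : ℂ) * (g 1 1 : ℂ) := by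
    rw [hg]
    simp
  have hkC : (k : ℂ) ≠ 0 := by exact_mod_cast hk.ne'
  have hsC : (s : ℂ) = (k : ℂ) ^ 2 * (mdeg (jInv τ) (jA hs A τ) : ℂ) := by
    conv_lhs => rw [← hs2]
    push_cast
    rfl
  rw [bA, e0, e1, hsC]
  set J : ℂ := (g 1 0 : ℂ) * (τ : ℂ) + (g 1 1 : ℂ) with hJdef
  have hJk : (k : ℂ) * (g 1 0 : ℂ) * (τ : ℂ) + (k : ℂ) * (g 1 1 : ℂ) = (k : ℂ) * J := by
    rw [hJdef]; ring
  rw [hJk]
  push_cast
  field_simp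

private theorem LinkS_pow_le_exp {x c : ℝ} {s : ℕ} (hx : 0 < x) (hc : Real.log x ≤ c) :
    x ^ s ≤ Real.exp (c * s) := by
  calc x ^ s = Real.exp (Real.log x * s) := by
        rw [mul_comm, Real.exp_nat_mul, Real.exp_log hx]
    _ ≤ Real.exp (c * s) := Real.exp_le_exp.2 (mul_le_mul_of_nonneg_right hc (Nat.cast_nonneg _))

private theorem LinkS_const_le {x c : ℝ} {s : ℕ} (hs : 1 ≤ s) (hx : 0 < x) (hc0 : 0 ≤ c)
    (hc : Real.log x ≤ c) : x ≤ Real.exp (c * s) := by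
  have hs' : (1 : ℝ) ≤ s := by exact_mod_cast hs
  calc x = Real.exp (Real.log x) := (Real.exp_log hx).symm
    _ ≤ Real.exp (c * s) := Real.exp_le_exp.2 (by nlinarith)

/-- the local bound for the invariant -/
private theorem LinkS_y_norm {β : ℂ} {s : ℕ} (hs : 0 < s) {τ₀ : ℍ} (A : DD s) (hβ : jInv τ₀ = β)
    {n : ℕ} (hn : IsIntegral ℤ ((n : ℂ) * β)) (p : ℕ) [Fact p.Prime] (φ : ℂ →+* ℂ_[p]) :
    ‖φ (((n ^ s : ℕ) : ℂ) * jA hs A τ₀)‖ ≤ 1 := by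
  have hn1 : ‖(n : ℂ_[p])‖ ≤ 1 := Pool.Agent.Hhelper14.ZP.norm_natCast_le n
  have hnβ := norm_le_one_of_integral φ hn
  rw [map_mul, map_natCast, norm_mul] at hnβ
  rw [map_mul, map_natCast, norm_mul, Nat.cast_pow, norm_pow]
  rcases le_or_gt ‖φ β‖ 1 with h1 | h1
  · have hI : ∃ N, 0 < N ∧ IsogDeg N β (jA hs A τ₀) :=
      ⟨s, hs, by rw [← hβ]; exact (Gal.isogDeg_iff_act hs τ₀ _).mpr ⟨A, rfl⟩⟩
    have h2 := (isog_norm φ hI).1 h1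
    exact mul_le_one₀ (pow_le_one₀ (norm_nonneg _) hn1) (norm_nonneg _) h2
  · obtain ⟨q₁, hq0, hq, hjq⟩ := jP_surj h1
    rw [← hβ] at hjq
    obtain ⟨a, d, q', ha, hd, had, hq'0, hq', hpow, hj, -⟩ := link hs φ hq0 hq τ₀ hjq.symm A
    have h3 : ‖q₁‖ ^ s ≤ ‖q'‖ := by
      calc ‖q₁‖ ^ s ≤ ‖q₁‖ ^ a := by
            refine pow_le_pow_of_le_one (norm_nonneg _) hq.le ?_
            rw [← had]
            exact Nat.le_mul_of_pos_right a hd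
        _ = ‖q'‖ ^ d := hpow.symm
        _ ≤ ‖q'‖ ^ 1 := pow_le_pow_of_le_one (norm_nonneg _) hq'.le hd
        _ = ‖q'‖ := pow_one _
    have h4 : ‖φ (jA hs A τ₀)‖ ≤ ‖φ β‖ ^ s := by
      rw [hj, jP_norm hq'0 hq', ← hβ, ← hjq, jP_norm hq0 hq, inv_pow]
      exact inv_anti₀ (by positivity) h3
    calc ‖(n : ℂ_[p])‖ ^ s * ‖φ (jA hs A τ₀)‖ ≤ ‖(n : ℂ_[p])‖ ^ s * ‖φ β‖ ^ s :=
          mul_le_mul_of_nonneg_left h4 (by positivity)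
      _ = (‖(n : ℂ_[p])‖ * ‖φ β‖) ^ s := (mul_pow _ _ _).symm
      _ ≤ 1 := pow_le_one₀ (by positivity) hnβ

/-- the local bound for the multiplier -/
private theorem LinkS_b_norm {x y B b : ℂ} (hB : IsB x y B) (hx : NCM x) {k : ℕ}
    (hb : b * B = ((k * mdeg x y : ℕ) : ℂ) ^ 12) {n : ℕ} (hn : IsIntegral ℤ ((n : ℂ) * x))
    (p : ℕ) [Fact p.Prime] (φ : ℂ →+* ℂ_[p]) :
    ‖φ (((n * (4 * 6 ^ 12) ^ 6 : ℕ) : ℂ) * b)‖ ≤ 1 := by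
  have hn1 : ‖(n : ℂ_[p])‖ ≤ 1 := Pool.Agent.Hhelper14.ZP.norm_natCast_le n
  have hk1 : ‖(k : ℂ_[p])‖ ≤ 1 := Pool.Agent.Hhelper14.ZP.norm_natCast_le k
  have hnβ := norm_le_one_of_integral φ hn
  rw [map_mul, map_natCast, norm_mul] at hnβ
  have h2 := (b_size φ hB hx).2
  have hB0 : B ≠ 0 := hB.ne_zero
  have hφB : 0 < ‖φ B‖ := norm_pos_iff.2 ((map_ne_zero φ).2 hB0)
  have hb2 : ‖φ b‖ * ‖φ B‖ = (‖(k : ℂ_[p])‖ * ‖((mdeg x y : ℕ) : ℂ_[p])‖) ^ 12 := by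
    have h3 := congrArg (fun z => ‖φ z‖) hb
    simp only [map_mul, map_pow, map_natCast, norm_mul, norm_pow, Nat.cast_mul] at h3
    exact h3
  set c : ℝ := ‖((4 * 6 ^ 12) ^ 6 : ℂ_[p])‖ with hc
  have hc0 : 0 ≤ c := norm_nonneg _
  have h5 : ‖φ (((n * (4 * 6 ^ 12) ^ 6 : ℕ) : ℂ) * b)‖ = ‖(n : ℂ_[p])‖ * c * ‖φ b‖ := by
    rw [map_mul, map_natCast, norm_mul, Nat.cast_mul, norm_mul, hc]
    simp only [Nat.cast_pow, Nat.cast_mul, Nat.cast_ofNat]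
  rw [h5]
  have h6 : c * ‖φ b‖ ≤ max 1 ‖φ x‖ := by
    have h7 : c * ‖φ b‖ * ‖φ B‖ ≤ max 1 ‖φ x‖ * ‖φ B‖ := by
      calc c * ‖φ b‖ * ‖φ B‖ = c * (‖(k : ℂ_[p])‖ * ‖((mdeg x y : ℕ) : ℂ_[p])‖) ^ 12 := by
            rw [mul_assoc, hb2]
        _ ≤ c * (‖((mdeg x y : ℕ) : ℂ_[p])‖ ^ 12 * max 1 ‖φ y‖) := by
            refine mul_le_mul_of_nonneg_left ?_ hc0
            rw [mul_pow]
            have h8 : ‖(k : ℂ_[p])‖ ^ 12 ≤ 1 := pow_le_one₀ (norm_nonneg _) hk1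
            have h9 : 0 ≤ ‖((mdeg x y : ℕ) : ℂ_[p])‖ ^ 12 := by positivity
            have h10 : (1 : ℝ) ≤ max 1 ‖φ y‖ := le_max_left _ _
            calc ‖(k : ℂ_[p])‖ ^ 12 * ‖((mdeg x y : ℕ) : ℂ_[p])‖ ^ 12
                ≤ 1 * ‖((mdeg x y : ℕ) : ℂ_[p])‖ ^ 12 := mul_le_mul_of_nonneg_right h8 h9
              _ = ‖((mdeg x y : ℕ) : ℂ_[p])‖ ^ 12 * 1 := by ring
              _ ≤ _ := mul_le_mul_of_nonneg_left h10 h9
        _ ≤ ‖φ B‖ * max 1 ‖φ x‖ := h2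
        _ = max 1 ‖φ x‖ * ‖φ B‖ := mul_comm _ _
    exact le_of_mul_le_mul_right h7 hφB
  calc ‖(n : ℂ_[p])‖ * c * ‖φ b‖ = ‖(n : ℂ_[p])‖ * (c * ‖φ b‖) := by ring
    _ ≤ ‖(n : ℂ_[p])‖ * max 1 ‖φ x‖ := mul_le_mul_of_nonneg_left h6 (norm_nonneg _)
    _ ≤ 1 := by
        rcases max_cases 1 ‖φ x‖ with ⟨h, -⟩ | ⟨h, -⟩
        · rw [h, mul_one]
          exact hn1
        · rw [h]
          exact hnβ

theorem linkS {β : ℂ} (hβ : IsAlgebraic ℚ β) : ∃ C : ℝ, 1 ≤ C ∧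
    ∀ (p : ℕ) [Fact p.Prime] (φ : ℂ →+* ℂ_[p]) (q : ℂ_[p]), 0 < ‖q‖ → ‖q‖ < 1 → φ β = jP q →
      ∀ s : ℕ, 1 ≤ s → ∃ (K : IntermediateField ℚ ℂ) (y b : ℂ), FiniteDimensional ℚ K ∧
        (Module.finrank ℚ K : ℝ) ^ 2 ≤ C * (s : ℝ) ^ 3 ∧ Bd K (C * s) y ∧ Bd K (C * s) b ∧
        φ y = jP (q ^ s) ∧ φ b * DP q = (s : ℂ_[p]) ^ 12 * DP (q ^ s) := by
  obtain ⟨B0, hB0, hBd⟩ := Quad_bd_alg hβ
  set K₀ : IntermediateField ℚ ℂ := IntermediateField.adjoin ℚ {β} with hK₀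
  have hK₀fin : FiniteDimensional ℚ K₀ := IntermediateField.adjoin.finiteDimensional hβ.isIntegral
  have hβK₀ : β ∈ K₀ := IntermediateField.mem_adjoin_simple_self ℚ β
  have hbd := hBd K₀ hβK₀
  obtain ⟨n, hn, -, hint⟩ := hbd.den
  obtain ⟨CL, hCL, hlog⟩ := log_le
  obtain ⟨CB, hCB, harch⟩ := B_arch
  obtain ⟨τ₀, hτ₀⟩ := Pool.Agent.Hhelper14.ZPL.j_surj β
  set D0 : ℝ := (Module.finrank ℚ K₀ : ℝ) with hD0
  set c0 : ℕ := n * (4 * 6 ^ 12) ^ 6 with hc0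
  have hc0pos : 0 < c0 := by positivity
  set C3 : ℝ := CL * (1 + Real.log (1 + Real.exp B0)) with hC3
  have hE0 : 1 ≤ Real.exp B0 := Real.one_le_exp hB0
  have hlE : 0 ≤ Real.log (1 + Real.exp B0) := Real.log_nonneg (by linarith)
  have hC3' : 1 ≤ C3 := by nlinarith
  set C4 : ℝ := B0 + C3 with hC4
  have hC4' : 1 ≤ C4 := by linarith
  set C5 : ℝ := |Real.log (CB * C4 ^ 6)| + B0 + 18 with hC5
  have hab1 := abs_nonneg (Real.log n)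
  have hab2 := abs_nonneg (Real.log c0)
  have hab3 := abs_nonneg (Real.log (CB * C4 ^ 6))
  have hD2 : 0 ≤ 4 * D0 ^ 2 := by positivity
  have hC5' : 0 ≤ C5 := by linarith
  set C : ℝ := 4 * D0 ^ 2 + |Real.log n| + |Real.log c0| + C3 + C5 + 1 with hC
  refine ⟨C, by linarith, ?_⟩
  intro p _ φ q hq0 hq hφ s hs1
  have hs : 0 < s := hs1
  have hsR : (1 : ℝ) ≤ s := by exact_mod_cast hs1
  have hncm : NCM β := ncm_of_q φ hq0 hq hφ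
  have hφ' : φ (jInv τ₀) = jP q := by rw [hτ₀]; exact hφ
  obtain ⟨A, hAj, hAb⟩ := link_top hs φ hq0 hq τ₀ hφ'
  obtain ⟨B, k, hk, hB, hks, hbB⟩ := bA_isB hs A τ₀ (by rw [hτ₀]; exact hncm)
  rw [hτ₀] at hB hks hbB
  set y : ℂ := jA hs A τ₀ with hy
  set b : ℂ := bA hs A τ₀ with hb
  have hI : IsogDeg s β y := by
    rw [← hτ₀]
    exact (Gal.isogDeg_iff_act hs τ₀ _).mpr ⟨A, rfl⟩
  obtain ⟨K, hK0K, hKfin, hyK, hKdeg⟩ := fld_isog K₀ hs hβK₀ hI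
  have hβK : β ∈ K := hK0K hβK₀
  have hBK : B ∈ K := hB.mem hncm K hβK hyK
  have hB0' : B ≠ 0 := hB.ne_zero
  have hbeq : b = ((k * mdeg β y : ℕ) : ℂ) ^ 12 / B := by
    rw [eq_div_iff hB0']
    exact hbB
  have hbK : b ∈ K := by
    rw [hbeq]
    exact K.div_mem (pow_mem (natCast_mem K _) 12) hBK
  have hKalg : ∀ z : ℂ, z ∈ K → IsAlgebraic ℚ z := by
    intro z hz
    have h1 : IsAlgebraic ℚ (⟨z, hz⟩ : K) := Algebra.IsAlgebraic.isAlgebraic _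
    exact h1.algebraMap (A := ℂ)
  have hDp : DP q ≠ 0 := DP_ne hq0 hq
  -- sizes of the conjugates
  have hσβ : ∀ t : ℂ ≃+* ℂ, ‖t β‖ ≤ Real.exp B0 := fun t => hbd.aut t
  have hσy : ∀ t : ℂ ≃+* ℂ, ‖t y‖ ≤ Real.exp (C3 * s) := by
    intro t
    rcases (norm_nonneg (t y)).eq_or_lt with h0 | h0
    · rw [← h0]
      exact (Real.exp_pos _).le
    · rw [← Real.log_le_iff_le_exp h0]
      have h1 := hlog s (t β) (t y) hs (isogDeg_map t hs hI)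
      have h2 : Real.log (1 + ‖t β‖) ≤ Real.log (1 + Real.exp B0) :=
        Real.log_le_log (by positivity) (by linarith [hσβ t])
      calc Real.log ‖t y‖ ≤ CL * s * (1 + Real.log (1 + ‖t β‖)) := h1
        _ ≤ CL * s * (1 + Real.log (1 + Real.exp B0)) :=
            mul_le_mul_of_nonneg_left (by linarith) (by positivity)
        _ = C3 * s := by rw [hC3]; ring
  have hσb : ∀ t : ℂ ≃+* ℂ, ‖t b‖ ≤ Real.exp (C5 * s) := by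
    intro t
    have hBt := hB.map hncm t
    have hnt : NCM (t β) := (ncm_map_iff t).2 hncm
    have hH1 : (1 : ℝ) ≤ C4 * s := by nlinarith
    have hbβ : ‖t β‖ ≤ Real.exp (C4 * s) :=
      (hσβ t).trans (Real.exp_le_exp.2 (by nlinarith))
    have hby : ‖t y‖ ≤ Real.exp (C4 * s) :=
      (hσy t).trans (Real.exp_le_exp.2 (mul_le_mul_of_nonneg_right (by linarith) (by linarith)))
    have h1 := (harch (t β) (t y) (t B) hBt hnt (C4 * s) hH1 hbβ hby).2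
    have hm1 : (1 : ℝ) ≤ (mdeg (t β) (t y) : ℝ) := by
      exact_mod_cast mdeg_pos ⟨s, hs, isogDeg_map t hs hI⟩
    have h2 : (1 : ℝ) ≤ (mdeg (t β) (t y) : ℝ) ^ 6 * max 1 ‖t y‖ :=
      one_le_mul_of_one_le_of_one_le (one_le_pow₀ hm1) (le_max_left _ _)
    have h3 : max 1 ‖t β‖ ≤ Real.exp B0 := max_le hE0 (hσβ t)
    have hBpos : 0 < ‖t B‖ := norm_pos_iff.2 ((map_ne_zero_iff t t.injective).2 hB0')
    have h4 : 1 ≤ CB * (C4 * s) ^ 6 * Real.exp B0 * ‖t B‖ := by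
      calc (1 : ℝ) ≤ CB * (C4 * s) ^ 6 * (‖t B‖ * max 1 ‖t β‖) := h2.trans h1
        _ ≤ CB * (C4 * s) ^ 6 * (‖t B‖ * Real.exp B0) :=
            mul_le_mul_of_nonneg_left (mul_le_mul_of_nonneg_left h3 hBpos.le) (by positivity)
        _ = CB * (C4 * s) ^ 6 * Real.exp B0 * ‖t B‖ := by ring
    have hkN : ((k * mdeg β y : ℕ) : ℝ) ≤ s := by
      have h5 : k * mdeg β y ≤ s := by
        calc k * mdeg β y ≤ k * (k * mdeg β y) := Nat.le_mul_of_pos_left _ hk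
          _ = k ^ 2 * mdeg β y := by ring
          _ = s := hks
      exact_mod_cast h5
    have h6 : ‖t b‖ * ‖t B‖ = ((k * mdeg β y : ℕ) : ℝ) ^ 12 := by
      have h7 := congrArg (fun z => ‖t z‖) hbB
      simp only [map_mul, map_pow, map_natCast, norm_mul, norm_pow] at h7
      rw [h7]
      norm_num
    have h8 : ‖t b‖ ≤ CB * (C4 * s) ^ 6 * Real.exp B0 * (s : ℝ) ^ 12 := by
      calc ‖t b‖ = ‖t b‖ * 1 := (mul_one _).symm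
        _ ≤ ‖t b‖ * (CB * (C4 * s) ^ 6 * Real.exp B0 * ‖t B‖) :=
            mul_le_mul_of_nonneg_left h4 (norm_nonneg _)
        _ = CB * (C4 * s) ^ 6 * Real.exp B0 * (‖t b‖ * ‖t B‖) := by ring
        _ = CB * (C4 * s) ^ 6 * Real.exp B0 * ((k * mdeg β y : ℕ) : ℝ) ^ 12 := by rw [h6]
        _ ≤ CB * (C4 * s) ^ 6 * Real.exp B0 * (s : ℝ) ^ 12 :=
            mul_le_mul_of_nonneg_left (pow_le_pow_left₀ (Nat.cast_nonneg _) hkN 12)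
              (by positivity)
    have h9 : (s : ℝ) ≤ Real.exp s := by
      have := Real.add_one_le_exp (s : ℝ)
      linarith
    have h10 : (s : ℝ) ^ 18 ≤ Real.exp (18 * s) := by
      calc (s : ℝ) ^ 18 ≤ Real.exp s ^ 18 := pow_le_pow_left₀ (by positivity) h9 18
        _ = Real.exp (18 * s) := by
            rw [← Real.exp_nat_mul]
            norm_num
    have hX : 0 < CB * C4 ^ 6 := by positivity
    have h11 : CB * C4 ^ 6 ≤ Real.exp |Real.log (CB * C4 ^ 6)| := by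
      rw [← Real.log_le_iff_le_exp hX]
      exact le_abs_self _
    calc ‖t b‖ ≤ CB * (C4 * s) ^ 6 * Real.exp B0 * (s : ℝ) ^ 12 := h8
      _ = (CB * C4 ^ 6) * Real.exp B0 * (s : ℝ) ^ 18 := by ring
      _ ≤ Real.exp |Real.log (CB * C4 ^ 6)| * Real.exp B0 * Real.exp (18 * s) := by
          refine mul_le_mul (mul_le_mul_of_nonneg_right h11 (Real.exp_pos _).le) h10
            (by positivity) (by positivity)
      _ = Real.exp (|Real.log (CB * C4 ^ 6)| + B0 + 18 * s) := by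
          rw [← Real.exp_add, ← Real.exp_add]
      _ ≤ Real.exp (C5 * s) := by
          refine Real.exp_le_exp.2 ?_
          rw [hC5]
          nlinarith
  have hCs : ∀ c' : ℝ, c' ≤ C → c' * s ≤ C * s := fun c' h =>
    mul_le_mul_of_nonneg_right h (by linarith)
  refine ⟨K, y, b, hKfin, ?_, ⟨hyK, ⟨n ^ s, pow_pos hn s, ?_, ?_⟩, ?_⟩,
    ⟨hbK, ⟨c0, hc0pos, ?_, ?_⟩, ?_⟩, hAj, ?_⟩
  · have h1 : (Module.finrank ℚ K : ℝ) ≤ (Nat.card (QQ s) : ℝ) * D0 := by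
      rw [hD0]
      exact_mod_cast hKdeg
    have h2 := card_QQ hs
    calc (Module.finrank ℚ K : ℝ) ^ 2 ≤ ((Nat.card (QQ s) : ℝ) * D0) ^ 2 :=
          pow_le_pow_left₀ (Nat.cast_nonneg _) h1 2
      _ = (Nat.card (QQ s) : ℝ) ^ 2 * D0 ^ 2 := by ring
      _ ≤ (4 * (s : ℝ) ^ 3) * D0 ^ 2 := mul_le_mul_of_nonneg_right h2 (by positivity)
      _ = (4 * D0 ^ 2) * (s : ℝ) ^ 3 := by ring
      _ ≤ C * (s : ℝ) ^ 3 := mul_le_mul_of_nonneg_right (by linarith) (by positivity)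
  · push_cast
    refine LinkS_pow_le_exp (by exact_mod_cast hn) ?_
    have := le_abs_self (Real.log n)
    linarith
  · refine integral_of_norm_le ?_ fun p' _ φ' => LinkS_y_norm hs A hτ₀ hint p' φ'
    exact (isAlgebraic_natCast _).mul (hKalg y hyK)
  · intro σ
    obtain ⟨t, ht⟩ := exists_aut K σ
    rw [← ht ⟨y, hyK⟩]
    exact (hσy t).trans (Real.exp_le_exp.2 (hCs C3 (by linarith)))
  · refine LinkS_const_le hs1 (by exact_mod_cast hc0pos) (by linarith) ?_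
    have := le_abs_self (Real.log c0)
    linarith
  · refine integral_of_norm_le ?_ fun p' _ φ' => LinkS_b_norm hB hncm hbB hint p' φ'
    exact (isAlgebraic_natCast _).mul (hKalg b hbK)
  · intro σ
    obtain ⟨t, ht⟩ := exists_aut K σ
    rw [← ht ⟨b, hbK⟩]
    exact (hσb t).trans (Real.exp_le_exp.2 (hCs C5 (by linarith)))
  · rw [hAb, div_mul_cancel₀ _ hDp]

end Pool.Agent.LGO.PA
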