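import Mathlib

/-!
# LGO/PA: the choice of the parameters

PROOF.  `κ₀ = log (1 / ρ₀) ≥ κ₁ = log (1 / ρ₁) > 0`.  Let `W ≥ 2` be a natural number with `A₀ M ^ 2 ≤ W ≤ 2 A₀ M ^ 2` (`A₀` a large constant), `L + 1 = W ^ 5`, `S = W ^ 3`.
(1) `S (S + 1) / 2 ≥ W ^ 6 / 2`; `(κ₁ / 2) W ^ 6 > c W ^ 5 (log c + 5 log W)` for `W ≥ A₀` (`log W ≤ 2 √W`, `A₀` large).
(2) Take logarithms: `κ₀ s L + 24 L log s + c (L + 1) log (c (L + 1)) + κ₀ s M₀ ≤ A₁ W ^ 28 < (C M) ^ C` (`s ≤ W ^ 3`, `L + 1 ≤ W ^ 5`, `M₀ ≤ c W ^ 25`, `log x ≤ x`).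
(3) One needs `2 D c (L + 1) (s + M + log (L + 1)) < κ₁ s M₀`, and `M₀ ≥ (L + 1) ^ 2 / 2`, so it is enough that
`4 D c (s + M + log (L + 1)) < κ₁ s (L + 1)`; `D ≤ √c M s √s` and `√s (s + M + log (L + 1)) ≤ W ^ (3 / 2) (W ^ 3 + M + 5 W) ≤ 7 W ^ (9 / 2)` (`M ≤ W`), so the left side is at
most `28 c √c M s W ^ (9 / 2)`, which is smaller than `κ₁ s W ^ 5` if `W > (28 c √c M / κ₁) ^ 2`.
-/

namespace Pool.Agent.LGO.PA

private theorem Num_log_nat (c : ℕ) (hc : 1 ≤ c) : Real.log c ≤ c := by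
  have h : (0 : ℝ) < c := by exact_mod_cast hc
  linarith [Real.log_le_sub_one_of_pos h]

private theorem Num_log_sqrt {W w : ℝ} (hw : 0 < w) (h : w ^ 2 = W) : Real.log W ≤ 2 * w := by
  rw [← h, Real.log_pow]
  have := Real.log_le_sub_one_of_pos hw
  push_cast
  linarith

/-- part 1 in logarithmic form -/
private theorem Num_one {c W w κ : ℝ} (hc : 1 ≤ c) (hw1 : 1 ≤ w) (hW : w ^ 2 = W)
    (hκ : 40 * c + 32 * c ^ 2 + 1 ≤ κ * w) :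
    c * W ^ 5 * (c + 10 * w) < κ * (W ^ 3 * (W ^ 3 + 1) / 2) := by
  have hw0 : 0 < w := by linarith
  have hWpos : 0 < W := by rw [← hW]; positivity
  have h1 : c * (c + 10 * w) < κ * w * w / 2 := by
    have h2 : (40 * c + 32 * c ^ 2 + 1) * w ≤ κ * w * w := mul_le_mul_of_nonneg_right hκ hw0.le
    nlinarith [mul_nonneg (sq_nonneg c) (by linarith : (0 : ℝ) ≤ w - 1)]
  have h3 : κ * w * w = κ * W := by rw [← hW]; ring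
  rw [h3] at h1
  have h4 : 0 < W ^ 5 := by positivity
  have hκ0 : 0 < κ := by
    by_contra hneg
    push Not at hneg
    nlinarith
  have h5 : W ^ 5 * (c * (c + 10 * w)) < W ^ 5 * (κ * W / 2) := mul_lt_mul_of_pos_left h1 h4
  have h6 : W ^ 5 * (κ * W / 2) ≤ κ * (W ^ 3 * (W ^ 3 + 1) / 2) := by
    have h7 : κ * (W ^ 3 * (W ^ 3 + 1) / 2) = W ^ 5 * (κ * W / 2) + κ * W ^ 3 / 2 := by ring
    rw [h7]
    have : 0 ≤ κ * W ^ 3 / 2 := by positivity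
    linarith
  calc c * W ^ 5 * (c + 10 * w) = W ^ 5 * (c * (c + 10 * w)) := by ring
    _ < _ := h5.trans_le h6

/-- part 3 in logarithmic form -/
private theorem Num_three {c W w κ M s D M₀ l : ℝ} (hc : 1 ≤ c) (hw1 : 1 ≤ w) (hW : w ^ 2 = W) (hM : 2 ≤ M)
    (hMW : M ≤ W ^ 3) (hκ : (40 * c + 32 * c ^ 2 + 1) * M ≤ κ * w) (hs1 : 1 ≤ s) (hs : s ≤ W ^ 3)
    (hM₀ : (W ^ 5) ^ 2 ≤ 2 * M₀) (hD0 : 0 ≤ D) (hD : D ^ 2 ≤ c * M ^ 2 * s ^ 3) (hl0 : 0 ≤ l)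
    (hl : l ≤ 5 * W ^ 3) :
    2 * D * (c * W ^ 5 * (s + M + l)) < κ * (s * M₀) := by
  have hw0 : 0 < w := by linarith
  have hWpos : 0 < W := by rw [← hW]; positivity
  have hκ0 : 0 < κ := by
    by_contra hneg
    push Not at hneg
    nlinarith
  -- `D ≤ c M s w ^ 3`
  have hD1 : D ≤ c * M * s * w ^ 3 := by
    refine (sq_le_sq₀ hD0 (by positivity)).1 ?_
    have h1 : (c * M * s * w ^ 3) ^ 2 = c ^ 2 * M ^ 2 * s ^ 2 * W ^ 3 := by rw [← hW]; ring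
    rw [h1]
    have h2 : c * M ^ 2 * s ^ 3 = (c * M ^ 2 * s ^ 2) * s := by ring
    have h3 : c ^ 2 * M ^ 2 * s ^ 2 * W ^ 3 = (c * M ^ 2 * s ^ 2) * (c * W ^ 3) := by ring
    rw [h2] at hD
    rw [h3]
    refine hD.trans (mul_le_mul_of_nonneg_left ?_ (by positivity))
    have : W ^ 3 ≤ c * W ^ 3 := le_mul_of_one_le_left (by positivity) hc
    linarith
  have h4 : s + M + l ≤ 7 * W ^ 3 := by linarith
  have h5 : 2 * D * (c * W ^ 5 * (s + M + l)) ≤ 2 * (c * M * s * w ^ 3) * (c * W ^ 5 * (7 * W ^ 3)) := by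
    refine mul_le_mul ?_ ?_ ?_ (by positivity)
    · linarith
    · exact mul_le_mul_of_nonneg_left h4 (by positivity)
    · positivity
  have h6 : 2 * (c * M * s * w ^ 3) * (c * W ^ 5 * (7 * W ^ 3)) = (14 * c ^ 2 * M) * (s * W ^ 8 * w ^ 3) := by ring
  have h7 : (14 * c ^ 2 * M) * (s * W ^ 8 * w ^ 3) < (κ * w / 2) * (s * W ^ 8 * w ^ 3) := by
    refine mul_lt_mul_of_pos_right ?_ (by positivity)
    nlinarith [mul_pos (by linarith : (0 : ℝ) < c) (by linarith : (0 : ℝ) < M),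
      mul_nonneg (sq_nonneg c) (by linarith : (0 : ℝ) ≤ M)]
  have h8 : (κ * w / 2) * (s * W ^ 8 * w ^ 3) = κ * (s * ((W ^ 5) ^ 2 / 2)) := by
    rw [← hW]; ring
  have h9 : κ * (s * ((W ^ 5) ^ 2 / 2)) ≤ κ * (s * M₀) := by
    refine mul_le_mul_of_nonneg_left (mul_le_mul_of_nonneg_left ?_ (by linarith)) hκ0.le
    linarith
  calc 2 * D * (c * W ^ 5 * (s + M + l)) ≤ _ := h5
    _ = _ := h6
    _ < _ := h7
    _ = _ := h8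
    _ ≤ _ := h9

/-- part 2 in logarithmic form -/
private theorem Num_two {c W κ s M₀ L ls lc : ℝ} (hc : 1 ≤ c) (hκ : 0 ≤ κ) (hW1 : 1 ≤ W)
    (hs : s ≤ W ^ 3) (hM0 : 0 ≤ M₀) (hM₀ : M₀ ≤ c * (W ^ 5) ^ 5) (hL0 : 0 ≤ L) (hL : L ≤ W ^ 5)
    (hls0 : 0 ≤ ls) (hls : ls ≤ W ^ 3) (hlc : lc ≤ c * W ^ 5) :
    κ * (s * L) + (24 * L * ls + c * W ^ 5 * lc) + κ * (s * M₀) ≤ (κ + 24 + c ^ 2 + κ * c) * W ^ 28 := by
  have hW0 : 0 ≤ W := by linarith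
  have e1 : s * L ≤ W ^ 28 := by
    calc s * L ≤ W ^ 3 * W ^ 5 := mul_le_mul hs hL hL0 (by positivity)
      _ = W ^ 8 := by ring
      _ ≤ W ^ 28 := pow_le_pow_right₀ hW1 (by norm_num)
  have e2 : L * ls ≤ W ^ 28 := by
    calc L * ls ≤ W ^ 5 * W ^ 3 := mul_le_mul hL hls hls0 (by positivity)
      _ = W ^ 8 := by ring
      _ ≤ W ^ 28 := pow_le_pow_right₀ hW1 (by norm_num)
  have e3 : c * W ^ 5 * lc ≤ c ^ 2 * W ^ 28 := by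
    calc c * W ^ 5 * lc ≤ c * W ^ 5 * (c * W ^ 5) := mul_le_mul_of_nonneg_left hlc (by positivity)
      _ = c ^ 2 * W ^ 10 := by ring
      _ ≤ c ^ 2 * W ^ 28 := mul_le_mul_of_nonneg_left (pow_le_pow_right₀ hW1 (by norm_num)) (by positivity)
  have e4 : s * M₀ ≤ c * W ^ 28 := by
    calc s * M₀ ≤ W ^ 3 * (c * (W ^ 5) ^ 5) := mul_le_mul hs hM₀ hM0 (by positivity)
      _ = c * W ^ 28 := by ring
  have f1 := mul_le_mul_of_nonneg_left e1 hκ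
  have f4 := mul_le_mul_of_nonneg_left e4 hκ
  nlinarith

theorem num (c : ℕ) (hc : 1 ≤ c) (ρ₀ ρ₁ : ℝ) (h0 : 0 < ρ₀) (h01 : ρ₀ ≤ ρ₁) (h1 : ρ₁ < 1) :
    ∃ C : ℕ, 1 ≤ C ∧ ∀ M : ℝ, 2 ≤ M → ∃ L S : ℕ, 1 ≤ L ∧
      ρ₁ ^ (S * (S + 1) / 2) * ((c : ℝ) * (L + 1)) ^ (c * (L + 1)) < 1 ∧
      (∀ s M₀ : ℕ, 1 ≤ s → s ≤ S → M₀ ≤ c * (L + 1) ^ 5 →
        Real.exp (-((C * M) ^ C)) * ρ₀⁻¹ ^ (s * L) * ((s : ℝ) ^ (24 * L) *
          ((c : ℝ) * (L + 1)) ^ (c * (L + 1))) < ρ₀ ^ (s * M₀)) ∧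
      ∀ (s M₀ : ℕ) (D : ℝ), 1 ≤ s → s ≤ S → (L + 1) ^ 2 ≤ 2 * M₀ → 0 ≤ D →
        D ^ 2 ≤ c * M ^ 2 * (s : ℝ) ^ 3 →
        ρ₁ ^ (s * M₀) < Real.exp (-(2 * D * (c * (L + 1) * (s + M + Real.log (L + 1))))) := by
  have hρ₁0 : 0 < ρ₁ := h0.trans_le h01
  have hcR : (1 : ℝ) ≤ c := by exact_mod_cast hc
  obtain ⟨κ₁, hκ₁⟩ : ∃ κ₁ : ℝ, κ₁ = -Real.log ρ₁ := ⟨_, rfl⟩
  obtain ⟨κ₀, hκ₀⟩ : ∃ κ₀ : ℝ, κ₀ = -Real.log ρ₀ := ⟨_, rfl⟩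
  have hκ₁0 : 0 < κ₁ := by
    rw [hκ₁]
    linarith [Real.log_neg hρ₁0 h1]
  have hκ₀0 : 0 < κ₀ := by
    rw [hκ₀]
    linarith [Real.log_neg h0 (h01.trans_lt h1)]
  have hρ₁ : ρ₁ = Real.exp (-κ₁) := by rw [hκ₁, neg_neg, Real.exp_log hρ₁0]
  have hρ₀ : ρ₀ = Real.exp (-κ₀) := by rw [hκ₀, neg_neg, Real.exp_log h0]
  -- the constants
  obtain ⟨B, hB⟩ : ∃ B : ℝ, B = 40 * (c : ℝ) + 32 * (c : ℝ) ^ 2 + 1 := ⟨_, rfl⟩
  have hB0 : 0 < B := by rw [hB]; positivity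
  obtain ⟨a, ha⟩ : ∃ a : ℝ, a = B / κ₁ + 1 := ⟨_, rfl⟩
  have ha1 : 1 ≤ a := by
    rw [ha]
    have : 0 < B / κ₁ := by positivity
    linarith
  have haκ : B ≤ κ₁ * a := by
    rw [ha, mul_add, mul_div_cancel₀ _ hκ₁0.ne']
    linarith
  obtain ⟨A₁, hA₁⟩ : ∃ A₁ : ℝ, A₁ = (κ₀ + 24 + (c : ℝ) ^ 2 + κ₀ * c) * (2 * a ^ 2) ^ 28 := ⟨_, rfl⟩
  have hA₁0 : 0 ≤ A₁ := by rw [hA₁]; positivity
  obtain ⟨C, hC⟩ := exists_nat_ge (max A₁ 57)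
  have hCA : A₁ ≤ C := (le_max_left _ _).trans hC
  have hC57 : (57 : ℝ) ≤ C := (le_max_right _ _).trans hC
  have hC57' : 57 ≤ C := by exact_mod_cast hC57
  refine ⟨C, by omega, fun M hM => ?_⟩
  -- the parameters
  obtain ⟨W, hW⟩ : ∃ W : ℕ, W = ⌈(a * M) ^ 2⌉₊ := ⟨_, rfl⟩
  have haM : 2 ≤ a * M := by nlinarith
  have hWge : (a * M) ^ 2 ≤ W := by rw [hW]; exact Nat.le_ceil _
  have hWle : (W : ℝ) ≤ 2 * (a * M) ^ 2 := by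
    have h2 : (W : ℝ) < (a * M) ^ 2 + 1 := by rw [hW]; exact Nat.ceil_lt_add_one (by positivity)
    nlinarith
  have hW4 : (4 : ℝ) ≤ W := by nlinarith
  have hW4' : 4 ≤ W := by exact_mod_cast hW4
  have hW1 : (1 : ℝ) ≤ W := by linarith
  obtain ⟨w, hw⟩ : ∃ w : ℝ, w = Real.sqrt W := ⟨_, rfl⟩
  have hw2 : w ^ 2 = (W : ℝ) := by rw [hw]; exact Real.sq_sqrt (by positivity)
  have hwaM : a * M ≤ w := by
    rw [hw]
    exact Real.le_sqrt_of_sq_le hWge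
  have hw1 : 1 ≤ w := by linarith
  have hκw : B * M ≤ κ₁ * w := by
    calc B * M ≤ κ₁ * a * M := mul_le_mul_of_nonneg_right haκ (by linarith)
      _ = κ₁ * (a * M) := by ring
      _ ≤ κ₁ * w := mul_le_mul_of_nonneg_left hwaM hκ₁0.le
  have hκw1 : B ≤ κ₁ * w := by nlinarith
  have hMW : M ≤ (W : ℝ) ^ 3 := by
    have h2 : M ≤ (a * M) ^ 2 := by nlinarith
    have h3 : (W : ℝ) ≤ (W : ℝ) ^ 3 := by
      calc (W : ℝ) = (W : ℝ) ^ 1 := (pow_one _).symm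
        _ ≤ (W : ℝ) ^ 3 := pow_le_pow_right₀ hW1 (by norm_num)
    linarith
  have hW5 : 1 ≤ W ^ 5 := Nat.one_le_pow _ _ (by omega)
  have hL1 : W ^ 5 - 1 + 1 = W ^ 5 := by omega
  have hLR : (((W ^ 5 - 1 : ℕ) : ℝ) + 1) = (W : ℝ) ^ 5 := by
    have := congrArg (fun n : ℕ => (n : ℝ)) hL1
    push_cast at this
    exact this
  have hLle : ((W ^ 5 - 1 : ℕ) : ℝ) ≤ (W : ℝ) ^ 5 := by linarith
  have hX0 : 0 < (c : ℝ) * (W : ℝ) ^ 5 := by positivity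
  have hlogX : Real.log ((c : ℝ) * (W : ℝ) ^ 5) ≤ c + 10 * w := by
    rw [Real.log_mul (by positivity) (by positivity), Real.log_pow]
    have h2 := Num_log_nat c hc
    have h3 := Num_log_sqrt (by linarith : 0 < w) hw2
    push_cast
    linarith
  have hXpow : ((c : ℝ) * (W : ℝ) ^ 5) ^ (c * W ^ 5) =
      Real.exp ((c * (W : ℝ) ^ 5) * Real.log ((c : ℝ) * (W : ℝ) ^ 5)) := by
    have h2 : ((c * W ^ 5 : ℕ) : ℝ) = (c : ℝ) * (W : ℝ) ^ 5 := by push_cast; ring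
    rw [← h2, Real.exp_nat_mul, Real.exp_log (by rw [h2]; exact hX0)]
  have hWpow : W ≤ W ^ 5 := by
    calc W = W ^ 1 := (pow_one _).symm
      _ ≤ W ^ 5 := Nat.pow_le_pow_right (by omega) (by norm_num)
  refine ⟨W ^ 5 - 1, W ^ 3, by omega, ?_, ?_, ?_⟩
  · rw [hL1, hLR, hXpow, hρ₁, ← Real.exp_nat_mul, ← Real.exp_add, Real.exp_lt_one_iff]
    have h2 : ((W ^ 3 * (W ^ 3 + 1) / 2 : ℕ) : ℝ) = (W : ℝ) ^ 3 * ((W : ℝ) ^ 3 + 1) / 2 := by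
      have h3 := Nat.two_mul_div_two_of_even (Nat.even_mul_succ_self (W ^ 3))
      have h4 := congrArg (fun n : ℕ => (n : ℝ)) h3
      push_cast at h4 ⊢
      linarith
    rw [h2]
    have h5 := Num_one hcR hw1 hw2 (by rw [← hB]; exact hκw1)
    have h6 : (c : ℝ) * (W : ℝ) ^ 5 * Real.log ((c : ℝ) * (W : ℝ) ^ 5) ≤ c * (W : ℝ) ^ 5 * (c + 10 * w) :=
      mul_le_mul_of_nonneg_left hlogX hX0.le
    nlinarith
  · intro s M₀ hs1 hs hM₀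
    have hsR : (1 : ℝ) ≤ s := by exact_mod_cast hs1
    have hsR' : (s : ℝ) ≤ (W : ℝ) ^ 3 := by exact_mod_cast hs
    have hM₀R : (M₀ : ℝ) ≤ c * ((W : ℝ) ^ 5) ^ 5 := by
      rw [hL1] at hM₀
      exact_mod_cast hM₀
    have hlogs0 : 0 ≤ Real.log s := Real.log_nonneg hsR
    have hlogs : Real.log s ≤ (W : ℝ) ^ 3 := (Num_log_nat s hs1).trans hsR'
    have hlogX0 : 0 ≤ Real.log ((c : ℝ) * (W : ℝ) ^ 5) := by
      refine Real.log_nonneg ?_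
      calc (1 : ℝ) ≤ c := hcR
        _ ≤ c * (W : ℝ) ^ 5 := le_mul_of_one_le_right (by positivity) (one_le_pow₀ hW1)
    have hlogX1 : Real.log ((c : ℝ) * (W : ℝ) ^ 5) ≤ c * (W : ℝ) ^ 5 := by
      linarith [Real.log_le_sub_one_of_pos hX0]
    have h2 := Num_two (c := (c : ℝ)) (W := (W : ℝ)) (κ := κ₀) (s := (s : ℝ)) (M₀ := (M₀ : ℝ))
      (L := ((W ^ 5 - 1 : ℕ) : ℝ)) (ls := Real.log s) (lc := Real.log ((c : ℝ) * (W : ℝ) ^ 5)) hcR hκ₀0.le hW1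
      hsR' (by positivity) hM₀R (by positivity) hLle hlogs0 hlogs hlogX1
    have hspow : ((s : ℝ)) ^ (24 * (W ^ 5 - 1)) = Real.exp ((24 * ((W ^ 5 - 1 : ℕ) : ℝ)) * Real.log s) := by
      have h3 : ((24 * (W ^ 5 - 1) : ℕ) : ℝ) = 24 * ((W ^ 5 - 1 : ℕ) : ℝ) := by
        rw [Nat.cast_mul]
        norm_num
      rw [← h3, Real.exp_nat_mul, Real.exp_log (by linarith)]
    have hρinv : ρ₀⁻¹ = Real.exp κ₀ := by
      rw [hρ₀, Real.exp_neg, inv_inv]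
    rw [hL1, hLR, hXpow, hspow, hρinv, hρ₀, ← Real.exp_nat_mul, ← Real.exp_nat_mul, ← Real.exp_add, ← Real.exp_add,
      ← Real.exp_add, Real.exp_lt_exp]
    have h4 : A₁ * M ^ 56 < (C * M) ^ C := by
      have h5 : (1 : ℝ) ≤ C * M := by nlinarith
      have h6 : (C * M : ℝ) ^ 57 ≤ (C * M) ^ C := pow_le_pow_right₀ h5 hC57'
      have h7 : A₁ * M ^ 56 < (C * M : ℝ) ^ 57 := by
        have h8 : (C * M : ℝ) ^ 57 = (C : ℝ) ^ 57 * M * M ^ 56 := by ring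
        rw [h8]
        refine mul_lt_mul_of_pos_right ?_ (by positivity)
        have h9 : (C : ℝ) ≤ (C : ℝ) ^ 57 := by
          calc (C : ℝ) = (C : ℝ) ^ 1 := (pow_one _).symm
            _ ≤ (C : ℝ) ^ 57 := pow_le_pow_right₀ (by linarith) (by norm_num)
        nlinarith
      exact h7.trans_le h6
    have h10 : (κ₀ + 24 + (c : ℝ) ^ 2 + κ₀ * c) * (W : ℝ) ^ 28 ≤ A₁ * M ^ 56 := by
      have h11 : (W : ℝ) ^ 28 ≤ (2 * (a * M) ^ 2) ^ 28 := pow_le_pow_left₀ (by positivity) hWle 28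
      have h12 : A₁ * M ^ 56 = (κ₀ + 24 + (c : ℝ) ^ 2 + κ₀ * c) * (2 * (a * M) ^ 2) ^ 28 := by
        rw [hA₁]; ring
      rw [h12]
      exact mul_le_mul_of_nonneg_left h11 (by positivity)
    push_cast at h2 ⊢
    linarith
  · intro s M₀ D hs1 hs hM₀ hD0 hD
    have hsR : (1 : ℝ) ≤ s := by exact_mod_cast hs1
    have hsR' : (s : ℝ) ≤ (W : ℝ) ^ 3 := by exact_mod_cast hs
    have hM₀R : ((W : ℝ) ^ 5) ^ 2 ≤ 2 * M₀ := by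
      rw [hL1] at hM₀
      exact_mod_cast hM₀
    rw [hLR, hρ₁, ← Real.exp_nat_mul, Real.exp_lt_exp]
    have hl0 : 0 ≤ Real.log ((W : ℝ) ^ 5) := Real.log_nonneg (one_le_pow₀ hW1)
    have hl : Real.log ((W : ℝ) ^ 5) ≤ 5 * (W : ℝ) ^ 3 := by
      rw [Real.log_pow]
      have h2 := Num_log_nat W (by omega)
      have h3 : (W : ℝ) ≤ (W : ℝ) ^ 3 := by
        calc (W : ℝ) = (W : ℝ) ^ 1 := (pow_one _).symm
          _ ≤ (W : ℝ) ^ 3 := pow_le_pow_right₀ hW1 (by norm_num)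
      push_cast
      linarith
    have h4 := Num_three hcR hw1 hw2 hM hMW (by rw [← hB]; exact hκw) hsR hsR' hM₀R hD0 hD hl0 hl
    push_cast
    linarith

end Pool.Agent.LGO.PA
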