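import Mathlib
import Pool.Agent.LGO.PA.Defs

/-!
# LGO/PA: the value of a power series at zero from its values at small points

PROOF.  Induction on `S` (for all sequences `x`, `a` and all `μ ≥ 0`).  Write `A(y) = ∑' n, a n * y ^ n`.  `S = 0`: `‖a 0‖ ≤ 1`.  Step: the sequence
`b k = ∑' m, a (k + 1 + m) * x 0 ^ m` has norm at most `1` (nonarchimedean norm) and `b k = a (k + 1) + x 0 * b (k + 1)`, hence
`A(y) - A(x 0) = (y - x 0) B(y)`, `B(y) = ∑' k, b k * y ^ k`, for `‖y‖ < 1`.  For `s ≥ 1`: `‖x s - x 0‖ = ‖x 0‖` (`‖x s‖ < ‖x 0‖`) and `x 0 ≠ 0`, so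
`‖B(x s)‖ ≤ μ / ‖x 0‖` for `1 ≤ s < S + 1`.  Induction hypothesis for `x' s = x (s + 1)`: `‖b 0‖ ≤ max (μ / ‖x 0‖) (∏_{s < S} ‖x (s + 1)‖)`.
`a 0 = A(0) = A(x 0) - x 0 B(0) = A(x 0) - x 0 b 0`, so `‖a 0‖ ≤ max μ (‖x 0‖ ‖b 0‖) ≤ max μ (∏_{s < S + 1} ‖x s‖)`.
-/

namespace Pool.Agent.LGO.PA

variable {p : ℕ} [Fact p.Prime]

/-- the norm of an infinite sum is at most the bound of the norms of the terms -/
theorem Newt_norm_tsum_le {f : ℕ → ℂ_[p]} {C : ℝ} (hC : 0 ≤ C) (hf : ∀ n, ‖f n‖ ≤ C)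
    (hs : Summable f) : ‖∑' n, f n‖ ≤ C := by
  have h1 := hs.hasSum.norm
  refine le_of_tendsto h1 (Filter.Eventually.of_forall fun s => ?_)
  exact IsUltrametricDist.norm_sum_le_of_forall_le_of_nonneg hC fun i _ => hf i

/-- a power series with coefficients of norm at most one converges in the open unit disc -/
theorem Newt_summable {a : ℕ → ℂ_[p]} (ha : ∀ n, ‖a n‖ ≤ 1) {y : ℂ_[p]} (hy : ‖y‖ < 1) :
    Summable fun n => a n * y ^ n := by
  refine Summable.of_norm_bounded (g := fun n => ‖y‖ ^ n)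
    (summable_geometric_of_lt_one (norm_nonneg _) hy) fun n => ?_
  rw [norm_mul, norm_pow]
  calc ‖a n‖ * ‖y‖ ^ n ≤ 1 * ‖y‖ ^ n := by gcongr; exact ha n
    _ = ‖y‖ ^ n := one_mul _

/-- the quotient series -/
noncomputable def Newt_b (a : ℕ → ℂ_[p]) (z : ℂ_[p]) (k : ℕ) : ℂ_[p] :=
  ∑' m, a (k + 1 + m) * z ^ m

theorem Newt_b_norm {a : ℕ → ℂ_[p]} (ha : ∀ n, ‖a n‖ ≤ 1) {z : ℂ_[p]} (hz : ‖z‖ < 1) (k : ℕ) :
    ‖Newt_b a z k‖ ≤ 1 := by
  refine Newt_norm_tsum_le zero_le_one (fun m => ?_) (Newt_summable (fun n => ha _) hz)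
  rw [norm_mul, norm_pow]
  exact mul_le_one₀ (ha _) (by positivity) (pow_le_one₀ (norm_nonneg _) hz.le)

theorem Newt_b_rec {a : ℕ → ℂ_[p]} (ha : ∀ n, ‖a n‖ ≤ 1) {z : ℂ_[p]} (hz : ‖z‖ < 1) (k : ℕ) :
    Newt_b a z k = a (k + 1) + z * Newt_b a z (k + 1) := by
  unfold Newt_b
  rw [(Newt_summable (a := fun m => a (k + 1 + m)) (fun n => ha _) hz).tsum_eq_zero_add,
    ← tsum_mul_left]
  simp only [add_zero, pow_zero, mul_one]
  congr 1
  refine tsum_congr fun m => ?_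
  rw [show k + 1 + (m + 1) = k + 1 + 1 + m by ring]
  ring

theorem Newt_factor {a : ℕ → ℂ_[p]} (ha : ∀ n, ‖a n‖ ≤ 1) {z y : ℂ_[p]} (hz : ‖z‖ < 1)
    (hy : ‖y‖ < 1) :
    (y - z) * ∑' k, Newt_b a z k * y ^ k = ∑' n, a n * y ^ n - a 0 - z * Newt_b a z 0 := by
  have hb := Newt_b_norm ha hz
  have s1 := Newt_summable hb hy
  have s2 := Newt_summable (a := fun k => Newt_b a z (k + 1)) (fun n => hb _) hy
  have sa := Newt_summable ha hy
  have sa1 := Newt_summable (a := fun k => a (k + 1)) (fun n => ha _) hy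
  have e0 : ∑' k, Newt_b a z k * y ^ k = Newt_b a z 0 + y * ∑' k, Newt_b a z (k + 1) * y ^ k := by
    rw [s1.tsum_eq_zero_add, ← tsum_mul_left]
    simp only [pow_zero, mul_one]
    congr 1
    exact tsum_congr fun m => by ring
  have e1 : ∑' k, Newt_b a z k * y ^ k
      = ∑' k, a (k + 1) * y ^ k + z * ∑' k, Newt_b a z (k + 1) * y ^ k := by
    rw [← tsum_mul_left, ← sa1.tsum_add (s2.mul_left z)]
    refine tsum_congr fun k => ?_
    rw [Newt_b_rec ha hz k]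
    ring
  have e2 : ∑' n, a n * y ^ n = a 0 + y * ∑' k, a (k + 1) * y ^ k := by
    rw [sa.tsum_eq_zero_add, ← tsum_mul_left]
    simp only [pow_zero, mul_one]
    congr 1
    exact tsum_congr fun m => by ring
  rw [e2]
  linear_combination y * e1 - z * e0

theorem newt (S : ℕ) (x : ℕ → ℂ_[p]) (hx0 : ∀ s, x s ≠ 0) (hx1 : ∀ s, ‖x s‖ < 1)
    (hx : ∀ s, ‖x (s + 1)‖ < ‖x s‖) (a : ℕ → ℂ_[p]) (ha : ∀ n, ‖a n‖ ≤ 1) {μ : ℝ} (hμ : 0 ≤ μ)
    (h : ∀ s < S, ‖∑' n, a n * x s ^ n‖ ≤ μ) :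
    ‖a 0‖ ≤ max μ (∏ s ∈ Finset.range S, ‖x s‖) := by
  induction S generalizing x a μ with
  | zero => simpa using Or.inr (ha 0)
  | succ S ih =>
    have hpos : 0 < ‖x 0‖ := norm_pos_iff.mpr (hx0 0)
    have hanti : StrictAnti fun s => ‖x s‖ := strictAnti_nat_of_succ_lt hx
    have hb := Newt_b_norm ha (hx1 0)
    have hself := Newt_factor ha (hx1 0) (hx1 0)
    rw [sub_self, zero_mul] at hself
    have hB : ∀ s < S, ‖∑' n, Newt_b a (x 0) n * x (s + 1) ^ n‖ ≤ μ / ‖x 0‖ := by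
      intro s hs
      have h1 := Newt_factor ha (hx1 0) (hx1 (s + 1))
      have h2 : (x (s + 1) - x 0) * ∑' k, Newt_b a (x 0) k * x (s + 1) ^ k
          = ∑' n, a n * x (s + 1) ^ n - ∑' n, a n * x 0 ^ n := by
        rw [h1]; linear_combination -hself
      have h3 : ‖x (s + 1) - x 0‖ = ‖x 0‖ := by
        have hlt : ‖x (s + 1)‖ < ‖x 0‖ := hanti (Nat.succ_pos s)
        rw [sub_eq_add_neg, IsUltrametricDist.norm_add_eq_max_of_norm_ne_norm
          (by rw [norm_neg]; exact hlt.ne), norm_neg, max_eq_right hlt.le]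
      have h4 : ‖∑' n, a n * x (s + 1) ^ n - ∑' n, a n * x 0 ^ n‖ ≤ μ := by
        rw [sub_eq_add_neg]
        refine (IsUltrametricDist.norm_add_le_max _ _).trans (max_le (h _ (by omega)) ?_)
        rw [norm_neg]
        exact h _ (by omega)
      rw [le_div_iff₀ hpos, mul_comm]
      calc ‖x 0‖ * ‖∑' k, Newt_b a (x 0) k * x (s + 1) ^ k‖
          = ‖(x (s + 1) - x 0) * ∑' k, Newt_b a (x 0) k * x (s + 1) ^ k‖ := by
            rw [norm_mul, h3]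
        _ ≤ μ := by rw [h2]; exact h4
    have key := ih (fun s => x (s + 1)) (fun s => hx0 _) (fun s => hx1 _) (fun s => hx _)
      (Newt_b a (x 0)) hb (div_nonneg hμ hpos.le) hB
    have e : a 0 = ∑' n, a n * x 0 ^ n - x 0 * Newt_b a (x 0) 0 := by
      linear_combination hself
    have h5 : ‖a 0‖ ≤ max μ (‖x 0‖ * ‖Newt_b a (x 0) 0‖) := by
      rw [e, sub_eq_add_neg]
      refine (IsUltrametricDist.norm_add_le_max _ _).trans ?_
      rw [norm_neg, norm_mul]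
      exact max_le_max (h 0 (by omega)) le_rfl
    refine h5.trans (max_le (le_max_left _ _) ?_)
    calc ‖x 0‖ * ‖Newt_b a (x 0) 0‖
        ≤ ‖x 0‖ * max (μ / ‖x 0‖) (∏ s ∈ Finset.range S, ‖x (s + 1)‖) := by gcongr
      _ = max μ (∏ s ∈ Finset.range (S + 1), ‖x s‖) := by
          rw [mul_max_of_nonneg _ _ hpos.le, mul_div_cancel₀ _ hpos.ne', Finset.prod_range_succ',
            mul_comm (∏ s ∈ Finset.range S, ‖x (s + 1)‖)]
      _ ≤ _ := le_rfl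

end Pool.Agent.LGO.PA
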