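import Mathlib
import Pool.Agent.LGO.PA.Ev
import Pool.Agent.LGO.PA.Newt

/-!
# LGO/PA: a point where the auxiliary function is not too small

PROOF.  `F = X ^ M * G` with `G : ℤ⟦X⟧` (`coeff n G = coeff (n + M) F`), `c = coeff M F = coeff 0 G ≠ 0`; `ev F (q ^ s) = (q ^ s) ^ M ev G (q ^ s)`
(`ev_mul`, `ev_pow`, `ev_X`).  Suppose that `‖q‖ ^ (s M) > |c| ‖ev F (q ^ s)‖` for all `1 ≤ s ≤ S`; then `‖ev G (q ^ s)‖ < 1 / |c|` for all of them; let `μ ≥ 0` be the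
maximum of these numbers (`0` if `S = 0`), `μ < 1 / |c|`.  `newt` with `x s = q ^ (s + 1)`, `a n = (coeff n G : ℂ_[p])`: `‖c‖ ≤ max μ (‖q‖ ^ (S (S + 1) / 2)) < 1 / |c| ≤ ‖c‖`
(`∏_{s < S} ‖q‖ ^ (s + 1) = ‖q‖ ^ (S (S + 1) / 2)`, `int_norm_ge`), a contradiction.
-/

namespace Pool.Agent.LGO.PA

open PowerSeries

variable {p : ℕ} [Fact p.Prime]

private lemma Pick_prod (a : ℝ) (S : ℕ) :
    (∏ s ∈ Finset.range S, a ^ (s + 1)) = a ^ (S * (S + 1) / 2) := by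
  rw [Finset.prod_pow_eq_pow_sum]
  congr 1
  rw [Finset.sum_add_distrib, Finset.sum_const, Finset.card_range, smul_eq_mul, mul_one,
    Finset.sum_range_id]
  rcases S with _ | S
  · rfl
  · have h1 : (S + 1) * (S + 1 + 1) = (S + 1) * (S + 1 - 1) + 2 * (S + 1) := by
      rw [Nat.add_sub_cancel]; ring
    rw [h1, Nat.add_mul_div_left _ _ (by norm_num)]

theorem pick {q : ℂ_[p]} (hq0 : 0 < ‖q‖) (hq : ‖q‖ < 1) (F : ℤ⟦X⟧) (M S : ℕ)
    (hM : ∀ n < M, coeff n F = 0) (hc : coeff M F ≠ 0)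
    (hS : ‖q‖ ^ (S * (S + 1) / 2) * ((|coeff M F| : ℤ) : ℝ) < 1) :
    ∃ s : ℕ, 1 ≤ s ∧ s ≤ S ∧
      ‖q‖ ^ (s * M) ≤ ((|coeff M F| : ℤ) : ℝ) * ‖ev (Int.castRingHom ℂ_[p]) F (q ^ s)‖ := by
  by_contra hcon
  have hcon' : ∀ s : ℕ, 1 ≤ s → s ≤ S →
      ((|coeff M F| : ℤ) : ℝ) * ‖ev (Int.castRingHom ℂ_[p]) F (q ^ s)‖ < ‖q‖ ^ (s * M) :=
    fun s h1 h2 => lt_of_not_ge fun h3 => hcon ⟨s, h1, h2, h3⟩
  set c : ℤ := coeff M F with hcdef
  have hcpos : (0 : ℝ) < ((|c| : ℤ) : ℝ) := by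
    have : 0 < |c| := abs_pos.mpr hc
    exact_mod_cast this
  set G : ℤ⟦X⟧ := PowerSeries.mk fun n => coeff (n + M) F with hG
  have hFG : F = X ^ M * G := by
    ext n
    rw [coeff_X_pow_mul']
    split_ifs with h
    · rw [hG, coeff_mk, Nat.sub_add_cancel h]
    · exact hM n (not_le.mp h)
  have hqs : ∀ s : ℕ, 1 ≤ s → ‖q ^ s‖ < 1 := fun s hs => by
    rw [norm_pow]
    exact pow_lt_one₀ (norm_nonneg _) hq (by omega)
  have hG1 : ∀ s : ℕ, s < S →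
      ‖ev (Int.castRingHom ℂ_[p]) G (q ^ (s + 1))‖₊ < (((|c| : ℤ) : ℝ).toNNReal)⁻¹ := by
    intro s hs
    have h1 := hcon' (s + 1) (by omega) (by omega)
    have h2 := hqs (s + 1) (by omega)
    have h3 : ev (Int.castRingHom ℂ_[p]) F (q ^ (s + 1)) =
        (q ^ (s + 1)) ^ M * ev (Int.castRingHom ℂ_[p]) G (q ^ (s + 1)) := by
      conv_lhs => rw [hFG]
      rw [ev_mul castHom_norm_le h2, ev_pow castHom_norm_le h2, ev_X]
    rw [h3, norm_mul, norm_pow, norm_pow, ← pow_mul] at h1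
    have h4 : 0 < ‖q‖ ^ ((s + 1) * M) := pow_pos hq0 _
    have h5 : ((|c| : ℤ) : ℝ) * ‖ev (Int.castRingHom ℂ_[p]) G (q ^ (s + 1))‖ < 1 := by
      by_contra h6
      have h7 := mul_le_mul_of_nonneg_left (not_lt.mp h6) h4.le
      rw [mul_one] at h7
      have h8 : ‖q‖ ^ ((s + 1) * M) * (((|c| : ℤ) : ℝ) * ‖ev (Int.castRingHom ℂ_[p]) G (q ^ (s + 1))‖) =
          ((|c| : ℤ) : ℝ) * (‖q‖ ^ ((s + 1) * M) * ‖ev (Int.castRingHom ℂ_[p]) G (q ^ (s + 1))‖) := by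
        ring
      rw [h8] at h7
      exact absurd h1 (not_lt.mpr h7)
    rw [← NNReal.coe_lt_coe, NNReal.coe_inv, Real.coe_toNNReal _ hcpos.le, coe_nnnorm, ← one_div,
      lt_div_iff₀' hcpos]
    exact h5
  have hnn : (0 : NNReal) < (((|c| : ℤ) : ℝ).toNNReal)⁻¹ := by
    rw [← NNReal.coe_lt_coe, NNReal.coe_inv, Real.coe_toNNReal _ hcpos.le]
    exact inv_pos.mpr hcpos
  set μ : NNReal := (Finset.range S).sup
    fun s => ‖ev (Int.castRingHom ℂ_[p]) G (q ^ (s + 1))‖₊ with hμ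
  have hμ1 : μ < (((|c| : ℤ) : ℝ).toNNReal)⁻¹ :=
    (Finset.sup_lt_iff hnn).mpr fun s hs => hG1 s (Finset.mem_range.mp hs)
  have hμ2 : (μ : ℝ) < (((|c| : ℤ) : ℝ))⁻¹ := by
    rw [← NNReal.coe_lt_coe, NNReal.coe_inv, Real.coe_toNNReal _ hcpos.le] at hμ1
    exact hμ1
  have hqne : q ≠ 0 := norm_pos_iff.mp hq0
  have hn := newt S (fun s => q ^ (s + 1)) (fun s => pow_ne_zero _ hqne)
    (fun s => hqs (s + 1) (by omega))
    (fun s => by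
      rw [norm_pow, norm_pow]
      exact pow_lt_pow_right_of_lt_one₀ hq0 hq (by omega))
    (fun n => Int.castRingHom ℂ_[p] (coeff n G)) (fun n => castHom_norm_le _) (μ := μ) μ.2
    (fun s hs => by
      have h := Finset.le_sup (f := fun s => ‖ev (Int.castRingHom ℂ_[p]) G (q ^ (s + 1))‖₊)
        (Finset.mem_range.mpr hs)
      exact NNReal.coe_le_coe.mpr h)
  have hcG : coeff 0 G = c := by rw [hG, coeff_mk, zero_add]
  have hlow := int_norm_ge (p := p) hc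
  simp only [norm_pow, Pick_prod, hcG, eq_intCast] at hn
  have hlow' : (((|c| : ℤ) : ℝ))⁻¹ ≤ ‖(c : ℂ_[p])‖ := by
    rw [Int.cast_abs]
    exact hlow
  have hq2 : ‖q‖ ^ (S * (S + 1) / 2) < (((|c| : ℤ) : ℝ))⁻¹ := by
    rw [← one_div, lt_div_iff₀ hcpos]
    exact hS
  exact absurd (hlow'.trans hn) (not_le.mpr (max_lt hμ2 hq2))

end Pool.Agent.LGO.PA
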