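import Mathlib
import Pool.Agent.LGO.PA.Crit

/-!
# LGO/PA: the finitely many places where an algebraic number is not integral

PROOF.  Let `P ∈ ℤ[X]`, `P ≠ 0`, `P(β) = 0`, with leading coefficient `m ≥ 1` (or take `m ≥ 1` with `m β` integral).  `‖φ(m β)‖ ≤ 1`
(`norm_le_one_of_integral`), so `‖φ β‖ ≤ ‖m‖⁻¹ ≤ m` (`int_norm_ge`), and `‖m‖ = 1` if `p` does not divide `m`.  So if `‖φ β‖ > 1` then `p ∣ m`
and `φ β` is one of the finitely many roots of the minimal polynomial of `β` in `ℂ_[p]`.  The set of all values `‖φ β‖ > 1` (all `p`, `φ`) is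
finite; take `ρ₀ = 1 / m` and `ρ₁ < 1` larger than the inverses of these values.
-/

namespace Pool.Agent.LGO.PA

private theorem Rho_sup {T : Set ℝ} (hT : T.Finite) (h : ∀ t ∈ T, t < 1) :
    ∃ r : ℝ, 1 / 2 ≤ r ∧ r < 1 ∧ ∀ t ∈ T, t ≤ r := by
  induction T, hT using Set.Finite.induction_on with
  | empty => exact ⟨1 / 2, le_rfl, by norm_num, fun t ht => absurd ht (Set.notMem_empty t)⟩
  | @insert a S _ _ ih =>
    obtain ⟨r, h1, h2, h3⟩ := ih fun t ht => h t (Set.mem_insert_of_mem a ht)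
    refine ⟨max a r, h1.trans (le_max_right _ _), max_lt (h a (Set.mem_insert a S)) h2, ?_⟩
    intro t ht
    rcases Set.mem_insert_iff.mp ht with rfl | ht
    · exact le_max_left _ _
    · exact (h3 t ht).trans (le_max_right _ _)

/-- one prime -/
private theorem Rho_one {β : ℂ} (hβ : IsAlgebraic ℚ β) (p : ℕ) :
    ∃ r : ℝ, r < 1 ∧ ∀ [Fact p.Prime] (φ : ℂ →+* ℂ_[p]), 1 < ‖φ β‖ → ‖φ β‖⁻¹ ≤ r := by
  by_cases hp : p.Prime
  · have : Fact p.Prime := ⟨hp⟩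
    have hfin : ((fun z : ℂ_[p] => if 1 < ‖z‖ then ‖z‖⁻¹ else 0) ''
        ((minpoly ℚ β).rootSet ℂ_[p])).Finite :=
      (Polynomial.rootSet_finite _ _).image _
    obtain ⟨r, -, h2, h3⟩ := Rho_sup hfin (by
      rintro _ ⟨z, -, rfl⟩
      dsimp only
      split_ifs with h
      · exact inv_lt_one_of_one_lt₀ h
      · exact zero_lt_one)
    refine ⟨r, h2, ?_⟩
    intro inst φ hφ
    have hroot : φ β ∈ (minpoly ℚ β).rootSet ℂ_[p] := by
      rw [Polynomial.mem_rootSet]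
      refine ⟨minpoly.ne_zero hβ.isIntegral, ?_⟩
      have h4 : (Polynomial.aeval (φ.toRatAlgHom β) (minpoly ℚ β) : ℂ_[p]) = 0 := by
        rw [Polynomial.aeval_algHom_apply, minpoly.aeval, map_zero]
      exact h4
    have h5 := h3 _ ⟨φ β, hroot, rfl⟩
    dsimp only at h5
    rwa [if_pos hφ] at h5
  · exact ⟨1 / 2, by norm_num, fun {inst} _ _ => absurd inst.out hp⟩

private theorem Rho_dvd {p : ℕ} [Fact p.Prime] {m : ℕ} (h : ¬ p ∣ m) : ‖(m : ℂ_[p])‖ = 1 := by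
  have h1 : ‖((m : ℚ_[p]) : ℂ_[p])‖ = ‖(m : ℚ_[p])‖ := PadicComplex.norm_extends' p _
  have h2 : ((m : ℚ_[p]) : ℂ_[p]) = (m : ℂ_[p]) := map_natCast (algebraMap ℚ_[p] ℂ_[p]) m
  rw [← h2, h1, Padic.norm_natCast_eq_one_iff]
  exact (Nat.Prime.coprime_iff_not_dvd (Fact.out : p.Prime)).mpr h

theorem exists_rho {β : ℂ} (hβ : IsAlgebraic ℚ β) : ∃ (m : ℕ) (ρ₀ ρ₁ : ℝ), 0 < m ∧ 0 < ρ₀ ∧
    ρ₀ ≤ ρ₁ ∧ ρ₁ < 1 ∧ IsIntegral ℤ ((m : ℂ) * β) ∧
    ∀ (p : ℕ) [Fact p.Prime] (φ : ℂ →+* ℂ_[p]), 1 < ‖φ β‖ →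
      p ∣ m ∧ ρ₀ ≤ ‖φ β‖⁻¹ ∧ ‖φ β‖⁻¹ ≤ ρ₁ := by
  have hβ' : IsAlgebraic ℤ β := (IsFractionRing.isAlgebraic_iff ℤ ℚ ℂ).mpr hβ
  obtain ⟨y, hy0, hy⟩ := hβ'.exists_integral_multiple
  have hm : IsIntegral ℤ ((y.natAbs : ℂ) * β) := by
    have h1 : ((y.natAbs : ℤ) : ℂ) = y ∨ ((y.natAbs : ℤ) : ℂ) = -y := by
      rcases Int.natAbs_eq y with h | h
      · left
        rw [← h]
      · right
        conv_rhs => rw [h]
        push_cast
        ring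
    have h2 : (y.natAbs : ℂ) = ((y.natAbs : ℤ) : ℂ) := (Int.cast_natCast y.natAbs).symm
    rw [h2]
    rw [zsmul_eq_mul] at hy
    rcases h1 with h | h
    · rw [h]
      exact hy
    · rw [h, neg_mul]
      exact hy.neg
  set m := y.natAbs with hmdef
  have hm0 : 0 < m := Int.natAbs_pos.mpr hy0
  choose r hr1 hr2 using fun p => Rho_one hβ p
  obtain ⟨ρ₁, h1, h2, h3⟩ := Rho_sup (T := r '' (m.divisors : Set ℕ))
    ((Finset.finite_toSet _).image _) (by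
      rintro _ ⟨p, -, rfl⟩
      exact hr1 p)
  have hmR : (1 : ℝ) ≤ m := by exact_mod_cast hm0
  refine ⟨m, min (m : ℝ)⁻¹ ρ₁, ρ₁, hm0, lt_min (by positivity) (by linarith), min_le_right _ _,
    h2, hm, ?_⟩
  intro p inst φ hφ
  have hint : ‖φ ((m : ℂ) * β)‖ ≤ 1 := norm_le_one_of_integral φ hm
  rw [map_mul, map_natCast, norm_mul] at hint
  have hdvd : p ∣ m := by
    by_contra hcon
    rw [Rho_dvd hcon, one_mul] at hint
    exact absurd hint (not_le.mpr hφ)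
  refine ⟨hdvd, ?_, ?_⟩
  · refine (min_le_left _ _).trans ?_
    have h5 : ((m : ℝ))⁻¹ ≤ ‖(m : ℂ_[p])‖ := by
      have := int_norm_ge (p := p) (n := (m : ℤ)) (by exact_mod_cast hm0.ne')
      simpa using this
    have h6 : 0 < ‖φ β‖ := by linarith
    rw [← one_div, ← one_div, div_le_div_iff₀ (by linarith) h6]
    have h7 : (m : ℝ)⁻¹ * ‖φ β‖ ≤ 1 := (mul_le_mul_of_nonneg_right h5 h6.le).trans hint
    have h8 : (m : ℝ) * ((m : ℝ)⁻¹ * ‖φ β‖) ≤ m * 1 := mul_le_mul_of_nonneg_left h7 (by linarith)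
    rw [← mul_assoc, mul_inv_cancel₀ (by linarith), one_mul, mul_one] at h8
    linarith
  · exact (hr2 p φ hφ).trans (h3 _ ⟨p, by simp [hdvd, hm0.ne'], rfl⟩)

end Pool.Agent.LGO.PA
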