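import Mathlib
import Pool.Agent.LGO.PA.Defs

/-!
# LGO/PA: the functions `∑ P i j E₄ ^ (3 i) Δ ^ j`, their coefficients

PROOF of `coef_le`.  Say that `A : ℤ⟦X⟧` has type `(c, k)` if `|coeff n A| ≤ c (n + 1) ^ k` for all `n` (`c k : ℕ`).  If `A` has type `(c, k)` and `B`
type `(c', k')` then `A * B` has type `(c c', k + k' + 1)` (`n + 1` summands).  So `A ^ m` has type `(c ^ m, (k + 1) m)` (`m = 0`: `1` has type
`(1, 0)`).  `E4s` and `Ds` are of some types (`σ_k(n) ≤ n ^ (k + 1)`).  So for `i, j ≤ L` the coefficient of `E4s ^ (3 i) * Ds ^ j` is at most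
`c ^ (4 L) (n + 1) ^ (4 (k + 1) L + 1)`.
`fp_coef_le`: `(L + 1) ^ 2` summands.
-/

namespace Pool.Agent.LGO.PA

open PowerSeries

/-- the function `∑ P i j E₄ ^ (3 i) Δ ^ j` -/
noncomputable def FP (L : ℕ) (P : Fin (L + 1) → Fin (L + 1) → ℤ) : ℤ⟦X⟧ :=
  ∑ i : Fin (L + 1), ∑ j : Fin (L + 1), C (P i j) * (E4s ^ (3 * (i : ℕ)) * Ds ^ (j : ℕ))

/-- the power series is of type `(c, k)` -/
private def Coef_T (c k : ℕ) (A : ℤ⟦X⟧) : Prop := ∀ n : ℕ, |coeff n A| ≤ (c : ℤ) * ((n : ℤ) + 1) ^ k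

private theorem Coef_T.mono {c k c' k' : ℕ} {A : ℤ⟦X⟧} (h : Coef_T c k A) (hc : c ≤ c') (hk : k ≤ k') :
    Coef_T c' k' A := by
  intro n
  have h1 : (1 : ℤ) ≤ (n : ℤ) + 1 := by
    have := Int.natCast_nonneg n
    linarith
  have h2 : ((n : ℤ) + 1) ^ k ≤ ((n : ℤ) + 1) ^ k' := pow_le_pow_right₀ h1 hk
  have h3 : (c : ℤ) ≤ c' := by exact_mod_cast hc
  have h4 : (0 : ℤ) ≤ ((n : ℤ) + 1) ^ k := by positivity
  calc |coeff n A| ≤ (c : ℤ) * ((n : ℤ) + 1) ^ k := h n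
    _ ≤ (c' : ℤ) * ((n : ℤ) + 1) ^ k := mul_le_mul_of_nonneg_right h3 h4
    _ ≤ (c' : ℤ) * ((n : ℤ) + 1) ^ k' := mul_le_mul_of_nonneg_left h2 (by positivity)

private theorem Coef_T.add {c c' k : ℕ} {A B : ℤ⟦X⟧} (hA : Coef_T c k A) (hB : Coef_T c' k B) :
    Coef_T (c + c') k (A + B) := by
  intro n
  have h1 := hA n
  have h2 := hB n
  have h3 : |coeff n (A + B)| ≤ |coeff n A| + |coeff n B| := by
    rw [map_add]
    exact abs_add_le _ _
  push_cast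
  nlinarith [h1, h2, h3]

private theorem Coef_T.sub {c c' k : ℕ} {A B : ℤ⟦X⟧} (hA : Coef_T c k A) (hB : Coef_T c' k B) :
    Coef_T (c + c') k (A - B) := by
  intro n
  have h1 := hA n
  have h2 := hB n
  have h3 : |coeff n (A - B)| ≤ |coeff n A| + |coeff n B| := by
    rw [map_sub]
    exact abs_sub _ _
  push_cast
  nlinarith [h1, h2, h3]

private theorem Coef_T.mul {c c' k k' : ℕ} {A B : ℤ⟦X⟧} (hA : Coef_T c k A) (hB : Coef_T c' k' B) :
    Coef_T (c * c') (k + k' + 1) (A * B) := by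
  intro n
  rw [coeff_mul]
  have h1 : ∀ p ∈ Finset.HasAntidiagonal.antidiagonal n, |coeff p.1 A * coeff p.2 B| ≤
      ((c : ℤ) * ((n : ℤ) + 1) ^ k) * ((c' : ℤ) * ((n : ℤ) + 1) ^ k') := by
    intro p hp
    have hp' : p.1 + p.2 = n := Finset.HasAntidiagonal.mem_antidiagonal.1 hp
    have e1 : (p.1 : ℤ) + 1 ≤ (n : ℤ) + 1 := by
      have : p.1 ≤ n := by omega
      have : (p.1 : ℤ) ≤ n := by exact_mod_cast this
      linarith
    have e2 : (p.2 : ℤ) + 1 ≤ (n : ℤ) + 1 := by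
      have : p.2 ≤ n := by omega
      have : (p.2 : ℤ) ≤ n := by exact_mod_cast this
      linarith
    have e3 : ((p.1 : ℤ) + 1) ^ k ≤ ((n : ℤ) + 1) ^ k := pow_le_pow_left₀ (by positivity) e1 _
    have e4 : ((p.2 : ℤ) + 1) ^ k' ≤ ((n : ℤ) + 1) ^ k' := pow_le_pow_left₀ (by positivity) e2 _
    rw [abs_mul]
    apply mul_le_mul
    · exact (hA p.1).trans (mul_le_mul_of_nonneg_left e3 (by positivity))
    · exact (hB p.2).trans (mul_le_mul_of_nonneg_left e4 (by positivity))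
    · exact abs_nonneg _
    · positivity
  calc |∑ p ∈ Finset.HasAntidiagonal.antidiagonal n, coeff p.1 A * coeff p.2 B|
      ≤ ∑ p ∈ Finset.HasAntidiagonal.antidiagonal n, |coeff p.1 A * coeff p.2 B| := Finset.abs_sum_le_sum_abs _ _
    _ ≤ ∑ _p ∈ Finset.HasAntidiagonal.antidiagonal n,
        ((c : ℤ) * ((n : ℤ) + 1) ^ k) * ((c' : ℤ) * ((n : ℤ) + 1) ^ k') := Finset.sum_le_sum h1
    _ = ((c * c' : ℕ) : ℤ) * ((n : ℤ) + 1) ^ (k + k' + 1) := by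
      rw [Finset.sum_const, Finset.Nat.card_antidiagonal, nsmul_eq_mul]
      push_cast
      ring

private theorem Coef_T.one : Coef_T 1 0 (1 : ℤ⟦X⟧) := by
  intro n
  rw [coeff_one]
  split_ifs <;> simp

private theorem Coef_T.C (a : ℕ) : Coef_T a 0 (PowerSeries.C (a : ℤ)) := by
  intro n
  rw [coeff_C]
  split_ifs <;> simp

private theorem Coef_T.pow {c k : ℕ} {A : ℤ⟦X⟧} (hA : Coef_T c k A) (m : ℕ) :
    Coef_T (c ^ m) ((k + 1) * m) (A ^ m) := by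
  induction m with
  | zero => simpa using Coef_T.one
  | succ m ih =>
    rw [pow_succ, pow_succ]
    refine (ih.mul hA).mono le_rfl ?_
    ring_nf
    exact le_rfl

private theorem Coef_sigma (k : ℕ) : Coef_T 1 (k + 1) (PowerSeries.mk fun n => (ArithmeticFunction.sigma k n : ℤ)) := by
  intro n
  rw [coeff_mk]
  have h := ArithmeticFunction.sigma_le_pow_succ k n
  have h1 : ((ArithmeticFunction.sigma k n : ℕ) : ℤ) ≤ (n : ℤ) ^ (k + 1) := by exact_mod_cast h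
  have h2 : (n : ℤ) ^ (k + 1) ≤ ((n : ℤ) + 1) ^ (k + 1) :=
    pow_le_pow_left₀ (by positivity) (by linarith) _
  rw [abs_of_nonneg (by positivity)]
  simpa using h1.trans h2

private theorem Coef_sA : Coef_T 1 4 sA := Coef_sigma 3

private theorem Coef_sB : Coef_T 1 6 sB := Coef_sigma 5

private theorem Coef_E4s : ∃ c k : ℕ, Coef_T c k E4s := by
  refine ⟨1 + 240 * 1, 0 + 4 + 1, ?_⟩
  unfold E4s
  exact (Coef_T.one.mono le_rfl (by norm_num)).add ((Coef_T.C 240).mul Coef_sA)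

private theorem Coef_mk : Coef_T 12 6 (PowerSeries.mk (fun n =>
    (5 * (ArithmeticFunction.sigma 3 n : ℤ) + 7 * (ArithmeticFunction.sigma 5 n : ℤ)) / 12)) := by
  intro n
  rw [coeff_mk]
  have h3 := Coef_sigma 3 n
  have h5 := Coef_sigma 5 n
  rw [coeff_mk, abs_of_nonneg (by positivity)] at h3 h5
  have h34 : ((n : ℤ) + 1) ^ (3 + 1) ≤ ((n : ℤ) + 1) ^ 6 :=
    pow_le_pow_right₀ (by have := Int.natCast_nonneg n; linarith) (by norm_num)
  have hnn : (0 : ℤ) ≤ 5 * (ArithmeticFunction.sigma 3 n : ℤ) + 7 * (ArithmeticFunction.sigma 5 n : ℤ) := by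
    positivity
  rw [abs_of_nonneg (Int.ediv_nonneg hnn (by norm_num))]
  have h6 : (5 * (ArithmeticFunction.sigma 3 n : ℤ) + 7 * (ArithmeticFunction.sigma 5 n : ℤ)) / 12 ≤
      5 * (ArithmeticFunction.sigma 3 n : ℤ) + 7 * (ArithmeticFunction.sigma 5 n : ℤ) :=
    Int.ediv_le_self _ hnn
  refine h6.trans ?_
  push_cast at h3 h5 ⊢
  norm_num at h3 h5 h34 ⊢
  linarith

private theorem Coef_Ds : ∃ c k : ℕ, Coef_T c k Ds := by
  have h2 := (Coef_T.C 100).mul (Coef_sA.pow 2)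
  have h3 := (Coef_T.C 8000).mul (Coef_sA.pow 3)
  have h4 := (Coef_T.C 147).mul (Coef_sB.pow 2)
  have h1 := Coef_mk
  refine ⟨_, 100, (((h1.mono le_rfl ?_).add (h2.mono le_rfl ?_)).add (h3.mono le_rfl ?_)).sub (h4.mono le_rfl ?_)⟩
  all_goals norm_num

private theorem Coef_both : ∃ c k : ℕ, 1 ≤ c ∧ Coef_T c k E4s ∧ Coef_T c k Ds := by
  obtain ⟨c, k, h⟩ := Coef_E4s
  obtain ⟨c', k', h'⟩ := Coef_Ds
  exact ⟨c + c' + 1, k + k', by omega, h.mono (by omega) (by omega), h'.mono (by omega) (by omega)⟩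

theorem coef_le : ∃ c : ℕ, 1 ≤ c ∧ ∀ L i j n : ℕ, i ≤ L → j ≤ L →
    ((|coeff n (E4s ^ (3 * i) * Ds ^ j)| : ℤ) : ℝ) ≤ ((c : ℝ) * (n + 1)) ^ (c * (L + 1)) := by
  obtain ⟨c, k, hc, hE, hD⟩ := Coef_both
  refine ⟨c + 4 * (k + 1) + 1, by omega, ?_⟩
  intro L i j n hi hj
  set d : ℕ := c + 4 * (k + 1) + 1 with hd
  have h1 := ((hE.pow (3 * i)).mul (hD.pow j)) n
  have h2 : ((|coeff n (E4s ^ (3 * i) * Ds ^ j)| : ℤ) : ℝ) ≤
      ((c ^ (3 * i) * c ^ j : ℕ) : ℝ) * ((n : ℝ) + 1) ^ ((k + 1) * (3 * i) + (k + 1) * j + 1) := by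
    exact_mod_cast h1
  refine h2.trans ?_
  have e1 : (1 : ℝ) ≤ (n : ℝ) + 1 := by
    have : (0 : ℝ) ≤ n := Nat.cast_nonneg n
    linarith
  have e2 : ((c ^ (3 * i) * c ^ j : ℕ) : ℝ) ≤ (d : ℝ) ^ (d * (L + 1)) := by
    rw [← pow_add]
    have h3 : c ^ (3 * i + j) ≤ d ^ (d * (L + 1)) := by
      calc c ^ (3 * i + j) ≤ d ^ (3 * i + j) := Nat.pow_le_pow_left (by omega) _
        _ ≤ d ^ (d * (L + 1)) := by
          apply Nat.pow_le_pow_right (by omega)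
          have h4 : 4 ≤ d := by omega
          have h5 : 4 * (L + 1) ≤ d * (L + 1) := Nat.mul_le_mul_right _ h4
          omega
    exact_mod_cast h3
  have e3 : ((n : ℝ) + 1) ^ ((k + 1) * (3 * i) + (k + 1) * j + 1) ≤ ((n : ℝ) + 1) ^ (d * (L + 1)) := by
    apply pow_le_pow_right₀ e1
    have h6 : (k + 1) * (3 * i) + (k + 1) * j ≤ (4 * (k + 1)) * L := by
      have h7 : (k + 1) * (3 * i) ≤ (k + 1) * (3 * L) := Nat.mul_le_mul_left _ (by omega)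
      have h8 : (k + 1) * j ≤ (k + 1) * L := Nat.mul_le_mul_left _ hj
      nlinarith [h7, h8]
    have h9 : (4 * (k + 1)) * L + (L + 1) ≤ d * (L + 1) := by
      rw [hd]
      nlinarith [Nat.zero_le L, Nat.zero_le c, Nat.zero_le k, Nat.zero_le (c * L)]
    omega
  rw [mul_pow]
  exact mul_le_mul e2 e3 (by positivity) (by positivity)

theorem fp_coef_le : ∃ c : ℕ, 1 ≤ c ∧ ∀ (L : ℕ) (P : Fin (L + 1) → Fin (L + 1) → ℤ) (S : ℝ),
    (∀ i j, ((|P i j| : ℤ) : ℝ) ≤ S) → ∀ n : ℕ,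
      ((|coeff n (FP L P)| : ℤ) : ℝ) ≤ S * ((c : ℝ) * (n + 1)) ^ (c * (L + 1)) := by
  obtain ⟨c, hc, h⟩ := coef_le
  refine ⟨c + 2, by omega, ?_⟩
  intro L P S hS n
  have hS0 : 0 ≤ S := by
    refine le_trans ?_ (hS 0 0)
    exact_mod_cast abs_nonneg (P 0 0)
  have e1 : (1 : ℝ) ≤ (n : ℝ) + 1 := by
    have : (0 : ℝ) ≤ n := Nat.cast_nonneg n
    linarith
  have hc1 : (1 : ℝ) ≤ c := by exact_mod_cast hc
  set B : ℝ := ((c : ℝ) * (n + 1)) ^ (c * (L + 1)) with hB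
  have hB0 : 0 ≤ B := by positivity
  have h1 : ((|coeff n (FP L P)| : ℤ) : ℝ) ≤ ((L : ℝ) + 1) ^ 2 * (S * B) := by
    unfold FP
    rw [map_sum]
    simp only [map_sum]
    have h2 : ∀ i j : Fin (L + 1),
        |((coeff n (PowerSeries.C (P i j) * (E4s ^ (3 * (i : ℕ)) * Ds ^ (j : ℕ))) : ℤ) : ℝ)| ≤ S * B := by
      intro i j
      rw [coeff_C_mul]
      push_cast
      rw [abs_mul]
      have h3 := h L i j n (by omega) (by omega)
      have h4 := hS i j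
      push_cast at h3 h4
      exact mul_le_mul h4 h3 (abs_nonneg _) hS0
    push_cast
    calc |∑ i : Fin (L + 1), ∑ j : Fin (L + 1),
          ((coeff n (PowerSeries.C (P i j) * (E4s ^ (3 * (i : ℕ)) * Ds ^ (j : ℕ))) : ℤ) : ℝ)|
        ≤ ∑ i : Fin (L + 1), |∑ j : Fin (L + 1),
          ((coeff n (PowerSeries.C (P i j) * (E4s ^ (3 * (i : ℕ)) * Ds ^ (j : ℕ))) : ℤ) : ℝ)| :=
          Finset.abs_sum_le_sum_abs _ _
      _ ≤ ∑ i : Fin (L + 1), ∑ j : Fin (L + 1),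
          |((coeff n (PowerSeries.C (P i j) * (E4s ^ (3 * (i : ℕ)) * Ds ^ (j : ℕ))) : ℤ) : ℝ)| :=
          Finset.sum_le_sum fun i _ => Finset.abs_sum_le_sum_abs _ _
      _ ≤ ∑ _i : Fin (L + 1), ∑ _j : Fin (L + 1), S * B :=
          Finset.sum_le_sum fun i _ => Finset.sum_le_sum fun j _ => h2 i j
      _ = ((L : ℝ) + 1) ^ 2 * (S * B) := by
          simp only [Finset.sum_const, Finset.card_univ, Fintype.card_fin, nsmul_eq_mul]
          push_cast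
          ring
  refine h1.trans ?_
  have h5 : ((L : ℝ) + 1) ^ 2 ≤ (((c + 2 : ℕ) : ℝ) * (n + 1)) ^ (2 * (L + 1)) := by
    have h6 : ((L : ℝ) + 1) ≤ 2 ^ (L + 1) := by
      have : L + 1 < 2 ^ (L + 1) := Nat.lt_two_pow_self
      exact_mod_cast this.le
    have h7 : (2 : ℝ) ≤ ((c + 2 : ℕ) : ℝ) * (n + 1) := by
      push_cast
      nlinarith
    calc ((L : ℝ) + 1) ^ 2 ≤ (2 ^ (L + 1)) ^ 2 := pow_le_pow_left₀ (by positivity) h6 _
      _ = 2 ^ (2 * (L + 1)) := by rw [← pow_mul, mul_comm]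
      _ ≤ (((c + 2 : ℕ) : ℝ) * (n + 1)) ^ (2 * (L + 1)) := pow_le_pow_left₀ (by norm_num) h7 _
  have h8 : B ≤ (((c + 2 : ℕ) : ℝ) * (n + 1)) ^ (c * (L + 1)) := by
    rw [hB]
    apply pow_le_pow_left₀ (by positivity)
    push_cast
    nlinarith
  calc ((L : ℝ) + 1) ^ 2 * (S * B)
      ≤ (((c + 2 : ℕ) : ℝ) * (n + 1)) ^ (2 * (L + 1)) *
        (S * (((c + 2 : ℕ) : ℝ) * (n + 1)) ^ (c * (L + 1))) := by
        apply mul_le_mul h5 (mul_le_mul_of_nonneg_left h8 hS0) (by positivity) (by positivity)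
    _ = S * (((c + 2 : ℕ) : ℝ) * (n + 1)) ^ ((c + 2) * (L + 1)) := by
        rw [show (c + 2) * (L + 1) = 2 * (L + 1) + c * (L + 1) by ring, pow_add]
        ring

end Pool.Agent.LGO.PA
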