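import Mathlib
import Pool.Agent.LGO.PA.Coef

/-!
# LGO/PA: the auxiliary function

PROOF.  Siegel's lemma (`Int.Matrix.exists_ne_zero_int_vec_norm_le`) for the matrix `A` with rows `n`, `2 n < (L + 1) ^ 2` (there are
`m = ⌈(L + 1) ^ 2 / 2⌉` of them), columns `(i, j)` (`N = (L + 1) ^ 2` of them) and entries `coeff n (E4s ^ (3 i) * Ds ^ j)`.
`L ≥ 1`, so `m < N` and `m ≤ 2 (N - m)`: the exponent is at most `2` and `|P i j| ≤ (N max 1 ‖A‖) ^ 2`,
`‖A‖ ≤ (c (L + 1) ^ 2) ^ (c (L + 1))` by `coef_le` (`n + 1 ≤ (L + 1) ^ 2`).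
-/

namespace Pool.Agent.LGO.PA

open PowerSeries

attribute [local instance] Matrix.seminormedAddCommGroup in
theorem sieg : ∃ c : ℕ, 1 ≤ c ∧ ∀ L : ℕ, 1 ≤ L → ∃ P : Fin (L + 1) → Fin (L + 1) → ℤ, P ≠ 0 ∧
    (∀ i j, ((|P i j| : ℤ) : ℝ) ≤ ((c : ℝ) * (L + 1)) ^ (c * (L + 1))) ∧
    ∀ n : ℕ, 2 * n < (L + 1) ^ 2 → coeff n (FP L P) = 0 := by
  obtain ⟨c, hc, hcoef⟩ := coef_le
  refine ⟨8 * c, by omega, fun L hL => ?_⟩
  set N : ℕ := (L + 1) ^ 2 with hN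
  have hN4 : 4 ≤ N := by
    rw [hN]
    nlinarith
  set m : ℕ := (N + 1) / 2 with hm
  have hm0 : 0 < m := by omega
  have hmN : m < N := by omega
  let A : Matrix (Fin m) (Fin (L + 1) × Fin (L + 1)) ℤ := fun n ij =>
    coeff (n : ℕ) (E4s ^ (3 * (ij.1 : ℕ)) * Ds ^ (ij.2 : ℕ))
  have hcardN : Fintype.card (Fin (L + 1) × Fin (L + 1)) = N := by
    rw [Fintype.card_prod, Fintype.card_fin, hN, sq]
  obtain ⟨t, ht0, hAt, htle⟩ := Int.Matrix.exists_ne_zero_int_vec_norm_le A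
    (by rw [hcardN, Fintype.card_fin]; exact hmN) (by rw [Fintype.card_fin]; exact hm0)
  rw [hcardN, Fintype.card_fin] at htle
  have hcR : (1 : ℝ) ≤ c := by exact_mod_cast hc
  have hLR : (1 : ℝ) ≤ (L : ℝ) + 1 := by
    have : (0 : ℝ) ≤ L := Nat.cast_nonneg L
    linarith
  set b : ℝ := (c : ℝ) * (L + 1) with hb
  have hb1 : 1 ≤ b := by
    rw [hb]
    nlinarith
  have hLb : (L : ℝ) + 1 ≤ b := by
    rw [hb]
    nlinarith
  have hNR : (N : ℝ) ≤ b ^ 2 := by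
    have : (N : ℝ) = ((L : ℝ) + 1) ^ 2 := by
      rw [hN]
      push_cast
      ring
    rw [this]
    gcongr
  have hcN : (c : ℝ) * N ≤ b ^ 2 := by
    have : (N : ℝ) = ((L : ℝ) + 1) ^ 2 := by
      rw [hN]
      push_cast
      ring
    rw [this, hb, mul_pow]
    have h1 : (c : ℝ) ≤ (c : ℝ) ^ 2 := by nlinarith
    exact mul_le_mul_of_nonneg_right h1 (by positivity)
  have hA : ‖A‖ ≤ b ^ (2 * (c * (L + 1))) := by
    rw [Matrix.norm_le_iff (by positivity)]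
    intro n ij
    have h1 := hcoef L ij.1 ij.2 n (Nat.lt_succ_iff.mp ij.1.2) (Nat.lt_succ_iff.mp ij.2.2)
    have h2 : ((n : ℕ) : ℝ) + 1 ≤ N := by
      have : (n : ℕ) + 1 ≤ N := by
        have := n.2
        omega
      exact_mod_cast this
    rw [Int.norm_eq_abs, ← Int.cast_abs]
    refine h1.trans ?_
    rw [pow_mul b]
    have h3 : (c : ℝ) * (((n : ℕ) : ℝ) + 1) ≤ b ^ 2 :=
      le_trans (mul_le_mul_of_nonneg_left h2 (Nat.cast_nonneg c)) hcN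
    have h4 : (0 : ℝ) ≤ (c : ℝ) * (((n : ℕ) : ℝ) + 1) := by positivity
    exact pow_le_pow_left₀ h4 h3 _
  have hmax : max 1 ‖A‖ ≤ b ^ (2 * (c * (L + 1))) := max_le (one_le_pow₀ hb1) hA
  have hbase : (N : ℝ) * max 1 ‖A‖ ≤ b ^ (2 + 2 * (c * (L + 1))) := by
    rw [pow_add]
    exact mul_le_mul hNR hmax (by positivity) (by positivity)
  have hbase1 : 1 ≤ (N : ℝ) * max 1 ‖A‖ := by
    have h1 : (1 : ℝ) ≤ N := by exact_mod_cast (by omega : 1 ≤ N)
    have h2 : (1 : ℝ) ≤ max 1 ‖A‖ := le_max_left _ _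
    nlinarith
  have hexp : (m : ℝ) / ((N : ℝ) - m) ≤ 2 := by
    have h1 : (m : ℝ) < N := by exact_mod_cast hmN
    rw [div_le_iff₀ (by linarith)]
    have h2 : 3 * m ≤ 2 * N := by omega
    have h3 : (3 : ℝ) * m ≤ 2 * N := by exact_mod_cast h2
    linarith
  have hfin : ‖t‖ ≤ (((8 * c : ℕ) : ℝ) * (L + 1)) ^ (8 * c * (L + 1)) := by
    calc ‖t‖ ≤ ((N : ℝ) * max 1 ‖A‖) ^ ((m : ℝ) / ((N : ℝ) - m)) := htle
      _ ≤ ((N : ℝ) * max 1 ‖A‖) ^ (2 : ℝ) := Real.rpow_le_rpow_of_exponent_le hbase1 hexp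
      _ = ((N : ℝ) * max 1 ‖A‖) ^ 2 := by
          rw [← Real.rpow_natCast]
          norm_num
      _ ≤ (b ^ (2 + 2 * (c * (L + 1)))) ^ 2 := by
          exact pow_le_pow_left₀ (by positivity) hbase 2
      _ = b ^ ((2 + 2 * (c * (L + 1))) * 2) := by rw [← pow_mul]
      _ ≤ b ^ (8 * c * (L + 1)) := by
          refine pow_le_pow_right₀ hb1 ?_
          have : 1 ≤ c * (L + 1) := Nat.mul_pos hc (Nat.succ_pos L)
          nlinarith
      _ ≤ (((8 * c : ℕ) : ℝ) * (L + 1)) ^ (8 * c * (L + 1)) := by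
          refine pow_le_pow_left₀ (by positivity) ?_ _
          rw [hb]
          push_cast
          nlinarith
  refine ⟨fun i j => t (i, j), ?_, fun i j => ?_, fun n hn => ?_⟩
  · intro h
    apply ht0
    ext ⟨i, j⟩
    exact congrFun (congrFun h i) j
  · have h1 : ‖t (i, j)‖ ≤ ‖t‖ := norm_le_pi_norm t (i, j)
    rw [Int.norm_eq_abs, ← Int.cast_abs] at h1
    exact h1.trans hfin
  · have hnm : n < m := by omega
    have h1 := congrFun hAt ⟨n, hnm⟩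
    rw [Matrix.mulVec, dotProduct, Pi.zero_apply, Fintype.sum_prod_type] at h1
    rw [FP, map_sum, ← h1]
    refine Finset.sum_congr rfl fun i _ => ?_
    rw [map_sum]
    refine Finset.sum_congr rfl fun j _ => ?_
    rw [coeff_C_mul, mul_comm]

end Pool.Agent.LGO.PA
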