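import Mathlib
import Pool.Agent.LGO.PA.Tate
import Pool.Agent.LGO.PA.Coef
import Pool.Agent.LGO.H.BdC

/-!
# LGO/PA: the values of the auxiliary function are near algebraic numbers

PROOFS.  `val`: put `X = s ^ 12 DP (q ^ s)` and `k = i + j`.  `s ^ (24 L) ev (FP L P) (q ^ s) = ∑ P i j (φ y) ^ i X ^ k s ^ (12 (2 L - i - j))`, because
`E4P(q ^ s) ^ (3 i) = (jP(q ^ s) DP(q ^ s)) ^ i` (`jP_mul`; `ev_sum`, `ev_mul`, `ev_pow`, `ev_C`).  `‖X‖ ≤ ‖q ^ s‖ ≤ ‖q‖` (`DP_norm`), so `‖φ b‖ = ‖X‖ / ‖q‖ ≤ 1`,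
`‖φ(b θ) - X‖ = ‖φ b‖ ‖φ θ - DP q‖ ≤ ε ≤ 1`, `‖φ(b θ)‖ ≤ 1`, so `‖φ(b θ) ^ k - X ^ k‖ ≤ ε`.  `‖φ y‖ ^ i = ‖q‖ ^ (-s i) ≤ ‖q‖ ^ (-s L)` (`jP_norm`), integers have norm at
most `1`, and the norm is nonarchimedean.
`om_bd`: denominator `n_y ^ L n_b ^ (2 L) n_θ ^ (2 L) ≤ exp (3 L B + 2 L M)`; conjugates of the summands at most `exp (A + L B + 2 L (B + M)) s ^ (24 L)`, `s ≤ exp s`,
`(L + 1) ^ 2 ≤ exp (2 (L + 1))` summands.
-/

namespace Pool.Agent.LGO.PA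

open PowerSeries Pool.Agent.LGO

/-- the algebraic number attached to the auxiliary function -/
noncomputable def om (L : ℕ) (P : Fin (L + 1) → Fin (L + 1) → ℤ) (s : ℕ) (y b θ : ℂ) : ℂ :=
  ∑ i : Fin (L + 1), ∑ j : Fin (L + 1), (P i j : ℂ) *
    (y ^ (i : ℕ) * (b * θ) ^ ((i : ℕ) + (j : ℕ)) * (s : ℂ) ^ (12 * (2 * L - i - j)))

private theorem Val_term (L i j s : ℕ) (hi : i ≤ L) (hj : j ≤ L) {F : Type} [Field F] (e x y d : F)
    (h : y * d = e ^ 3) (c : F) (hx : x = (c ^ 12 * d)) (hs : c = s) (m : F) :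
    c ^ (24 * L) * (m * (e ^ (3 * i) * d ^ j)) =
      m * (y ^ i * x ^ (i + j) * c ^ (12 * (2 * L - i - j))) := by
  have h1 : e ^ (3 * i) = y ^ i * d ^ i := by
    rw [pow_mul, ← h, mul_pow]
  have h2 : 24 * L = 12 * (i + j) + 12 * (2 * L - i - j) := by omega
  rw [h1, hx, h2, pow_add, mul_pow, ← pow_mul, pow_add d]
  ring

private theorem Val_rw {p : ℕ} [Fact p.Prime] (φ : ℂ →+* ℂ_[p]) {q : ℂ_[p]} (hq0 : 0 < ‖q‖)
    (hq : ‖q‖ < 1) (L : ℕ) (P : Fin (L + 1) → Fin (L + 1) → ℤ) (s : ℕ) (hs : 1 ≤ s) {y : ℂ}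
    (hy : φ y = jP (q ^ s)) :
    (s : ℂ_[p]) ^ (24 * L) * ev (Int.castRingHom ℂ_[p]) (FP L P) (q ^ s) =
      ∑ i : Fin (L + 1), ∑ j : Fin (L + 1), (P i j : ℂ_[p]) *
        (φ y ^ (i : ℕ) * ((s : ℂ_[p]) ^ 12 * DP (q ^ s)) ^ ((i : ℕ) + (j : ℕ)) *
          (s : ℂ_[p]) ^ (12 * (2 * L - i - j))) := by
  have hs0 : s ≠ 0 := by omega
  have hQ0 : 0 < ‖q ^ s‖ := by rw [norm_pow]; exact pow_pos hq0 s
  have hQ : ‖q ^ s‖ < 1 := by rw [norm_pow]; exact pow_lt_one₀ (norm_nonneg q) hq hs0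
  have hj := jP_mul hQ0 hQ
  rw [← hy] at hj
  unfold FP
  rw [ev_sum castHom_norm_le hQ, Finset.mul_sum]
  refine Finset.sum_congr rfl fun i _ => ?_
  rw [ev_sum castHom_norm_le hQ, Finset.mul_sum]
  refine Finset.sum_congr rfl fun j _ => ?_
  rw [ev_mul castHom_norm_le hQ, ev_mul castHom_norm_le hQ, ev_pow castHom_norm_le hQ,
    ev_pow castHom_norm_le hQ, ev_C]
  exact Val_term L i j s (by omega) (by omega) (E4P (q ^ s)) _ (φ y) (DP (q ^ s)) hj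
    (s : ℂ_[p]) rfl rfl _

theorem val {p : ℕ} [Fact p.Prime] (φ : ℂ →+* ℂ_[p]) {q : ℂ_[p]} (hq0 : 0 < ‖q‖)
    (hq : ‖q‖ < 1) (L : ℕ) (P : Fin (L + 1) → Fin (L + 1) → ℤ) (s : ℕ) (hs : 1 ≤ s) {y b θ : ℂ}
    (hy : φ y = jP (q ^ s)) (hb : φ b * DP q = (s : ℂ_[p]) ^ 12 * DP (q ^ s)) {ε : ℝ}
    (hε : ‖DP q - φ θ‖ ≤ ε) (hε1 : ε ≤ 1) :
    ‖φ (om L P s y b θ) - (s : ℂ_[p]) ^ (24 * L) *
      ev (Int.castRingHom ℂ_[p]) (FP L P) (q ^ s)‖ ≤ ε * ‖q‖⁻¹ ^ (s * L) := by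
  have hε0 : 0 ≤ ε := (norm_nonneg _).trans hε
  have hs0 : s ≠ 0 := by omega
  have hQn : ‖q ^ s‖ = ‖q‖ ^ s := norm_pow q s
  have hQ0 : 0 < ‖q ^ s‖ := by rw [hQn]; exact pow_pos hq0 s
  have hQ : ‖q ^ s‖ < 1 := by rw [hQn]; exact pow_lt_one₀ (norm_nonneg q) hq hs0
  have hsn : ∀ m : ℕ, ‖(s : ℂ_[p]) ^ m‖ ≤ 1 := by
    intro m
    rw [norm_pow]
    refine pow_le_one₀ (norm_nonneg _) ?_
    have := int_norm_le (p := p) (s : ℤ)
    simpa using this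
  set X : ℂ_[p] := (s : ℂ_[p]) ^ 12 * DP (q ^ s) with hX
  have hXn : ‖X‖ ≤ ‖q‖ := by
    rw [hX, norm_mul, DP_norm hQ, hQn]
    calc ‖(s : ℂ_[p]) ^ 12‖ * ‖q‖ ^ s ≤ 1 * ‖q‖ ^ 1 :=
          mul_le_mul (hsn 12) (pow_le_pow_of_le_one (norm_nonneg q) hq.le hs)
            (pow_nonneg (norm_nonneg q) s) zero_le_one
      _ = ‖q‖ := by rw [one_mul, pow_one]
  have hbn : ‖φ b‖ ≤ 1 := by
    have h1 : ‖φ b‖ * ‖q‖ = ‖X‖ := by
      rw [← DP_norm hq, ← norm_mul, hb]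
    by_contra hc
    rw [not_le] at hc
    have : 1 * ‖q‖ < ‖φ b‖ * ‖q‖ := mul_lt_mul_of_pos_right hc hq0
    rw [one_mul, h1] at this
    exact absurd hXn (not_le.2 this)
  have hd : ‖φ b * φ θ - X‖ ≤ ε := by
    rw [← hb, ← mul_sub, norm_mul]
    rw [norm_sub_rev] at hε
    calc ‖φ b‖ * ‖φ θ - DP q‖ ≤ 1 * ε := mul_le_mul hbn hε (norm_nonneg _) zero_le_one
      _ = ε := one_mul ε
  have hX1 : ‖X‖ ≤ 1 := hXn.trans hq.le
  have hbt : ‖φ b * φ θ‖ ≤ 1 := by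
    have e : φ b * φ θ = (φ b * φ θ - X) + X := by ring
    rw [e]
    exact (IsUltrametricDist.norm_add_le_max _ _).trans (max_le (hd.trans hε1) hX1)
  have hyn : ‖φ y‖ = (‖q‖⁻¹) ^ s := by
    rw [hy, jP_norm hQ0 hQ, hQn, inv_pow]
  have hq1 : 1 ≤ ‖q‖⁻¹ := (one_le_inv₀ hq0).2 hq.le
  have hR : 0 ≤ ε * ‖q‖⁻¹ ^ (s * L) := mul_nonneg hε0 (by positivity)
  have hom : φ (om L P s y b θ) = ∑ i : Fin (L + 1), ∑ j : Fin (L + 1), (P i j : ℂ_[p]) *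
      (φ y ^ (i : ℕ) * (φ b * φ θ) ^ ((i : ℕ) + (j : ℕ)) * (s : ℂ_[p]) ^ (12 * (2 * L - i - j))) := by
    unfold om
    simp only [map_sum, map_mul, map_pow, map_intCast, map_natCast]
  rw [Val_rw φ hq0 hq L P s hs hy, hom, ← Finset.sum_sub_distrib]
  refine IsUltrametricDist.norm_sum_le_of_forall_le_of_nonneg hR fun i _ => ?_
  rw [← Finset.sum_sub_distrib]
  refine IsUltrametricDist.norm_sum_le_of_forall_le_of_nonneg hR fun j _ => ?_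
  have e : (P i j : ℂ_[p]) * (φ y ^ (i : ℕ) * (φ b * φ θ) ^ ((i : ℕ) + (j : ℕ)) *
      (s : ℂ_[p]) ^ (12 * (2 * L - i - j))) - (P i j : ℂ_[p]) *
      (φ y ^ (i : ℕ) * X ^ ((i : ℕ) + (j : ℕ)) * (s : ℂ_[p]) ^ (12 * (2 * L - i - j))) =
      ((P i j : ℂ_[p]) * (s : ℂ_[p]) ^ (12 * (2 * L - i - j))) *
        ((φ b * φ θ) ^ ((i : ℕ) + (j : ℕ)) - X ^ ((i : ℕ) + (j : ℕ))) * φ y ^ (i : ℕ) := by ring
  rw [e, norm_mul, norm_mul, norm_mul, norm_pow (φ y), hyn, ← pow_mul]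
  have h1 : ‖(P i j : ℂ_[p])‖ * ‖(s : ℂ_[p]) ^ (12 * (2 * L - i - j))‖ ≤ 1 :=
    mul_le_one₀ (int_norm_le _) (norm_nonneg _) (hsn _)
  have h2 : ‖(φ b * φ θ) ^ ((i : ℕ) + (j : ℕ)) - X ^ ((i : ℕ) + (j : ℕ))‖ ≤ ε := by
    rcases Nat.eq_zero_or_pos ((i : ℕ) + (j : ℕ)) with h | h
    · rw [h, pow_zero, pow_zero, sub_self, norm_zero]
      exact hε0
    · obtain ⟨k, hk⟩ := Nat.exists_eq_succ_of_ne_zero h.ne'
      have h4 := Ev_pow_sub zero_le_one hbt hX1 k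
      rw [one_pow, one_mul] at h4
      rw [hk]
      exact h4.trans hd
  have h3 : ‖q‖⁻¹ ^ (s * (i : ℕ)) ≤ ‖q‖⁻¹ ^ (s * L) :=
    pow_le_pow_right₀ hq1 (Nat.mul_le_mul_left s (by omega))
  calc _ ≤ 1 * ε * ‖q‖⁻¹ ^ (s * L) := by
        refine mul_le_mul (mul_le_mul h1 h2 (norm_nonneg _) zero_le_one) h3 (by positivity)
          (by positivity)
    _ = ε * ‖q‖⁻¹ ^ (s * L) := by rw [one_mul]

private theorem Val_int {K : IntermediateField ℚ ℂ} {B : ℝ} {x : ℂ} (hx : Bd K B x) :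
    ∃ n : ℕ, 0 < n ∧ (n : ℝ) ≤ Real.exp B ∧ ∀ k m : ℕ, k ≤ m → IsIntegral ℤ ((n : ℂ) ^ m * x ^ k) := by
  obtain ⟨n, hn, hnB, hint⟩ := hx.den
  refine ⟨n, hn, hnB, fun k m hkm => ?_⟩
  have e : (n : ℂ) ^ m * x ^ k = ((n ^ (m - k) : ℕ) : ℂ) * ((n : ℂ) * x) ^ k := by
    obtain ⟨r, rfl⟩ := Nat.exists_eq_add_of_le hkm
    rw [Nat.add_sub_cancel_left, Nat.cast_pow, pow_add, mul_pow]
    ring
  rw [e]
  exact isIntegral_natCast_mul _ (hint.pow k)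

theorem om_bd {K : IntermediateField ℚ ℂ} (L : ℕ) (P : Fin (L + 1) → Fin (L + 1) → ℤ) (s : ℕ)
    (hs : 1 ≤ s) {y b θ : ℂ} {A B M : ℝ} (hA : 0 ≤ A)
    (hP : ∀ i j, ((|P i j| : ℤ) : ℝ) ≤ Real.exp A) (hy : Bd K B y) (hb : Bd K B b)
    (hθ : Bd K M θ) : Bd K (A + 26 * (L + 1) * (B + M + s)) (om L P s y b θ) := by
  have hB : 0 ≤ B := hy.nonneg
  have hM : 0 ≤ M := hθ.nonneg
  have hs1 : (1 : ℝ) ≤ s := by exact_mod_cast hs
  have hL : (0 : ℝ) ≤ L := Nat.cast_nonneg L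
  -- the element of K
  set om' : K := ∑ i : Fin (L + 1), ∑ j : Fin (L + 1), (P i j : K) *
    ((⟨y, hy.mem⟩ : K) ^ (i : ℕ) * ((⟨b, hb.mem⟩ : K) * (⟨θ, hθ.mem⟩ : K)) ^ ((i : ℕ) + (j : ℕ)) *
      (s : K) ^ (12 * (2 * L - i - j))) with hom'
  have hcoe : (om' : ℂ) = om L P s y b θ := by
    rw [hom', om]
    push_cast
    rfl
  have hmem : om L P s y b θ ∈ K := by
    rw [← hcoe]
    exact om'.2
  refine ⟨hmem, ?_, ?_⟩
  · obtain ⟨n1, hn1, hB1, h1⟩ := Val_int hy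
    obtain ⟨n2, hn2, hB2, h2⟩ := Val_int hb
    obtain ⟨n3, hn3, hB3, h3⟩ := Val_int hθ
    refine ⟨n1 ^ L * (n2 ^ (2 * L) * n3 ^ (2 * L)), by positivity, ?_, ?_⟩
    · push_cast
      have e1 : (n1 : ℝ) ^ L ≤ Real.exp (L * B) := by
        rw [Real.exp_nat_mul]
        exact pow_le_pow_left₀ (Nat.cast_nonneg _) hB1 _
      have e2 : (n2 : ℝ) ^ (2 * L) ≤ Real.exp ((2 * L : ℕ) * B) := by
        rw [Real.exp_nat_mul]
        exact pow_le_pow_left₀ (Nat.cast_nonneg _) hB2 _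
      have e3 : (n3 : ℝ) ^ (2 * L) ≤ Real.exp ((2 * L : ℕ) * M) := by
        rw [Real.exp_nat_mul]
        exact pow_le_pow_left₀ (Nat.cast_nonneg _) hB3 _
      calc (n1 : ℝ) ^ L * ((n2 : ℝ) ^ (2 * L) * (n3 : ℝ) ^ (2 * L))
          ≤ Real.exp (L * B) * (Real.exp ((2 * L : ℕ) * B) * Real.exp ((2 * L : ℕ) * M)) := by
            gcongr
        _ = Real.exp (L * B + ((2 * L : ℕ) * B + (2 * L : ℕ) * M)) := by
            rw [Real.exp_add, Real.exp_add]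
        _ ≤ _ := by
            apply Real.exp_le_exp.2
            push_cast
            nlinarith [mul_nonneg hL hB, mul_nonneg hL hM, mul_nonneg hL (zero_le_one.trans hs1)]
    · unfold om
      rw [Finset.mul_sum]
      refine IsIntegral.sum _ fun i _ => ?_
      rw [Finset.mul_sum]
      refine IsIntegral.sum _ fun j _ => ?_
      have e : ((n1 ^ L * (n2 ^ (2 * L) * n3 ^ (2 * L)) : ℕ) : ℂ) * ((P i j : ℂ) *
          (y ^ (i : ℕ) * (b * θ) ^ ((i : ℕ) + (j : ℕ)) * (s : ℂ) ^ (12 * (2 * L - i - j)))) =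
          ((P i j : ℤ) : ℂ) * (((n1 : ℂ) ^ L * y ^ (i : ℕ)) *
            (((n2 : ℂ) ^ (2 * L) * b ^ ((i : ℕ) + (j : ℕ))) *
              ((n3 : ℂ) ^ (2 * L) * θ ^ ((i : ℕ) + (j : ℕ))))) *
            ((s ^ (12 * (2 * L - i - j)) : ℕ) : ℂ) := by
        push_cast
        rw [mul_pow]
        ring
      rw [e]
      have hPi : IsIntegral ℤ ((P i j : ℤ) : ℂ) := by
        have := isIntegral_algebraMap (R := ℤ) (A := ℂ) (x := P i j)
        simpa using this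
      have hsi : IsIntegral ℤ ((s ^ (12 * (2 * L - i - j)) : ℕ) : ℂ) := by
        have := isIntegral_algebraMap (R := ℤ) (A := ℂ) (x := ((s ^ (12 * (2 * L - i - j)) : ℕ) : ℤ))
        simpa using this
      exact (hPi.mul ((h1 _ _ (by omega)).mul ((h2 _ _ (by omega)).mul (h3 _ _ (by omega))))).mul hsi
  · intro σ
    have e0 : (⟨om L P s y b θ, hmem⟩ : K) = om' := Subtype.ext hcoe.symm
    rw [e0, hom']
    simp only [map_sum, map_mul, map_pow, map_intCast, map_natCast]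
    have hy' := hy.house σ
    have hb' := hb.house σ
    have hθ' := hθ.house σ
    have hterm : ∀ i j : Fin (L + 1), ‖(P i j : ℂ) * (σ ⟨y, hy.mem⟩ ^ (i : ℕ) *
        (σ ⟨b, hb.mem⟩ * σ ⟨θ, hθ.mem⟩) ^ ((i : ℕ) + (j : ℕ)) * (s : ℂ) ^ (12 * (2 * L - i - j)))‖ ≤
        Real.exp (A + (L * B + (2 * L : ℕ) * (B + M) + (24 * L : ℕ) * s)) := by
      intro i j
      have t1 : ‖(P i j : ℂ)‖ ≤ Real.exp A := by
        rw [Complex.norm_intCast]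
        have := hP i j
        push_cast at this
        exact this
      have t2 : ‖σ ⟨y, hy.mem⟩ ^ (i : ℕ)‖ ≤ Real.exp (L * B) := by
        rw [norm_pow, Real.exp_nat_mul]
        exact (pow_le_pow_left₀ (norm_nonneg _) hy' _).trans
          (pow_le_pow_right₀ (Real.one_le_exp hB) (by omega))
      have t3 : ‖(σ ⟨b, hb.mem⟩ * σ ⟨θ, hθ.mem⟩) ^ ((i : ℕ) + (j : ℕ))‖ ≤
          Real.exp ((2 * L : ℕ) * (B + M)) := by
        rw [norm_pow, norm_mul, Real.exp_nat_mul]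
        have h4 : ‖σ ⟨b, hb.mem⟩‖ * ‖σ ⟨θ, hθ.mem⟩‖ ≤ Real.exp (B + M) := by
          rw [Real.exp_add]
          exact mul_le_mul hb' hθ' (norm_nonneg _) (Real.exp_pos _).le
        exact (pow_le_pow_left₀ (by positivity) h4 _).trans
          (pow_le_pow_right₀ (Real.one_le_exp (add_nonneg hB hM)) (by omega))
      have t4 : ‖(s : ℂ) ^ (12 * (2 * L - i - j))‖ ≤ Real.exp ((24 * L : ℕ) * s) := by
        rw [norm_pow, Complex.norm_natCast, Real.exp_nat_mul]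
        have h5 : (s : ℝ) ≤ Real.exp s := by
          have := Real.add_one_le_exp (s : ℝ)
          linarith
        exact (pow_le_pow_left₀ (Nat.cast_nonneg _) h5 _).trans
          (pow_le_pow_right₀ (Real.one_le_exp (Nat.cast_nonneg _)) (by omega))
      rw [norm_mul, norm_mul, norm_mul]
      calc _ ≤ Real.exp A * (Real.exp (L * B) * Real.exp ((2 * L : ℕ) * (B + M)) *
            Real.exp ((24 * L : ℕ) * s)) := by gcongr
        _ = _ := by rw [← Real.exp_add, ← Real.exp_add, ← Real.exp_add]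
    set T : ℝ := Real.exp (A + (L * B + (2 * L : ℕ) * (B + M) + (24 * L : ℕ) * s)) with hT
    have hT0 : 0 ≤ T := (Real.exp_pos _).le
    have h6 : ∀ i : Fin (L + 1), ‖∑ j : Fin (L + 1), (P i j : ℂ) * (σ ⟨y, hy.mem⟩ ^ (i : ℕ) *
        (σ ⟨b, hb.mem⟩ * σ ⟨θ, hθ.mem⟩) ^ ((i : ℕ) + (j : ℕ)) * (s : ℂ) ^ (12 * (2 * L - i - j)))‖ ≤
        (L + 1) * T := by
      intro i
      refine (norm_sum_le_of_le _ fun j _ => hterm i j).trans (le_of_eq ?_)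
      simp
    refine (norm_sum_le_of_le _ fun i _ => h6 i).trans ?_
    have h7 : ∑ _i : Fin (L + 1), ((L : ℝ) + 1) * T = (L + 1) ^ 2 * T := by
      rw [Finset.sum_const, Finset.card_univ, Fintype.card_fin, nsmul_eq_mul]
      push_cast
      ring
    rw [h7]
    have h8 : ((L : ℝ) + 1) ^ 2 ≤ Real.exp (2 * (L + 1)) := by
      have h9 : (L : ℝ) + 1 ≤ Real.exp ((L : ℝ) + 1) := by
        have := Real.add_one_le_exp ((L : ℝ) + 1)
        linarith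
      have h10 : Real.exp (2 * ((L : ℝ) + 1)) = Real.exp ((L : ℝ) + 1) ^ 2 := by
        rw [← Real.exp_nat_mul]
        norm_num
      rw [h10]
      exact pow_le_pow_left₀ (by positivity) h9 2
    calc ((L : ℝ) + 1) ^ 2 * T ≤ Real.exp (2 * (L + 1)) * T := mul_le_mul_of_nonneg_right h8 hT0
      _ = Real.exp (2 * (L + 1) + (A + (L * B + (2 * L : ℕ) * (B + M) + (24 * L : ℕ) * s))) := by
          rw [hT, ← Real.exp_add]
      _ ≤ _ := by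
          apply Real.exp_le_exp.2
          push_cast
          nlinarith [mul_nonneg hL hB, mul_nonneg hL hM, mul_nonneg hL (zero_le_one.trans hs1),
            mul_nonneg hL (sub_nonneg.2 hs1)]

end Pool.Agent.LGO.PA
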