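import Mathlib
import Pool.Agent.LGO.PA.Coef

/-!
# LGO/PA: the functions `FP` on the upper half plane

PROOF.  `E₄ τ = 1 + 240 serA q` (`E4_eq`), `Δ τ = serDelta q` (`disc_eq`), `q = qParam 1 τ`, `‖q‖ < 1` (`Hhelper14/ZP/JFun.lean`, `Disc.lean`), and the
coefficients of the power series `1 + 240 serA z`, `serDelta z` are those of `E4s`, `Ds` (`hasSum_serA`, `hasSum_serB`, `good_mix`: `(5 σ₃(n) + 7 σ₅(n)) / 12` is an
exact division).  Call `A : ℤ⟦X⟧` and `F : ℂ → ℂ` associated if `HasSum (fun n => (coeff n A : ℂ) * z ^ n) (F z)` for all `‖z‖ < 1`; this is compatible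
with sums, products (absolutely convergent power series, as in `Good.mul`, `Hhelper14/ZP/Disc.lean`), constants and powers.  So it holds for
`FP L P` and `∑ i, ∑ j, P i j (1 + 240 serA z) ^ (3 i) (serDelta z) ^ j`.
-/

namespace Pool.Agent.LGO.PA

open PowerSeries UpperHalfPlane
open Pool.Agent.Hhelper14.ZP
open scoped ArithmeticFunction.sigma

/-- the integral power series `A` has the sum `F` on the unit disc -/
private def CEv_As (A : ℤ⟦X⟧) (F : ℂ → ℂ) : Prop :=
  ∀ z : ℂ, ‖z‖ < 1 → HasSum (fun n => ((coeff n A : ℤ) : ℂ) * z ^ n) (F z)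

private lemma CEv_add {A B : ℤ⟦X⟧} {F G : ℂ → ℂ} (h : CEv_As A F) (h' : CEv_As B G) :
    CEv_As (A + B) (fun z => F z + G z) := by
  intro z hz
  refine hasSum_of_eq ((h z hz).add (h' z hz)) fun n => ?_
  rw [map_add]
  push_cast
  ring

private lemma CEv_sub {A B : ℤ⟦X⟧} {F G : ℂ → ℂ} (h : CEv_As A F) (h' : CEv_As B G) :
    CEv_As (A - B) (fun z => F z - G z) := by
  intro z hz
  refine hasSum_of_eq ((h z hz).sub (h' z hz)) fun n => ?_
  rw [map_sub]
  push_cast
  ring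

private lemma CEv_mul {A B : ℤ⟦X⟧} {F G : ℂ → ℂ} (h : CEv_As A F) (h' : CEv_As B G) :
    CEv_As (A * B) (fun z => F z * G z) := by
  intro z hz
  have h1 := (h z hz).summable.norm
  have h2 := (h' z hz).summable.norm
  have h3 := (summable_norm_sum_mul_antidiagonal_of_summable_norm h1 h2).of_norm.hasSum
  rw [← tsum_mul_tsum_eq_tsum_sum_antidiagonal_of_summable_norm h1 h2, (h z hz).tsum_eq,
    (h' z hz).tsum_eq] at h3
  refine hasSum_of_eq h3 fun n => ?_
  rw [coeff_mul, Int.cast_sum, Finset.sum_mul]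
  refine Finset.sum_congr rfl fun kl hkl => ?_
  rw [← Finset.HasAntidiagonal.mem_antidiagonal.mp hkl, pow_add]
  push_cast
  ring

private lemma CEv_C (c : ℤ) : CEv_As (C c) (fun _ => (c : ℂ)) := by
  intro z _
  have := hasSum_single (f := fun n : ℕ => (((coeff n (C c : ℤ⟦X⟧)) : ℤ) : ℂ) * z ^ n) 0
    (fun n hn => by rw [coeff_C, if_neg hn]; simp)
  have e : ((coeff 0 (C c : ℤ⟦X⟧) : ℤ) : ℂ) * z ^ 0 = (c : ℂ) := by rw [coeff_C, if_pos rfl]; simp
  rw [e] at this
  exact this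

private lemma CEv_one : CEv_As 1 (fun _ => (1 : ℂ)) := by
  have := CEv_C 1
  simpa using this

private lemma CEv_pow {A : ℤ⟦X⟧} {F : ℂ → ℂ} (h : CEv_As A F) (m : ℕ) : CEv_As (A ^ m) (fun z => F z ^ m) := by
  induction m with
  | zero => simpa using CEv_one
  | succ m ih => simpa [pow_succ] using CEv_mul ih h

private lemma CEv_sum {ι : Type} (s : Finset ι) {A : ι → ℤ⟦X⟧} {F : ι → ℂ → ℂ} (h : ∀ i, CEv_As (A i) (F i)) :
    CEv_As (∑ i ∈ s, A i) (fun z => ∑ i ∈ s, F i z) := by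
  classical
  induction s using Finset.induction_on with
  | empty =>
    intro z _
    simp
  | insert i s hi ih =>
    simp only [Finset.sum_insert hi]
    exact CEv_add (h i) ih

private lemma CEv_sA : CEv_As sA serA := by
  intro z hz
  refine hasSum_of_eq (hasSum_serA hz) fun n => ?_
  simp [sA]

private lemma CEv_sB : CEv_As sB serB := by
  intro z hz
  refine hasSum_of_eq (hasSum_serB hz) fun n => ?_
  simp [sB]

private lemma CEv_E4s : CEv_As E4s (fun z => 1 + 240 * serA z) := by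
  have := CEv_add CEv_one (CEv_mul (CEv_C 240) CEv_sA)
  simpa [E4s] using this

private lemma CEv_mix : CEv_As (PowerSeries.mk fun n => (5 * (σ 3 n : ℤ) + 7 * (σ 5 n : ℤ)) / 12)
    (fun z => (5 * serA z + 7 * serB z) / 12) := by
  intro z hz
  have h1 := (((hasSum_serA hz).mul_left 5).add ((hasSum_serB hz).mul_left 7)).div_const 12
  refine hasSum_of_eq h1 fun n => ?_
  rw [coeff_mk, Int.cast_div (twelve_dvd n) (by norm_num)]
  push_cast
  ring

private lemma CEv_Ds : CEv_As Ds serDelta := by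
  have := CEv_sub (CEv_add (CEv_add CEv_mix (CEv_mul (CEv_C 100) (CEv_pow CEv_sA 2)))
    (CEv_mul (CEv_C 8000) (CEv_pow CEv_sA 3))) (CEv_mul (CEv_C 147) (CEv_pow CEv_sB 2))
  intro z hz
  have h1 := this z hz
  have e : serDelta z = (5 * serA z + 7 * serB z) / 12 + ((100 : ℤ) : ℂ) * serA z ^ 2 +
      ((8000 : ℤ) : ℂ) * serA z ^ 3 - ((147 : ℤ) : ℂ) * serB z ^ 2 := by
    rw [serDelta]
    push_cast
    ring
  rw [e]
  exact h1

theorem fp_hasSum (L : ℕ) (P : Fin (L + 1) → Fin (L + 1) → ℤ) (τ : ℍ) :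
    HasSum (fun n => ((coeff n (FP L P) : ℤ) : ℂ) * Function.Periodic.qParam 1 (τ : ℂ) ^ n)
      (∑ i : Fin (L + 1), ∑ j : Fin (L + 1), (P i j : ℂ) *
        (ModularForm.E₄ τ ^ (3 * (i : ℕ)) * ModularForm.discriminant τ ^ (j : ℕ))) := by
  have h : CEv_As (FP L P) (fun z => ∑ i : Fin (L + 1), ∑ j : Fin (L + 1), (P i j : ℂ) *
      ((1 + 240 * serA z) ^ (3 * (i : ℕ)) * serDelta z ^ (j : ℕ))) :=
    CEv_sum _ fun i => CEv_sum _ fun j => CEv_mul (CEv_C _) (CEv_mul (CEv_pow CEv_E4s _) (CEv_pow CEv_Ds _))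
  have h1 := h _ (norm_qParam_lt τ)
  rw [E4_eq, disc_eq]
  exact h1

end Pool.Agent.LGO.PA
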