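import Mathlib
import Pool.Agent.LGO.PA.CEv

/-!
# LGO/PA: zero estimate, upper bound

PROOF.  By `fp_hasSum`, `fp_coef_le` and `‖q‖ = exp (-2 π Im τ) ≤ exp (-x)`, `x = 2 π / (a (L + 1) ^ 2)`, `Q = ‖q‖`:
the value is at most `∑_{n ≥ M} S (c (n + 1)) ^ (c (L + 1)) exp (-n x)`.  Put `k = c (L + 1)`.  `(n + 1) ^ k ≤ k! (4 / x) ^ k exp ((n + 1) x / 4)`
(`Real.pow_div_factorial_le_exp`), so every term is at most `S c ^ k k! (4 / x) ^ k exp (x / 4) exp (-3 n x / 4) ≤ T exp (-M x / 2) exp (-n x / 4)`, and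
`∑ exp (-n x / 4) = 1 / (1 - exp (-x / 4)) ≤ 1 + 4 / x`.  `T = S c ^ k k! (4 / x) ^ k exp (x / 4) ≤ S (c' (L + 1)) ^ (c' (L + 1))`
(`x ≤ 7`, `1 / x ≤ a (L + 1) ^ 2`).
-/

namespace Pool.Agent.LGO.PA

open PowerSeries UpperHalfPlane

/-- `(n + 1) ^ k` against an exponential -/
private lemma ZeroA_pow {x : ℝ} (hx : 0 < x) (n k : ℕ) :
    ((n : ℝ) + 1) ^ k ≤ (k.factorial : ℝ) * (4 / x) ^ k * Real.exp (((n : ℝ) + 1) * x / 4) := by
  have h := Real.pow_div_factorial_le_exp (((n : ℝ) + 1) * x / 4) (by positivity) k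
  have hk : (0 : ℝ) < (k.factorial : ℝ) := by exact_mod_cast k.factorial_pos
  rw [div_le_iff₀ hk] at h
  calc ((n : ℝ) + 1) ^ k = (4 / x) ^ k * (((n : ℝ) + 1) * x / 4) ^ k := by
        rw [← mul_pow]; congr 1; field_simp
    _ ≤ (4 / x) ^ k * (Real.exp (((n : ℝ) + 1) * x / 4) * (k.factorial : ℝ)) :=
        mul_le_mul_of_nonneg_left h (by positivity)
    _ = _ := by ring

/-- `1 / (1 - exp (-y)) ≤ 1 + 1 / y` -/
private lemma ZeroA_geo {y : ℝ} (hy : 0 < y) : (1 - Real.exp (-y))⁻¹ ≤ 1 + 1 / y := by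
  have h1 : y + 1 ≤ Real.exp y := Real.add_one_le_exp y
  have h2 : Real.exp (-y) ≤ 1 / (y + 1) := by
    rw [Real.exp_neg, ← one_div]
    exact one_div_le_one_div_of_le (by linarith) h1
  have h3 : y / (y + 1) ≤ 1 - Real.exp (-y) := by
    have : y / (y + 1) = 1 - 1 / (y + 1) := by field_simp; ring
    rw [this]; linarith
  have h4 : 0 < y / (y + 1) := by positivity
  calc (1 - Real.exp (-y))⁻¹ ≤ (y / (y + 1))⁻¹ := inv_anti₀ h4 h3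
    _ = 1 + 1 / y := by field_simp

/-- the constants -/
private lemma ZeroA_num {a c : ℕ} (ha : 1 ≤ a) (hc : 1 ≤ c) {N : ℝ} (L : ℕ) (hN : N = (L : ℝ) + 1) {x : ℝ}
    (hx : x = 2 * Real.pi / ((a : ℝ) * N ^ 2)) :
    (c : ℝ) ^ (c * (L + 1)) * ((c * (L + 1)).factorial : ℝ) * (4 / x) ^ (c * (L + 1)) * Real.exp (x / 4) * (1 + 1 / (x / 4)) ≤
      (((60 * c ^ 2 * a ^ 2 : ℕ) : ℝ) * N) ^ (60 * c ^ 2 * a ^ 2 * (L + 1)) := by
  have hN1 : (1 : ℝ) ≤ N := by rw [hN]; have : (0 : ℝ) ≤ L := Nat.cast_nonneg L; linarith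
  have ha1 : (1 : ℝ) ≤ a := by exact_mod_cast ha
  have hc1 : (1 : ℝ) ≤ c := by exact_mod_cast hc
  have hpi : 3 < Real.pi := Real.pi_gt_three
  have hpi4 : Real.pi < 3.15 := Real.pi_lt_d2
  have haN : (1 : ℝ) ≤ (a : ℝ) * N ^ 2 := by
    have : (1 : ℝ) ≤ N ^ 2 := one_le_pow₀ hN1
    nlinarith
  have hx0 : 0 < x := by rw [hx]; positivity
  have hx7 : x ≤ 6.3 := by
    rw [hx, div_le_iff₀ (by positivity)]
    nlinarith
  have h4x : 4 / x ≤ (a : ℝ) * N ^ 2 := by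
    rw [hx, div_div_eq_mul_div, div_le_iff₀ (by positivity)]
    nlinarith
  have hexp : Real.exp (x / 4) ≤ 8 := by
    have h1 : Real.exp (x / 4) ≤ Real.exp 1 ^ 2 := by
      rw [← Real.exp_nat_mul]
      apply Real.exp_le_exp.2
      push_cast
      linarith
    have h2 : Real.exp 1 < 2.7182818286 := Real.exp_one_lt_d9
    have h3 : 0 < Real.exp 1 := Real.exp_pos 1
    nlinarith
  have hlast : 1 + 1 / (x / 4) ≤ 2 * ((a : ℝ) * N ^ 2) := by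
    have : 1 / (x / 4) = 4 / x := by field_simp
    rw [this]; linarith
  set k := c * (L + 1) with hk
  have hk1 : 1 ≤ k := by rw [hk]; exact Nat.mul_pos hc (Nat.succ_pos L)
  have hkN : (k : ℝ) = c * N := by rw [hk, hN]; push_cast; ring
  have hfac : (k.factorial : ℝ) ≤ (c * N) ^ k := by
    rw [← hkN]; exact_mod_cast Nat.factorial_le_pow k
  have e1 : (c : ℝ) ^ k * (k.factorial : ℝ) * (4 / x) ^ k * Real.exp (x / 4) * (1 + 1 / (x / 4)) ≤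
      (c : ℝ) ^ k * (c * N) ^ k * ((a : ℝ) * N ^ 2) ^ k * 8 * (2 * ((a : ℝ) * N ^ 2)) := by
    gcongr
  have e2 : (8 : ℝ) * (2 * ((a : ℝ) * N ^ 2)) ≤ (16 * ((a : ℝ) * N ^ 2)) ^ k := by
    calc (8 : ℝ) * (2 * ((a : ℝ) * N ^ 2)) = (16 * ((a : ℝ) * N ^ 2)) ^ 1 := by ring
      _ ≤ (16 * ((a : ℝ) * N ^ 2)) ^ k := pow_le_pow_right₀ (by linarith) hk1
  have e3 : (c : ℝ) ^ k * (c * N) ^ k * ((a : ℝ) * N ^ 2) ^ k * (16 * ((a : ℝ) * N ^ 2)) ^ k =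
      (16 * (c : ℝ) ^ 2 * (a : ℝ) ^ 2 * N ^ 5) ^ k := by
    rw [← mul_pow, ← mul_pow, ← mul_pow]; congr 1; ring
  have hb1 : (1 : ℝ) ≤ ((60 * c ^ 2 * a ^ 2 : ℕ) : ℝ) * N := by
    have : (1 : ℝ) ≤ ((60 * c ^ 2 * a ^ 2 : ℕ) : ℝ) := by
      have : 1 ≤ 60 * c ^ 2 * a ^ 2 := Nat.mul_pos (Nat.mul_pos (by norm_num) (pow_pos hc 2)) (pow_pos ha 2)
      exact_mod_cast this
    nlinarith
  have e4 : (16 * (c : ℝ) ^ 2 * (a : ℝ) ^ 2 * N ^ 5) ≤ (((60 * c ^ 2 * a ^ 2 : ℕ) : ℝ) * N) ^ 5 := by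
    have h5 : (((60 * c ^ 2 * a ^ 2 : ℕ) : ℝ) * N) ^ 5 = ((60 * c ^ 2 * a ^ 2 : ℕ) : ℝ) ^ 5 * N ^ 5 := by rw [mul_pow]
    rw [h5]
    have h6 : 16 * (c : ℝ) ^ 2 * (a : ℝ) ^ 2 ≤ ((60 * c ^ 2 * a ^ 2 : ℕ) : ℝ) := by
      push_cast
      have : 0 < (c : ℝ) ^ 2 * (a : ℝ) ^ 2 := by positivity
      nlinarith
    have h7 : ((60 * c ^ 2 * a ^ 2 : ℕ) : ℝ) ≤ ((60 * c ^ 2 * a ^ 2 : ℕ) : ℝ) ^ 5 := by
      have : (1 : ℝ) ≤ ((60 * c ^ 2 * a ^ 2 : ℕ) : ℝ) := by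
        have : 1 ≤ 60 * c ^ 2 * a ^ 2 := Nat.mul_pos (Nat.mul_pos (by norm_num) (pow_pos hc 2)) (pow_pos ha 2)
        exact_mod_cast this
      exact le_self_pow₀ this (by norm_num)
    exact mul_le_mul_of_nonneg_right (h6.trans h7) (by positivity)
  calc (c : ℝ) ^ k * (k.factorial : ℝ) * (4 / x) ^ k * Real.exp (x / 4) * (1 + 1 / (x / 4))
      ≤ (c : ℝ) ^ k * (c * N) ^ k * ((a : ℝ) * N ^ 2) ^ k * 8 * (2 * ((a : ℝ) * N ^ 2)) := e1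
    _ = (c : ℝ) ^ k * (c * N) ^ k * ((a : ℝ) * N ^ 2) ^ k * (8 * (2 * ((a : ℝ) * N ^ 2))) := by ring
    _ ≤ (c : ℝ) ^ k * (c * N) ^ k * ((a : ℝ) * N ^ 2) ^ k * (16 * ((a : ℝ) * N ^ 2)) ^ k :=
        mul_le_mul_of_nonneg_left e2 (by positivity)
    _ = (16 * (c : ℝ) ^ 2 * (a : ℝ) ^ 2 * N ^ 5) ^ k := e3
    _ ≤ ((((60 * c ^ 2 * a ^ 2 : ℕ) : ℝ) * N) ^ 5) ^ k := pow_le_pow_left₀ (by positivity) e4 k
    _ = (((60 * c ^ 2 * a ^ 2 : ℕ) : ℝ) * N) ^ (5 * k) := by rw [← pow_mul]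
    _ ≤ (((60 * c ^ 2 * a ^ 2 : ℕ) : ℝ) * N) ^ (60 * c ^ 2 * a ^ 2 * (L + 1)) := by
        apply pow_le_pow_right₀ hb1
        rw [hk, ← mul_assoc]
        apply Nat.mul_le_mul_right
        have h8 : 1 ≤ c * a ^ 2 := Nat.mul_pos hc (pow_pos ha 2)
        nlinarith

theorem zero_up (a : ℕ) (ha : 1 ≤ a) : ∃ c : ℕ, 1 ≤ c ∧
    ∀ (L M : ℕ) (P : Fin (L + 1) → Fin (L + 1) → ℤ) (S : ℝ), (∀ i j, ((|P i j| : ℤ) : ℝ) ≤ S) →
      (∀ n < M, coeff n (FP L P) = 0) → ∀ τ : ℍ, 1 / ((a : ℝ) * (L + 1) ^ 2) ≤ τ.im →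
        ‖∑ i : Fin (L + 1), ∑ j : Fin (L + 1), (P i j : ℂ) *
          (ModularForm.E₄ τ ^ (3 * (i : ℕ)) * ModularForm.discriminant τ ^ (j : ℕ))‖ ≤
          S * ((c : ℝ) * (L + 1)) ^ (c * (L + 1)) * Real.exp (-(M / ((c : ℝ) * (L + 1) ^ 2))) := by
  obtain ⟨c, hc, hco⟩ := fp_coef_le
  refine ⟨60 * c ^ 2 * a ^ 2, Nat.mul_pos (Nat.mul_pos (by norm_num) (pow_pos hc 2)) (pow_pos ha 2), ?_⟩
  intro L M P S hS hz τ hτ
  have hN1 : (1 : ℝ) ≤ (L : ℝ) + 1 := by have : (0 : ℝ) ≤ L := Nat.cast_nonneg L; linarith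
  have ha1 : (1 : ℝ) ≤ a := by exact_mod_cast ha
  have hc1 : (1 : ℝ) ≤ c := by exact_mod_cast hc
  have hS0 : 0 ≤ S := le_trans (by positivity) (hS 0 0)
  set N : ℝ := (L : ℝ) + 1 with hN
  obtain ⟨x, hx⟩ : ∃ x, x = 2 * Real.pi / ((a : ℝ) * N ^ 2) := ⟨_, rfl⟩
  have hx0 : 0 < x := by rw [hx]; have := Real.pi_pos; positivity
  set k := c * (L + 1) with hk
  have hq : ‖Function.Periodic.qParam 1 (τ : ℂ)‖ ≤ Real.exp (-x) := by
    rw [Function.Periodic.norm_qParam]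
    apply Real.exp_le_exp.2
    have h1 : x ≤ 2 * Real.pi * τ.im := by
      rw [hx, div_eq_mul_one_div]
      exact mul_le_mul_of_nonneg_left hτ (by have := Real.pi_pos; positivity)
    have h2 : (τ : ℂ).im = τ.im := rfl
    rw [h2]; linarith
  set B : ℝ := S * ((c : ℝ) ^ k * (k.factorial : ℝ) * (4 / x) ^ k) * Real.exp (x / 4) * Real.exp (-(M * x / 2)) with hB
  have hB0 : 0 ≤ B := by positivity
  have hterm : ∀ n : ℕ, ‖((coeff n (FP L P) : ℤ) : ℂ) * Function.Periodic.qParam 1 (τ : ℂ) ^ n‖ ≤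
      B * Real.exp (-(x / 4)) ^ n := by
    intro n
    by_cases hn : n < M
    · rw [hz n hn]; simp only [Int.cast_zero, zero_mul, norm_zero]; positivity
    · have hn' : (M : ℝ) ≤ n := by exact_mod_cast not_lt.1 hn
      rw [norm_mul, norm_pow, Complex.norm_intCast]
      have h1 : |((coeff n (FP L P) : ℤ) : ℝ)| ≤ S * ((c : ℝ) * (n + 1)) ^ k := by
        have := hco L P S hS n
        rwa [Int.cast_abs] at this
      calc |((coeff n (FP L P) : ℤ) : ℝ)| * ‖Function.Periodic.qParam 1 (τ : ℂ)‖ ^ n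
          ≤ (S * ((c : ℝ) * (n + 1)) ^ k) * Real.exp (-x) ^ n := by gcongr
        _ = S * (c : ℝ) ^ k * ((n : ℝ) + 1) ^ k * Real.exp (-x) ^ n := by rw [mul_pow]; ring
        _ ≤ S * (c : ℝ) ^ k * ((k.factorial : ℝ) * (4 / x) ^ k * Real.exp (((n : ℝ) + 1) * x / 4)) *
            Real.exp (-x) ^ n := by
            gcongr
            exact ZeroA_pow hx0 n k
        _ = S * ((c : ℝ) ^ k * (k.factorial : ℝ) * (4 / x) ^ k) *
            (Real.exp (((n : ℝ) + 1) * x / 4) * Real.exp (-x) ^ n) := by ring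
        _ ≤ S * ((c : ℝ) ^ k * (k.factorial : ℝ) * (4 / x) ^ k) *
            (Real.exp (x / 4) * Real.exp (-(M * x / 2)) * Real.exp (-(x / 4)) ^ n) := by
            refine mul_le_mul_of_nonneg_left ?_ (by positivity)
            rw [← Real.exp_nat_mul, ← Real.exp_nat_mul, ← Real.exp_add, ← Real.exp_add, ← Real.exp_add]
            apply Real.exp_le_exp.2
            have : (M : ℝ) * x ≤ n * x := mul_le_mul_of_nonneg_right hn' hx0.le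
            nlinarith
        _ = B * Real.exp (-(x / 4)) ^ n := by rw [hB]; ring
  have hr : Real.exp (-(x / 4)) < 1 := by
    rw [Real.exp_lt_one_iff]; linarith
  have hsum : HasSum (fun n : ℕ => B * Real.exp (-(x / 4)) ^ n) (B * (1 - Real.exp (-(x / 4)))⁻¹) :=
    (hasSum_geometric_of_lt_one (Real.exp_pos _).le hr).mul_left B
  refine (HasSum.norm_le_of_bounded (fp_hasSum L P τ) hsum hterm).trans ?_
  have hg := ZeroA_geo (y := x / 4) (by positivity)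
  have hnum := ZeroA_num ha hc L hN hx
  have hM : Real.exp (-(M * x / 2)) ≤ Real.exp (-(M / (((60 * c ^ 2 * a ^ 2 : ℕ) : ℝ) * N ^ 2))) := by
    apply Real.exp_le_exp.2
    have h1 : 1 / (((60 * c ^ 2 * a ^ 2 : ℕ) : ℝ) * N ^ 2) ≤ x / 2 := by
      have h2 : x / 2 = Real.pi / ((a : ℝ) * N ^ 2) := by rw [hx]; ring
      rw [h2]
      have hpi : 3 < Real.pi := Real.pi_gt_three
      apply div_le_div₀ (by positivity) (by linarith) (by positivity)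
      have h3 : (a : ℝ) ≤ ((60 * c ^ 2 * a ^ 2 : ℕ) : ℝ) := by
        have : a ≤ 60 * c ^ 2 * a ^ 2 := by
          have h8 : 1 ≤ 60 * c ^ 2 := Nat.mul_pos (by norm_num) (pow_pos hc 2)
          nlinarith
        exact_mod_cast this
      exact mul_le_mul_of_nonneg_right h3 (by positivity)
    have h4 : (M : ℝ) / (((60 * c ^ 2 * a ^ 2 : ℕ) : ℝ) * N ^ 2) = M * (1 / (((60 * c ^ 2 * a ^ 2 : ℕ) : ℝ) * N ^ 2)) := by
      ring
    have h5 : (M : ℝ) * (1 / (((60 * c ^ 2 * a ^ 2 : ℕ) : ℝ) * N ^ 2)) ≤ M * (x / 2) :=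
      mul_le_mul_of_nonneg_left h1 (Nat.cast_nonneg M)
    rw [h4]; linarith
  calc B * (1 - Real.exp (-(x / 4)))⁻¹ ≤ B * (1 + 1 / (x / 4)) := mul_le_mul_of_nonneg_left hg hB0
    _ = S * ((c : ℝ) ^ k * (k.factorial : ℝ) * (4 / x) ^ k * Real.exp (x / 4) * (1 + 1 / (x / 4))) *
        Real.exp (-(M * x / 2)) := by rw [hB]; ring
    _ ≤ S * (((60 * c ^ 2 * a ^ 2 : ℕ) : ℝ) * N) ^ (60 * c ^ 2 * a ^ 2 * (L + 1)) *
        Real.exp (-(M / (((60 * c ^ 2 * a ^ 2 : ℕ) : ℝ) * N ^ 2))) := by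
        gcongr

end Pool.Agent.LGO.PA
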