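import Mathlib

/-!
# LGO/PA: the coefficients of a polynomial from its values

PROOF.  Lagrange interpolation (`Lagrange.eq_interpolate` or `Lagrange.interpolate`-lemmas): `P = ∑_i P(z_i) ∏_{k ≠ i} (X - z_k) / (z_i - z_k)`,
`i ≤ n`.  The coefficients of `∏_{k ≠ i} (X - z_k)` (`n` factors) are at most `(1 + R) ^ n` in absolute value (sum of the absolute values of the
coefficients is submultiplicative), so `|coeff m P| ≤ (n + 1) Y (1 + R) ^ n δ ^ (-n)`.
-/

namespace Pool.Agent.LGO.PA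

open Polynomial

private theorem LagB_step (a z : ℂ) (p : ℂ[X]) {δ R B : ℝ} (hδ : 0 < δ) (hR : 0 ≤ R)
    (ha : ‖a‖ ≤ 1 / δ) (hz : ‖z‖ ≤ R) (hB : 0 ≤ B) (hp : ∀ m, ‖p.coeff m‖ ≤ B) (m : ℕ) :
    ‖(C a * (X - C z) * p).coeff m‖ ≤ (1 + R) / δ * B := by
  have h1 : (C a * (X - C z) * p).coeff m = a * ((X * p).coeff m - z * p.coeff m) := by
    rw [mul_assoc, coeff_C_mul, sub_mul, coeff_sub, coeff_C_mul]
  have h2 : ‖(X * p).coeff m‖ ≤ B := by
    cases m with
    | zero => simpa using hB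
    | succ k =>
      rw [coeff_X_mul]
      exact hp k
  have h3 : ‖(X * p).coeff m - z * p.coeff m‖ ≤ B + R * B := by
    refine (norm_sub_le _ _).trans (add_le_add h2 ?_)
    rw [norm_mul]
    exact mul_le_mul hz (hp m) (norm_nonneg _) hR
  rw [h1, norm_mul]
  calc ‖a‖ * ‖(X * p).coeff m - z * p.coeff m‖ ≤ 1 / δ * (B + R * B) :=
        mul_le_mul ha h3 (norm_nonneg _) (by positivity)
    _ = (1 + R) / δ * B := by ring

private theorem LagB_prod {ι : Type*} [DecidableEq ι] (T : Finset ι) (a z : ι → ℂ) {δ R : ℝ}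
    (hδ : 0 < δ) (hR : 0 ≤ R) (ha : ∀ j ∈ T, ‖a j‖ ≤ 1 / δ) (hz : ∀ j, ‖z j‖ ≤ R) (m : ℕ) :
    ‖(∏ j ∈ T, (C (a j) * (X - C (z j)))).coeff m‖ ≤ ((1 + R) / δ) ^ T.card := by
  induction T using Finset.induction_on generalizing m with
  | empty =>
    rw [Finset.prod_empty, Finset.card_empty, pow_zero, coeff_one]
    split_ifs <;> simp
  | insert j T hj ih =>
    rw [Finset.prod_insert hj, Finset.card_insert_of_notMem hj, pow_succ']
    exact LagB_step (a j) (z j) _ hδ hR (ha j (Finset.mem_insert_self j T)) (hz j) (by positivity)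
      (fun k => ih (fun i hi => ha i (Finset.mem_insert_of_mem hi)) k) m

theorem lag_bound (n : ℕ) (P : ℂ[X]) (hP : P.natDegree ≤ n) (z : Fin (n + 1) → ℂ) {δ R Y : ℝ}
    (hδ : 0 < δ) (hsep : ∀ i k, i ≠ k → δ ≤ ‖z i - z k‖) (hR : ∀ i, ‖z i‖ ≤ R)
    (hY : ∀ i, ‖P.eval (z i)‖ ≤ Y) (m : ℕ) :
    ‖P.coeff m‖ ≤ (n + 1) * Y * ((1 + R) / δ) ^ n := by
  classical
  have hR0 : 0 ≤ R := (norm_nonneg _).trans (hR 0)
  have hY0 : 0 ≤ Y := (norm_nonneg _).trans (hY 0)
  have hinj : Set.InjOn z ((Finset.univ : Finset (Fin (n + 1))) : Set (Fin (n + 1))) := by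
    intro i _ k _ hik
    by_contra hne
    have := hsep i k hne
    rw [hik, sub_self, norm_zero] at this
    linarith
  have hdeg : P.degree < ((Finset.univ : Finset (Fin (n + 1))).card : WithBot ℕ) := by
    rw [Finset.card_univ, Fintype.card_fin]
    refine lt_of_le_of_lt degree_le_natDegree ?_
    exact_mod_cast Nat.lt_succ_of_le hP
  have hint := Lagrange.eq_interpolate hinj hdeg
  have hc : P.coeff m = ∑ i : Fin (n + 1), P.eval (z i) * (Lagrange.basis Finset.univ z i).coeff m := by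
    conv_lhs => rw [hint]
    rw [Lagrange.interpolate_apply, finsetSum_coeff]
    refine Finset.sum_congr rfl fun i _ => ?_
    rw [coeff_C_mul]
  rw [hc]
  refine (norm_sum_le _ _).trans ?_
  have hterm : ∀ i ∈ (Finset.univ : Finset (Fin (n + 1))),
      ‖P.eval (z i) * (Lagrange.basis Finset.univ z i).coeff m‖ ≤ Y * ((1 + R) / δ) ^ n := by
    intro i _
    rw [norm_mul]
    refine mul_le_mul (hY i) ?_ (norm_nonneg _) hY0
    have hb := LagB_prod (Finset.univ.erase i) (fun j => (z i - z j)⁻¹) z hδ hR0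
      (fun j hj => by
        rw [norm_inv, one_div]
        exact inv_anti₀ hδ (hsep i j (Finset.ne_of_mem_erase hj).symm)) hR m
    rw [Finset.card_erase_of_mem (Finset.mem_univ i), Finset.card_univ, Fintype.card_fin,
      Nat.add_sub_cancel] at hb
    exact hb
  refine (Finset.sum_le_sum hterm).trans ?_
  rw [Finset.sum_const, Finset.card_univ, Fintype.card_fin, nsmul_eq_mul]
  push_cast
  exact le_of_eq (by ring)

end Pool.Agent.LGO.PA
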