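import Mathlib
import Pool.Agent.LGO.PA.CEv
import Pool.Agent.LGO.PA.LagB
import Pool.Agent.LGO.U.BArch
import Pool.Agent.LGO.Gal.Basic

/-!
# LGO/PA: zero estimate, lower bound

PROOF.  `G(τ) = ∑ P i j E₄(τ) ^ (3 i) Δ(τ) ^ j`.  Let `τ_l` (`l ≤ L`) be reduced with `j(τ_l) = l / (L + 1)` (`exists_red`, `Gal.exists_red`), so
`√3 / 2 ≤ Im τ_l ≤ A`, `‖τ_l‖ ≤ A`, with a constant `A` (`exp (2 π Im τ) ≤ C (1 + |j|)`: `exp_im_le`, `LGO/H/JSize.lean`).  `γ_k = (1 0; k 1) ∈ SL₂(ℤ)`,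
`k = 1, ..., 2 L + 1`: `Im (γ_k τ_l) = Im τ_l / ‖k τ_l + 1‖ ^ 2 ≥ 1 / (a (L + 1) ^ 2)`.  Put `z = (k τ_l + 1) ^ 12`: `E₄(γ τ) = (k τ + 1) ^ 4 E₄(τ)`, `Δ(γ τ) = (k τ + 1) ^ 12 Δ(τ)`
(modularity, see `disc_smul`, `BDef_disc_sl`), so
`G(γ_k τ_l) = ∑_{w ≤ 2 L} z ^ w F_w(τ_l)`, `F_w(τ) = ∑_{i + j = w} P i j E₄(τ) ^ (3 i) Δ(τ) ^ j = Δ(τ) ^ w ∑_{i + j = w} P i j j(τ) ^ i`.
For fixed `l` the numbers `z_k = (k τ_l + 1) ^ 12` are separated: `‖k τ + 1‖ ^ 2 = k ^ 2 ‖τ‖ ^ 2 + 2 k Re τ + 1` grows by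
`(2 k + 1) ‖τ‖ ^ 2 + 2 Re τ ≥ 2` from `k` to `k + 1`, so `‖z_k‖ - ‖z_k'‖ ≥ 1` for `k > k'`; `‖z_k‖ ≤ (a (L + 1)) ^ 12`.  `lag_bound` (`n = 2 L`, `δ = 1`): if all
`‖G(γ_k τ_l)‖ ≤ Y` then `‖F_w(τ_l)‖ ≤ Y (a' (L + 1)) ^ (a' (L + 1))`.  `‖Δ(τ_l)‖ ≥ δ₀ > 0` (continuous and nonzero on a compact set, or `disc_size`,
`LGO/U/BArch.lean`), so `|∑_{i + j = w} P i j (l / (L + 1)) ^ i| ≤ Y (...)`, and `lag_bound` again with the nodes `l / (L + 1)`, `δ = 1 / (L + 1)`, `R = 1`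
(`n = L`; coefficients `P i (w - i)` for `i ≤ L`, `w - i ≤ L`): `|P i j| ≤ Y (c (L + 1)) ^ (c (L + 1))` for all `i, j`.
-/

namespace Pool.Agent.LGO.PA

open PowerSeries UpperHalfPlane Pool.Agent.Hhelper14.ZP Pool.Agent.LGO

/-- The translation `τ ↦ τ / (k τ + 1)`. -/
private def gam (k : ℤ) : Matrix.SpecialLinearGroup (Fin 2) ℤ :=
  ⟨!![1, 0; k, 1], by simp [Matrix.det_fin_two]⟩

private lemma gam_denom (k : ℤ) (τ : ℍ) :
    denom (gam k : GL (Fin 2) ℝ) τ = (k : ℂ) * (τ : ℂ) + 1 := by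
  rw [ModularGroup.denom_apply]
  simp [gam]

private lemma gam_E4 (k : ℤ) (τ : ℍ) :
    ModularForm.E₄ (gam k • τ) = ((k : ℂ) * (τ : ℂ) + 1) ^ 4 * ModularForm.E₄ τ := by
  rw [E4_smul, gam_denom]; norm_cast

private lemma gam_disc (k : ℤ) (τ : ℍ) :
    ModularForm.discriminant (gam k • τ) = ((k : ℂ) * (τ : ℂ) + 1) ^ 12 * ModularForm.discriminant τ := by
  rw [disc_smul, gam_denom]; norm_cast

private lemma gam_im (k : ℤ) (τ : ℍ) :
    (gam k • τ).im = τ.im / Complex.normSq ((k : ℂ) * (τ : ℂ) + 1) := by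
  rw [ModularGroup.im_smul_eq_div_normSq, gam_denom]

private lemma normSq_lin (k : ℝ) (τ : ℂ) :
    Complex.normSq ((k : ℂ) * τ + 1) = k ^ 2 * Complex.normSq τ + 2 * k * τ.re + 1 := by
  simp [Complex.normSq_apply]
  ring

/-- The polynomial in `z = (k τ + 1) ^ 12`. -/
private noncomputable def QP (L : ℕ) (P : Fin (L + 1) → Fin (L + 1) → ℤ) (u v : ℂ) : Polynomial ℂ :=
  ∑ i : Fin (L + 1), ∑ j : Fin (L + 1),
    Polynomial.C ((P i j : ℂ) * (u ^ (3 * (i : ℕ)) * v ^ (j : ℕ))) * Polynomial.X ^ ((i : ℕ) + (j : ℕ))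

private noncomputable def RP (L : ℕ) (P : Fin (L + 1) → Fin (L + 1) → ℤ) (w : ℕ) : Polynomial ℂ :=
  ∑ i : Fin (L + 1), ∑ j : Fin (L + 1),
    if w = (i : ℕ) + (j : ℕ) then Polynomial.C (P i j : ℂ) * Polynomial.X ^ (i : ℕ) else 0

private lemma QP_deg (L : ℕ) (P : Fin (L + 1) → Fin (L + 1) → ℤ) (u v : ℂ) : (QP L P u v).natDegree ≤ 2 * L := by
  unfold QP
  refine Polynomial.natDegree_sum_le_of_forall_le _ _ fun i _ => ?_
  refine Polynomial.natDegree_sum_le_of_forall_le _ _ fun j _ => ?_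
  refine (Polynomial.natDegree_C_mul_X_pow_le _ _).trans ?_
  have := i.2
  have := j.2
  omega

private lemma RP_deg (L : ℕ) (P : Fin (L + 1) → Fin (L + 1) → ℤ) (w : ℕ) : (RP L P w).natDegree ≤ L := by
  unfold RP
  refine Polynomial.natDegree_sum_le_of_forall_le _ _ fun i _ => ?_
  refine Polynomial.natDegree_sum_le_of_forall_le _ _ fun j _ => ?_
  split_ifs
  · refine (Polynomial.natDegree_C_mul_X_pow_le _ _).trans ?_
    have := i.2
    omega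
  · simp

private lemma QP_eval (L : ℕ) (P : Fin (L + 1) → Fin (L + 1) → ℤ) (u v s : ℂ) :
    (QP L P u v).eval (s ^ 12) = ∑ i : Fin (L + 1), ∑ j : Fin (L + 1), (P i j : ℂ) *
      ((s ^ 4 * u) ^ (3 * (i : ℕ)) * (s ^ 12 * v) ^ (j : ℕ)) := by
  unfold QP
  rw [Polynomial.eval_finsetSum]
  refine Finset.sum_congr rfl fun i _ => ?_
  rw [Polynomial.eval_finsetSum]
  refine Finset.sum_congr rfl fun j _ => ?_
  rw [Polynomial.eval_mul, Polynomial.eval_C, Polynomial.eval_pow, Polynomial.eval_X, mul_pow, mul_pow,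
    pow_add, ← pow_mul, ← pow_mul s 4]
  have : 4 * (3 * (i : ℕ)) = 12 * (i : ℕ) := by ring
  rw [this]
  ring

private lemma QP_coeff (L : ℕ) (P : Fin (L + 1) → Fin (L + 1) → ℤ) (u v x : ℂ) (h : u ^ 3 = x * v) (w : ℕ) :
    (QP L P u v).coeff w = v ^ w * (RP L P w).eval x := by
  unfold QP RP
  rw [Polynomial.finsetSum_coeff, Polynomial.eval_finsetSum, Finset.mul_sum]
  refine Finset.sum_congr rfl fun i _ => ?_
  rw [Polynomial.finsetSum_coeff, Polynomial.eval_finsetSum, Finset.mul_sum]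
  refine Finset.sum_congr rfl fun j _ => ?_
  rw [Polynomial.coeff_C_mul_X_pow]
  split_ifs with hw
  · rw [Polynomial.eval_mul, Polynomial.eval_C, Polynomial.eval_pow, Polynomial.eval_X, pow_mul, h, mul_pow, hw,
      pow_add]
    ring
  · simp

private lemma RP_coeff (L : ℕ) (P : Fin (L + 1) → Fin (L + 1) → ℤ) (i j : Fin (L + 1)) :
    (RP L P ((i : ℕ) + (j : ℕ))).coeff i = (P i j : ℂ) := by
  unfold RP
  rw [Polynomial.finsetSum_coeff, Finset.sum_eq_single i, Polynomial.finsetSum_coeff, Finset.sum_eq_single j]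
  · rw [if_pos rfl, Polynomial.coeff_C_mul_X_pow, if_pos rfl]
  · intro j' _ hj
    rw [if_neg]
    · simp
    · intro h
      exact hj (Fin.ext (by omega))
  · simp
  · intro i' _ hi
    rw [Polynomial.finsetSum_coeff]
    refine Finset.sum_eq_zero fun j' _ => ?_
    split_ifs with h
    · rw [Polynomial.coeff_C_mul_X_pow, if_neg]
      intro h2
      exact hi (Fin.ext h2.symm)
    · simp
  · simp

private lemma lin_grow {τ : ℂ} (h : Red τ) {k k' : ℕ} (hk' : 1 ≤ k') (hk : k' < k) :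
    Complex.normSq ((k' : ℂ) * τ + 1) + 1 ≤ Complex.normSq ((k : ℂ) * τ + 1) := by
  have e1 := normSq_lin (k : ℝ) τ
  have e2 := normSq_lin (k' : ℝ) τ
  rw [Complex.ofReal_natCast] at e1 e2
  rw [e1, e2]
  have h1 : 1 ≤ Complex.normSq τ := by
    rw [Complex.normSq_eq_norm_sq]
    have := h.one_le
    nlinarith
  have h2 := (abs_le.1 h.re_le).1
  have h3 : (1 : ℝ) ≤ k' := by exact_mod_cast hk'
  have h4 : (k' : ℝ) + 1 ≤ k := by exact_mod_cast hk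
  have h5 : (0 : ℝ) ≤ ((k : ℝ) ^ 2 - (k' : ℝ) ^ 2) := by nlinarith
  have h6 := mul_le_mul_of_nonneg_left h1 h5
  have h7 : 0 ≤ ((k : ℝ) - k') * (τ.re + 1 / 2) := mul_nonneg (by linarith) (by linarith)
  nlinarith

private lemma lin_ge {τ : ℂ} (h : Red τ) {k : ℕ} (hk : 1 ≤ k) : 1 ≤ Complex.normSq ((k : ℂ) * τ + 1) := by
  have e1 := normSq_lin (k : ℝ) τ
  rw [Complex.ofReal_natCast] at e1
  rw [e1]
  have h1 : 1 ≤ Complex.normSq τ := by
    rw [Complex.normSq_eq_norm_sq]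
    have := h.one_le
    nlinarith
  have h2 := (abs_le.1 h.re_le).1
  have h3 : (1 : ℝ) ≤ k := by exact_mod_cast hk
  nlinarith [mul_nonneg (by linarith : (0 : ℝ) ≤ k) (by linarith : (0 : ℝ) ≤ τ.re + 1 / 2)]

private lemma norm_pow12 (s : ℂ) : ‖s ^ 12‖ = Complex.normSq s ^ 6 := by
  rw [Complex.normSq_eq_norm_sq, norm_pow, ← pow_mul]

private lemma sep12 {τ : ℂ} (h : Red τ) {k k' : ℕ} (hk' : 1 ≤ k') (hk : k' < k) :
    1 ≤ ‖((k : ℂ) * τ + 1) ^ 12 - ((k' : ℂ) * τ + 1) ^ 12‖ := by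
  have h1 := norm_sub_norm_le (((k : ℂ) * τ + 1) ^ 12) (((k' : ℂ) * τ + 1) ^ 12)
  rw [norm_pow12, norm_pow12] at h1
  have h2 := lin_grow h hk' hk
  have h3 := lin_ge h hk'
  set x := Complex.normSq ((k' : ℂ) * τ + 1) with hx
  have h4 : (x + 1) ^ 6 ≤ Complex.normSq ((k : ℂ) * τ + 1) ^ 6 := pow_le_pow_left₀ (by linarith) h2 6
  have h5 : x ^ 6 + 1 ≤ (x + 1) ^ 6 := by
    have : 0 ≤ x := by linarith
    have e : (x + 1) ^ 6 - (x ^ 6 + 1) = 6 * x ^ 5 + 15 * x ^ 4 + 20 * x ^ 3 + 15 * x ^ 2 + 6 * x := by ring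
    have : 0 ≤ 6 * x ^ 5 + 15 * x ^ 4 + 20 * x ^ 3 + 15 * x ^ 2 + 6 * x := by positivity
    linarith
  linarith

theorem zero_low : ∃ a c : ℕ, 1 ≤ a ∧ 1 ≤ c ∧
    ∀ (L : ℕ) (P : Fin (L + 1) → Fin (L + 1) → ℤ) (Y : ℝ),
      (∀ τ : ℍ, 1 / ((a : ℝ) * (L + 1) ^ 2) ≤ τ.im →
        ‖∑ i : Fin (L + 1), ∑ j : Fin (L + 1), (P i j : ℂ) *
          (ModularForm.E₄ τ ^ (3 * (i : ℕ)) * ModularForm.discriminant τ ^ (j : ℕ))‖ ≤ Y) →
        ∀ i j, ((|P i j| : ℤ) : ℝ) ≤ Y * ((c : ℝ) * (L + 1)) ^ (c * (L + 1)) := by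
  obtain ⟨C1, hC1, he⟩ := exp_im_le
  obtain ⟨C2, hC2, hd⟩ := Pool.Agent.LGO.U.disc_size
  set A : ℕ := ⌈2 * C1⌉₊ + 1 with hA
  set D : ℕ := ⌈C2⌉₊ with hD
  have hA1 : (1 : ℝ) ≤ A := by rw [hA]; push_cast; linarith [Nat.cast_nonneg (α := ℝ) ⌈2 * C1⌉₊]
  have hAC : 2 * C1 + 1 ≤ (A : ℝ) := by rw [hA]; push_cast; linarith [Nat.le_ceil (2 * C1)]
  have hDC : C2 ≤ (D : ℝ) := Nat.le_ceil C2
  have hD1 : (1 : ℝ) ≤ D := by linarith
  have hAn : 1 ≤ A := by omega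
  refine ⟨8 * A ^ 2, 27 + 4 * A + D, Nat.one_le_iff_ne_zero.2 (by positivity), by omega, ?_⟩
  intro L P Y hY i₀ j₀
  set M : ℝ := (L : ℝ) + 1 with hM
  have hM1 : 1 ≤ M := by rw [hM]; linarith [Nat.cast_nonneg (α := ℝ) L]
  have hM0 : 0 < M := by linarith
  have hA0 : (0 : ℝ) < A := by linarith
  have hY0 : 0 ≤ Y := by
    have h1 := hY ⟨Complex.I * 1, by simp⟩ ?_
    · exact (norm_nonneg _).trans h1
    · change 1 / (((8 * A ^ 2 : ℕ) : ℝ) * M ^ 2) ≤ (Complex.I * 1).im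
      rw [mul_one, Complex.I_im, div_le_one (by positivity)]
      push_cast
      nlinarith [mul_le_mul (mul_le_mul hA1 hA1 zero_le_one hA0.le) (mul_le_mul hM1 hM1 zero_le_one hM0.le)
        (by positivity) (by positivity)]
  set R : ℝ := (2 * A * M) ^ 12 with hR
  set Y1 : ℝ := (2 * L + 1) * Y * (1 + R) ^ (2 * L) * (D : ℝ) ^ (2 * L) with hY1
  -- the values of the polynomials `RP`
  have key : ∀ (l : Fin (L + 1)) (w : ℕ), w ≤ 2 * L →
      ‖(RP L P w).eval ((((l : ℕ) : ℝ) / M : ℝ) : ℂ)‖ ≤ Y1 := by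
    intro l w hw
    set x : ℂ := ((((l : ℕ) : ℝ) / M : ℝ) : ℂ) with hx
    have hx1 : ‖x‖ ≤ 1 := by
      rw [hx, Complex.norm_real, Real.norm_of_nonneg (by positivity), div_le_one hM0, hM]
      have := l.2
      have : ((l : ℕ) : ℝ) ≤ L := by exact_mod_cast (by omega : (l : ℕ) ≤ L)
      linarith
    obtain ⟨τ, hτ, hj⟩ := Pool.Agent.LGO.exists_red x
    have hE := he τ hτ
    rw [hj] at hE
    have him : τ.im ≤ 2 * C1 := by
      have h1 := Real.add_one_le_exp (2 * Real.pi * τ.im)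
      have h2 : τ.im ≤ 2 * Real.pi * τ.im := by
        have := τ.im_pos
        nlinarith [Real.pi_gt_three]
      have h3 : C1 * (1 + ‖x‖) ≤ C1 * 2 := mul_le_mul_of_nonneg_left (by linarith) hC1.le
      linarith
    have hτA : ‖(τ : ℂ)‖ ≤ A := by
      have h1 := Complex.norm_le_abs_re_add_abs_im (τ : ℂ)
      have h2 : |(τ : ℂ).im| = τ.im := by rw [UpperHalfPlane.coe_im]; exact abs_of_pos τ.im_pos
      rw [h2] at h1
      have h3 := hτ.re_le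
      linarith
    have hdd := (hd τ hτ).2
    rw [hj, max_eq_left hx1, mul_one] at hdd
    set v := ModularForm.discriminant τ with hv
    set u := ModularForm.E₄ τ with hu
    have hv0 : v ≠ 0 := by
      intro h
      rw [h, norm_zero, mul_zero] at hdd
      linarith
    have huv : u ^ 3 = x * v := by
      rw [← hj, jInv, ← hu, ← hv, div_mul_cancel₀ _ hv0]
    have hDv : 1 ≤ (D : ℝ) * ‖v‖ := hdd.trans (mul_le_mul_of_nonneg_right hDC (norm_nonneg _))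
    have hnum : ∀ k : Fin (2 * L + 1), (((k : ℕ) + 1 : ℕ) : ℝ) ≤ 2 * M - 1 := by
      intro k
      have h1 : (k : ℕ) + 1 ≤ 2 * L + 1 := by have := k.2; omega
      have h2 : (((k : ℕ) + 1 : ℕ) : ℝ) ≤ 2 * L + 1 := by exact_mod_cast h1
      rw [hM]; linarith
    have hlin : ∀ k : Fin (2 * L + 1), ‖(((k : ℕ) + 1 : ℕ) : ℂ) * (τ : ℂ) + 1‖ ≤ 2 * A * M := by
      intro k
      refine (norm_add_le _ _).trans ?_
      rw [norm_mul, Complex.norm_natCast, norm_one]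
      have h1 : (((k : ℕ) + 1 : ℕ) : ℝ) * ‖(τ : ℂ)‖ ≤ (2 * M - 1) * A :=
        mul_le_mul (hnum k) hτA (norm_nonneg _) (by linarith)
      nlinarith
    have hl := lag_bound (2 * L) (QP L P u v) (QP_deg L P u v)
      (fun k : Fin (2 * L + 1) => ((((k : ℕ) + 1 : ℕ) : ℂ) * (τ : ℂ) + 1) ^ 12) (δ := 1) (R := R) (Y := Y)
      one_pos ?_ ?_ ?_ w
    · rw [QP_coeff L P u v x huv w, norm_mul, norm_pow] at hl
      have h1 : (1 : ℝ) ≤ ((D : ℝ) * ‖v‖) ^ w := one_le_pow₀ hDv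
      have h2 : (D : ℝ) ^ w ≤ (D : ℝ) ^ (2 * L) := pow_le_pow_right₀ hD1 hw
      have h3 : 0 ≤ ‖v‖ ^ w * ‖(RP L P w).eval x‖ := by positivity
      calc ‖(RP L P w).eval x‖ ≤ ((D : ℝ) * ‖v‖) ^ w * ‖(RP L P w).eval x‖ :=
            le_mul_of_one_le_left (norm_nonneg _) h1
        _ = (D : ℝ) ^ w * (‖v‖ ^ w * ‖(RP L P w).eval x‖) := by rw [mul_pow]; ring
        _ ≤ (D : ℝ) ^ (2 * L) * (‖v‖ ^ w * ‖(RP L P w).eval x‖) := mul_le_mul_of_nonneg_right h2 h3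
        _ ≤ (D : ℝ) ^ (2 * L) * (((2 * L : ℕ) + 1) * Y * ((1 + R) / 1) ^ (2 * L)) :=
            mul_le_mul_of_nonneg_left hl (by positivity)
        _ = Y1 := by rw [hY1, div_one]; push_cast; ring
    · intro k k' hkk
      rcases lt_or_gt_of_ne (fun h => hkk (Fin.ext h) : (k : ℕ) ≠ (k' : ℕ)) with h | h
      · rw [norm_sub_rev]
        exact sep12 hτ (by omega) (by omega)
      · exact sep12 hτ (by omega) (by omega)
    · intro k
      rw [norm_pow, hR]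
      exact pow_le_pow_left₀ (norm_nonneg _) (hlin k) 12
    · intro k
      have h1 := hY (gam (((k : ℕ) + 1 : ℕ) : ℤ) • τ) ?_
      · simp only [gam_E4, gam_disc] at h1
        rw [Int.cast_natCast] at h1
        rw [QP_eval]
        exact h1
      · rw [gam_im, Int.cast_natCast]
        have h2 : Complex.normSq ((((k : ℕ) + 1 : ℕ) : ℂ) * (τ : ℂ) + 1) ≤ (2 * A * M) ^ 2 := by
          rw [Complex.normSq_eq_norm_sq]
          exact pow_le_pow_left₀ (norm_nonneg _) (hlin k) 2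
        have h3 := lin_ge hτ (k := (k : ℕ) + 1) (by omega)
        have h4 : (1 : ℝ) / 2 ≤ τ.im := by
          have h5 := hτ.half_le
          have h6 : (1 : ℝ) ≤ √3 := by
            rw [show (1 : ℝ) = √1 by simp]
            exact Real.sqrt_le_sqrt (by norm_num)
          have : (τ : ℂ).im = τ.im := UpperHalfPlane.coe_im τ
          linarith
        have h6 : ((8 * A ^ 2 : ℕ) : ℝ) = 8 * (A : ℝ) ^ 2 := by push_cast; ring
        rw [h6, div_le_div_iff₀ (by positivity) (by linarith)]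
        nlinarith [mul_le_mul_of_nonneg_right h4 (by positivity : (0 : ℝ) ≤ 8 * (A : ℝ) ^ 2 * M ^ 2)]
  -- second interpolation
  have hl := lag_bound L (RP L P ((i₀ : ℕ) + (j₀ : ℕ))) (RP_deg L P _)
    (fun l : Fin (L + 1) => ((((l : ℕ) : ℝ) / M : ℝ) : ℂ)) (δ := 1 / M) (R := 1) (Y := Y1)
    (by positivity) ?_ ?_ (fun l => key l _ (by have := i₀.2; have := j₀.2; omega)) i₀
  · rw [RP_coeff, Complex.norm_intCast] at hl
    rw [Int.cast_abs]
    refine hl.trans ?_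
    set c : ℕ := 27 + 4 * A + D with hc
    have hcr : (c : ℝ) = 27 + 4 * A + D := by rw [hc]; push_cast; ring
    set B : ℝ := (c : ℝ) * M with hB
    have hB1 : 1 ≤ B := by rw [hB, hcr]; nlinarith
    have b1 : M ≤ B := by rw [hB, hcr]; nlinarith
    have b2 : 2 * (L : ℝ) + 1 ≤ B := by rw [hB, hcr]; nlinarith
    have b3 : 1 + R ≤ B ^ 12 := by
      have h1 : 1 ≤ 2 * A * M := by nlinarith
      have h2 : 1 ≤ R := one_le_pow₀ h1
      have h3 : (2 * (2 * A * M)) ^ 12 ≤ B ^ 12 := by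
        apply pow_le_pow_left₀ (by positivity)
        rw [hB, hcr]; nlinarith
      have h4 : (2 * (2 * A * M)) ^ 12 = 4096 * R := by rw [hR]; ring
      linarith
    have b4 : (D : ℝ) ≤ B := by rw [hB, hcr]; nlinarith
    have b5 : (1 + 1) / (1 / M) ≤ B := by
      rw [div_div_eq_mul_div, div_one]
      rw [hB, hcr]; nlinarith
    have hL0 : (0 : ℝ) ≤ L := Nat.cast_nonneg L
    have hB0 : 0 ≤ B := by linarith
    have hR0 : 0 ≤ R := by positivity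
    calc ((L : ℝ) + 1) * Y1 * ((1 + 1) / (1 / M)) ^ L
        ≤ B * (B * Y * (B ^ 12) ^ (2 * L) * B ^ (2 * L)) * B ^ L := by
          rw [hY1]
          gcongr
      _ = Y * B ^ (27 * L + 2) := by
          rw [← pow_mul]; ring
      _ ≤ Y * B ^ (c * (L + 1)) := by
          apply mul_le_mul_of_nonneg_left _ hY0
          apply pow_le_pow_right₀ hB1
          have h1 : 27 * (L + 1) ≤ c * (L + 1) := Nat.mul_le_mul_right _ (by omega)
          omega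
  · intro k k' hkk
    have h1 : (1 : ℝ) ≤ |((k : ℕ) : ℝ) - ((k' : ℕ) : ℝ)| := by
      have h2 : ((k : ℕ) : ℤ) - ((k' : ℕ) : ℤ) ≠ 0 := by
        intro h
        exact hkk (Fin.ext (by omega))
      have h3 := Int.one_le_abs h2
      exact_mod_cast h3
    rw [← Complex.ofReal_sub, Complex.norm_real, Real.norm_eq_abs, ← sub_div, abs_div, abs_of_pos hM0]
    exact div_le_div_of_nonneg_right h1 hM0.le
  · intro k
    rw [Complex.norm_real, Real.norm_of_nonneg (by positivity), div_le_one hM0, hM]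
    have := k.2
    have : ((k : ℕ) : ℝ) ≤ L := by exact_mod_cast (by omega : (k : ℕ) ≤ L)
    linarith

end Pool.Agent.LGO.PA
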