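import Mathlib
import Pool.Agent.LGO.PA.ZeroA
import Pool.Agent.LGO.PA.ZeroB

/-!
# LGO/PA: the zero estimate

PROOF.  `S = max |P i j| ≥ 1` (attained).  If all coefficients of index `< M` vanish then by `zero_low` and `zero_up` (with `a` from
`zero_low`) `S ≤ S (c₁ (L + 1)) ^ (c₁ (L + 1)) exp (-(M / (c₁ (L + 1) ^ 2))) (c₂ (L + 1)) ^ (c₂ (L + 1))`, so `M ≤ c₁ (L + 1) ^ 2 (c₁ (L + 1) log (c₁ (L + 1)) + c₂ (L + 1) log (c₂ (L + 1))) ≤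
c (L + 1) ^ 4` (`log x ≤ x`).  So some coefficient of index at most `c (L + 1) ^ 5` is not zero.
-/

namespace Pool.Agent.LGO.PA

open PowerSeries

private lemma Zero_pow (k : ℕ) : ((k : ℝ)) ^ k ≤ Real.exp ((k : ℝ) ^ 2) := by
  have h1 : (k : ℝ) ≤ Real.exp k := by
    have := Real.add_one_le_exp (k : ℝ)
    linarith
  calc ((k : ℝ)) ^ k ≤ (Real.exp k) ^ k := pow_le_pow_left₀ (Nat.cast_nonneg k) h1 k
    _ = Real.exp ((k : ℝ) ^ 2) := by rw [← Real.exp_nat_mul]; congr 1; ring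

theorem zero_est : ∃ c : ℕ, 1 ≤ c ∧ ∀ (L : ℕ) (P : Fin (L + 1) → Fin (L + 1) → ℤ), P ≠ 0 →
    ∃ n : ℕ, n ≤ c * (L + 1) ^ 5 ∧ coeff n (FP L P) ≠ 0 := by
  obtain ⟨a, c₂, ha, hc₂, hlow⟩ := zero_low
  obtain ⟨c₁, hc₁, hup⟩ := zero_up a ha
  refine ⟨c₁ * (c₁ ^ 2 + c₂ ^ 2), Nat.mul_pos hc₁ (by positivity), ?_⟩
  intro L P hP
  by_contra hcon
  push Not at hcon
  set M : ℕ := c₁ * (c₁ ^ 2 + c₂ ^ 2) * (L + 1) ^ 5 + 1 with hM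
  -- a largest coefficient
  obtain ⟨⟨i₀, j₀⟩, -, hmax⟩ := Finset.exists_max_image (Finset.univ : Finset (Fin (L + 1) × Fin (L + 1)))
    (fun x => |P x.1 x.2|) ⟨(0, 0), Finset.mem_univ _⟩
  set S : ℝ := ((|P i₀ j₀| : ℤ) : ℝ) with hS
  have hSle : ∀ i j, ((|P i j| : ℤ) : ℝ) ≤ S := by
    intro i j
    have := hmax (i, j) (Finset.mem_univ _)
    rw [hS]; exact_mod_cast this
  have hSpos : 0 < S := by
    have hne : ∃ i j, P i j ≠ 0 := by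
      by_contra h
      push Not at h
      exact hP (funext fun i => funext fun j => h i j)
    obtain ⟨i, j, hij⟩ := hne
    have h1 : (0 : ℝ) < ((|P i j| : ℤ) : ℝ) := by exact_mod_cast abs_pos.2 hij
    exact lt_of_lt_of_le h1 (hSle i j)
  have hz : ∀ n < M, coeff n (FP L P) = 0 := fun n hn => hcon n (by omega)
  have hN1 : (1 : ℝ) ≤ (L : ℝ) + 1 := by have : (0 : ℝ) ≤ L := Nat.cast_nonneg L; linarith
  have hc₁' : (1 : ℝ) ≤ c₁ := by exact_mod_cast hc₁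
  have h := hlow L P _ (fun τ hτ => hup L M P S hSle hz τ hτ) i₀ j₀
  rw [← hS] at h
  have hp1 : ((c₁ : ℝ) * (L + 1)) ^ (c₁ * (L + 1)) ≤ Real.exp (((c₁ : ℝ) * (L + 1)) ^ 2) := by
    have := Zero_pow (c₁ * (L + 1))
    push_cast at this
    exact this
  have hp2 : ((c₂ : ℝ) * (L + 1)) ^ (c₂ * (L + 1)) ≤ Real.exp (((c₂ : ℝ) * (L + 1)) ^ 2) := by
    have := Zero_pow (c₂ * (L + 1))
    push_cast at this
    exact this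
  set E : ℝ := Real.exp (-(M / ((c₁ : ℝ) * (L + 1) ^ 2))) with hE
  have hE0 : 0 < E := Real.exp_pos _
  have h1 : S ≤ S * (Real.exp (((c₁ : ℝ) * (L + 1)) ^ 2) * E * Real.exp (((c₂ : ℝ) * (L + 1)) ^ 2)) := by
    calc S ≤ S * ((c₁ : ℝ) * (L + 1)) ^ (c₁ * (L + 1)) * E * ((c₂ : ℝ) * (L + 1)) ^ (c₂ * (L + 1)) := h
      _ = S * (((c₁ : ℝ) * (L + 1)) ^ (c₁ * (L + 1)) * E * ((c₂ : ℝ) * (L + 1)) ^ (c₂ * (L + 1))) := by ring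
      _ ≤ _ := by
        gcongr
  have h2 : 1 ≤ Real.exp (((c₁ : ℝ) * (L + 1)) ^ 2) * E * Real.exp (((c₂ : ℝ) * (L + 1)) ^ 2) := by
    by_contra h3
    push Not at h3
    have := mul_lt_mul_of_pos_left h3 hSpos
    linarith
  rw [hE, ← Real.exp_add, ← Real.exp_add, Real.one_le_exp_iff] at h2
  have hpos : (0 : ℝ) < (c₁ : ℝ) * ((L : ℝ) + 1) ^ 2 := by positivity
  have h3 : (M : ℝ) / ((c₁ : ℝ) * ((L : ℝ) + 1) ^ 2) ≤ ((c₁ : ℝ) * (L + 1)) ^ 2 + ((c₂ : ℝ) * (L + 1)) ^ 2 := by linarith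
  rw [div_le_iff₀ hpos] at h3
  have h4 : (M : ℝ) = (c₁ : ℝ) * ((c₁ : ℝ) ^ 2 + (c₂ : ℝ) ^ 2) * ((L : ℝ) + 1) ^ 5 + 1 := by
    rw [hM]; push_cast; ring
  have h5 : ((L : ℝ) + 1) ^ 4 ≤ ((L : ℝ) + 1) ^ 5 := pow_le_pow_right₀ hN1 (by norm_num)
  have h6 : (c₁ : ℝ) * ((c₁ : ℝ) ^ 2 + (c₂ : ℝ) ^ 2) * ((L : ℝ) + 1) ^ 4 ≤
      (c₁ : ℝ) * ((c₁ : ℝ) ^ 2 + (c₂ : ℝ) ^ 2) * ((L : ℝ) + 1) ^ 5 :=
    mul_le_mul_of_nonneg_left h5 (by positivity)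
  have h7 : (((c₁ : ℝ) * (L + 1)) ^ 2 + ((c₂ : ℝ) * (L + 1)) ^ 2) * ((c₁ : ℝ) * ((L : ℝ) + 1) ^ 2) =
      (c₁ : ℝ) * ((c₁ : ℝ) ^ 2 + (c₂ : ℝ) ^ 2) * ((L : ℝ) + 1) ^ 4 := by ring
  rw [h7, h4] at h3
  linarith

end Pool.Agent.LGO.PA
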