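import Mathlib
import Pool.Agent.LGO.PA.Rho
import Pool.Agent.LGO.PA.LinkS
import Pool.Agent.LGO.PA.Sieg
import Pool.Agent.LGO.PA.Zero
import Pool.Agent.LGO.PA.Pick
import Pool.Agent.LGO.PA.Val
import Pool.Agent.LGO.PA.Num

/-!
# LGO/PA: a measure of transcendence for `Δ(q)`, `j(q)` algebraic, `|q|_p < 1`

PROOF.  `exists_rho`: `ρ₀ ≤ ‖q‖ = ‖φ β‖⁻¹ ≤ ρ₁` (`jP_norm`, `‖φ β‖ > 1`).  Let `c` be a large constant (for `sieg`, `zero_est`, `fp_coef_le`, `linkS`), `C` from `num`,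
`M ≥ 2`, `L`, `S` from `num`, `P` from `sieg`.  Let `M₀` be the smallest index with `a = coeff M₀ (FP L P) ≠ 0` (`zero_est`: `M₀ ≤ c (L + 1) ^ 5`; `sieg`:
`(L + 1) ^ 2 ≤ 2 M₀`).  `|a| ≤ A = (c (L + 1)) ^ (c (L + 1))` (`fp_coef_le`; enlarge `c`).  Suppose that `ε = exp (-((C M) ^ C)) > ‖DP q - φ θ‖`.
`pick` (`‖q‖ ^ (S (S + 1) / 2) |a| < 1` by the first property of `num`): `1 ≤ s ≤ S` with `‖q‖ ^ (s M₀) ≤ |a| ‖V‖`, `V = ev (FP L P) (q ^ s)`; so `‖V‖ ≥ ρ₀ ^ (s M₀) / A`.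
`linkS`: `K'`, `y`, `b`.  `K'' = K ⊔ K'`, `D = [K'' : ℚ] ≤ [K : ℚ] [K' : ℚ]` (`IntermediateField.finrank_sup_le`), `D ^ 2 ≤ c M ^ 2 s ^ 3`.  `ω = om L P s y b θ`.
`val`: `‖φ ω - s ^ (24 L) V‖ ≤ ε ‖q‖ ^ (-s L) ≤ ε ρ₀ ^ (-s L) < s ^ (-24 L) ρ₀ ^ (s M₀) / A ≤ ‖s ^ (24 L) V‖` (second property of `num`, `int_norm_ge`).  So
`0 < ‖φ ω‖ = ‖s ^ (24 L) V‖ ≤ ‖V‖ ≤ ‖q‖ ^ (s M₀) ≤ ρ₁ ^ (s M₀)` (nonarchimedean, `ev_order`), and `ω ≠ 0`.  `om_bd` with `exp A' = A`, `A' = c (L + 1) log (c (L + 1))`: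
`Bd K'' (c' (L + 1) (s + M + log (L + 1))) ω` (`L + 1 ≥ 2`, `log 2 > 0`; this `c'` is the constant for which `num` is used).  `pliou`:
`‖φ ω‖ ≥ exp (-(2 D c' (L + 1) (s + M + log (L + 1))))`.  This contradicts the third property of `num`.
-/

namespace Pool.Agent.LGO.PA

open PowerSeries Pool.Agent.LGO

/-- ultrametric: a point near `w` has the norm of `w` -/
private theorem MeasP_eq {p : ℕ} [Fact p.Prime] {x w : ℂ_[p]} (h : ‖x - w‖ < ‖w‖) :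
    ‖x‖ = ‖w‖ := by
  have h1 : ‖x + -w‖ < max ‖x‖ ‖-w‖ := by
    rw [← sub_eq_add_neg, norm_neg]
    exact h.trans_le (le_max_right _ _)
  have h2 := IsUltrametricDist.norm_eq_of_add_norm_lt_max h1
  rwa [norm_neg] at h2

/-- the size of the first coefficient -/
private theorem MeasP_A {c₁ c₂ c₃ : ℕ} (h1 : 1 ≤ c₁) (h2 : 1 ≤ c₂) (h3 : 1 ≤ c₃) (L n : ℕ)
    (hn : n ≤ c₂ * (L + 1) ^ 5) :
    ((c₁ : ℝ) * (L + 1)) ^ (c₁ * (L + 1)) * ((c₃ : ℝ) * (n + 1)) ^ (c₃ * (L + 1)) ≤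
      (((c₁ + 5 * c₃ + 2 * c₂ * c₃ : ℕ) : ℝ) * (L + 1)) ^
        ((c₁ + 5 * c₃ + 2 * c₂ * c₃) * (L + 1)) := by
  set c : ℕ := c₁ + 5 * c₃ + 2 * c₂ * c₃ with hc
  have hL : (1 : ℝ) ≤ (L : ℝ) + 1 := by
    have : (0 : ℝ) ≤ L := Nat.cast_nonneg L
    linarith
  have h1R : (1 : ℝ) ≤ c₁ := by exact_mod_cast h1
  have h2R : (1 : ℝ) ≤ c₂ := by exact_mod_cast h2
  have h3R : (1 : ℝ) ≤ c₃ := by exact_mod_cast h3
  have hcR : (c : ℝ) = c₁ + 5 * c₃ + 2 * c₂ * c₃ := by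
    rw [hc]
    push_cast
    ring
  have h23 : (0 : ℝ) ≤ 2 * c₂ * c₃ := by positivity
  have hc1 : (1 : ℝ) ≤ (c : ℝ) * (L + 1) := by
    rw [hcR]
    nlinarith
  have hnR : (n : ℝ) + 1 ≤ 2 * c₂ * ((L : ℝ) + 1) ^ 5 := by
    have h4 : (n : ℝ) ≤ c₂ * ((L : ℝ) + 1) ^ 5 := by exact_mod_cast hn
    have h5 : (1 : ℝ) ≤ ((L : ℝ) + 1) ^ 5 := one_le_pow₀ hL
    nlinarith
  have hA : ((c₁ : ℝ) * (L + 1)) ^ (c₁ * (L + 1)) ≤ ((c : ℝ) * (L + 1)) ^ (c₁ * (L + 1)) := by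
    refine pow_le_pow_left₀ (by positivity) ?_ _
    refine mul_le_mul_of_nonneg_right ?_ (by linarith)
    rw [hcR]
    linarith
  have hB : (c₃ : ℝ) * (n + 1) ≤ ((c : ℝ) * (L + 1)) ^ 5 := by
    have h6 : (c₃ : ℝ) * (n + 1) ≤ (2 * c₂ * c₃) * ((L : ℝ) + 1) ^ 5 := by
      have := mul_le_mul_of_nonneg_left hnR (by linarith : (0 : ℝ) ≤ c₃)
      linarith
    refine h6.trans ?_
    rw [mul_pow]
    refine mul_le_mul_of_nonneg_right ?_ (by positivity)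
    have h7 : 2 * (c₂ : ℝ) * c₃ ≤ c := by
      rw [hcR]
      linarith
    have h8 : (1 : ℝ) ≤ c := by
      rw [hcR]
      linarith
    calc 2 * (c₂ : ℝ) * c₃ ≤ c := h7
      _ = (c : ℝ) ^ 1 := (pow_one _).symm
      _ ≤ (c : ℝ) ^ 5 := pow_le_pow_right₀ h8 (by norm_num)
  calc ((c₁ : ℝ) * (L + 1)) ^ (c₁ * (L + 1)) * ((c₃ : ℝ) * (n + 1)) ^ (c₃ * (L + 1))
      ≤ ((c : ℝ) * (L + 1)) ^ (c₁ * (L + 1)) * (((c : ℝ) * (L + 1)) ^ 5) ^ (c₃ * (L + 1)) := by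
        refine mul_le_mul hA (pow_le_pow_left₀ (by positivity) hB _) (by positivity)
          (by positivity)
    _ = ((c : ℝ) * (L + 1)) ^ (c₁ * (L + 1) + 5 * (c₃ * (L + 1))) := by
        rw [← pow_mul, ← pow_add]
    _ ≤ ((c : ℝ) * (L + 1)) ^ (c * (L + 1)) := by
        refine pow_le_pow_right₀ hc1 ?_
        rw [hc]
        nlinarith [Nat.zero_le (2 * c₂ * c₃ * (L + 1))]

theorem measP {β : ℂ} (hβ : IsAlgebraic ℚ β) : ∃ C : ℕ, 1 ≤ C ∧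
    ∀ (p : ℕ) [Fact p.Prime] (φ : ℂ →+* ℂ_[p]) (q : ℂ_[p]), 0 < ‖q‖ → ‖q‖ < 1 → φ β = jP q →
      ∀ (K : IntermediateField ℚ ℂ) [FiniteDimensional ℚ K] (M : ℝ) (θ : ℂ), 2 ≤ M →
        (Module.finrank ℚ K : ℝ) ≤ M → Bd K M θ →
          Real.exp (-((C * M) ^ C)) ≤ ‖DP q - φ θ‖ := by
  obtain ⟨m, ρ₀, ρ₁, hm, hρ0, hρ01, hρ1, -, hρ⟩ := exists_rho hβ
  obtain ⟨Cl, hCl1, hlink⟩ := linkS hβ
  obtain ⟨c₁, hc₁, hsieg⟩ := sieg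
  obtain ⟨c₂, hc₂, hzero⟩ := zero_est
  obtain ⟨c₃, hc₃, hcoef⟩ := fp_coef_le
  set c₄ : ℕ := c₁ + 5 * c₃ + 2 * c₂ * c₃ with hc₄
  obtain ⟨Cn, hCn⟩ := exists_nat_ge Cl
  set c : ℕ := c₄ ^ 2 + 26 * (Cn + 1) + c₂ with hc
  have hc₄1 : 1 ≤ c₄ := by omega
  have hc₄c : c₄ ≤ c := by
    have : c₄ ≤ c₄ ^ 2 := Nat.le_self_pow (by norm_num) _
    omega
  have hc1 : 1 ≤ c := hc₄1.trans hc₄c
  obtain ⟨C, hC1, hnum⟩ := num c hc1 ρ₀ ρ₁ hρ0 hρ01 hρ1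
  refine ⟨C, hC1, ?_⟩
  intro p _ φ q hq0 hq hφq K _ M θ hM hKM hθ
  by_contra hcon
  rw [not_le] at hcon
  have hβn : ‖φ β‖ = ‖q‖⁻¹ := by rw [hφq, jP_norm hq0 hq]
  have hβ1 : 1 < ‖φ β‖ := by
    rw [hβn]
    exact (one_lt_inv₀ hq0).mpr hq
  obtain ⟨-, hρa, hρb⟩ := hρ p φ hβ1
  rw [hβn, inv_inv] at hρa hρb
  obtain ⟨L, S, hL1, hn1, hn2, hn3⟩ := hnum M hM
  obtain ⟨P, hP0, hPle, hPz⟩ := hsieg L hL1
  obtain ⟨n₀, hn₀, hn₀c⟩ := hzero L P hP0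
  have hex : ∃ n, coeff n (FP L P) ≠ 0 := ⟨n₀, hn₀c⟩
  classical
  set M₀ : ℕ := Nat.find hex with hM₀
  have hM₀c : coeff M₀ (FP L P) ≠ 0 := Nat.find_spec hex
  have hM₀z : ∀ n < M₀, coeff n (FP L P) = 0 := fun n hn => not_not.mp (Nat.find_min hex hn)
  have hM₀le : M₀ ≤ c₂ * (L + 1) ^ 5 := (Nat.find_min' hex hn₀c).trans hn₀
  have hM₀lec : M₀ ≤ c * (L + 1) ^ 5 :=
    hM₀le.trans (Nat.mul_le_mul_right _ (by omega))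
  have hM₀ge : (L + 1) ^ 2 ≤ 2 * M₀ := by
    by_contra h
    exact hM₀c (hPz M₀ (not_le.mp h))
  have hL0 : (0 : ℝ) ≤ L := Nat.cast_nonneg L
  have hc₄R : (1 : ℝ) ≤ c₄ := by exact_mod_cast hc₄1
  have hcR : (1 : ℝ) ≤ c := by exact_mod_cast hc1
  have hc₄cR : (c₄ : ℝ) ≤ c := by exact_mod_cast hc₄c
  have hb4 : (1 : ℝ) ≤ (c₄ : ℝ) * (L + 1) := by nlinarith
  set a : ℤ := coeff M₀ (FP L P) with ha
  -- the bound for the coefficient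
  have haA : ((|a| : ℤ) : ℝ) ≤ ((c₄ : ℝ) * (L + 1)) ^ (c₄ * (L + 1)) :=
    (hcoef L P _ hPle M₀).trans (MeasP_A hc₁ hc₂ hc₃ L M₀ hM₀le)
  have hAA : ((c₄ : ℝ) * (L + 1)) ^ (c₄ * (L + 1)) ≤ ((c : ℝ) * (L + 1)) ^ (c * (L + 1)) := by
    have hb : (c₄ : ℝ) * (L + 1) ≤ (c : ℝ) * (L + 1) :=
      mul_le_mul_of_nonneg_right hc₄cR (by linarith)
    calc ((c₄ : ℝ) * (L + 1)) ^ (c₄ * (L + 1)) ≤ ((c : ℝ) * (L + 1)) ^ (c₄ * (L + 1)) :=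
          pow_le_pow_left₀ (by linarith) hb _
      _ ≤ ((c : ℝ) * (L + 1)) ^ (c * (L + 1)) :=
          pow_le_pow_right₀ (hb4.trans hb) (Nat.mul_le_mul_right _ hc₄c)
  have haA' : ((|a| : ℤ) : ℝ) ≤ ((c : ℝ) * (L + 1)) ^ (c * (L + 1)) := haA.trans hAA
  have hPA : ∀ i j, ((|P i j| : ℤ) : ℝ) ≤ ((c₄ : ℝ) * (L + 1)) ^ (c₄ * (L + 1)) := by
    intro i j
    refine (hPle i j).trans ?_
    have h1R : (1 : ℝ) ≤ c₁ := by exact_mod_cast hc₁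
    have h14 : c₁ ≤ c₄ := by omega
    have h14R : (c₁ : ℝ) ≤ c₄ := by exact_mod_cast h14
    have hb : (c₁ : ℝ) * (L + 1) ≤ (c₄ : ℝ) * (L + 1) :=
      mul_le_mul_of_nonneg_right h14R (by linarith)
    calc ((c₁ : ℝ) * (L + 1)) ^ (c₁ * (L + 1)) ≤ ((c₄ : ℝ) * (L + 1)) ^ (c₁ * (L + 1)) :=
          pow_le_pow_left₀ (by positivity) hb _
      _ ≤ ((c₄ : ℝ) * (L + 1)) ^ (c₄ * (L + 1)) :=
          pow_le_pow_right₀ hb4 (Nat.mul_le_mul_right _ h14)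
  -- the point
  have hpick : ‖q‖ ^ (S * (S + 1) / 2) * ((|coeff M₀ (FP L P)| : ℤ) : ℝ) < 1 := by
    refine lt_of_le_of_lt ?_ hn1
    exact mul_le_mul (pow_le_pow_left₀ (norm_nonneg _) hρb _) haA'
      (by exact_mod_cast abs_nonneg _) (pow_nonneg (hρ0.le.trans hρ01) _)
  obtain ⟨s, hs1, hsS, hsV⟩ := pick hq0 hq (FP L P) M₀ S hM₀z hM₀c hpick
  set V : ℂ_[p] := ev (Int.castRingHom ℂ_[p]) (FP L P) (q ^ s) with hV
  obtain ⟨K', y, b, hK', hK's, hyB, hbB, hy, hb⟩ := hlink p φ q hq0 hq hφq s hs1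
  have hsR : (1 : ℝ) ≤ s := by exact_mod_cast hs1
  set ε : ℝ := Real.exp (-((C * M) ^ C)) with hε
  have hε1 : ε ≤ 1 := by
    rw [hε, Real.exp_le_one_iff, neg_nonpos]
    positivity
  have hval := val φ hq0 hq L P s hs1 hy hb hcon.le hε1
  rw [← hV] at hval
  have hn2' := hn2 s M₀ hs1 hsS hM₀lec
  have hε0 : 0 < ε := Real.exp_pos _
  have hqs : ‖q ^ s‖ < 1 := by
    rw [norm_pow]
    exact pow_lt_one₀ (norm_nonneg _) hq (by omega)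
  -- `‖q‖⁻¹ ^ (s L) ≤ ρ₀⁻¹ ^ (s L)`
  have hqi : ‖q‖⁻¹ ^ (s * L) ≤ ρ₀⁻¹ ^ (s * L) :=
    pow_le_pow_left₀ (inv_nonneg.mpr (norm_nonneg _)) (inv_anti₀ hρ0 hρa) _
  have hchain : ε * ρ₀⁻¹ ^ (s * L) * ((s : ℝ) ^ (24 * L) *
      ((c : ℝ) * (L + 1)) ^ (c * (L + 1))) < ((c : ℝ) * (L + 1)) ^ (c * (L + 1)) * ‖V‖ := by
    calc ε * ρ₀⁻¹ ^ (s * L) * ((s : ℝ) ^ (24 * L) * ((c : ℝ) * (L + 1)) ^ (c * (L + 1)))
        < ρ₀ ^ (s * M₀) := hn2'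
      _ ≤ ‖q‖ ^ (s * M₀) := pow_le_pow_left₀ hρ0.le hρa _
      _ ≤ ((|a| : ℤ) : ℝ) * ‖V‖ := hsV
      _ ≤ ((c : ℝ) * (L + 1)) ^ (c * (L + 1)) * ‖V‖ :=
          mul_le_mul_of_nonneg_right haA' (norm_nonneg _)
  have hApos : (0 : ℝ) < ((c : ℝ) * (L + 1)) ^ (c * (L + 1)) := by positivity
  have hchain2 : ε * ρ₀⁻¹ ^ (s * L) * (s : ℝ) ^ (24 * L) < ‖V‖ := by
    have h5 : ((c : ℝ) * (L + 1)) ^ (c * (L + 1)) * (ε * ρ₀⁻¹ ^ (s * L) * (s : ℝ) ^ (24 * L)) <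
        ((c : ℝ) * (L + 1)) ^ (c * (L + 1)) * ‖V‖ := by
      refine lt_of_eq_of_lt ?_ hchain
      ring
    exact lt_of_mul_lt_mul_left h5 hApos.le
  have hspos : (0 : ℝ) < (s : ℝ) ^ (24 * L) := by positivity
  have hsn : ((s : ℝ) ^ (24 * L))⁻¹ ≤ ‖(s : ℂ_[p]) ^ (24 * L)‖ := by
    have h6 := int_norm_ge (p := p) (n := ((s : ℤ) ^ (24 * L)))
      (pow_ne_zero _ (by exact_mod_cast (by omega : s ≠ 0)))
    have h7 : |(((s : ℤ) ^ (24 * L) : ℤ) : ℝ)| = (s : ℝ) ^ (24 * L) := by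
      push_cast
      exact abs_of_pos hspos
    rw [h7] at h6
    have h8 : (((s : ℤ) ^ (24 * L) : ℤ) : ℂ_[p]) = (s : ℂ_[p]) ^ (24 * L) := by
      push_cast
      rfl
    rwa [h8] at h6
  have hbig : ε * ρ₀⁻¹ ^ (s * L) < ‖(s : ℂ_[p]) ^ (24 * L) * V‖ := by
    rw [norm_mul]
    calc ε * ρ₀⁻¹ ^ (s * L)
        = ((s : ℝ) ^ (24 * L))⁻¹ * (ε * ρ₀⁻¹ ^ (s * L) * (s : ℝ) ^ (24 * L)) := by
          field_simp
      _ < ((s : ℝ) ^ (24 * L))⁻¹ * ‖V‖ :=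
          mul_lt_mul_of_pos_left hchain2 (inv_pos.mpr hspos)
      _ ≤ ‖(s : ℂ_[p]) ^ (24 * L)‖ * ‖V‖ := mul_le_mul_of_nonneg_right hsn (norm_nonneg _)
  set ω : ℂ := om L P s y b θ with hω
  have hlt : ‖φ ω - (s : ℂ_[p]) ^ (24 * L) * V‖ < ‖(s : ℂ_[p]) ^ (24 * L) * V‖ :=
    (hval.trans (mul_le_mul_of_nonneg_left hqi hε0.le)).trans_lt hbig
  have hωn : ‖φ ω‖ = ‖(s : ℂ_[p]) ^ (24 * L) * V‖ := MeasP_eq hlt
  have hω0 : ω ≠ 0 := by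
    intro h
    rw [h, map_zero, norm_zero] at hωn
    have h9 : (0 : ℝ) ≤ ε * ρ₀⁻¹ ^ (s * L) := by positivity
    rw [← hωn] at hbig
    linarith
  have hωle : ‖φ ω‖ ≤ ρ₁ ^ (s * M₀) := by
    have h10 : ‖(s : ℂ_[p]) ^ (24 * L)‖ ≤ 1 := by
      have := castHom_norm_le (p := p) ((s : ℤ) ^ (24 * L))
      simpa using this
    have h11 : ‖V‖ ≤ ‖q ^ s‖ ^ M₀ := ev_order castHom_norm_le hqs _ M₀ hM₀z
    rw [hωn, norm_mul]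
    calc ‖(s : ℂ_[p]) ^ (24 * L)‖ * ‖V‖ ≤ 1 * ‖V‖ :=
          mul_le_mul_of_nonneg_right h10 (norm_nonneg _)
      _ = ‖V‖ := one_mul _
      _ ≤ ‖q ^ s‖ ^ M₀ := h11
      _ = ‖q‖ ^ (s * M₀) := by rw [norm_pow, ← pow_mul]
      _ ≤ ρ₁ ^ (s * M₀) := pow_le_pow_left₀ (norm_nonneg _) hρb _
  -- the field
  have hD1 : Module.finrank ℚ (K ⊔ K' : IntermediateField ℚ ℂ) ≤
      Module.finrank ℚ K * Module.finrank ℚ K' := IntermediateField.finrank_sup_le K K'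
  have hfd : FiniteDimensional ℚ (K ⊔ K' : IntermediateField ℚ ℂ) :=
    IntermediateField.finiteDimensional_sup K K'
  set D : ℝ := (Module.finrank ℚ (K ⊔ K' : IntermediateField ℚ ℂ) : ℝ) with hD
  have hD0 : 0 ≤ D := Nat.cast_nonneg _
  have hClc : Cl ≤ c := by
    refine hCn.trans ?_
    have : Cn ≤ c := by omega
    exact_mod_cast this
  have hD2 : D ^ 2 ≤ c * M ^ 2 * (s : ℝ) ^ 3 := by
    have h12 : D ≤ M * (Module.finrank ℚ K' : ℝ) := by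
      have h13 : D ≤ (Module.finrank ℚ K : ℝ) * (Module.finrank ℚ K' : ℝ) := by
        rw [hD]
        exact_mod_cast hD1
      exact h13.trans (mul_le_mul_of_nonneg_right hKM (Nat.cast_nonneg _))
    calc D ^ 2 ≤ (M * (Module.finrank ℚ K' : ℝ)) ^ 2 := pow_le_pow_left₀ hD0 h12 2
      _ = M ^ 2 * (Module.finrank ℚ K' : ℝ) ^ 2 := mul_pow _ _ _
      _ ≤ M ^ 2 * (Cl * (s : ℝ) ^ 3) := mul_le_mul_of_nonneg_left hK's (by positivity)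
      _ ≤ M ^ 2 * (c * (s : ℝ) ^ 3) := by
          refine mul_le_mul_of_nonneg_left ?_ (by positivity)
          exact mul_le_mul_of_nonneg_right hClc (by positivity)
      _ = c * M ^ 2 * (s : ℝ) ^ 3 := by ring
  -- the height
  set A' : ℝ := (c₄ * (L + 1) : ℕ) * Real.log ((c₄ : ℝ) * (L + 1)) with hA'
  have hlog0 : 0 ≤ Real.log ((c₄ : ℝ) * (L + 1)) := Real.log_nonneg hb4
  have hA'0 : 0 ≤ A' := mul_nonneg (Nat.cast_nonneg _) hlog0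
  have hexpA : Real.exp A' = ((c₄ : ℝ) * (L + 1)) ^ (c₄ * (L + 1)) := by
    rw [hA', Real.exp_nat_mul, Real.exp_log (by linarith)]
  have hbd := om_bd (K := K ⊔ K') L P s hs1 hA'0 (fun i j => (hPA i j).trans_eq hexpA.symm)
    (hyB.le le_sup_right) (hbB.le le_sup_right) (hθ.le le_sup_left)
  have hlogL : 0 ≤ Real.log ((L : ℝ) + 1) := Real.log_nonneg (by linarith)
  have hbd2 : A' + 26 * (L + 1) * (Cl * s + M + s) ≤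
      c * (L + 1) * (s + M + Real.log (L + 1)) := by
    have h14 : Real.log ((c₄ : ℝ) * (L + 1)) ≤ c₄ * s + Real.log (L + 1) := by
      rw [Real.log_mul (by linarith) (by linarith)]
      have h15 : Real.log (c₄ : ℝ) ≤ c₄ := (Real.log_le_sub_one_of_pos (by linarith)).trans (by linarith)
      have h16 : (c₄ : ℝ) ≤ c₄ * s := le_mul_of_one_le_right (by linarith) hsR
      linarith
    have h17 : A' ≤ (c₄ : ℝ) * (L + 1) * (c₄ * s + Real.log (L + 1)) := by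
      rw [hA']
      push_cast
      exact mul_le_mul_of_nonneg_left h14 (by positivity)
    have h18 : (c : ℝ) = (c₄ : ℝ) ^ 2 + 26 * (Cn + 1) + c₂ := by
      rw [hc]
      push_cast
      ring
    have h19 : (0 : ℝ) ≤ c₂ := Nat.cast_nonneg _
    have h20 : (L + 1 : ℝ) * ((c₄ : ℝ) * (c₄ * s + Real.log (L + 1)) +
        26 * (Cl * s + M + s)) ≤ (L + 1 : ℝ) * (c * (s + M + Real.log (L + 1))) := by
      refine mul_le_mul_of_nonneg_left ?_ (by linarith)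
      have e1 : Cl * s ≤ Cn * s := mul_le_mul_of_nonneg_right hCn (by linarith)
      have e2 : (c₄ : ℝ) * Real.log (L + 1) ≤ c * Real.log (L + 1) :=
        mul_le_mul_of_nonneg_right hc₄cR hlogL
      have e3 : (26 : ℝ) * M ≤ c * M := by
        refine mul_le_mul_of_nonneg_right ?_ (by linarith)
        rw [h18]
        have : (0 : ℝ) ≤ Cn := Nat.cast_nonneg _
        nlinarith [sq_nonneg (c₄ : ℝ)]
      have e4 : (c₄ : ℝ) ^ 2 * s + 26 * (Cn + 1) * s ≤ c * s := by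
        rw [h18]
        nlinarith
      nlinarith
    calc A' + 26 * (L + 1) * (Cl * s + M + s)
        ≤ (c₄ : ℝ) * (L + 1) * (c₄ * s + Real.log (L + 1)) +
          26 * (L + 1) * (Cl * s + M + s) := by linarith
      _ = (L + 1 : ℝ) * ((c₄ : ℝ) * (c₄ * s + Real.log (L + 1)) + 26 * (Cl * s + M + s)) := by
          ring
      _ ≤ (L + 1 : ℝ) * (c * (s + M + Real.log (L + 1))) := h20
      _ = c * (L + 1) * (s + M + Real.log (L + 1)) := by ring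
  have hfin := pliou φ (K := K ⊔ K') (D := D) le_rfl (hbd.mono hbd2) hω0
  have hn3' := hn3 s M₀ D hs1 hsS hM₀ge hD0 hD2
  exact absurd (hfin.trans hωle) (not_le.mpr hn3')

end Pool.Agent.LGO.PA
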