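import Mathlib
import Pool.Agent.LGO.PA.QInt
import Pool.Agent.LGO.U.RComp
import Pool.Agent.LGO.Q.Quad
import Pool.Agent.LGO.CM.Inv

/-!
# LGO/PA: heights of the parameter and of the values of a rational function

PROOFS.  `bd_x`: the coefficients are algebraic numbers with fixed bounds (`Quad_bd_alg`, `LGO/Q/Quad.lean`); `Bd.add`, `Bd.mul`, `Bd.pow` (`LGO/H/BdC.lean`):
`Bd K (C₁ G) (A(t))`, `Bd K (C₁ G) (B(t))` (`G ≥ 1`), and `bd_div`.
`neq_t`: `n = rdeg A B`, `c_i = a_i - v b_i` (`i ≤ n`), `c_n ≠ 0`, so `n ≥ 1` (if `n = 0`: `c_0 = A(t) - v B(t) = 0`), `∑_{i ≤ n} c_i t ^ i = 0`.  `m ≥ 1` an integer with `m a_i`, `m b_i` integral,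
`n_v v` integral, `w = m n_v ≤ exp (C₁ G)`: `w c_i` is integral, `Bd K (C₁ G) c_n`.  `y = w c_n`, `z = y t`: `z` is integral (leading coefficient times a
root of the polynomial `∑ w c_i X ^ i` with integral coefficients: `isIntegral_leadingCoeff_smul`).  `D = [K : ℚ]`.  House of `t`: if `‖s t‖ ≥ 1` then
`‖s c_n‖ ‖s t‖ ≤ n max ‖s c_i‖ ≤ n exp (C₁ G)` and `‖s c_n‖ ≥ exp (-(2 D C₁ G))` (`Bd.lower`), so `‖s t‖ ≤ exp (C₂ D G)`, and `‖s z‖ ≤ exp (C₃ D G)`.
`Bd K (C₃ D G) y`, `Bd K (C₃ D G) z` (`bd_of_aut`), `t = z / y`: `bd_div`.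
-/

namespace Pool.Agent.LGO.PA

open Polynomial Pool.Agent.Hhelper14.ZPL Pool.Agent.LGO Pool.Agent.LGO.U

theorem bd_x (A B : Polynomial Qb) : ∃ C : ℝ, 1 ≤ C ∧ ∀ (K : IntermediateField ℚ ℂ)
    [FiniteDimensional ℚ K] (x t : ℂ) (G : ℝ), (∀ i, ((A.coeff i : Qb) : ℂ) ∈ K) →
      (∀ i, ((B.coeff i : Qb) : ℂ) ∈ K) → (aeval t A : ℂ) = x * aeval t B →
      (aeval t B : ℂ) ≠ 0 → 1 ≤ G → Bd K G t → Bd K (C * Module.finrank ℚ K * G) x := by
  obtain ⟨C, hC, h⟩ := bd_ratio A B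
  refine ⟨2 * C, by linarith, ?_⟩
  intro K _ x t G hA hB hx hB0 hG ht
  have hmem : ∀ P : Polynomial Qb, (∀ i, ((P.coeff i : Qb) : ℂ) ∈ K) → (aeval t P : ℂ) ∈ K := by
    intro P hP
    rw [aeval_eq_sum_range]
    refine K.sum_mem fun i _ => ?_
    rw [Algebra.smul_def]
    exact K.mul_mem (hP i) (K.pow_mem ht.mem i)
  have hxK : x ∈ K := by
    have h1 : x = aeval t A * (aeval t B)⁻¹ := by
      rw [hx, mul_assoc, mul_inv_cancel₀ hB0, mul_one]
    rw [h1]
    exact K.mul_mem (hmem A hA) (K.inv_mem (hmem B hB))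
  refine (h K G t x (by linarith) ht hxK hB0 hx).mono ?_
  have hD : (0 : ℝ) ≤ Module.finrank ℚ K := Nat.cast_nonneg _
  have h2 : 0 ≤ C * Module.finrank ℚ K := mul_nonneg (by linarith) hD
  nlinarith

/-- the equation of the parameter -/
private theorem NeqT_root {K : IntermediateField ℚ ℂ} [FiniteDimensional ℚ K] {n w : ℕ} {c : ℕ → ℂ}
    {M L : ℝ} {t : ℂ} (hc : ∀ i, Bd K M (c i)) (hn : c n ≠ 0) (ht : t ∈ K)
    (hsum : ∑ i ∈ Finset.range (n + 1), c i * t ^ i = 0) (hw : 0 < w) (hwL : (w : ℝ) ≤ Real.exp L)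
    (hL : 0 ≤ L) (hwi : ∀ i, IsIntegral ℤ ((w : ℂ) * c i)) :
    Bd K (2 * Module.finrank ℚ K * (L + M) + M + n) t := by
  classical
  have hM : 0 ≤ M := (hc n).nonneg
  have hD1 : (1 : ℝ) ≤ Module.finrank ℚ K := by
    exact_mod_cast (Module.finrank_pos : 0 < Module.finrank ℚ K)
  have hw0 : (w : ℂ) ≠ 0 := Nat.cast_ne_zero.2 hw.ne'
  have hy0 : (w : ℂ) * c n ≠ 0 := mul_ne_zero hw0 hn
  have hn1 : 1 ≤ n := by
    by_contra hcon
    have h0 : n = 0 := by omega
    rw [h0] at hsum hn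
    simp at hsum
    exact hn hsum
  -- `z = w c_n t` is integral
  have hz : IsIntegral ℤ ((w : ℂ) * c n * t) := by
    set O := integralClosure ℤ ℂ with hO
    let e : ℕ → O := fun i => ⟨(w : ℂ) * c i, hwi i⟩
    let p : Polynomial O := ∑ i ∈ Finset.range (n + 1), monomial i (e i)
    have hcoeff : ∀ j, p.coeff j = if j < n + 1 then e j else 0 := by
      intro j
      simp only [p, finset_sum_coeff, coeff_monomial]
      rw [Finset.sum_ite_eq' (Finset.range (n + 1)) j e]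
      simp [Finset.mem_range]
    have hen : e n ≠ 0 := by
      intro h
      apply hy0
      exact congrArg (fun z : O => (z : ℂ)) h
    have hdeg : p.natDegree = n := by
      apply natDegree_eq_of_le_of_coeff_ne_zero
      · rw [natDegree_le_iff_coeff_eq_zero]
        intro N hN
        rw [hcoeff, if_neg (by omega)]
      · rw [hcoeff, if_pos (by omega)]
        exact hen
    have hlc : p.leadingCoeff = e n := by
      rw [leadingCoeff, hdeg, hcoeff, if_pos (by omega)]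
    have hroot : aeval t p = 0 := by
      simp only [p, map_sum, aeval_monomial]
      have h1 : ∀ i, (algebraMap O ℂ) (e i) * t ^ i = (w : ℂ) * (c i * t ^ i) := by
        intro i
        have : (algebraMap O ℂ) (e i) = (w : ℂ) * c i := rfl
        rw [this]
        ring
      simp only [h1]
      rw [← Finset.mul_sum, hsum, mul_zero]
    have h2 : IsIntegral O (p.leadingCoeff • t) := isIntegral_leadingCoeff_smul p t hroot
    rw [hlc] at h2
    have h3 : e n • t = (w : ℂ) * c n * t := rfl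
    rw [h3] at h2
    exact isIntegral_trans (R := ℤ) (A := O) _ h2
  -- the inverse of `w c_n`
  have hwB : Bd K L (w : ℂ) := by
    have := Bd.intCast (K := K) (B := L) (w : ℤ) (by simpa using hwL) hL
    simpa using this
  have hyB : Bd K (L + M) ((w : ℂ) * c n) := hwB.mul (hc n)
  have hyI := hyB.inv (D := (Module.finrank ℚ K : ℝ)) le_rfl (by linarith) hy0
  obtain ⟨k, hk, hkB, hkint⟩ := hyI.den
  refine ⟨ht, ⟨k, hk, hkB.trans (Real.exp_le_exp.2 ?_), ?_⟩, fun σ => ?_⟩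
  · have : (0 : ℝ) ≤ n := Nat.cast_nonneg n
    linarith
  · have h4 : (k : ℂ) * t = ((k : ℂ) * ((w : ℂ) * c n)⁻¹) * ((w : ℂ) * c n * t) := by
      field_simp
    rw [h4]
    exact hkint.mul hz
  · -- house
    set τ : ℂ := σ ⟨t, ht⟩ with hτ
    have hbound : 1 ≤ Real.exp (2 * Module.finrank ℚ K * (L + M) + M + n) := by
      refine Real.one_le_exp ?_
      have h5 : (0 : ℝ) ≤ n := Nat.cast_nonneg n
      have h6 : 0 ≤ 2 * (Module.finrank ℚ K : ℝ) * (L + M) := by positivity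
      linarith
    by_cases hτ1 : ‖τ‖ ≤ 1
    · exact hτ1.trans hbound
    push Not at hτ1
    set g : ℕ → ℂ := fun i => σ ⟨c i, (hc i).mem⟩ with hg
    have hs : ∑ i ∈ Finset.range (n + 1), g i * τ ^ i = 0 := by
      have h7 : (∑ i ∈ Finset.range (n + 1), (⟨c i, (hc i).mem⟩ : K) * (⟨t, ht⟩ : K) ^ i) = 0 := by
        apply Subtype.ext
        have h8 : ((∑ i ∈ Finset.range (n + 1), (⟨c i, (hc i).mem⟩ : K) * (⟨t, ht⟩ : K) ^ i : K) : ℂ) =
            ∑ i ∈ Finset.range (n + 1), c i * t ^ i := by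
          rw [← IntermediateField.algebraMap_apply, map_sum]
          refine Finset.sum_congr rfl fun i _ => ?_
          rw [map_mul, map_pow]
          rfl
        rw [h8, hsum]
        rfl
      have h9 := congrArg σ h7
      rw [map_sum, map_zero] at h9
      rw [← h9]
      refine Finset.sum_congr rfl fun i _ => ?_
      rw [map_mul, map_pow]
    rw [Finset.sum_range_succ] at hs
    have h10 : ‖g n * τ ^ n‖ ≤ ∑ i ∈ Finset.range n, Real.exp M * ‖τ‖ ^ (n - 1) := by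
      have h11 : g n * τ ^ n = -∑ i ∈ Finset.range n, g i * τ ^ i := by linear_combination hs
      rw [h11, norm_neg]
      refine (norm_sum_le _ _).trans (Finset.sum_le_sum fun i hi => ?_)
      rw [norm_mul, norm_pow]
      have hi' : i ≤ n - 1 := by
        have := Finset.mem_range.1 hi
        omega
      exact mul_le_mul ((hc i).house σ) (pow_le_pow_right₀ hτ1.le hi') (by positivity) (Real.exp_pos _).le
    rw [Finset.sum_const, Finset.card_range, nsmul_eq_mul, norm_mul, norm_pow] at h10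
    have h12 : ‖τ‖ ^ n = ‖τ‖ * ‖τ‖ ^ (n - 1) := by
      rw [← pow_succ']
      congr 1
      omega
    have hpos : 0 < ‖τ‖ ^ (n - 1) := by positivity
    have h13 : ‖g n‖ * ‖τ‖ ≤ n * Real.exp M := by
      rw [h12] at h10
      have h14 : (‖g n‖ * ‖τ‖) * ‖τ‖ ^ (n - 1) ≤ (n * Real.exp M) * ‖τ‖ ^ (n - 1) := by
        nlinarith
      exact le_of_mul_le_mul_right h14 hpos
    have h15 : Real.exp (-(2 * Module.finrank ℚ K * M)) ≤ ‖g n‖ :=
      (hc n).lower (D := (Module.finrank ℚ K : ℝ)) le_rfl hM hn σ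
    have h16 : ‖τ‖ ≤ n * Real.exp M * Real.exp (2 * Module.finrank ℚ K * M) := by
      have h17 : Real.exp (-(2 * Module.finrank ℚ K * M)) * ‖τ‖ ≤ n * Real.exp M :=
        (mul_le_mul_of_nonneg_right h15 (norm_nonneg _)).trans h13
      have h18 : Real.exp (2 * Module.finrank ℚ K * M) * Real.exp (-(2 * Module.finrank ℚ K * M)) = 1 := by
        rw [← Real.exp_add, add_neg_cancel, Real.exp_zero]
      calc ‖τ‖ = Real.exp (2 * Module.finrank ℚ K * M) *
            (Real.exp (-(2 * Module.finrank ℚ K * M)) * ‖τ‖) := by rw [← mul_assoc, h18, one_mul]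
        _ ≤ Real.exp (2 * Module.finrank ℚ K * M) * (n * Real.exp M) :=
            mul_le_mul_of_nonneg_left h17 (Real.exp_pos _).le
        _ = _ := by ring
    refine h16.trans ?_
    have h19 : (n : ℝ) ≤ Real.exp n := by
      have := Real.add_one_le_exp (n : ℝ)
      linarith
    calc n * Real.exp M * Real.exp (2 * Module.finrank ℚ K * M)
        ≤ Real.exp n * Real.exp M * Real.exp (2 * Module.finrank ℚ K * M) := by gcongr
      _ = Real.exp (n + M + 2 * Module.finrank ℚ K * M) := by rw [Real.exp_add, Real.exp_add]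
      _ ≤ _ := by
        refine Real.exp_le_exp.2 ?_
        have h20 : 0 ≤ (Module.finrank ℚ K : ℝ) * L := by positivity
        nlinarith

theorem neq_t (A B : Polynomial Qb) : ∃ C : ℝ, 1 ≤ C ∧ ∀ (K : IntermediateField ℚ ℂ)
    [FiniteDimensional ℚ K] (v t : ℂ) (G : ℝ), (∀ i, ((A.coeff i : Qb) : ℂ) ∈ K) →
      (∀ i, ((B.coeff i : Qb) : ℂ) ∈ K) → t ∈ K → (aeval t A : ℂ) = v * aeval t B →
      ((A.coeff (rdeg A B) : Qb) : ℂ) ≠ v * ((B.coeff (rdeg A B) : Qb) : ℂ) →
      1 ≤ G → Bd K G v → Bd K (C * (Module.finrank ℚ K) ^ 2 * G) t := by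
  classical
  have halg : ∀ g : Qb, ∃ B : ℝ, 0 ≤ B ∧ ∀ K : IntermediateField ℚ ℂ, (g : ℂ) ∈ K → Bd K B (g : ℂ) :=
    fun g => Quad_bd_alg (mem_algebraicClosure_iff.1 g.2)
  choose b hb0 hb using halg
  obtain ⟨mA, hmA, hA⟩ := RInt_den A
  obtain ⟨mB, hmB, hB⟩ := RInt_den B
  set n : ℕ := rdeg A B with hn
  set S : ℝ := ∑ i ∈ Finset.range (n + 1), (b (A.coeff i) + b (B.coeff i)) + b 0 + b 0 + 2 with hS
  have hsum0 : ∀ i, 0 ≤ b (A.coeff i) + b (B.coeff i) := fun i => add_nonneg (hb0 _) (hb0 _)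
  have hS0 : 2 ≤ S := by
    have := Finset.sum_nonneg fun i (_ : i ∈ Finset.range (n + 1)) => hsum0 i
    have h0 := hb0 0
    linarith
  have hSi : ∀ i, b (A.coeff i) + b (B.coeff i) + 2 ≤ S := by
    intro i
    by_cases hi : i < n + 1
    · have h1 := Finset.single_le_sum (f := fun i => b (A.coeff i) + b (B.coeff i)) (fun i _ => hsum0 i)
        (Finset.mem_range.2 hi)
      have h0 := hb0 0
      linarith
    · have h2 : A.coeff i = 0 := coeff_eq_zero_of_natDegree_lt (by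
        have : A.natDegree ≤ n := le_max_left _ _
        omega)
      have h3 : B.coeff i = 0 := coeff_eq_zero_of_natDegree_lt (by
        have : B.natDegree ≤ n := le_max_right _ _
        omega)
      have h4 := Finset.sum_nonneg fun i (_ : i ∈ Finset.range (n + 1)) => hsum0 i
      rw [h2, h3]
      linarith
  set L₀ : ℝ := Real.log (mA * mB) with hL₀
  have hm1 : (1 : ℝ) ≤ mA * mB := by
    have h1 : (1 : ℝ) ≤ mA := by exact_mod_cast hmA
    have h2 : (1 : ℝ) ≤ mB := by exact_mod_cast hmB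
    nlinarith
  have hL₀0 : 0 ≤ L₀ := Real.log_nonneg hm1
  refine ⟨2 * (L₀ + 1 + S) + S + n, by have : (0 : ℝ) ≤ n := Nat.cast_nonneg n; linarith, ?_⟩
  intro K _ v t G hAK hBK htK heq hne hG hv
  obtain ⟨nv, hnv, hnvG, hnvi⟩ := hv.den
  set c : ℕ → ℂ := fun i => ((A.coeff i : Qb) : ℂ) - v * ((B.coeff i : Qb) : ℂ) with hc
  have hcB : ∀ i, Bd K (S * G) (c i) := by
    intro i
    have h1 := (hb _ K (hAK i)).add ((hv.mul (hb _ K (hBK i))).neg)
    have h2 : c i = ((A.coeff i : Qb) : ℂ) + -(v * ((B.coeff i : Qb) : ℂ)) := by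
      simp only [hc]
      ring
    rw [h2]
    refine h1.mono ?_
    have h3 := hSi i
    have h4 := hsum0 i
    nlinarith
  have hval : ∀ P : Polynomial Qb, P.natDegree ≤ n → (aeval t P : ℂ) =
      ∑ i ∈ Finset.range (n + 1), ((P.coeff i : Qb) : ℂ) * t ^ i := by
    intro P hP
    rw [aeval_eq_sum_range' (Nat.lt_succ_of_le hP)]
    refine Finset.sum_congr rfl fun i _ => ?_
    rw [Algebra.smul_def]
    rfl
  have hsum : ∑ i ∈ Finset.range (n + 1), c i * t ^ i = 0 := by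
    rw [hval A (le_max_left _ _), hval B (le_max_right _ _), Finset.mul_sum] at heq
    have h1 : ∀ i, c i * t ^ i = ((A.coeff i : Qb) : ℂ) * t ^ i - v * (((B.coeff i : Qb) : ℂ) * t ^ i) := by
      intro i
      simp only [hc]
      ring
    simp only [h1]
    rw [Finset.sum_sub_distrib, heq, sub_self]
  have hcn : c n ≠ 0 := by
    intro h
    exact hne (sub_eq_zero.1 h)
  have hw : 0 < mA * mB * nv := Nat.mul_pos (Nat.mul_pos hmA hmB) hnv
  have hwL : ((mA * mB * nv : ℕ) : ℝ) ≤ Real.exp (L₀ + G) := by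
    rw [Real.exp_add, hL₀, Real.exp_log (by linarith)]
    push_cast
    exact mul_le_mul_of_nonneg_left hnvG (by positivity)
  have hwi : ∀ i, IsIntegral ℤ (((mA * mB * nv : ℕ) : ℂ) * c i) := by
    intro i
    have h1 : ((mA * mB * nv : ℕ) : ℂ) * c i =
        ((mB * nv : ℕ) : ℂ) * ((mA : ℂ) * ((A.coeff i : Qb) : ℂ)) -
        ((mA : ℕ) : ℂ) * (((nv : ℂ) * v) * ((mB : ℂ) * ((B.coeff i : Qb) : ℂ))) := by
      simp only [hc]
      push_cast
      ring
    rw [h1]
    exact (isIntegral_natCast_mul _ (hA i)).sub (isIntegral_natCast_mul _ (hnvi.mul (hB i)))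
  refine (NeqT_root hcB hcn htK hsum hw hwL (by linarith) hwi).mono ?_
  have hD1 : (1 : ℝ) ≤ Module.finrank ℚ K := by
    exact_mod_cast (Module.finrank_pos : 0 < Module.finrank ℚ K)
  set D : ℝ := (Module.finrank ℚ K : ℝ) with hD
  have hn0 : (0 : ℝ) ≤ n := Nat.cast_nonneg n
  have h1 : D ≤ D ^ 2 := by nlinarith
  have h1' : 1 ≤ D ^ 2 := by nlinarith
  have hDG : D * G ≤ D ^ 2 * G := mul_le_mul_of_nonneg_right h1 (by linarith)
  have hG2 : G ≤ D ^ 2 * G := le_mul_of_one_le_left (by linarith) h1'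
  have e1 : 2 * D * (L₀ + G + S * G) ≤ 2 * (L₀ + 1 + S) * (D ^ 2 * G) := by
    have h2 : L₀ + G + S * G ≤ (L₀ + 1 + S) * G := by nlinarith
    have h3 : 2 * D * (L₀ + G + S * G) ≤ 2 * D * ((L₀ + 1 + S) * G) :=
      mul_le_mul_of_nonneg_left h2 (by positivity)
    have h4 : 2 * D * ((L₀ + 1 + S) * G) = 2 * (L₀ + 1 + S) * (D * G) := by ring
    rw [h4] at h3
    exact h3.trans (mul_le_mul_of_nonneg_left hDG (by linarith))
  have e2 : S * G ≤ S * (D ^ 2 * G) := mul_le_mul_of_nonneg_left hG2 (by linarith)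
  have e3 : (n : ℝ) ≤ n * (D ^ 2 * G) := le_mul_of_one_le_right hn0 (hG.trans hG2)
  calc 2 * D * (L₀ + G + S * G) + S * G + n
      ≤ 2 * (L₀ + 1 + S) * (D ^ 2 * G) + S * (D ^ 2 * G) + n * (D ^ 2 * G) := by linarith
    _ = (2 * (L₀ + 1 + S) + S + n) * D ^ 2 * G := by ring

end Pool.Agent.LGO.PA
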