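import Mathlib
import Pool.Agent.LGO.PA.Cmp
import Pool.Agent.LGO.PA.LinkB
import Pool.Agent.LGO.U.RXi

/-!
# LGO/PA: the number `Ξ` in `ℂ_[ℓ]`

PROOF.  `n_a = rdeg Aa Ba`, `n_b = rdeg Ab Bb`, `T = max 1 ‖φ t‖`, `M_u = max 1 ‖φ u‖`, `M_v = max 1 ‖φ v‖`, `N = mdeg v u`.  `b_size` for `IsB v u B`: `‖c‖ ‖φ B‖ M_v ≤ M_u`,
`‖c‖ ‖N‖ ^ 12 M_u ≤ ‖φ B‖ M_v`.  `cmp_x` for `(Aa, Ba)`, `u` and `(Ab, Bb)`, `v`: `‖m₁‖ T ^ n_a ≤ ‖φ Ba(t)‖ M_u`, `‖m₁‖ ‖φ Ba(t)‖ M_u ≤ T ^ n_a`, the same for `b` with `m₂`.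
`‖φ Ξ‖ M_v ^ p = (‖φ B‖ M_v) ^ p ‖φ Ba(t)‖ ^ p / ‖φ Bb(t)‖ ^ q ≤ ‖c‖ ^ (-p) (M_u ‖φ Ba(t)‖) ^ p / ‖φ Bb(t)‖ ^ q ≤ ‖c m₁‖ ^ (-p) T ^ (n_a p) / ‖φ Bb(t)‖ ^ q` and
`T ^ (n_a p) = (T ^ n_b) ^ q ≤ (‖m₂‖⁻¹ ‖φ Bb(t)‖ M_v) ^ q`.  Second inequality: `‖m₂‖ ^ q M_v ^ q ≤ (T ^ n_b / ‖φ Bb(t)‖) ^ q = T ^ (n_a p) / ‖φ Bb(t)‖ ^ q ≤
(‖m₁‖⁻¹ ‖φ Ba(t)‖ M_u) ^ p / ‖φ Bb(t)‖ ^ q` and `‖c‖ ‖N‖ ^ 12 M_u ≤ ‖φ B‖ M_v`.  So `r = c ^ p m₁ ^ p m₂ ^ q`, `c = (4 * 6 ^ 12) ^ 6`.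
-/

namespace Pool.Agent.LGO.PA

open Polynomial Pool.Agent.Hhelper14.ZPL Pool.Agent.LGO Pool.Agent.LGO.U

/-- the real inequalities behind `xi_fin` -/
private theorem XiFin_real {p q : ℕ} {a b β Mu Mv Ta Tb c m₁ m₂ n : ℝ} (ha : 0 ≤ a) (hb : 0 < b)
    (hβ : 0 ≤ β) (hMu : 0 ≤ Mu) (hMv : 0 ≤ Mv) (hTa : 0 ≤ Ta) (hTb : 0 ≤ Tb) (hc : 0 ≤ c)
    (hm₁ : 0 ≤ m₁) (hm₂ : 0 ≤ m₂) (hn : 0 ≤ n)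
    (h1 : c * (β * Mv) ≤ Mu) (h2 : c * (n ^ 12 * Mu) ≤ β * Mv)
    (h3 : m₁ * Ta ≤ a * Mu) (h4 : m₁ * (a * Mu) ≤ Ta) (h5 : m₂ * Tb ≤ b * Mv)
    (h6 : m₂ * (b * Mv) ≤ Tb) (hT : Ta ^ p = Tb ^ q) :
    c ^ p * m₁ ^ p * m₂ ^ q * (β ^ p * a ^ p / b ^ q * Mv ^ p) ≤ Mv ^ q ∧
      c ^ p * m₁ ^ p * m₂ ^ q * (n ^ (12 * p) * Mv ^ q) ≤ β ^ p * a ^ p / b ^ q * Mv ^ p := by
  have hbq : 0 < b ^ q := pow_pos hb q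
  constructor
  · have e1 : c ^ p * m₁ ^ p * m₂ ^ q * (β ^ p * a ^ p / b ^ q * Mv ^ p) =
        m₂ ^ q * m₁ ^ p * (c * (β * Mv)) ^ p * a ^ p / b ^ q := by
      rw [mul_pow, mul_pow]
      ring
    rw [e1, div_le_iff₀ hbq]
    calc m₂ ^ q * m₁ ^ p * (c * (β * Mv)) ^ p * a ^ p ≤ m₂ ^ q * m₁ ^ p * Mu ^ p * a ^ p := by
          gcongr
      _ = m₂ ^ q * (m₁ * (a * Mu)) ^ p := by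
          rw [mul_pow m₁, mul_pow a]
          ring
      _ ≤ m₂ ^ q * Ta ^ p := by gcongr
      _ = (m₂ * Tb) ^ q := by rw [hT, mul_pow]
      _ ≤ (b * Mv) ^ q := by gcongr
      _ = Mv ^ q * b ^ q := by
          rw [mul_pow]
          ring
  · have e2 : β ^ p * a ^ p / b ^ q * Mv ^ p = (β * Mv) ^ p * a ^ p / b ^ q := by
      rw [mul_pow]
      ring
    rw [e2, le_div_iff₀ hbq]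
    calc c ^ p * m₁ ^ p * m₂ ^ q * (n ^ (12 * p) * Mv ^ q) * b ^ q =
        c ^ p * m₁ ^ p * n ^ (12 * p) * (m₂ * (b * Mv)) ^ q := by
          rw [mul_pow m₂, mul_pow b]
          ring
      _ ≤ c ^ p * m₁ ^ p * n ^ (12 * p) * Tb ^ q := by gcongr
      _ = c ^ p * n ^ (12 * p) * (m₁ * Ta) ^ p := by
          rw [← hT, mul_pow m₁]
          ring
      _ ≤ c ^ p * n ^ (12 * p) * (a * Mu) ^ p := by gcongr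
      _ = (c * (n ^ 12 * Mu)) ^ p * a ^ p := by
          rw [mul_pow a, mul_pow c, mul_pow (n ^ 12), ← pow_mul]
          ring
      _ ≤ (β * Mv) ^ p * a ^ p := by gcongr

theorem xi_fin {Aa Ba Ab Bb : Polynomial Qb} (ca : IsCoprime Aa Ba) (cb : IsCoprime Ab Bb)
    {p q : ℕ} (hpq : p * rdeg Aa Ba = q * rdeg Ab Bb) : ∃ r : ℕ, 0 < r ∧
    ∀ (l : ℕ) [Fact l.Prime] (φ : ℂ →+* ℂ_[l]) (u v t B : ℂ), Par Aa Ba Ab Bb u v t B →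
      ‖(r : ℂ_[l])‖ * (‖φ (Xi Ba Bb p q t B)‖ * max 1 ‖φ v‖ ^ p) ≤ max 1 ‖φ v‖ ^ q ∧
      ‖(r : ℂ_[l])‖ * (‖((mdeg v u : ℕ) : ℂ_[l])‖ ^ (12 * p) * max 1 ‖φ v‖ ^ q) ≤
        ‖φ (Xi Ba Bb p q t B)‖ * max 1 ‖φ v‖ ^ p := by
  obtain ⟨m₁, hm₁, h1⟩ := cmp_x ca
  obtain ⟨m₂, hm₂, h2⟩ := cmp_x cb
  refine ⟨((4 * 6 ^ 12) ^ 6) ^ p * m₁ ^ p * m₂ ^ q, by positivity, ?_⟩
  intro l _ φ u v t B h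
  have hB := b_size φ h.isB h.ncm
  have ha := h1 l φ t u h.eqa
  have hb := h2 l φ t v h.eqb
  have hne : φ (aeval t Bb : ℂ) ≠ 0 := by
    rw [Ne, map_eq_zero]
    exact h.neb
  have hT : (max 1 ‖φ t‖ ^ rdeg Aa Ba) ^ p = (max 1 ‖φ t‖ ^ rdeg Ab Bb) ^ q := by
    rw [← pow_mul, ← pow_mul, mul_comm (rdeg Aa Ba), mul_comm (rdeg Ab Bb), hpq]
  have key := XiFin_real (p := p) (q := q) (norm_nonneg (φ (aeval t Ba : ℂ)))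
    (norm_pos_iff.2 hne) (norm_nonneg (φ B)) (by positivity : 0 ≤ max 1 ‖φ u‖)
    (by positivity : 0 ≤ max 1 ‖φ v‖) (by positivity : 0 ≤ max 1 ‖φ t‖ ^ rdeg Aa Ba)
    (by positivity : 0 ≤ max 1 ‖φ t‖ ^ rdeg Ab Bb)
    (norm_nonneg ((4 * 6 ^ 12) ^ 6 : ℂ_[l])) (norm_nonneg (m₁ : ℂ_[l]))
    (norm_nonneg (m₂ : ℂ_[l])) (norm_nonneg ((mdeg v u : ℕ) : ℂ_[l]))
    hB.1 hB.2 ha.1 ha.2 hb.1 hb.2 hT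
  have hX : ‖φ (Xi Ba Bb p q t B)‖ =
      ‖φ B‖ ^ p * ‖φ (aeval t Ba : ℂ)‖ ^ p / ‖φ (aeval t Bb : ℂ)‖ ^ q := by
    rw [Xi, map_div₀, map_mul, map_pow, map_pow, map_pow, norm_div, norm_mul, norm_pow, norm_pow,
      norm_pow]
  have hr : ‖((((4 * 6 ^ 12) ^ 6) ^ p * m₁ ^ p * m₂ ^ q : ℕ) : ℂ_[l])‖ =
      ‖((4 * 6 ^ 12) ^ 6 : ℂ_[l])‖ ^ p * ‖(m₁ : ℂ_[l])‖ ^ p * ‖(m₂ : ℂ_[l])‖ ^ q := by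
    have hc : (((4 * 6 ^ 12) ^ 6 : ℕ) : ℂ_[l]) = (4 * 6 ^ 12) ^ 6 := by norm_num
    rw [← hc, Nat.cast_mul, Nat.cast_mul, norm_mul, norm_mul, Nat.cast_pow ((4 * 6 ^ 12) ^ 6) p,
      Nat.cast_pow m₁, Nat.cast_pow m₂, norm_pow, norm_pow, norm_pow]
  rw [hX, hr]
  exact key

end Pool.Agent.LGO.PA
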