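import Mathlib
import Pool.Agent.LGO.PA.XiFin

/-!
# LGO/PA: the number `Ξ` for equal degrees

PROOF.  `p = q = 1`.  `xi_size` (cancel `max 1 ‖s v‖ > 0`): `‖s Ξ‖ ≤ (C N H) ^ C` for all `s`, `N = mdeg v u ≥ 1`.  `xi_fin` (cancel `max 1 ‖φ v‖`): `‖φ(r Ξ)‖ ≤ 1` for all `l`,
`φ`, so `r Ξ` is integral (`integral_of_norm_le`; `Ξ ∈ K` by `xi_mem`, so it is algebraic).  `Bd K (...) Ξ`: `mem`, `den` (`r`), `house` (`exists_aut`).
-/

namespace Pool.Agent.LGO.PA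

open Polynomial Pool.Agent.Hhelper14.ZPL Pool.Agent.LGO Pool.Agent.LGO.U

theorem xi_bd {Aa Ba Ab Bb : Polynomial Qb} (ca : IsCoprime Aa Ba) (cb : IsCoprime Ab Bb)
    (hn : rdeg Aa Ba = rdeg Ab Bb) :
    ∃ C : ℝ, 1 ≤ C ∧ ∀ (K : IntermediateField ℚ ℂ) [FiniteDimensional ℚ K] (u v t B : ℂ),
      Par Aa Ba Ab Bb u v t B → u ∈ K → v ∈ K → t ∈ K →
      (∀ i, ((Ba.coeff i : Qb) : ℂ) ∈ K) → (∀ i, ((Bb.coeff i : Qb) : ℂ) ∈ K) →
      ∀ H : ℝ, 1 ≤ H → (∀ s : ℂ ≃+* ℂ, ‖s u‖ ≤ Real.exp H) →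
        (∀ s : ℂ ≃+* ℂ, ‖s v‖ ≤ Real.exp H) →
          Bd K (C * (1 + Real.log (mdeg v u) + Real.log H)) (Xi Ba Bb 1 1 t B) := by
  have hpq : 1 * rdeg Aa Ba = 1 * rdeg Ab Bb := by rw [hn]
  obtain ⟨C0, hC0, hsz⟩ := xi_size ca cb hpq
  obtain ⟨r, hr, hfin⟩ := xi_fin ca cb hpq
  have hC0' : (1 : ℝ) ≤ C0 := by exact_mod_cast hC0
  have hr' : (1 : ℝ) ≤ r := by exact_mod_cast hr
  have hlC : 0 ≤ Real.log C0 := Real.log_nonneg hC0'
  have hlr : 0 ≤ Real.log r := Real.log_nonneg hr'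
  refine ⟨1 + C0 * (1 + Real.log C0) + Real.log r, ?_, ?_⟩
  · have : 0 ≤ (C0 : ℝ) * (1 + Real.log C0) := by positivity
    linarith
  intro K _ u v t B h hu hv ht hBa hBb H hH hsu hsv
  have hmem := xi_mem h K hu hv ht hBa hBb 1 1
  have hN : 0 < mdeg v u := mdeg_pos h.isB.isog
  have hN1 : (1 : ℝ) ≤ mdeg v u := by exact_mod_cast hN
  have hlN : 0 ≤ Real.log (mdeg v u) := Real.log_nonneg hN1
  have hlH : 0 ≤ Real.log H := Real.log_nonneg hH
  set L : ℝ := 1 + Real.log (mdeg v u) + Real.log H with hL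
  have hL1 : 1 ≤ L := by rw [hL]; linarith
  have hCL : (C0 : ℝ) * (1 + Real.log C0) ≤ 1 + C0 * (1 + Real.log C0) + Real.log r := by linarith
  -- the size of the conjugates
  have hbd : ∀ s : ℂ ≃+* ℂ, ‖s (Xi Ba Bb 1 1 t B)‖ ≤
      Real.exp ((1 + C0 * (1 + Real.log C0) + Real.log r) * L) := by
    intro s
    have h1 := (hsz s u v t B h H hH (hsu s) (hsv s)).1
    rw [pow_one] at h1
    have hpos : 0 < max 1 ‖s v‖ := lt_of_lt_of_le one_pos (le_max_left _ _)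
    have h2 : ‖s (Xi Ba Bb 1 1 t B)‖ ≤ (C0 * mdeg v u * H) ^ C0 :=
      le_of_mul_le_mul_right h1 hpos
    refine h2.trans ?_
    have hx : 0 < (C0 : ℝ) * mdeg v u * H := by positivity
    have e : ((C0 : ℝ) * mdeg v u * H) ^ C0 =
        Real.exp (C0 * (Real.log C0 + Real.log (mdeg v u) + Real.log H)) := by
      rw [Real.exp_nat_mul, ← Real.log_mul (by positivity) (by positivity),
        ← Real.log_mul (by positivity) (by positivity), Real.exp_log hx]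
    rw [e]
    apply Real.exp_le_exp.2
    have h3 : Real.log C0 + Real.log (mdeg v u) + Real.log H ≤ (1 + Real.log C0) * L := by
      rw [hL]
      nlinarith
    calc (C0 : ℝ) * (Real.log C0 + Real.log (mdeg v u) + Real.log H)
        ≤ C0 * ((1 + Real.log C0) * L) := by gcongr
      _ = C0 * (1 + Real.log C0) * L := by ring
      _ ≤ _ := by gcongr
  -- integrality
  have hint : IsIntegral ℤ ((r : ℂ) * Xi Ba Bb 1 1 t B) := by
    apply integral_of_norm_le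
    · have h1 : IsAlgebraic ℚ (⟨Xi Ba Bb 1 1 t B, hmem⟩ : K) := Algebra.IsAlgebraic.isAlgebraic _
      have h2 : IsAlgebraic ℚ (Xi Ba Bb 1 1 t B) := by
        have := h1.algebraMap (A := ℂ)
        exact this
      exact (isAlgebraic_natCast r).mul h2
    · intro l _ φ
      have h1 := (hfin l φ u v t B h).1
      rw [pow_one, ← mul_assoc] at h1
      have hpos : 0 < max 1 ‖φ v‖ := lt_of_lt_of_le one_pos (le_max_left _ _)
      have h2 : ‖(r : ℂ_[l])‖ * ‖φ (Xi Ba Bb 1 1 t B)‖ ≤ 1 := by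
        apply le_of_mul_le_mul_right _ hpos
        rw [one_mul]
        exact h1
      rw [map_mul, map_natCast, norm_mul]
      exact h2
  refine ⟨hmem, ⟨r, hr, ?_, hint⟩, fun σ => ?_⟩
  · have h1 : (r : ℝ) = Real.exp (Real.log r) := (Real.exp_log (by linarith)).symm
    rw [h1]
    apply Real.exp_le_exp.2
    rw [← h1]
    have : 0 ≤ (C0 : ℝ) * (1 + Real.log C0) := by positivity
    nlinarith
  · obtain ⟨s, hs⟩ := exists_aut K σ
    have h1 := hs ⟨Xi Ba Bb 1 1 t B, hmem⟩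
    rw [← h1]
    exact hbd s

end Pool.Agent.LGO.PA
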