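import Mathlib
import Pool.Agent.LGO.PA.QInt
import Pool.Agent.LGO.H.MDeg
import Pool.Agent.LGO.U.RComp
import Pool.Agent.LGO.Q.Quad

/-!
# LGO/PA: the finitely many exceptional parameters

PROOF.  `n = rdeg Ab Bb > 0`, `a`, `b` the coefficients of index `n` of `Ab`, `Bb` (in `Qb`).  `Q = b Ab - a Bb ∈ Qb[X]` (`C b * Ab - C a * Bb`).  `Q ≠ 0`: otherwise, if `b ≠ 0`, `Ab = (a / b) Bb`,
so `Bb` is a unit (`IsCoprime`) and `n = 0`; if `b = 0` then `a ≠ 0` (`n = max (deg Ab) (deg Bb)`, one of them is the degree) and `Bb = 0`, `Ab` is a unit, `n = 0`.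
If `a = v b` and `Ab(t) = v Bb(t)`, then `Q(t) = b v Bb(t) - v b Bb(t) = 0`: `t` is one of the finitely many roots of `Q`, an algebraic number, and `u = Aa(t) / Ba(t)`, `v = Ab(t) / Bb(t)` are
determined by `t` and algebraic.  For each of the finitely many `t` take a constant for `Bd K c t`, `Bd K c u`, `Bd K c v` (`Quad_bd_alg`) and for `mdeg v u`.
-/

namespace Pool.Agent.LGO.PA

open Polynomial Pool.Agent.Hhelper14.ZPL Pool.Agent.LGO Pool.Agent.LGO.U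

private theorem Exc_deg {A B : Polynomial Qb} (h : IsCoprime A B) {a b : Qb} (hb : b ≠ 0)
    (he : C b * A = C a * B) : A.natDegree = 0 ∧ B.natDegree = 0 := by
  have hd : A = C (a / b) * B := by
    have h1 : C b * (C (a / b) * B) = C b * A := by
      rw [he, ← mul_assoc, ← C_mul, mul_div_cancel₀ _ hb]
    exact (mul_left_cancel₀ (C_ne_zero.2 hb) h1).symm
  have hu : IsUnit B := by
    have h2 : B ∣ A := ⟨C (a / b), by rw [mul_comm]; exact hd⟩
    exact h.isUnit_of_dvd' h2 dvd_rfl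
  have hB : B.natDegree = 0 := natDegree_eq_zero_of_isUnit hu
  refine ⟨?_, hB⟩
  have h3 : A.natDegree ≤ B.natDegree := by
    rw [hd]
    exact natDegree_C_mul_le _ _
  omega

private theorem Exc_alg {t : ℂ} (ht : IsAlgebraic ℚ t) (A : Polynomial Qb) :
    IsAlgebraic ℚ (aeval t A : ℂ) := by
  have h1 : t ∈ Qb := mem_algebraicClosure_iff.2 ht
  have h2 : (aeval t A : ℂ) = ((aeval (⟨t, h1⟩ : Qb) A : Qb) : ℂ) :=
    aeval_algebraMap_apply ℂ (⟨t, h1⟩ : Qb) A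
  rw [h2]
  exact mem_algebraicClosure_iff.1 (aeval (⟨t, h1⟩ : Qb) A).2

private theorem Exc_fin {S : Set ℂ} (hS : S.Finite) {P : ℂ → ℝ → Prop}
    (hm : ∀ t (C C' : ℝ), C ≤ C' → P t C → P t C') (h : ∀ t ∈ S, ∃ C, P t C) :
    ∃ C : ℝ, 1 ≤ C ∧ ∀ t ∈ S, P t C := by
  choose! g hg using h
  obtain ⟨B, hB⟩ := (hS.image g).bddAbove
  exact ⟨max B 1, le_max_right _ _, fun t ht =>
    hm t (g t) _ ((hB ⟨t, ht, rfl⟩).trans (le_max_left _ _)) (hg t ht)⟩

theorem exc {Ab Bb : Polynomial Qb} (Aa Ba : Polynomial Qb) (cb : IsCoprime Ab Bb)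
    (hb : 0 < rdeg Ab Bb) : ∃ C : ℝ, 1 ≤ C ∧ ∀ (K : IntermediateField ℚ ℂ) (u v t : ℂ),
      u ∈ K → v ∈ K → t ∈ K → (aeval t Aa : ℂ) = u * aeval t Ba → (aeval t Ba : ℂ) ≠ 0 →
      (aeval t Ab : ℂ) = v * aeval t Bb → (aeval t Bb : ℂ) ≠ 0 →
      ((Ab.coeff (rdeg Ab Bb) : Qb) : ℂ) = v * ((Bb.coeff (rdeg Ab Bb) : Qb) : ℂ) →
      (mdeg v u : ℝ) ≤ C ∧ Bd K C u ∧ Bd K C v ∧ Bd K C t := by
  obtain ⟨n, hn⟩ : ∃ n, n = rdeg Ab Bb := ⟨_, rfl⟩
  rw [← hn] at hb ⊢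
  obtain ⟨Q, hQ⟩ : ∃ Q : Polynomial Qb, Q = C (Bb.coeff n) * Ab - C (Ab.coeff n) * Bb := ⟨_, rfl⟩
  have hmax : n = max Ab.natDegree Bb.natDegree := hn
  have hQ0 : Q ≠ 0 := by
    intro h0
    rw [hQ] at h0
    have h1 : C (Bb.coeff n) * Ab = C (Ab.coeff n) * Bb := sub_eq_zero.1 h0
    by_cases hbc : Bb.coeff n = 0
    · have hac : Ab.coeff n ≠ 0 := by
        intro hac
        rcases le_total Ab.natDegree Bb.natDegree with hle | hle
        · rw [max_eq_right hle] at hmax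
          rw [hmax, coeff_natDegree, leadingCoeff_eq_zero] at hbc
          rw [hbc, natDegree_zero] at hmax
          omega
        · rw [max_eq_left hle] at hmax
          rw [hmax, coeff_natDegree, leadingCoeff_eq_zero] at hac
          rw [hac, natDegree_zero] at hmax
          omega
      obtain ⟨h2, h3⟩ := Exc_deg cb.symm hac h1.symm
      rw [h2, h3] at hmax
      simp at hmax
      omega
    · obtain ⟨h2, h3⟩ := Exc_deg cb hbc h1
      rw [h2, h3] at hmax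
      simp at hmax
      omega
  obtain ⟨C₀, hC1, hC⟩ := Exc_fin (Q.rootSet_finite ℂ) (P := fun t C =>
    ∀ (K : IntermediateField ℚ ℂ) (u v : ℂ), u ∈ K → v ∈ K → t ∈ K →
      (aeval t Aa : ℂ) = u * aeval t Ba → (aeval t Ba : ℂ) ≠ 0 →
      (aeval t Ab : ℂ) = v * aeval t Bb → (aeval t Bb : ℂ) ≠ 0 →
      (mdeg v u : ℝ) ≤ C ∧ Bd K C u ∧ Bd K C v ∧ Bd K C t)
    (by
      intro t C C' hCC h K u v h1 h2 h3 h4 h5 h6 h7
      obtain ⟨g1, g2, g3, g4⟩ := h K u v h1 h2 h3 h4 h5 h6 h7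
      exact ⟨g1.trans hCC, g2.mono hCC, g3.mono hCC, g4.mono hCC⟩)
    (by
      intro t ht
      have htA : IsAlgebraic ℚ t := by
        have h1 : IsAlgebraic Qb t := ⟨Q, hQ0, (mem_rootSet.1 ht).2⟩
        have hinst : Algebra.IsAlgebraic ℚ Qb := algebraicClosure.isAlgebraic ℚ ℂ
        exact h1.restrictScalars ℚ
      have huA : IsAlgebraic ℚ ((aeval t Aa : ℂ) / aeval t Ba) := (Exc_alg htA Aa).mul (Exc_alg htA Ba).inv
      have hvA : IsAlgebraic ℚ ((aeval t Ab : ℂ) / aeval t Bb) := (Exc_alg htA Ab).mul (Exc_alg htA Bb).inv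
      obtain ⟨B1, -, h1⟩ := Quad_bd_alg htA
      obtain ⟨B2, -, h2⟩ := Quad_bd_alg huA
      obtain ⟨B3, -, h3⟩ := Quad_bd_alg hvA
      refine ⟨max (max B1 B2) (max B3
        (mdeg ((aeval t Ab : ℂ) / aeval t Bb) ((aeval t Aa : ℂ) / aeval t Ba))), ?_⟩
      intro K u v hu hv ht' e1 n1 e2 n2
      have eu : u = (aeval t Aa : ℂ) / aeval t Ba := by rw [eq_div_iff n1, e1]
      have ev : v = (aeval t Ab : ℂ) / aeval t Bb := by rw [eq_div_iff n2, e2]
      refine ⟨?_, ?_, ?_, ?_⟩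
      · rw [← eu, ← ev]
        exact (le_max_right _ _).trans (le_max_right _ _)
      · have h4 := h2 K (eu ▸ hu)
        rw [← eu] at h4
        exact h4.mono ((le_max_right _ _).trans (le_max_left _ _))
      · have h4 := h3 K (ev ▸ hv)
        rw [← ev] at h4
        exact h4.mono ((le_max_left _ _).trans (le_max_right _ _))
      · exact (h1 K ht').mono ((le_max_left _ _).trans (le_max_left _ _)))
  refine ⟨C₀, hC1, fun K u v t hu hv ht e1 n1 e2 n2 e3 => ?_⟩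
  refine hC t ?_ K u v hu hv ht e1 n1 e2 n2
  rw [mem_rootSet]
  refine ⟨hQ0, ?_⟩
  rw [hQ, map_sub, map_mul, map_mul, aeval_C, aeval_C, e2]
  change ((Bb.coeff n : Qb) : ℂ) * (v * aeval t Bb) - ((Ab.coeff n : Qb) : ℂ) * aeval t Bb = 0
  rw [e3]
  ring

end Pool.Agent.LGO.PA
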