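import Mathlib
import Pool.Agent.LGO.PA.Cmp
import Pool.Agent.LGO.PA.LinkB
import Pool.Agent.LGO.PA.MeasP
import Pool.Agent.LGO.U.RXi
import Pool.Agent.LGO.Q.Quad

/-!
# LGO/PA: equal degrees, the size of the parameter in `ℂ_[p]`

PROOF.  `n = deg Aa = deg Bb > 0`, `a = lc(Aa)`, `b = lc(Bb)`, `β = coeff Ab n / b`, `κ = a / b ≠ 0`.  `ratio_inf` for `(Ab, Bb)`, `(Aa, Bb)`, `(Ba, Aa)` (limit `0`): a common `m₁` (a multiple).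
`alg_norm` for `κ`: `m₂`.  `exists_rho` for `β`: `m₃`.  `m = m₁ m₂ m₃`.  Let `‖φ(m t)‖ > 1`, so `‖φ t‖ > ‖m‖⁻¹`, `‖φ(m₁ t)‖ > 1`.  `N = mdeg v u`, `1 / u = Ba(t) / Aa(t)`, `v = Ab(t) / Bb(t)`:
`‖φ v - φ β‖ ≤ ‖m₁‖⁻¹ / ‖φ t‖ < 1`, `‖φ(1 / u)‖ ≤ ‖m₁‖⁻¹ / ‖φ t‖ < 1`, so `‖φ u‖ > 1` (`u ≠ 0`: it is not CM, `LGO/H/MDeg.lean`).
If `‖φ β‖ ≤ 1` then `‖φ v‖ ≤ 1`, in contradiction to `isog_norm` (`IsB.isog`).  So `‖φ β‖ > 1`, `p ∣ m₃ ∣ m`; `‖φ v‖ = ‖φ β‖ > 1`.  `jP_surj`: `φ β = jP q₀`, `φ v = jP q₁`.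
`‖(φ β)⁻¹ - (φ v)⁻¹‖ = ‖φ v - φ β‖ / ‖φ β φ v‖`, so by `jP_lip`, `DP_lip`: `‖DP q₀ - DP q₁‖ ≤ ‖m₁‖⁻¹ / ‖φ t‖`.
`linkB` (`x = v`, `y = u`): `φ u = jP q₂`, `φ B DP q₂ = d ^ 12 DP q₁`, `d ∣ N`, and `φ u DP q₂ = e`, `e = E4P q₂ ^ 3`, `‖e - 1‖ ≤ ‖q₂‖ = ‖φ u‖⁻¹`, `‖e‖ = 1` (`jP_mul`, `E4P_near`, `E4P_norm`, `jP_norm`).
`Ξ = Xi Ba Bb 1 1 t B = B Ba(t) / Bb(t) = B (Aa(t) / Bb(t)) / u`, so `φ Ξ = d ^ 12 DP q₁ e⁻¹ φ(Aa(t) / Bb(t))`.  With `θ = Ξ / (κ d ^ 12)`: `φ θ = DP q₁ e⁻¹ (φ(Aa(t) / Bb(t)) / φ κ)`, where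
`‖e⁻¹ - 1‖ ≤ ‖m₁‖⁻¹ / ‖φ t‖`, `‖φ(Aa(t) / Bb(t)) / φ κ - 1‖ ≤ ‖m₁ m₂‖⁻¹ / ‖φ t‖ ≤ 1`, so `‖φ θ - DP q₀‖ ≤ ‖m₁ m₂‖⁻¹ / ‖φ t‖ ≤ m₁ m₂ / ‖φ t‖` (`int_norm_ge`).
`K₁ = K ⊔ ℚ⟮κ⟯`, `[K₁ : ℚ] ≤ C₁ M`, `Bd K₁ (C₁ M) θ` (`Quad_bd_alg` for `κ⁻¹`, `Bd.ratCast` for `1 / d ^ 12`, `d ≤ N ≤ exp M`).  `measP` for `β`: `exp (-((C₂ C₁ M) ^ C₂)) ≤ m₁ m₂ / ‖φ t‖`.
-/

namespace Pool.Agent.LGO.PA

open Polynomial Pool.Agent.Hhelper14.ZPL Pool.Agent.LGO Pool.Agent.LGO.U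

private theorem TFin_nat {p : ℕ} [Fact p.Prime] (n : ℕ) : ‖(n : ℂ_[p])‖ ≤ 1 := by
  have := int_norm_le (p := p) (n : ℤ)
  simpa using this

private theorem TFin_pos {p : ℕ} [Fact p.Prime] {n : ℕ} (hn : 0 < n) : 0 < ‖(n : ℂ_[p])‖ := by
  rw [norm_pos_iff]
  exact_mod_cast hn.ne'

private theorem TFin_ge {p : ℕ} [Fact p.Prime] {n : ℕ} (hn : 0 < n) :
    (n : ℝ)⁻¹ ≤ ‖(n : ℂ_[p])‖ := by
  have := int_norm_ge (p := p) (n := (n : ℤ)) (by exact_mod_cast hn.ne')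
  simpa using this

private theorem TFin_phi {p : ℕ} [Fact p.Prime] (φ : ℂ →+* ℂ_[p]) (n : ℕ) (t : ℂ) :
    ‖φ ((n : ℂ) * t)‖ = ‖(n : ℂ_[p])‖ * ‖φ t‖ := by
  rw [map_mul, map_natCast, norm_mul]

private theorem TFin_dvd {p : ℕ} [Fact p.Prime] {m m' : ℕ} (h : m ∣ m') :
    ‖(m' : ℂ_[p])‖ ≤ ‖(m : ℂ_[p])‖ := by
  obtain ⟨k, rfl⟩ := h
  rw [Nat.cast_mul, norm_mul]
  exact mul_le_of_le_one_right (norm_nonneg _) (TFin_nat k)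

private theorem TFin_ratio (Aa Ba Ab Bb : Polynomial Qb) (hBb : Bb.natDegree = Aa.natDegree)
    (hBa : Ba.natDegree < Aa.natDegree) (hAb : Ab.natDegree ≤ Aa.natDegree) :
    ∃ m : ℕ, 0 < m ∧ ∀ (p : ℕ) [Fact p.Prime] (φ : ℂ →+* ℂ_[p]) (t : ℂ),
      1 < ‖(m : ℂ_[p])‖ * ‖φ t‖ → (aeval t Bb : ℂ) ≠ 0 ∧ (aeval t Aa : ℂ) ≠ 0 ∧
        ‖(m : ℂ_[p])‖ * (‖φ ((aeval t Ab : ℂ) / aeval t Bb) -
          φ (((Ab.coeff Bb.natDegree : Qb) : ℂ) / ((Bb.leadingCoeff : Qb) : ℂ))‖ * ‖φ t‖) ≤ 1 ∧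
        ‖(m : ℂ_[p])‖ * (‖φ ((aeval t Aa : ℂ) / aeval t Bb) -
          φ (((Aa.leadingCoeff : Qb) : ℂ) / ((Bb.leadingCoeff : Qb) : ℂ))‖ * ‖φ t‖) ≤ 1 ∧
        ‖(m : ℂ_[p])‖ * (‖φ ((aeval t Ba : ℂ) / aeval t Aa)‖ * ‖φ t‖) ≤ 1 := by
  have hn : 0 < Aa.natDegree := lt_of_le_of_lt (Nat.zero_le _) hBa
  have hAa0 : Aa ≠ 0 := by
    rintro rfl
    simp at hn
  have hBb0 : Bb ≠ 0 := by
    rintro rfl
    rw [← hBb] at hn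
    simp at hn
  obtain ⟨ma, ha, Ha⟩ := ratio_inf Ab Bb (by omega) hBb0
  obtain ⟨mb, hb, Hb⟩ := ratio_inf Aa Bb (by omega) hBb0
  obtain ⟨mc, hc, Hc⟩ := ratio_inf Ba Aa (by omega) hAa0
  have d1 : ma ∣ ma * mb * mc := ⟨mb * mc, by ring⟩
  have d2 : mb ∣ ma * mb * mc := ⟨ma * mc, by ring⟩
  have d3 : mc ∣ ma * mb * mc := ⟨ma * mb, by ring⟩
  refine ⟨ma * mb * mc, by positivity, fun p _ φ t h => ?_⟩
  have hlt : ∀ m' : ℕ, m' ∣ ma * mb * mc → 1 < ‖φ ((m' : ℂ) * t)‖ := by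
    intro m' hd
    rw [TFin_phi]
    exact h.trans_le (mul_le_mul_of_nonneg_right (TFin_dvd hd) (norm_nonneg _))
  have hle : ∀ (m' : ℕ) (x : ℝ), m' ∣ ma * mb * mc → 0 ≤ x →
      ‖(m' : ℂ_[p])‖ * (x * ‖φ t‖) ≤ 1 → ‖((ma * mb * mc : ℕ) : ℂ_[p])‖ * (x * ‖φ t‖) ≤ 1 := by
    intro m' x hd hx h1
    exact (mul_le_mul_of_nonneg_right (TFin_dvd hd) (by positivity)).trans h1
  obtain ⟨a1, a2⟩ := Ha p φ t (hlt ma d1)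
  obtain ⟨b1, b2⟩ := Hb p φ t (hlt mb d2)
  obtain ⟨c1, c2⟩ := Hc p φ t (hlt mc d3)
  refine ⟨a1, c1, hle ma _ d1 (norm_nonneg _) a2, ?_, ?_⟩
  · have e : Aa.coeff Bb.natDegree = Aa.leadingCoeff := by rw [hBb]; rfl
    rw [e] at b2
    exact hle mb _ d2 (norm_nonneg _) b2
  · have e : Ba.coeff Aa.natDegree = 0 := coeff_eq_zero_of_natDegree_lt hBa
    rw [e, ZeroMemClass.coe_zero, zero_div, map_zero, sub_zero] at c2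
    exact hle mc _ d3 (norm_nonneg _) c2

private theorem TFin_small {μ μ₂ x T : ℝ} (hμ : 0 < μ) (hμ₂ : 0 < μ₂) (hμ₂' : μ₂ ≤ 1) (hT : 0 < T)
    (h : μ * (x * T) ≤ 1) : x ≤ (μ * μ₂ * T)⁻¹ := by
  have h1 : x * (μ * T) ≤ 1 := by linarith [mul_comm x T, mul_comm μ T]
  have h2 : x ≤ (μ * T)⁻¹ := by
    rw [← one_div, le_div_iff₀ (by positivity)]
    exact h1
  refine h2.trans ?_
  rw [inv_le_inv₀ (by positivity) (by positivity)]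
  calc μ * μ₂ * T ≤ μ * 1 * T := by gcongr
    _ = μ * T := by ring

private theorem TFin_loc {p : ℕ} [Fact p.Prime] {x₀ x₁ e f : ℂ_[p]} {δ : ℝ} (hδ : δ ≤ 1)
    (h01 : ‖x₀ - x₁‖ ≤ δ) (h1 : ‖x₁‖ ≤ 1) (he : ‖e - 1‖ ≤ δ) (he1 : ‖e‖ = 1)
    (hf : ‖f - 1‖ ≤ δ) : ‖x₀ - x₁ * e⁻¹ * f‖ ≤ δ := by
  have hδ0 : 0 ≤ δ := (norm_nonneg _).trans h01
  have he0 : e ≠ 0 := by
    rintro rfl
    simp at he1
  have hf1 : ‖f‖ ≤ 1 := by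
    have : f = (f - 1) + 1 := by ring
    rw [this]
    refine (IsUltrametricDist.norm_add_le_max _ _).trans (max_le (hf.trans hδ) ?_)
    rw [norm_one]
  have hei : ‖1 - e⁻¹‖ ≤ δ := by
    have : 1 - e⁻¹ = (e - 1) * e⁻¹ := by field_simp
    rw [this, norm_mul, norm_inv, he1, inv_one, mul_one]
    exact he
  have key : x₀ - x₁ * e⁻¹ * f = (x₀ - x₁) + (x₁ * ((1 - e⁻¹) * f) + x₁ * -(f - 1)) := by ring
  rw [key]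
  refine (IsUltrametricDist.norm_add_le_max _ _).trans (max_le h01 ?_)
  refine (IsUltrametricDist.norm_add_le_max _ _).trans (max_le ?_ ?_)
  · rw [norm_mul, norm_mul]
    calc ‖x₁‖ * (‖1 - e⁻¹‖ * ‖f‖) ≤ 1 * (δ * 1) := by gcongr
      _ = δ := by ring
  · rw [norm_mul, norm_neg]
    calc ‖x₁‖ * ‖f - 1‖ ≤ 1 * δ := by gcongr
      _ = δ := by ring

private theorem TFin_real {c C₁ C₂ : ℕ} (hC₂ : 1 ≤ C₂) (hc : 1 ≤ c) {M x : ℝ} (hM : 2 ≤ M)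
    (hx : 0 < x) (h : Real.exp (-((C₂ * (C₁ * M)) ^ C₂)) ≤ c / x) :
    x ≤ Real.exp ((((c + C₂ * C₁ + C₂ : ℕ) : ℝ) * M) ^ (c + C₂ * C₁ + C₂)) := by
  have hcR : (1 : ℝ) ≤ c := by exact_mod_cast hc
  have hC₂R : (1 : ℝ) ≤ C₂ := by exact_mod_cast hC₂
  have hC₁R : (0 : ℝ) ≤ C₁ := by positivity
  set Y : ℝ := (C₂ * (C₁ * M)) ^ C₂ with hY
  have hY0 : 0 ≤ (C₂ * (C₁ * M) : ℝ) := by positivity
  have h1 : x ≤ c * Real.exp Y := by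
    rw [le_div_iff₀ hx, Real.exp_neg] at h
    have h2 := mul_le_mul_of_nonneg_left h (Real.exp_pos Y).le
    rw [← mul_assoc, mul_inv_cancel₀ (Real.exp_pos Y).ne', one_mul] at h2
    linarith [mul_comm (Real.exp Y) (c : ℝ)]
  have h2 : (c : ℝ) ≤ Real.exp c := by linarith [Real.add_one_le_exp (c : ℝ)]
  have h3 : x ≤ Real.exp (c + Y) := by
    rw [Real.exp_add]
    exact h1.trans (mul_le_mul_of_nonneg_right h2 (Real.exp_pos Y).le)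
  refine h3.trans (Real.exp_le_exp.2 ?_)
  set C : ℕ := c + C₂ * C₁ + C₂ with hC
  have h4 : (c : ℝ) + C₂ * (C₁ * M) ≤ (C : ℝ) * M := by
    rw [hC]
    push_cast
    nlinarith [mul_nonneg (sub_nonneg.2 hcR) (by linarith : (0 : ℝ) ≤ M)]
  have h5 : (1 : ℝ) ≤ c + C₂ * (C₁ * M) := by linarith
  obtain ⟨k, hk⟩ : ∃ k, C₂ = k + 1 := ⟨C₂ - 1, by omega⟩
  have h6 : (c : ℝ) + Y ≤ (c + C₂ * (C₁ * M)) ^ C₂ := by
    rw [hY]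
    generalize (C₂ * (C₁ * M) : ℝ) = z at hY0 h5
    rw [hk, pow_succ, pow_succ, mul_add]
    have e1 : (1 : ℝ) ≤ (c + z) ^ k := one_le_pow₀ h5
    have e2 : z ^ k ≤ (c + z) ^ k := pow_le_pow_left₀ hY0 (by linarith) k
    have e3 : (1 : ℝ) * c ≤ (c + z) ^ k * c := mul_le_mul_of_nonneg_right e1 (by linarith)
    have e4 := mul_le_mul_of_nonneg_right e2 hY0
    linarith
  calc (c : ℝ) + Y ≤ (c + C₂ * (C₁ * M)) ^ C₂ := h6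
    _ ≤ ((C : ℝ) * M) ^ C₂ := pow_le_pow_left₀ (by linarith) h4 _
    _ ≤ ((C : ℝ) * M) ^ C := pow_le_pow_right₀ (h5.trans h4) (by omega)

theorem t_fin (Aa Ba Ab Bb : Polynomial Qb) (hBb : Bb.natDegree = Aa.natDegree)
    (hBa : Ba.natDegree < Aa.natDegree) (hAb : Ab.natDegree ≤ Aa.natDegree) :
    ∃ C m : ℕ, 1 ≤ C ∧ 0 < m ∧ ∀ (p : ℕ) [Fact p.Prime] (φ : ℂ →+* ℂ_[p])
      (K : IntermediateField ℚ ℂ) [FiniteDimensional ℚ K] (M : ℝ) (u v t B : ℂ), 2 ≤ M →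
      (Module.finrank ℚ K : ℝ) ≤ M → (mdeg v u : ℝ) ≤ Real.exp M → Par Aa Ba Ab Bb u v t B →
      Bd K M (Xi Ba Bb 1 1 t B) →
        ‖φ ((m : ℂ) * t)‖ ≤ 1 ∨ (p ∣ m ∧ ‖φ t‖ ≤ Real.exp ((C * M) ^ C)) := by
  obtain ⟨m₁, hm₁, H₁⟩ := TFin_ratio Aa Ba Ab Bb hBb hBa hAb
  have hn : 0 < Aa.natDegree := lt_of_le_of_lt (Nat.zero_le _) hBa
  have hAa0 : Aa ≠ 0 := by
    rintro rfl
    simp at hn
  have hBb0 : Bb ≠ 0 := by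
    rintro rfl
    rw [← hBb] at hn
    simp at hn
  obtain ⟨β, hβ⟩ : ∃ β : ℂ, β = ((Ab.coeff Bb.natDegree : Qb) : ℂ) / ((Bb.leadingCoeff : Qb) : ℂ) :=
    ⟨_, rfl⟩
  obtain ⟨κ, hκ⟩ : ∃ κ : ℂ, κ = ((Aa.leadingCoeff : Qb) : ℂ) / ((Bb.leadingCoeff : Qb) : ℂ) :=
    ⟨_, rfl⟩
  rw [← hβ, ← hκ] at H₁
  have hβa : IsAlgebraic ℚ β := by
    have h1 : β = ((Ab.coeff Bb.natDegree / Bb.leadingCoeff : Qb) : ℂ) := by rw [hβ]; rfl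
    rw [h1]
    exact mem_algebraicClosure_iff.1 (Subtype.property _)
  have hκa : IsAlgebraic ℚ κ := by
    have h1 : κ = ((Aa.leadingCoeff / Bb.leadingCoeff : Qb) : ℂ) := by rw [hκ]; rfl
    rw [h1]
    exact mem_algebraicClosure_iff.1 (Subtype.property _)
  have hκ0 : κ ≠ 0 := by
    rw [hκ]
    refine div_ne_zero ?_ ?_
    · have := leadingCoeff_ne_zero.2 hAa0
      exact_mod_cast this
    · have := leadingCoeff_ne_zero.2 hBb0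
      exact_mod_cast this
  obtain ⟨m₂, hm₂, H₂⟩ := alg_norm hκa hκ0
  obtain ⟨m₃, ρ₀, ρ₁, hm₃, -, -, -, -, H₃⟩ := exists_rho hβa
  obtain ⟨C₂, hC₂, H₄⟩ := measP hβa
  obtain ⟨b, hb, H₅⟩ := Quad_bd_alg (g := κ⁻¹) hκa.inv
  have hfk : FiniteDimensional ℚ (IntermediateField.adjoin ℚ {κ}) :=
    IntermediateField.adjoin.finiteDimensional hκa.isIntegral
  obtain ⟨b', hb'⟩ := exists_nat_ge b
  set k : ℕ := Module.finrank ℚ (IntermediateField.adjoin ℚ {κ}) with hk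
  set C₁ : ℕ := k + 13 + b' with hC₁
  refine ⟨m₁ * m₂ + C₂ * C₁ + C₂, m₁ * m₂ * m₃, by omega, by positivity, ?_⟩
  intro p _ φ K _ M u v t B hM hK hN hPar hBd
  by_cases hle : ‖φ (((m₁ * m₂ * m₃ : ℕ) : ℂ) * t)‖ ≤ 1
  · exact Or.inl hle
  right
  rw [TFin_phi] at hle
  have hlt := not_le.1 hle
  obtain ⟨μ₁, hμ₁⟩ : ∃ μ : ℝ, μ = ‖(m₁ : ℂ_[p])‖ := ⟨_, rfl⟩
  obtain ⟨μ₂, hμ₂⟩ : ∃ μ : ℝ, μ = ‖(m₂ : ℂ_[p])‖ := ⟨_, rfl⟩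
  obtain ⟨T, hT⟩ : ∃ T : ℝ, T = ‖φ t‖ := ⟨_, rfl⟩
  have p1 : 0 < μ₁ := by rw [hμ₁]; exact TFin_pos hm₁
  have p2 : 0 < μ₂ := by rw [hμ₂]; exact TFin_pos hm₂
  have q1 : μ₁ ≤ 1 := by rw [hμ₁]; exact TFin_nat m₁
  have q2 : μ₂ ≤ 1 := by rw [hμ₂]; exact TFin_nat m₂
  have hT0 : 0 < T := by
    rw [hT]
    rcases (norm_nonneg (φ t)).eq_or_lt with h | h
    · rw [← h, mul_zero] at hlt
      linarith
    · exact h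
  have e12 : ‖((m₁ * m₂ : ℕ) : ℂ_[p])‖ = μ₁ * μ₂ := by
    rw [Nat.cast_mul, norm_mul, hμ₁, hμ₂]
  have l12 : 1 < μ₁ * μ₂ * T := by
    have e1 : ‖((m₁ * m₂ * m₃ : ℕ) : ℂ_[p])‖ ≤ ‖((m₁ * m₂ : ℕ) : ℂ_[p])‖ := TFin_dvd ⟨m₃, rfl⟩
    rw [← e12, hT]
    exact hlt.trans_le (mul_le_mul_of_nonneg_right e1 (norm_nonneg _))
  have l1 : 1 < μ₁ * T := by
    refine l12.trans_le ?_
    calc μ₁ * μ₂ * T ≤ μ₁ * 1 * T := by gcongr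
      _ = μ₁ * T := by ring
  obtain ⟨δ, hδ⟩ : ∃ δ : ℝ, δ = (μ₁ * μ₂ * T)⁻¹ := ⟨_, rfl⟩
  have hδ1 : δ < 1 := by rw [hδ]; exact inv_lt_one_of_one_lt₀ l12
  have hδ0 : 0 ≤ δ := by rw [hδ]; positivity
  obtain ⟨r1, r2, r3, r4, r5⟩ := H₁ p φ t (by rw [← hμ₁, ← hT]; exact l1)
  rw [← hμ₁, ← hT] at r3 r4 r5
  -- the values of the coordinates
  have hv : (aeval t Ab : ℂ) / aeval t Bb = v := by
    rw [hPar.eqb]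
    field_simp
  have hu0 : u ≠ 0 := by
    rintro rfl
    exact r2 (by rw [hPar.eqa, zero_mul])
  have hu : (aeval t Ba : ℂ) / aeval t Aa = u⁻¹ := by
    have hnea := hPar.nea
    rw [hPar.eqa]
    field_simp
  rw [hv] at r3
  rw [hu, map_inv₀, norm_inv] at r5
  have s3 : ‖φ v - φ β‖ ≤ δ := by rw [hδ]; exact TFin_small p1 p2 q2 hT0 r3
  have s5 : ‖φ u‖⁻¹ ≤ δ := by rw [hδ]; exact TFin_small p1 p2 q2 hT0 r5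
  have hφu : 1 < ‖φ u‖ := by
    have h1 : 0 < ‖φ u‖ := by
      rw [norm_pos_iff, Ne, map_eq_zero]
      exact hu0
    by_contra hcon
    have h2 : 1 ≤ ‖φ u‖⁻¹ := one_le_inv_iff₀.2 ⟨h1, not_lt.1 hcon⟩
    linarith
  have hφv : 1 < ‖φ v‖ := by
    by_contra hcon
    have h2 := (isog_norm φ hPar.isB.isog).1 (not_lt.1 hcon)
    linarith
  have hφβ : 1 < ‖φ β‖ := by
    by_contra hcon
    have h2 : φ v = (φ v - φ β) + φ β := by ring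
    have h3 : ‖φ v‖ ≤ 1 := by
      rw [h2]
      exact (IsUltrametricDist.norm_add_le_max _ _).trans
        (max_le (s3.trans hδ1.le) (not_lt.1 hcon))
    linarith
  refine ⟨(H₃ p φ hφβ).1.mul_left _, ?_⟩
  obtain ⟨q₀, a1, a2, a3⟩ := jP_surj hφβ
  obtain ⟨q₁, b1, b2, b3⟩ := jP_surj hφv
  have hq01 : ‖DP q₀ - DP q₁‖ ≤ δ := by
    refine (DP_lip a2 b2).trans ((jP_lip a2 b2).trans ?_)
    rw [a3, b3]
    have h0 : φ β ≠ 0 := by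
      intro h
      rw [h, norm_zero] at hφβ
      linarith
    have h1 : φ v ≠ 0 := by
      intro h
      rw [h, norm_zero] at hφv
      linarith
    have h2 : (φ β)⁻¹ - (φ v)⁻¹ = (φ v - φ β) * ((φ β)⁻¹ * (φ v)⁻¹) := by
      field_simp
    rw [h2, norm_mul, norm_mul, norm_inv, norm_inv]
    have h3 : ‖φ β‖⁻¹ ≤ 1 := inv_le_one_of_one_le₀ hφβ.le
    have h4 : ‖φ v‖⁻¹ ≤ 1 := inv_le_one_of_one_le₀ hφv.le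
    calc ‖φ v - φ β‖ * (‖φ β‖⁻¹ * ‖φ v‖⁻¹) ≤ δ * (1 * 1) := by gcongr
      _ = δ := by ring
  obtain ⟨d, q₂, hd, hdN, c1, c2, -, c3, c4⟩ := linkB φ hPar.isB hPar.ncm b1 b2 b3.symm
  obtain ⟨e, he⟩ : ∃ e : ℂ_[p], e = E4P q₂ ^ 3 := ⟨_, rfl⟩
  have e1 : ‖e‖ = 1 := by rw [he, norm_pow, E4P_norm c2, one_pow]
  have e2 : ‖e - 1‖ ≤ δ := by
    rw [he]
    refine (E4P_near c2).trans ?_
    have h1 := jP_norm c1 c2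
    rw [← c3] at h1
    have h2 : ‖q₂‖ = ‖φ u‖⁻¹ := by rw [h1, inv_inv]
    rw [h2]
    exact s5
  have e3 : φ u * DP q₂ = e := by rw [c3, he]; exact jP_mul c1 c2
  -- the number theta
  obtain ⟨θ, hθ⟩ : ∃ θ : ℂ, θ = Xi Ba Bb 1 1 t B * (κ⁻¹ * ((((1 / d : ℚ)) : ℂ)) ^ 12) := ⟨_, rfl⟩
  obtain ⟨f, hf⟩ : ∃ f : ℂ_[p], f = φ ((aeval t Aa : ℂ) / aeval t Bb) * (φ κ)⁻¹ := ⟨_, rfl⟩
  have hφκ : φ κ ≠ 0 := by
    rw [Ne, map_eq_zero]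
    exact hκ0
  have f1 : ‖f - 1‖ ≤ δ := by
    have h1 : f - 1 = (φ ((aeval t Aa : ℂ) / aeval t Bb) - φ κ) * (φ κ)⁻¹ := by
      rw [hf, sub_mul, mul_inv_cancel₀ hφκ]
    have h2 : ‖(φ κ)‖⁻¹ ≤ μ₂⁻¹ := by
      rw [hμ₂]
      exact inv_anti₀ (by rw [← hμ₂]; exact p2) (H₂ p φ).2
    have h3 : ‖φ ((aeval t Aa : ℂ) / aeval t Bb) - φ κ‖ ≤ (μ₁ * T)⁻¹ := by
      rw [← one_div, le_div_iff₀ (by positivity)]
      linarith [mul_left_comm μ₁ ‖φ ((aeval t Aa : ℂ) / aeval t Bb) - φ κ‖ T]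
    rw [h1, norm_mul, norm_inv]
    calc ‖φ ((aeval t Aa : ℂ) / aeval t Bb) - φ κ‖ * ‖φ κ‖⁻¹ ≤ (μ₁ * T)⁻¹ * μ₂⁻¹ := by gcongr
      _ = δ := by
        rw [hδ, ← mul_inv]
        congr 1
        ring
  have hDq₂ : DP q₂ ≠ 0 := DP_ne c1 c2
  have hφu0 : φ u ≠ 0 := by
    rw [Ne, map_eq_zero]
    exact hu0
  have he0 : e ≠ 0 := by
    rw [← e3]
    exact mul_ne_zero hφu0 hDq₂
  have hd0 : (d : ℂ_[p]) ≠ 0 := by exact_mod_cast hd.ne'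
  have hφθ : φ θ = DP q₁ * e⁻¹ * f := by
    have h1 : Xi Ba Bb 1 1 t B = B * ((aeval t Aa : ℂ) / aeval t Bb) * u⁻¹ := by
      have hnea := hPar.nea
      have hneb := hPar.neb
      rw [Xi, hPar.eqa]
      field_simp
    have h2 : φ B * (φ u)⁻¹ = (d : ℂ_[p]) ^ 12 * DP q₁ * e⁻¹ := by
      rw [← e3]
      field_simp
      linear_combination c4
    rw [hθ, h1]
    simp only [map_mul, map_pow, map_inv₀, map_ratCast]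
    have h3 : (((1 / d : ℚ)) : ℂ_[p]) ^ 12 * (d : ℂ_[p]) ^ 12 = 1 := by
      rw [← mul_pow]
      push_cast
      rw [one_div, inv_mul_cancel₀ hd0, one_pow]
    rw [hf]
    calc φ B * φ ((aeval t Aa : ℂ) / aeval t Bb) * (φ u)⁻¹ * ((φ κ)⁻¹ * (((1 / d : ℚ)) : ℂ_[p]) ^ 12)
        = (φ B * (φ u)⁻¹) * (φ ((aeval t Aa : ℂ) / aeval t Bb) * (φ κ)⁻¹) *
          (((1 / d : ℚ)) : ℂ_[p]) ^ 12 := by ring
      _ = DP q₁ * e⁻¹ * (φ ((aeval t Aa : ℂ) / aeval t Bb) * (φ κ)⁻¹) *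
          ((((1 / d : ℚ)) : ℂ_[p]) ^ 12 * (d : ℂ_[p]) ^ 12) := by rw [h2]; ring
      _ = _ := by rw [h3, mul_one]
  have hmain : ‖DP q₀ - φ θ‖ ≤ δ := by
    rw [hφθ]
    exact TFin_loc hδ1.le hq01 (by rw [DP_norm b2]; exact b2.le) e2 e1 f1
  -- the field
  have hbR : (0 : ℝ) ≤ b' := by positivity
  have hNd : (d : ℝ) ≤ Real.exp M := by
    refine le_trans ?_ hN
    exact_mod_cast Nat.le_of_dvd (mdeg_pos hPar.isB.isog) hdN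
  have hBd1 : Bd (K ⊔ IntermediateField.adjoin ℚ {κ}) ((C₁ : ℝ) * M) θ := by
    have g1 : Bd (K ⊔ IntermediateField.adjoin ℚ {κ}) M (Xi Ba Bb 1 1 t B) := hBd.le le_sup_left
    have g2 : Bd (K ⊔ IntermediateField.adjoin ℚ {κ}) b κ⁻¹ :=
      (H₅ _ (inv_mem (IntermediateField.mem_adjoin_simple_self ℚ κ))).le le_sup_right
    have g3 : Bd (K ⊔ IntermediateField.adjoin ℚ {κ}) M (((1 / d : ℚ)) : ℂ) := by
      have hq : (1 / (d : ℚ)) = (d : ℚ)⁻¹ := one_div _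
      refine Bd.ratCast _ ?_ ?_
      · rw [hq, Rat.inv_natCast_num_of_pos hd]
        simp only [Int.cast_one, abs_one]
        exact Real.one_le_exp (by linarith)
      · rw [hq, Rat.inv_natCast_den_of_pos hd]
        exact hNd
    have g4 := g1.mul (g2.mul (g3.pow 12))
    rw [hθ]
    refine g4.mono ?_
    rw [hC₁]
    push_cast
    nlinarith [mul_nonneg (Nat.cast_nonneg k : (0 : ℝ) ≤ k) (by linarith : (0 : ℝ) ≤ M),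
      mul_nonneg hbR (by linarith : (0 : ℝ) ≤ M - 1)]
  have hfin : (Module.finrank ℚ (K ⊔ IntermediateField.adjoin ℚ {κ} : IntermediateField ℚ ℂ) : ℝ) ≤
      (C₁ : ℝ) * M := by
    have h1 := IntermediateField.finrank_sup_le K (IntermediateField.adjoin ℚ {κ})
    have h2 : (Module.finrank ℚ (K ⊔ IntermediateField.adjoin ℚ {κ} : IntermediateField ℚ ℂ) : ℝ) ≤
        (Module.finrank ℚ K : ℝ) * k := by
      rw [hk]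
      exact_mod_cast h1
    refine h2.trans ?_
    rw [hC₁]
    push_cast
    have h3 : (Module.finrank ℚ K : ℝ) * k ≤ M * k := mul_le_mul_of_nonneg_right hK (by positivity)
    nlinarith
  have hC₁M : 2 ≤ (C₁ : ℝ) * M := by
    have : (1 : ℝ) ≤ C₁ := by
      rw [hC₁]
      push_cast
      have : (0 : ℝ) ≤ k := by positivity
      linarith
    nlinarith
  have h6 := H₄ p φ q₀ a1 a2 a3.symm (K ⊔ IntermediateField.adjoin ℚ {κ}) ((C₁ : ℝ) * M) θ hC₁M hfin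
    hBd1
  rw [← hT]
  refine TFin_real hC₂ (Nat.succ_le_of_lt (Nat.mul_pos hm₁ hm₂)) hM hT0 ((h6.trans hmain).trans ?_)
  rw [hδ, mul_inv, ← div_eq_mul_inv, div_le_div_iff_of_pos_right hT0]
  have h7 := TFin_ge (p := p) (Nat.mul_pos hm₁ hm₂)
  rw [e12] at h7
  rw [inv_le_comm₀ (by positivity) (by exact_mod_cast Nat.mul_pos hm₁ hm₂)]
  exact h7

end Pool.Agent.LGO.PA
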