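import Mathlib
import Pool.Agent.LGO.PA.XiBd
import Pool.Agent.LGO.PA.TFin
import Pool.Agent.LGO.PA.Den
import Pool.Agent.LGO.U.RAll

/-!
# LGO/PA: equal degrees, the height of the parameter

PROOF.  `rdeg Aa Ba = deg Aa = deg Bb = rdeg Ab Bb`.  `N = mdeg v u ≥ 1`, `D = [K : ℚ] ≥ 1`.  `xi_bd`: `Bd K (C₁ (1 + log N + log H)) Ξ`.  `M = (C₁ + 2) D (1 + log N + log H)`: `M ≥ 2`,
`M ≥ D`, `exp M ≥ N`, `Bd K M Ξ`.  `meas_all` (`LGO/U/RAll.lean`): `‖s t‖ ≤ exp ((C M) ^ C)` for all `s`.  `t_fin`, `den_of` with `G = (C M) ^ C`: a denominator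
`≤ exp (C' (1 + (C M) ^ C))`.  House: `exists_aut`.  The bound is `((C'' D (1 + log N + log H)) ^ C'')` for a large natural number `C''`.
-/

namespace Pool.Agent.LGO.PA

open Polynomial Pool.Agent.Hhelper14.ZPL Pool.Agent.LGO Pool.Agent.LGO.U

private lemma EqT_num {C₁ C₄ : ℝ} {C₂ C₃ : ℕ} (h1 : 1 ≤ C₁) (h2 : 1 ≤ C₂) (h3 : 1 ≤ C₃) (h4 : 1 ≤ C₄) :
    ∃ C : ℕ, 1 ≤ C ∧ ∀ X : ℝ, 1 ≤ X → ((C₂ : ℝ) * ((C₁ + 2) * X)) ^ C₂ ≤ ((C : ℝ) * X) ^ C ∧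
      C₄ * (1 + ((C₃ : ℝ) * ((C₁ + 2) * X)) ^ C₃) ≤ ((C : ℝ) * X) ^ C := by
  refine ⟨⌈2 * C₄⌉₊ + ⌈C₂ * (C₁ + 2)⌉₊ + ⌈C₃ * (C₁ + 2)⌉₊ + C₂ + C₃ + 1, by omega, ?_⟩
  intro X hX
  set C : ℕ := ⌈2 * C₄⌉₊ + ⌈C₂ * (C₁ + 2)⌉₊ + ⌈C₃ * (C₁ + 2)⌉₊ + C₂ + C₃ + 1 with hC
  have a1 : 2 * C₄ ≤ C := (Nat.le_ceil _).trans (by rw [hC]; exact_mod_cast (by omega))
  have a2 : (C₂ : ℝ) * (C₁ + 2) ≤ C := (Nat.le_ceil _).trans (by rw [hC]; exact_mod_cast (by omega))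
  have a3 : (C₃ : ℝ) * (C₁ + 2) ≤ C := (Nat.le_ceil _).trans (by rw [hC]; exact_mod_cast (by omega))
  have b2 : C₂ ≤ C := by omega
  have b3 : C₃ + 1 ≤ C := by omega
  have hC2 : (1 : ℝ) ≤ C₂ := by exact_mod_cast h2
  have hC3 : (1 : ℝ) ≤ C₃ := by exact_mod_cast h3
  have hC0 : (1 : ℝ) ≤ C := by
    have : (1 : ℕ) ≤ C := by omega
    exact_mod_cast this
  have hCX : 1 ≤ (C : ℝ) * X := by nlinarith
  have c2 : (C₂ : ℝ) * ((C₁ + 2) * X) ≤ C * X := by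
    calc (C₂ : ℝ) * ((C₁ + 2) * X) = (C₂ * (C₁ + 2)) * X := by ring
      _ ≤ C * X := mul_le_mul_of_nonneg_right a2 (by linarith)
  have c3 : (C₃ : ℝ) * ((C₁ + 2) * X) ≤ C * X := by
    calc (C₃ : ℝ) * ((C₁ + 2) * X) = (C₃ * (C₁ + 2)) * X := by ring
      _ ≤ C * X := mul_le_mul_of_nonneg_right a3 (by linarith)
  have d1 : (1 : ℝ) ≤ (C₁ + 2) * X := by nlinarith
  have d2 : (0 : ℝ) ≤ (C₂ : ℝ) * ((C₁ + 2) * X) := by positivity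
  have d3 : (1 : ℝ) ≤ (C₃ : ℝ) * ((C₁ + 2) * X) := by nlinarith
  constructor
  · exact (pow_le_pow_left₀ d2 c2 _).trans (pow_le_pow_right₀ hCX b2)
  · have e1 : (1 : ℝ) ≤ ((C₃ : ℝ) * ((C₁ + 2) * X)) ^ C₃ := one_le_pow₀ d3
    have e2 : ((C₃ : ℝ) * ((C₁ + 2) * X)) ^ C₃ ≤ (C * X) ^ C₃ :=
      pow_le_pow_left₀ (by linarith) c3 _
    have e3 : 2 * C₄ ≤ C * X := a1.trans (by nlinarith)
    calc C₄ * (1 + ((C₃ : ℝ) * ((C₁ + 2) * X)) ^ C₃) ≤ 2 * C₄ * (C * X) ^ C₃ := by nlinarith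
      _ ≤ (C * X) * (C * X) ^ C₃ := mul_le_mul_of_nonneg_right e3 (by positivity)
      _ = (C * X) ^ (C₃ + 1) := by ring
      _ ≤ (C * X) ^ C := pow_le_pow_right₀ hCX b3

theorem eq_t {Aa Ba Ab Bb : Polynomial Qb} (ca : IsCoprime Aa Ba) (cb : IsCoprime Ab Bb)
    (hBb : Bb.natDegree = Aa.natDegree) (hBa : Ba.natDegree < Aa.natDegree)
    (hAb : Ab.natDegree ≤ Aa.natDegree) :
    ∃ C : ℕ, 1 ≤ C ∧ ∀ (K : IntermediateField ℚ ℂ) [FiniteDimensional ℚ K] (u v t B : ℂ),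
      Par Aa Ba Ab Bb u v t B → u ∈ K → v ∈ K → t ∈ K →
      (∀ i, ((Ba.coeff i : Qb) : ℂ) ∈ K) → (∀ i, ((Bb.coeff i : Qb) : ℂ) ∈ K) →
      ∀ H : ℝ, 1 ≤ H → (∀ s : ℂ ≃+* ℂ, ‖s u‖ ≤ Real.exp H) →
        (∀ s : ℂ ≃+* ℂ, ‖s v‖ ≤ Real.exp H) →
          Bd K ((C * (Module.finrank ℚ K * (1 + Real.log (mdeg v u) + Real.log H))) ^ C) t := by
  have hn : rdeg Aa Ba = rdeg Ab Bb := by
    unfold rdeg
    rw [max_eq_left hBa.le, hBb, max_eq_right hAb]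
  obtain ⟨C₁, h1, H1⟩ := xi_bd ca cb hn
  obtain ⟨C₂, h2, H2⟩ := meas_all Aa Ba Ab Bb hBb hBa hAb
  obtain ⟨C₃, m, h3, hm, H3⟩ := t_fin Aa Ba Ab Bb hBb hBa hAb
  obtain ⟨C₄, h4, H4⟩ := den_of m hm
  obtain ⟨C, hC, HC⟩ := EqT_num h1 h2 h3 h4
  refine ⟨C, hC, ?_⟩
  intro K _ u v t B hP hu hv ht ha hb H hH hsu hsv
  have hN : 0 < mdeg v u := mdeg_pos hP.isB.isog
  have hN1 : (1 : ℝ) ≤ mdeg v u := by exact_mod_cast hN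
  have hD : 0 < Module.finrank ℚ K := Module.finrank_pos
  have hD1 : (1 : ℝ) ≤ Module.finrank ℚ K := by exact_mod_cast hD
  have hlN : 0 ≤ Real.log (mdeg v u) := Real.log_nonneg hN1
  have hlH : 0 ≤ Real.log H := Real.log_nonneg hH
  set L : ℝ := 1 + Real.log (mdeg v u) + Real.log H with hL
  have hL1 : 1 ≤ L := by linarith
  set X : ℝ := Module.finrank ℚ K * L with hXdef
  have hLX : L ≤ X := by rw [hXdef]; nlinarith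
  have hDX : (Module.finrank ℚ K : ℝ) ≤ X := by rw [hXdef]; nlinarith
  have hX : 1 ≤ X := hL1.trans hLX
  have hXM : X ≤ (C₁ + 2) * X := by nlinarith
  have hM2 : 2 ≤ (C₁ + 2) * X := by nlinarith
  have hNM : (mdeg v u : ℝ) ≤ Real.exp ((C₁ + 2) * X) := by
    rw [← Real.log_le_iff_le_exp (by linarith)]
    linarith
  have hXi : Bd K ((C₁ + 2) * X) (Xi Ba Bb 1 1 t B) :=
    (H1 K u v t B hP hu hv ht ha hb H hH hsu hsv).mono (by nlinarith)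
  obtain ⟨g1, g2⟩ := HC X hX
  have halg : IsAlgebraic ℚ t := by
    have h5 : IsAlgebraic ℚ (⟨t, ht⟩ : K) := Algebra.IsAlgebraic.isAlgebraic _
    exact (isAlgebraic_algebraMap_iff (algebraMap K ℂ).injective).2 h5
  have hden := H4 t (((C₃ : ℝ) * ((C₁ + 2) * X)) ^ C₃) halg (by positivity)
    (fun p _ φ => H3 p φ K ((C₁ + 2) * X) u v t B hM2 (hDX.trans hXM) hNM hP hXi)
  refine ⟨ht, ?_, ?_⟩
  · obtain ⟨n, hn0, hn1, hn2⟩ := hden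
    exact ⟨n, hn0, hn1.trans (Real.exp_le_exp.2 g2), hn2⟩
  · intro σ
    obtain ⟨s, hs⟩ := exists_aut K σ
    rw [← hs ⟨t, ht⟩]
    exact (H2 K ((C₁ + 2) * X) u v t B hM2 (hDX.trans hXM) hNM hP hXi s).trans
      (Real.exp_le_exp.2 g1)

end Pool.Agent.LGO.PA
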