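import Mathlib
import Pool.Agent.LGO.PA.XiFin
import Pool.Agent.LGO.PA.QInt

/-!
# LGO/PA: unequal degrees

PROOF.  `p = rdeg Ab Bb`, `q = rdeg Aa Ba`, `Ξ = Xi Ba Bb p q t B ∈ K` (`xi_mem`), `Ξ ≠ 0` (`Par.xi_ne`), `N = mdeg v u ≥ 1`, `E = (C N H) ^ C ≥ 1` from `xi_size`, `r` from `xi_fin`.
Case `q > p`: `y = r N ^ (12 p) Ξ⁻¹`, `z = y v ^ (q - p)`.  `xi_fin`: `‖φ y‖ max 1 ‖φ v‖ ^ (q - p) ≤ 1`, so `‖φ y‖, ‖φ z‖ ≤ 1` for all `l`, `φ`: `y`, `z` are integral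
(`integral_of_norm_le`).  `xi_size`: `max 1 ‖s v‖ ^ q ≤ E ‖s Ξ‖ max 1 ‖s v‖ ^ p`, so `‖s y‖ max 1 ‖s v‖ ^ (q - p) ≤ r N ^ (12 p) E`: `‖s y‖, ‖s z‖ ≤ E' = r N ^ (12 p) E`.
Case `q < p`: `y = r Ξ`, `z = y v ^ (p - q)`: `‖φ y‖ max 1 ‖φ v‖ ^ (p - q) ≤ 1`, `‖s y‖ max 1 ‖s v‖ ^ (p - q) ≤ r E ≤ E'`.
So `Bd K (log E') y`, `Bd K (log E') z` (`bd_of_aut`), `y ≠ 0`, `bd_div`: `Bd K (3 D log E') (v ^ |q - p|)`, and `Bd K (3 D log E') v` by `bd_root` (`LGO/U/RFld.lean`).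
`log E' ≤ C' (1 + log N + log H)`.
-/

namespace Pool.Agent.LGO.PA

open Polynomial Pool.Agent.Hhelper14.ZPL Pool.Agent.LGO Pool.Agent.LGO.U

private theorem NeqV_gt {p q : ℕ} (hpq : p < q) {M X F R : ℝ} (hM : 1 ≤ M) (hX : 0 < X)
    (h : R * M ^ q ≤ F * (X * M ^ p)) : (R * X⁻¹) * M ^ (q - p) ≤ F := by
  have hM0 : 0 < M := by linarith
  have e : M ^ q = M ^ p * M ^ (q - p) := by
    rw [← pow_add, Nat.add_sub_cancel' hpq.le]
  have h2 : (X * M ^ p) * ((R * X⁻¹) * M ^ (q - p)) ≤ (X * M ^ p) * F := by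
    calc (X * M ^ p) * ((R * X⁻¹) * M ^ (q - p)) = (X * X⁻¹) * (R * (M ^ p * M ^ (q - p))) := by ring
      _ = R * M ^ q := by rw [mul_inv_cancel₀ hX.ne', one_mul, ← e]
      _ ≤ F * (X * M ^ p) := h
      _ = (X * M ^ p) * F := by ring
  exact le_of_mul_le_mul_left h2 (by positivity)

private theorem NeqV_lt {p q : ℕ} (hpq : q < p) {M X F R : ℝ} (hM : 1 ≤ M)
    (h : R * (X * M ^ p) ≤ F * M ^ q) : (R * X) * M ^ (p - q) ≤ F := by
  have hM0 : 0 < M := by linarith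
  have e : M ^ p = M ^ q * M ^ (p - q) := by
    rw [← pow_add, Nat.add_sub_cancel' hpq.le]
  have h2 : M ^ q * ((R * X) * M ^ (p - q)) ≤ M ^ q * F := by
    calc M ^ q * ((R * X) * M ^ (p - q)) = R * (X * (M ^ q * M ^ (p - q))) := by ring
      _ = R * (X * M ^ p) := by rw [← e]
      _ ≤ F * M ^ q := h
      _ = M ^ q * F := by ring
  exact le_of_mul_le_mul_left h2 (by positivity)

/-- from `a max (1, m) ^ k ≤ F` -/
private theorem NeqV_two {a m F : ℝ} {k : ℕ} (ha : 0 ≤ a) (hm : 0 ≤ m)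
    (h : a * max 1 m ^ k ≤ F) : a ≤ F ∧ a * m ^ k ≤ F := by
  have h1 : (1 : ℝ) ≤ max 1 m ^ k := one_le_pow₀ (le_max_left _ _)
  have h2 : m ^ k ≤ max 1 m ^ k := pow_le_pow_left₀ hm (le_max_right _ _) k
  constructor
  · refine le_trans ?_ h
    calc a = a * 1 := (mul_one a).symm
      _ ≤ a * max 1 m ^ k := mul_le_mul_of_nonneg_left h1 ha
  · exact le_trans (mul_le_mul_of_nonneg_left h2 ha) h

private theorem NeqV_alg {K : IntermediateField ℚ ℂ} [FiniteDimensional ℚ K] {y : ℂ} (hy : y ∈ K) :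
    IsAlgebraic ℚ y := by
  have h1 : IsAlgebraic ℚ (⟨y, hy⟩ : K) := Algebra.IsAlgebraic.isAlgebraic _
  exact (isAlgebraic_algebraMap_iff (algebraMap K ℂ).injective).2 h1

private theorem NeqV_core (K : IntermediateField ℚ ℂ) [FiniteDimensional ℚ K] {y v : ℂ} {k : ℕ}
    (hk : 0 < k) (hy : y ∈ K) (hv : v ∈ K) (hy0 : y ≠ 0) {G : ℝ} (hG : 0 ≤ G)
    (hfin : ∀ (l : ℕ) [Fact l.Prime] (φ : ℂ →+* ℂ_[l]), ‖φ y‖ * max 1 ‖φ v‖ ^ k ≤ 1)
    (harch : ∀ s : ℂ ≃+* ℂ, ‖s y‖ * max 1 ‖s v‖ ^ k ≤ Real.exp G) :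
    Bd K (3 * Module.finrank ℚ K * G) v := by
  have hz : y * v ^ k ∈ K := K.mul_mem hy (pow_mem hv k)
  have iy : IsIntegral ℤ y := by
    refine integral_of_norm_le (NeqV_alg hy) fun l _ φ => ?_
    exact (NeqV_two (norm_nonneg _) (norm_nonneg _) (hfin l φ)).1
  have iz : IsIntegral ℤ (y * v ^ k) := by
    refine integral_of_norm_le (NeqV_alg hz) fun l _ φ => ?_
    rw [map_mul, map_pow, norm_mul, norm_pow]
    exact (NeqV_two (norm_nonneg _) (norm_nonneg _) (hfin l φ)).2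
  have by' : Bd K G y := bd_of_aut hy iy hG fun s =>
    (NeqV_two (norm_nonneg _) (norm_nonneg _) (harch s)).1
  have bz : Bd K G (y * v ^ k) := bd_of_aut hz iz hG fun s => by
    rw [map_mul, map_pow, norm_mul, norm_pow]
    exact (NeqV_two (norm_nonneg _) (norm_nonneg _) (harch s)).2
  have h := bd_div (D := Module.finrank ℚ K) le_rfl by' bz hy0
  rw [mul_div_cancel_left₀ _ hy0] at h
  exact U.bd_root k hk hv h

/-- the final estimate -/
private theorem NeqV_fin {C r p N : ℕ} (hC : 1 ≤ C) (hr : 0 < r) (hN : 1 ≤ N) {H : ℝ}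
    (hH : 1 ≤ H) :
    ((C : ℝ) * N * H) ^ C * (r * (N : ℝ) ^ (12 * p)) ≤
      Real.exp ((C * Real.log C + C + Real.log r + 12 * p + 1) *
        (1 + Real.log N + Real.log H)) := by
  have hC1 : (1 : ℝ) ≤ C := by exact_mod_cast hC
  have hr1 : (1 : ℝ) ≤ r := by exact_mod_cast hr
  have hN1 : (1 : ℝ) ≤ N := by exact_mod_cast hN
  have hC0 : (0 : ℝ) < C := by linarith
  have hr0 : (0 : ℝ) < r := by linarith
  have hN0 : (0 : ℝ) < N := by linarith
  have hH0 : (0 : ℝ) < H := by linarith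
  have lC : 0 ≤ Real.log C := Real.log_nonneg hC1
  have lr : 0 ≤ Real.log r := Real.log_nonneg hr1
  have lN : 0 ≤ Real.log N := Real.log_nonneg hN1
  have lH : 0 ≤ Real.log H := Real.log_nonneg hH
  have hpos : 0 < ((C : ℝ) * N * H) ^ C * (r * (N : ℝ) ^ (12 * p)) := by positivity
  rw [← Real.log_le_iff_le_exp hpos, Real.log_mul (by positivity) (by positivity),
    Real.log_pow, Real.log_mul (by positivity) (by positivity),
    Real.log_mul (by positivity) (by positivity), Real.log_mul (by positivity) (by positivity),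
    Real.log_pow]
  push_cast
  have a1 : 0 ≤ (C : ℝ) * Real.log C * (Real.log N + Real.log H) := by positivity
  have a2 : 0 ≤ Real.log r * (Real.log N + Real.log H) := by positivity
  have a3 : 0 ≤ (12 * p : ℝ) * (1 + Real.log H) := by positivity
  nlinarith

theorem neq_vP {Aa Ba Ab Bb : Polynomial Qb} (ca : IsCoprime Aa Ba) (cb : IsCoprime Ab Bb)
    (hne : rdeg Aa Ba ≠ rdeg Ab Bb) :
    ∃ C : ℝ, 1 ≤ C ∧ ∀ (K : IntermediateField ℚ ℂ) [FiniteDimensional ℚ K] (u v t B : ℂ),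
      Par Aa Ba Ab Bb u v t B → u ∈ K → v ∈ K → t ∈ K →
      (∀ i, ((Ba.coeff i : Qb) : ℂ) ∈ K) → (∀ i, ((Bb.coeff i : Qb) : ℂ) ∈ K) →
      ∀ H : ℝ, 1 ≤ H → (∀ s : ℂ ≃+* ℂ, ‖s u‖ ≤ Real.exp H) →
        (∀ s : ℂ ≃+* ℂ, ‖s v‖ ≤ Real.exp H) →
          Bd K (C * Module.finrank ℚ K * (1 + Real.log (mdeg v u) + Real.log H)) v := by
  obtain ⟨C, hC, hsz⟩ := xi_size ca cb (p := rdeg Ab Bb) (q := rdeg Aa Ba)
    (mul_comm (rdeg Ab Bb) (rdeg Aa Ba))
  obtain ⟨r, hr, hfi⟩ := xi_fin ca cb (p := rdeg Ab Bb) (q := rdeg Aa Ba)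
    (mul_comm (rdeg Ab Bb) (rdeg Aa Ba))
  generalize hp : rdeg Ab Bb = p at *
  generalize hq : rdeg Aa Ba = q at *
  have hC1 : (1 : ℝ) ≤ C := by exact_mod_cast hC
  have hr1 : (1 : ℝ) ≤ r := by exact_mod_cast hr
  have lC : 0 ≤ Real.log C := Real.log_nonneg hC1
  have lr : 0 ≤ Real.log r := Real.log_nonneg hr1
  refine ⟨3 * (C * Real.log C + C + Real.log r + 12 * p + 1), ?_, ?_⟩
  · have : 0 ≤ (C : ℝ) * Real.log C + C + Real.log r + 12 * p := by positivity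
    linarith
  intro K _ u v t B hP hu hv ht ha hb H hH hsu hsv
  set N : ℕ := mdeg v u with hN
  have hN1 : 1 ≤ N := mdeg_pos hP.isB.isog
  have hN1' : (1 : ℝ) ≤ N := by exact_mod_cast hN1
  set X : ℂ := Xi Ba Bb p q t B with hX
  have hX0 : X ≠ 0 := hP.xi_ne p q
  have hXK : X ∈ K := xi_mem hP K hu hv ht ha hb p q
  have hr0 : (r : ℂ) ≠ 0 := by exact_mod_cast hr.ne'
  have hN0 : (N : ℂ) ≠ 0 := by exact_mod_cast (by omega : N ≠ 0)
  have hEpos : 0 ≤ ((C : ℝ) * N * H) ^ C := by positivity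
  have hNp : (1 : ℝ) ≤ (N : ℝ) ^ (12 * p) := one_le_pow₀ hN1'
  have lN : 0 ≤ Real.log N := Real.log_nonneg hN1'
  have lH : 0 ≤ Real.log H := Real.log_nonneg hH
  have hfin := NeqV_fin (p := p) hC hr hN1 hH
  set G : ℝ := (C * Real.log C + C + Real.log r + 12 * p + 1) * (1 + Real.log N + Real.log H) with hG
  have hG0 : 0 ≤ G := by positivity
  have key : Bd K (3 * Module.finrank ℚ K * G) v := by
    rcases lt_or_gt_of_ne hne with hlt | hgt
    · -- `q < p`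
      refine NeqV_core K (y := (r : ℂ) * X) (k := p - q) (by omega) (K.mul_mem (natCast_mem K r) hXK)
        hv (mul_ne_zero hr0 hX0) hG0 (fun l _ φ => ?_) (fun s => ?_)
      · have h1 := (hfi l φ u v t B hP).1
        have h2 := NeqV_lt (F := 1) (R := ‖(r : ℂ_[l])‖) (X := ‖φ X‖) hlt (le_max_left 1 ‖φ v‖)
          (by rw [one_mul]; exact h1)
        have e : ‖φ ((r : ℂ) * X)‖ = ‖(r : ℂ_[l])‖ * ‖φ X‖ := by
          rw [map_mul, map_natCast, norm_mul]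
        rw [e]
        exact h2
      · have h1 := (hsz s u v t B hP H hH (hsu s) (hsv s)).1
        have h2 := NeqV_lt (F := (r : ℝ) * ((C : ℝ) * N * H) ^ C) (R := (r : ℝ)) (X := ‖s X‖) hlt
          (le_max_left 1 ‖s v‖) (by
            rw [mul_assoc]
            exact mul_le_mul_of_nonneg_left h1 (by positivity))
        have e : ‖s ((r : ℂ) * X)‖ = (r : ℝ) * ‖s X‖ := by
          rw [map_mul, map_natCast, norm_mul, Complex.norm_natCast]
        rw [e]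
        refine (h2.trans ?_).trans hfin
        rw [mul_comm]
        refine mul_le_mul_of_nonneg_left ?_ hEpos
        exact le_mul_of_one_le_right (by positivity) hNp
    · -- `p < q`
      refine NeqV_core K (y := (r : ℂ) * (N : ℂ) ^ (12 * p) * X⁻¹) (k := q - p) (by omega)
        (K.mul_mem (K.mul_mem (natCast_mem K r) (pow_mem (natCast_mem K N) (12 * p))) (K.inv_mem hXK))
        hv (mul_ne_zero (mul_ne_zero hr0 (pow_ne_zero _ hN0)) (inv_ne_zero hX0)) hG0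
        (fun l _ φ => ?_) (fun s => ?_)
      · have h1 := (hfi l φ u v t B hP).2
        have hX' : 0 < ‖φ X‖ := norm_pos_iff.2 ((map_ne_zero φ).2 hX0)
        have h2 := NeqV_gt (F := 1) (R := ‖(r : ℂ_[l])‖ * ‖(N : ℂ_[l])‖ ^ (12 * p)) hgt
          (le_max_left 1 ‖φ v‖) hX' (by rw [one_mul, mul_assoc]; exact h1)
        have e : ‖φ ((r : ℂ) * (N : ℂ) ^ (12 * p) * X⁻¹)‖ =
            ‖(r : ℂ_[l])‖ * ‖(N : ℂ_[l])‖ ^ (12 * p) * ‖φ X‖⁻¹ := by
          rw [map_mul, map_mul, map_pow, map_natCast, map_natCast, map_inv₀, norm_mul, norm_mul,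
            norm_pow, norm_inv]
        rw [e]
        exact h2
      · have h1 := (hsz s u v t B hP H hH (hsu s) (hsv s)).2
        have hX' : 0 < ‖s X‖ := norm_pos_iff.2 ((map_ne_zero s).2 hX0)
        have h2 := NeqV_gt (F := ((C : ℝ) * N * H) ^ C * (r * (N : ℝ) ^ (12 * p)))
          (R := (r : ℝ) * (N : ℝ) ^ (12 * p)) hgt (le_max_left 1 ‖s v‖) hX' (by
            calc (r : ℝ) * (N : ℝ) ^ (12 * p) * max 1 ‖s v‖ ^ q
                ≤ (r : ℝ) * (N : ℝ) ^ (12 * p) *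
                  (((C : ℝ) * N * H) ^ C * (‖s X‖ * max 1 ‖s v‖ ^ p)) :=
                  mul_le_mul_of_nonneg_left h1 (by positivity)
              _ = ((C : ℝ) * N * H) ^ C * (r * (N : ℝ) ^ (12 * p)) *
                  (‖s X‖ * max 1 ‖s v‖ ^ p) := by ring)
        have e : ‖s ((r : ℂ) * (N : ℂ) ^ (12 * p) * X⁻¹)‖ =
            (r : ℝ) * (N : ℝ) ^ (12 * p) * ‖s X‖⁻¹ := by
          rw [map_mul, map_mul, map_pow, map_natCast, map_natCast, map_inv₀, norm_mul, norm_mul,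
            norm_pow, norm_inv, Complex.norm_natCast, Complex.norm_natCast]
        rw [e]
        exact h2.trans hfin
  have e : 3 * (C * Real.log C + C + Real.log r + 12 * p + 1) * (Module.finrank ℚ K : ℝ) *
      (1 + Real.log N + Real.log H) = 3 * Module.finrank ℚ K * G := by
    rw [hG]
    ring
  rw [e]
  exact key

end Pool.Agent.LGO.PA
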