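import Mathlib
import Pool.Agent.LGO.PA.EqT
import Pool.Agent.LGO.PA.NeqV
import Pool.Agent.LGO.PA.NeqT

/-!
# LGO/PA: the height of the parameter in terms of the house of the coordinates

PROOF.  `rdeg Aa Ba = deg Aa`.  If `rdeg Aa Ba = rdeg Ab Bb` then `deg Ab ≤ deg Bb` (hypothesis `h`), so `deg Bb = deg Aa`: `eq_t`.  Otherwise `neq_vP`:
`Bd K G v`, `G = C D (1 + log N + log H) ≥ 1`, and `neq_t`: `Bd K (C D ^ 2 G) t`.  In both cases the bound is at most `(C D (1 + log N + log H)) ^ C` for a large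
natural number `C` (the base is at least `1`).
-/

namespace Pool.Agent.LGO.PA

open Polynomial Pool.Agent.Hhelper14.ZPL Pool.Agent.LGO Pool.Agent.LGO.U

private theorem TBd_fin {C₁ C₂ D L : ℝ} {C : ℕ} (hD : 1 ≤ D) (hL : 1 ≤ L)
    (hC : C₂ * C₁ ≤ C) (hC3 : 3 ≤ C) : C₂ * D ^ 2 * (C₁ * D * L) ≤ (C * (D * L)) ^ C := by
  have hC1 : (1 : ℝ) ≤ C := by
    have h3 : (3 : ℝ) ≤ C := by exact_mod_cast hC3
    linarith
  have hDL : 1 ≤ D * L := one_le_mul_of_one_le_of_one_le hD hL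
  have hX : 1 ≤ C * (D * L) := one_le_mul_of_one_le_of_one_le hC1 hDL
  have h3 : (C * (D * L)) ^ 3 ≤ (C * (D * L)) ^ C := pow_le_pow_right₀ hX hC3
  refine le_trans ?_ h3
  have h4 : (C : ℝ) ≤ C ^ 3 := by
    have : (C : ℝ) ^ 1 ≤ C ^ 3 := pow_le_pow_right₀ hC1 (by norm_num)
    simpa using this
  have h5 : L ≤ L ^ 3 := by
    have : L ^ 1 ≤ L ^ 3 := pow_le_pow_right₀ hL (by norm_num)
    simpa using this
  calc C₂ * D ^ 2 * (C₁ * D * L) = (C₂ * C₁) * (D ^ 3 * L) := by ring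
    _ ≤ (C : ℝ) ^ 3 * (D ^ 3 * L ^ 3) := by
        refine mul_le_mul (hC.trans h4) (mul_le_mul_of_nonneg_left h5 (by positivity))
          (by positivity) (by positivity)
    _ = (C * (D * L)) ^ 3 := by ring

theorem t_bd {Aa Ba Ab Bb : Polynomial Qb} (ca : IsCoprime Aa Ba) (cb : IsCoprime Ab Bb)
    (hd : Ba.natDegree < Aa.natDegree)
    (h : Ab.natDegree ≤ Bb.natDegree ∨ rdeg Aa Ba ≠ rdeg Ab Bb) :
    ∃ C : ℕ, 1 ≤ C ∧ ∀ (K : IntermediateField ℚ ℂ) [FiniteDimensional ℚ K] (u v t B : ℂ),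
      Par Aa Ba Ab Bb u v t B → u ∈ K → v ∈ K → t ∈ K →
      (∀ P ∈ ({Aa, Ba, Ab, Bb} : Finset (Polynomial Qb)), ∀ i, ((P.coeff i : Qb) : ℂ) ∈ K) →
      ((Ab.coeff (rdeg Ab Bb) : Qb) : ℂ) ≠ v * ((Bb.coeff (rdeg Ab Bb) : Qb) : ℂ) →
      ∀ H : ℝ, 1 ≤ H → (∀ s : ℂ ≃+* ℂ, ‖s u‖ ≤ Real.exp H) →
        (∀ s : ℂ ≃+* ℂ, ‖s v‖ ≤ Real.exp H) →
          Bd K ((C * (Module.finrank ℚ K * (1 + Real.log (mdeg v u) + Real.log H))) ^ C) t := by
  by_cases hr : rdeg Aa Ba = rdeg Ab Bb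
  · have hb : Ab.natDegree ≤ Bb.natDegree := by
      rcases h with h | h
      · exact h
      · exact absurd hr h
    have e1 : rdeg Aa Ba = Aa.natDegree := max_eq_left hd.le
    have e2 : rdeg Ab Bb = Bb.natDegree := max_eq_right hb
    have e3 : Bb.natDegree = Aa.natDegree := by rw [← e2, ← hr, e1]
    obtain ⟨C, hC, hc⟩ := eq_t ca cb e3 hd (e3 ▸ hb)
    refine ⟨C, hC, ?_⟩
    intro K _ u v t B hP hu hv ht hco _ H hH hsu hsv
    exact hc K u v t B hP hu hv ht (hco Ba (by simp)) (hco Bb (by simp)) H hH hsu hsv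
  · obtain ⟨C₁, hC₁, h1⟩ := neq_vP ca cb hr
    obtain ⟨C₂, hC₂, h2⟩ := neq_t Ab Bb
    refine ⟨⌈C₂ * C₁⌉₊ + 3, by omega, ?_⟩
    intro K _ u v t B hP hu hv ht hco hne H hH hsu hsv
    have h3 := h1 K u v t B hP hu hv ht (hco Ba (by simp)) (hco Bb (by simp)) H hH hsu hsv
    have hD : (1 : ℝ) ≤ Module.finrank ℚ K := by
      exact_mod_cast (Module.finrank_pos : 0 < Module.finrank ℚ K)
    have hN : (1 : ℝ) ≤ mdeg v u := by
      exact_mod_cast (mdeg_pos hP.isB.isog : 0 < mdeg v u)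
    have hL : 1 ≤ 1 + Real.log (mdeg v u) + Real.log H := by
      have a1 := Real.log_nonneg hN
      have a2 := Real.log_nonneg hH
      linarith
    have hG : 1 ≤ C₁ * Module.finrank ℚ K * (1 + Real.log (mdeg v u) + Real.log H) :=
      one_le_mul_of_one_le_of_one_le (one_le_mul_of_one_le_of_one_le hC₁ hD) hL
    have h4 := h2 K v t _ (hco Ab (by simp)) (hco Bb (by simp)) ht hP.eqb hne hG h3
    refine h4.mono (TBd_fin hD hL ?_ (by omega))
    push_cast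
    have := Nat.le_ceil (C₂ * C₁)
    linarith

end Pool.Agent.LGO.PA
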