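import Mathlib
import Pool.Agent.LGO.PA.TBd
import Pool.Agent.LGO.PA.Exc
import Pool.Agent.LGO.U.RNum
import Pool.Agent.LGO.U.RFld
import Pool.Agent.LGO.H.Use

/-!
# LGO/PA: the pair theorem without integrality

PROOF.  `fld_fix` (`LGO/U/RFld.lean`) for `{Aa, Ba, Ab, Bb}`: `K₀`; `K' = K ⊔ K₀`, `[K' : ℚ] ≤ d₀ [K : ℚ]` (`IntermediateField.finrank_sup_le`).  `D = [K : ℚ] ≥ 1`.  If the coefficients of index
`rdeg Ab Bb` satisfy `a = v b`: `exc` (with `Bd.mono`).  Otherwise: `B` from `exists_B`, `Par Aa Ba Ab Bb u v t B`.  `N = max 3 (mdeg v u)`.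
`H`: `u`, `v` are algebraic, they have finitely many conjugates, so there are automorphisms `s_u`, `s_v` with `‖s u‖ ≤ ‖s_u u‖`, `‖s v‖ ≤ ‖s_v v‖` for all `s` (see `Core_max` in
`LGO/H/Core.lean`); `H = max 1 (max (log ‖s_u u‖) (log ‖s_v v‖))`.  `t_bd` for `K'`: `Bd K' G t` with `G = (C₁ D (1 + log N + log H)) ^ C₁ ≥ 1`.  `bd_x`: `Bd K' (C₂ D G) u`,
`Bd K' (C₂ D G) v`, so `log ‖s_u u‖, log ‖s_v v‖ ≤ C₂ D G` (`Bd.aut`) and `H ≤ (a D (log N + log H)) ^ k` (`log N ≥ 1`).  `num_H` (`LGO/U/RNum.lean`): `H ≤ (C₃ D log N) ^ C₃`.  So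
`Bd K' ((C₄ D log N) ^ C₄) u`, the same for `v`, `t`; `isog_use` (`LGO/H/Use.lean`) for `v`, `u` (`NCM.of_isog`) with `M = (C₅ D log N) ^ C₅`: `mdeg v u ≤ M ^ C₆`,
`N ≤ 3 + M ^ C₆ ≤ (a' D log N) ^ k'`, `num_N`: `N ≤ (C₇ D) ^ C₇`.  `log N ≤ C₇ log (C₇ D) ≤ C₇ C₇ D`.  `bd_down` for `u, v, t ∈ K`.
-/

namespace Pool.Agent.LGO.PA

open Polynomial Pool.Agent.Hhelper14.ZPL Pool.Agent.LGO Pool.Agent.LGO.U

/-- one of the conjugates of an algebraic number has the largest absolute value -/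
private theorem Main_max {z : ℂ} (hint : IsIntegral ℚ z) :
    ∃ s₀ : ℂ ≃+* ℂ, ∀ s : ℂ ≃+* ℂ, ‖s z‖ ≤ ‖s₀ z‖ := by
  classical
  have hP0 : minpoly ℚ z ≠ 0 := minpoly.ne_zero hint
  have hfin : (Set.range fun s : ℂ ≃+* ℂ => ‖s z‖).Finite := by
    apply Set.Finite.subset ((((minpoly ℚ z).aroots ℂ).toFinset.finite_toSet).image fun w => ‖w‖)
    rintro _ ⟨s, rfl⟩
    refine ⟨s z, ?_, rfl⟩
    rw [Finset.mem_coe, Multiset.mem_toFinset, Polynomial.mem_aroots]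
    refine ⟨hP0, ?_⟩
    have h1 := Polynomial.aeval_algHom_apply (RingHom.toRatAlgHom (s : ℂ →+* ℂ)) z (minpoly ℚ z)
    rw [minpoly.aeval, map_zero] at h1
    exact h1
  obtain ⟨r, ⟨s₀, hs₀⟩, hr⟩ := Set.exists_max_image (Set.range fun s : ℂ ≃+* ℂ => ‖s z‖) id hfin
    ⟨_, ⟨RingEquiv.refl ℂ, rfl⟩⟩
  refine ⟨s₀, fun s => ?_⟩
  have := hr _ ⟨s, rfl⟩
  rw [← hs₀] at this
  exact this

private theorem Main_log {x y : ℝ} (hx : 0 ≤ x) (hy : 0 ≤ y) (h : x ≤ Real.exp y) : Real.log x ≤ y := by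
  rcases hx.eq_or_lt with rfl | hx
  · rwa [Real.log_zero]
  · exact (Real.log_le_iff_le_exp hx).2 h

private theorem Main_num1 {c₀ C₁ Ct D D' lN lm lH : ℝ} {k : ℕ} (h0 : 1 ≤ c₀) (h1 : 1 ≤ C₁) (ht : 1 ≤ Ct)
    (hD : 1 ≤ D) (hD' : 1 ≤ D') (hDD : D' ≤ c₀ * D) (hN : 1 ≤ lN) (hm : 0 ≤ lm) (hmN : lm ≤ lN)
    (hH : 0 ≤ lH) :
    C₁ * D' * (Ct * (D' * (1 + lm + lH))) ^ k ≤ (2 * C₁ * Ct * c₀ * D * (lN + lH)) ^ (k + 1) := by
  have hb : 1 ≤ C₁ * Ct * c₀ := one_le_mul_of_one_le_of_one_le (one_le_mul_of_one_le_of_one_le h1 ht) h0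
  have e1 : Ct * (D' * (1 + lm + lH)) ≤ 2 * C₁ * Ct * c₀ * D * (lN + lH) := by
    have a1 : 1 + lm + lH ≤ 2 * (lN + lH) := by linarith
    have a2 : D' * (1 + lm + lH) ≤ (c₀ * D) * (2 * (lN + lH)) := mul_le_mul hDD a1 (by linarith) (by positivity)
    have a3 : Ct * (D' * (1 + lm + lH)) ≤ (C₁ * Ct) * ((c₀ * D) * (2 * (lN + lH))) := by
      refine mul_le_mul ?_ a2 (by positivity) (by positivity)
      nlinarith
    calc _ ≤ _ := a3
      _ = _ := by ring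
  have e2 : C₁ * D' ≤ 2 * C₁ * Ct * c₀ * D * (lN + lH) := by
    have a1 : C₁ * D' ≤ C₁ * (c₀ * D) := mul_le_mul_of_nonneg_left hDD (by linarith)
    have a2 : C₁ * (c₀ * D) * 1 ≤ C₁ * (c₀ * D) * (2 * Ct * (lN + lH)) := by
      apply mul_le_mul_of_nonneg_left _ (by positivity)
      nlinarith
    calc _ ≤ _ := a1
      _ = C₁ * (c₀ * D) * 1 := by ring
      _ ≤ _ := a2
      _ = _ := by ring
  have h3 : 0 ≤ Ct * (D' * (1 + lm + lH)) := by positivity
  have h4 : 0 ≤ C₁ * D' := by positivity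
  calc C₁ * D' * (Ct * (D' * (1 + lm + lH))) ^ k
      ≤ (2 * C₁ * Ct * c₀ * D * (lN + lH)) * (2 * C₁ * Ct * c₀ * D * (lN + lH)) ^ k :=
        mul_le_mul e2 (pow_le_pow_left₀ h3 e1 k) (by positivity) (by positivity)
    _ = _ := by ring

private theorem Main_num2 {a C₃ D lN lH : ℝ} {j k : ℕ} (h0 : 1 ≤ a) (h1 : 1 ≤ C₃) (hD : 1 ≤ D) (hN : 1 ≤ lN)
    (hH0 : 0 ≤ lH) (hH : lH ≤ (C₃ * D * lN) ^ j) (hj : 1 ≤ j) :
    (a * D * (lN + lH)) ^ (k + 1) ≤ (2 * a * C₃ * D * lN) ^ ((j + 1) * (k + 1)) := by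
  have hY : 1 ≤ C₃ * D * lN := one_le_mul_of_one_le_of_one_le (one_le_mul_of_one_le_of_one_le h1 hD) hN
  have hlN : lN ≤ (C₃ * D * lN) ^ j := by
    calc lN = 1 * lN := (one_mul _).symm
      _ ≤ C₃ * D * lN := mul_le_mul_of_nonneg_right (one_le_mul_of_one_le_of_one_le h1 hD) (by linarith)
      _ ≤ (C₃ * D * lN) ^ j := le_self_pow₀ hY (by omega)
  have e1 : a * D * (lN + lH) ≤ (2 * a * C₃ * D * lN) ^ (j + 1) := by
    calc a * D * (lN + lH) ≤ a * D * (2 * (C₃ * D * lN) ^ j) :=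
          mul_le_mul_of_nonneg_left (by linarith) (by positivity)
      _ = (2 * a * D) * (C₃ * D * lN) ^ j := by ring
      _ ≤ (2 * a * C₃ * D * lN) * (2 * a * C₃ * D * lN) ^ j := by
          refine mul_le_mul ?_ (pow_le_pow_left₀ (by positivity) ?_ j) (by positivity) (by positivity)
          · calc 2 * a * D = 2 * a * D * 1 := by ring
              _ ≤ 2 * a * D * (C₃ * lN) :=
                mul_le_mul_of_nonneg_left (one_le_mul_of_one_le_of_one_le h1 hN) (by positivity)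
              _ = _ := by ring
          · calc C₃ * D * lN = 1 * (C₃ * D * lN) := (one_mul _).symm
              _ ≤ (2 * a) * (C₃ * D * lN) := mul_le_mul_of_nonneg_right (by linarith) (by positivity)
              _ = _ := by ring
      _ = _ := by ring
  rw [pow_mul]
  exact pow_le_pow_left₀ (by positivity) e1 _

/-- THE PAIR THEOREM: `u = Aa(t) / Ba(t)` has a pole at infinity, `v = Ab(t) / Bb(t)` is not constant and has no pole at infinity or a
different degree; if `v` is not CM and isogenous to `u` then the degree of the isogeny and the heights are polynomially bounded -/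
theorem PA_main {Aa Ba Ab Bb : Polynomial Qb} (ca : IsCoprime Aa Ba) (cb : IsCoprime Ab Bb)
    (hd : Ba.natDegree < Aa.natDegree) (hb : 0 < rdeg Ab Bb)
    (h : Ab.natDegree ≤ Bb.natDegree ∨ rdeg Aa Ba ≠ rdeg Ab Bb) :
    ∃ C : ℕ, 1 ≤ C ∧ ∀ (K : IntermediateField ℚ ℂ) [FiniteDimensional ℚ K] (u v t : ℂ),
      u ∈ K → v ∈ K → t ∈ K → (aeval t Aa : ℂ) = u * aeval t Ba → (aeval t Ba : ℂ) ≠ 0 →
      (aeval t Ab : ℂ) = v * aeval t Bb → (aeval t Bb : ℂ) ≠ 0 → NCM v →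
      (∃ N, 0 < N ∧ IsogDeg N v u) →
        (mdeg v u : ℝ) ≤ (C * Module.finrank ℚ K : ℝ) ^ C ∧
        Bd K ((C * Module.finrank ℚ K : ℝ) ^ C) u ∧ Bd K ((C * Module.finrank ℚ K : ℝ) ^ C) v ∧
        Bd K ((C * Module.finrank ℚ K : ℝ) ^ C) t := by
  classical
  obtain ⟨K₀, hK₀, hS⟩ := fld_fix {Aa, Ba, Ab, Bb}
  obtain ⟨Ct, hCt, htt⟩ := t_bd ca cb hd h
  obtain ⟨Ca, hCa, hxa⟩ := bd_x Aa Ba
  obtain ⟨Cb, hCb, hxb⟩ := bd_x Ab Bb
  obtain ⟨Ce, hCe, hexc⟩ := exc Aa Ba cb hb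
  obtain ⟨C6, hisog⟩ := isog_use
  obtain ⟨c₀, hc₀⟩ : ∃ c₀ : ℕ, c₀ = Module.finrank ℚ K₀ := ⟨_, rfl⟩
  have hc₀1 : (1 : ℝ) ≤ c₀ := by rw [hc₀]; exact_mod_cast Module.finrank_pos
  have hCt1 : (1 : ℝ) ≤ Ct := by exact_mod_cast hCt
  obtain ⟨C₁, hC₁⟩ : ∃ C₁ : ℝ, C₁ = max Ca Cb := ⟨_, rfl⟩
  have hC₁1 : 1 ≤ C₁ := by rw [hC₁]; exact hCa.trans (le_max_left _ _)
  obtain ⟨a, ha⟩ : ∃ a : ℝ, a = 2 * C₁ * Ct * c₀ := ⟨_, rfl⟩
  have ha1 : 1 ≤ a := by
    have : 1 ≤ C₁ * Ct * c₀ := one_le_mul_of_one_le_of_one_le (one_le_mul_of_one_le_of_one_le hC₁1 hCt1) hc₀1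
    rw [ha]; nlinarith
  obtain ⟨C₃, hC₃, hnumH⟩ := num_H a (by linarith) (Ct + 1)
  have hC₃1 : (1 : ℝ) ≤ C₃ := by exact_mod_cast hC₃
  obtain ⟨k, hk⟩ : ∃ k : ℕ, k = (C₃ + 1) * (Ct + 1) := ⟨_, rfl⟩
  have hk1 : 1 ≤ k := by rw [hk]; exact Nat.mul_pos (by omega) (by omega)
  obtain ⟨b, hb'⟩ : ∃ b : ℝ, b = 2 * a * C₃ := ⟨_, rfl⟩
  have hb1 : 1 ≤ b := by
    have : 1 ≤ a * C₃ := one_le_mul_of_one_le_of_one_le ha1 hC₃1
    rw [hb']; nlinarith
  obtain ⟨C₇, hC₇, hnumN⟩ := num_N (3 * b * c₀) (by positivity) (k * C6 + 1)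
  have hC₇1 : (1 : ℝ) ≤ C₇ := by exact_mod_cast hC₇
  obtain ⟨e, he⟩ : ∃ e : ℝ, e = b * C₇ ^ 2 := ⟨_, rfl⟩
  have he1 : 1 ≤ e := by
    rw [he]; exact one_le_mul_of_one_le_of_one_le hb1 (one_le_pow₀ hC₇1)
  refine ⟨⌈Ce⌉₊ + ⌈e⌉₊ + 2 * k + C₇, by omega, ?_⟩
  intro K _ u v t hu hv ht heqa hnea heqb hneb hncm hiso
  have hD1 : (1 : ℝ) ≤ Module.finrank ℚ K := by exact_mod_cast Module.finrank_pos
  obtain ⟨D, hDdef⟩ : ∃ D : ℝ, D = Module.finrank ℚ K := ⟨_, rfl⟩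
  rw [← hDdef] at hD1 ⊢
  set C : ℕ := ⌈Ce⌉₊ + ⌈e⌉₊ + 2 * k + C₇ with hCdef
  have hCr : Ce + e + 2 * k + C₇ ≤ (C : ℝ) := by
    have e1 := Nat.le_ceil Ce
    have e2 := Nat.le_ceil e
    rw [hCdef]; push_cast; linarith
  have hC1 : (1 : ℝ) ≤ C := by
    have : (0 : ℝ) ≤ k := Nat.cast_nonneg k
    linarith
  have hC0 : 1 ≤ C := by exact_mod_cast hC1
  have hCD : 1 ≤ C * D := one_le_mul_of_one_le_of_one_le hC1 hD1
  by_cases hlead : ((Ab.coeff (rdeg Ab Bb) : Qb) : ℂ) = v * ((Bb.coeff (rdeg Ab Bb) : Qb) : ℂ)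
  · obtain ⟨h1, h2, h3, h4⟩ := hexc K u v t hu hv ht heqa hnea heqb hneb hlead
    have hle : Ce ≤ (C * D) ^ C := by
      have : (0 : ℝ) ≤ k := Nat.cast_nonneg k
      calc Ce ≤ C := by linarith
        _ = C * 1 := (mul_one _).symm
        _ ≤ C * D := mul_le_mul_of_nonneg_left hD1 (by linarith)
        _ ≤ (C * D) ^ C := le_self_pow₀ hCD (by omega)
    exact ⟨h1.trans hle, h2.mono hle, h3.mono hle, h4.mono hle⟩
  · -- the main case
    obtain ⟨B, hB⟩ := exists_B hiso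
    have hpar : Par Aa Ba Ab Bb u v t B := ⟨heqa, hnea, heqb, hneb, hncm, hB⟩
    set K' : IntermediateField ℚ ℂ := K ⊔ K₀ with hK'
    have hfd : FiniteDimensional ℚ K' := IntermediateField.finiteDimensional_sup K K₀
    have hKK : K ≤ K' := le_sup_left
    have hcoef : ∀ P ∈ ({Aa, Ba, Ab, Bb} : Finset (Polynomial Qb)), ∀ i, ((P.coeff i : Qb) : ℂ) ∈ K' :=
      fun P hP i => (le_sup_right : K₀ ≤ K ⊔ K₀) (hS P hP i)
    have hrank : (Module.finrank ℚ K' : ℝ) ≤ c₀ * D := by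
      have h5 : Module.finrank ℚ K' ≤ Module.finrank ℚ K * Module.finrank ℚ K₀ :=
        IntermediateField.finrank_sup_le K K₀
      rw [hc₀, hDdef, mul_comm]
      exact_mod_cast h5
    have hD1' : (1 : ℝ) ≤ Module.finrank ℚ K' := by exact_mod_cast Module.finrank_pos
    obtain ⟨D', hD'def⟩ : ∃ D' : ℝ, D' = Module.finrank ℚ K' := ⟨_, rfl⟩
    have hint' : ∀ z ∈ K', IsIntegral ℚ z := by
      intro z hz
      have h1 : IsIntegral ℚ (⟨z, hz⟩ : K') := Algebra.IsIntegral.isIntegral _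
      exact h1.map K'.val
    have huK : u ∈ K' := hKK hu
    have hvK : v ∈ K' := hKK hv
    have htK : t ∈ K' := hKK ht
    obtain ⟨su, hsu⟩ := Main_max (hint' u huK)
    obtain ⟨sv, hsv⟩ := Main_max (hint' v hvK)
    set H : ℝ := max 1 (max (Real.log ‖su u‖) (Real.log ‖sv v‖)) with hHdef
    have hH1 : 1 ≤ H := le_max_left _ _
    have bu : ∀ s : ℂ ≃+* ℂ, ‖s u‖ ≤ Real.exp H := fun s =>
      (hsu s).trans ((Real.le_exp_log _).trans (Real.exp_le_exp.2 ((le_max_left _ _).trans (le_max_right _ _))))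
    have bv : ∀ s : ℂ ≃+* ℂ, ‖s v‖ ≤ Real.exp H := fun s =>
      (hsv s).trans ((Real.le_exp_log _).trans (Real.exp_le_exp.2 ((le_max_right _ _).trans (le_max_right _ _))))
    have hm0 : 0 ≤ Real.log (mdeg v u) := Real.log_natCast_nonneg _
    have hlH0 : 0 ≤ Real.log H := Real.log_nonneg hH1
    obtain ⟨N, hN⟩ : ∃ N : ℝ, N = max 3 (mdeg v u : ℝ) := ⟨_, rfl⟩
    have hN3 : 3 ≤ N := by rw [hN]; exact le_max_left _ _
    have hmN : (mdeg v u : ℝ) ≤ N := by rw [hN]; exact le_max_right _ _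
    have hlN : 1 ≤ Real.log N := by
      rw [Real.le_log_iff_exp_le (by linarith)]
      have := Real.exp_one_lt_d9
      linarith
    have hmlog : Real.log (mdeg v u) ≤ Real.log N := by
      rcases Nat.eq_zero_or_pos (mdeg v u) with h0 | h0
      · rw [h0, Nat.cast_zero, Real.log_zero]
        linarith
      · exact Real.log_le_log (by exact_mod_cast h0) hmN
    have hbt := htt K' u v t B hpar huK hvK htK hcoef hlead H hH1 bu bv
    rw [← hD'def] at hbt hrank hD1'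
    set G : ℝ := (Ct * (D' * (1 + Real.log (mdeg v u) + Real.log H))) ^ Ct with hG
    have hG1 : 1 ≤ G := by
      rw [hG]
      apply one_le_pow₀
      apply one_le_mul_of_one_le_of_one_le hCt1
      apply one_le_mul_of_one_le_of_one_le hD1'
      linarith
    have hCa1 : Ca ≤ C₁ := by rw [hC₁]; exact le_max_left _ _
    have hCb1 : Cb ≤ C₁ := by rw [hC₁]; exact le_max_right _ _
    have hGD : 0 ≤ D' * G := by positivity
    have hbu : Bd K' (C₁ * D' * G) u := by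
      refine (hxa K' u t G (hcoef Aa (by simp)) (hcoef Ba (by simp)) heqa hnea hG1 hbt).mono ?_
      rw [← hD'def, mul_assoc, mul_assoc]
      exact mul_le_mul_of_nonneg_right hCa1 hGD
    have hbv : Bd K' (C₁ * D' * G) v := by
      refine (hxb K' v t G (hcoef Ab (by simp)) (hcoef Bb (by simp)) heqb hneb hG1 hbt).mono ?_
      rw [← hD'def, mul_assoc, mul_assoc]
      exact mul_le_mul_of_nonneg_right hCb1 hGD
    have hCDG1 : 1 ≤ C₁ * D' * G :=
      one_le_mul_of_one_le_of_one_le (one_le_mul_of_one_le_of_one_le hC₁1 hD1') hG1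
    have hHG : H ≤ C₁ * D' * G := by
      refine max_le hCDG1 (max_le ?_ ?_)
      · exact Main_log (norm_nonneg _) (by linarith) (hbu.aut su)
      · exact Main_log (norm_nonneg _) (by linarith) (hbv.aut sv)
    have hX := Main_num1 (k := Ct) hc₀1 hC₁1 hCt1 hD1 hD1' hrank hlN hm0 hmlog hlH0
    rw [← hG, ← ha] at hX
    have hH3 : H ≤ (C₃ * D * Real.log N) ^ C₃ := hnumH D N H hD1 hN3 hH1 (hHG.trans hX)
    have hlHH : Real.log H ≤ (C₃ * D * Real.log N) ^ C₃ := by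
      refine le_trans ?_ hH3
      have := Real.log_le_sub_one_of_pos (x := H) (by linarith)
      linarith
    have hY := Main_num2 (a := a) (k := Ct) ha1 hC₃1 hD1 hlN hlH0 hlHH hC₃
    rw [← hk, ← hb'] at hY
    have hall : C₁ * D' * G ≤ (b * D * Real.log N) ^ k := hX.trans hY
    have hGle : G ≤ C₁ * D' * G := by
      calc G = 1 * G := (one_mul _).symm
        _ ≤ C₁ * D' * G := mul_le_mul_of_nonneg_right (one_le_mul_of_one_le_of_one_le hC₁1 hD1') (by linarith)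
    have hZ1 : 1 ≤ b * D * Real.log N :=
      one_le_mul_of_one_le_of_one_le (one_le_mul_of_one_le_of_one_le hb1 hD1) hlN
    -- the isogeny theorem
    have hZM : b * D * Real.log N ≤ 3 * b * c₀ * D * Real.log N := by
      calc b * D * Real.log N = b * D * Real.log N * 1 := (mul_one _).symm
        _ ≤ b * D * Real.log N * (3 * c₀) := mul_le_mul_of_nonneg_left (by linarith) (by linarith)
        _ = _ := by ring
    have hM3 : 3 ≤ 3 * b * c₀ * D * Real.log N := by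
      calc (3 : ℝ) = 3 * 1 := by ring
        _ ≤ 3 * (b * D * Real.log N * c₀) :=
          mul_le_mul_of_nonneg_left (one_le_mul_of_one_le_of_one_le hZ1 hc₀1) (by norm_num)
        _ = _ := by ring
    obtain ⟨W, hW⟩ : ∃ W : ℝ, W = 3 * b * c₀ * D * Real.log N := ⟨_, rfl⟩
    rw [← hW] at hZM hM3
    have hW1 : 1 ≤ W := by linarith
    have hM2 : 2 ≤ W ^ k := by
      calc (2 : ℝ) ≤ W := by linarith
        _ ≤ W ^ k := le_self_pow₀ hW1 (by omega)
    have hMD : (Module.finrank ℚ K' : ℝ) ≤ W ^ k := by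
      rw [← hD'def]
      calc D' ≤ c₀ * D := hrank
        _ ≤ W := by
          rw [hW]
          have h9 : 1 ≤ b * Real.log N := one_le_mul_of_one_le_of_one_le hb1 hlN
          calc c₀ * D = c₀ * D * 1 := (mul_one _).symm
            _ ≤ c₀ * D * (3 * (b * Real.log N)) := mul_le_mul_of_nonneg_left (by linarith) (by positivity)
            _ = _ := by ring
        _ ≤ W ^ k := le_self_pow₀ hW1 (by omega)
    have hallW : C₁ * D' * G ≤ W ^ k := hall.trans (pow_le_pow_left₀ (by linarith) hZM k)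
    have hncmu : NCM u := by
      obtain ⟨n, hn, hn'⟩ := hiso
      exact NCM.of_isog hn hn' hncm
    have hmd := hisog K' (W ^ k) v u hM2 hMD (hbv.mono hallW) (hbu.mono hallW) hncm hncmu hiso
    rw [← pow_mul] at hmd
    have hNW : N ≤ W ^ (k * C6 + 1) := by
      rw [hN]
      refine max_le ?_ ?_
      · calc (3 : ℝ) ≤ W := hM3
          _ ≤ W ^ (k * C6 + 1) := le_self_pow₀ hW1 (by omega)
      · exact hmd.trans (pow_le_pow_right₀ hW1 (by omega))
    rw [hW] at hNW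
    have hN7 : N ≤ (C₇ * D) ^ C₇ := hnumN D N hD1 hN3 hNW
    have hC7D : 1 ≤ C₇ * D := one_le_mul_of_one_le_of_one_le hC₇1 hD1
    have hlN7 : Real.log N ≤ C₇ ^ 2 * D := by
      calc Real.log N ≤ Real.log ((C₇ * D) ^ C₇) := Real.log_le_log (by linarith) hN7
        _ = C₇ * Real.log (C₇ * D) := by rw [Real.log_pow]
        _ ≤ C₇ * (C₇ * D) := by
            apply mul_le_mul_of_nonneg_left _ (by linarith)
            have := Real.log_le_sub_one_of_pos (x := C₇ * D) (by linarith)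
            linarith
        _ = _ := by ring
    have hfin : C₁ * D' * G ≤ (C * D) ^ C := by
      have h10 : b * D * Real.log N ≤ e * D ^ 2 := by
        calc b * D * Real.log N ≤ b * D * (C₇ ^ 2 * D) := mul_le_mul_of_nonneg_left hlN7 (by positivity)
          _ = e * D ^ 2 := by rw [he]; ring
      have h11 : e * D ^ 2 ≤ (C * D) ^ 2 := by
        have h12 : e ≤ C := by
          have : (0 : ℝ) ≤ k := Nat.cast_nonneg k
          linarith
        calc e * D ^ 2 ≤ (C ^ 2) * D ^ 2 := by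
              apply mul_le_mul_of_nonneg_right _ (by positivity)
              nlinarith
          _ = _ := by ring
      calc C₁ * D' * G ≤ (b * D * Real.log N) ^ k := hall
        _ ≤ ((C * D) ^ 2) ^ k := pow_le_pow_left₀ (by linarith) (h10.trans h11) k
        _ = (C * D) ^ (2 * k) := by rw [← pow_mul]
        _ ≤ (C * D) ^ C := pow_le_pow_right₀ hCD (by omega)
    refine ⟨?_, bd_down (hbu.mono hfin) hu, bd_down (hbv.mono hfin) hv, bd_down (hbt.mono (hGle.trans hfin)) ht⟩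
    calc (mdeg v u : ℝ) ≤ N := hmN
      _ ≤ (C₇ * D) ^ C₇ := hN7
      _ ≤ (C * D) ^ C₇ := by
          apply pow_le_pow_left₀ (by linarith)
          apply mul_le_mul_of_nonneg_right _ (by linarith)
          have : (0 : ℝ) ≤ k := Nat.cast_nonneg k
          linarith
      _ ≤ (C * D) ^ C := pow_le_pow_right₀ hCD (by omega)

end Pool.Agent.LGO.PA
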