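import Mathlib

/-!
# LGO/PA: zero estimate for `Δ`, `E₄ ^ 3`: interpolation and Schwarz lemma

* `ze_interp`: a polynomial of degree at most `K` which is small at `K + 1` separated nodes has small
  coefficients (Lagrange interpolation).
* `ze_schwarz`: a power series on the unit disc with a zero of order `M` at `0`, bounded by `B` on the circle
  of radius `r`, is at most `B (|z| / r) ^ M` in the disc of radius `r`.
-/

namespace Pool.Agent.LGO.PA

open Metric

/-- the coefficients of a product of linear factors -/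
private theorem ze_coeff_prod {ι : Type*} (s : Finset ι) (x : ι → ℂ) (b : ι → ℂ)
    {R δ : ℝ} (hδ : 0 < δ) (hx : ∀ i ∈ s, 1 + ‖x i‖ ≤ R) (hb : ∀ i ∈ s, δ ≤ ‖b i‖) (k : ℕ) :
    ‖(∏ i ∈ s, (Polynomial.C (b i)⁻¹ * (Polynomial.X - Polynomial.C (x i)))).coeff k‖ ≤
      (R / δ) ^ s.card := by
  classical
  induction s using Finset.induction_on generalizing k with
  | empty =>
    rw [Finset.prod_empty, Finset.card_empty, pow_zero, Polynomial.coeff_one]
    split_ifs <;> simp
  | insert i s hi ih =>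
    rw [Finset.prod_insert hi, Finset.card_insert_of_notMem hi, pow_succ]
    have hx' : ∀ j ∈ s, 1 + ‖x j‖ ≤ R := fun j hj => hx j (Finset.mem_insert_of_mem hj)
    have hb' : ∀ j ∈ s, δ ≤ ‖b j‖ := fun j hj => hb j (Finset.mem_insert_of_mem hj)
    have hxi := hx i (Finset.mem_insert_self i s)
    have hbi := hb i (Finset.mem_insert_self i s)
    set Q : Polynomial ℂ := ∏ i ∈ s, (Polynomial.C (b i)⁻¹ * (Polynomial.X - Polynomial.C (x i)))
      with hQ
    have hR : 0 ≤ R := by linarith [norm_nonneg (x i)]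
    have hbi0 : 0 < ‖b i‖ := hδ.trans_le hbi
    have hbinv : ‖(b i)⁻¹‖ ≤ 1 / δ := by
      rw [norm_inv, one_div]
      exact inv_anti₀ hδ hbi
    have hc : (Polynomial.C (b i)⁻¹ * (Polynomial.X - Polynomial.C (x i)) * Q).coeff k =
        (b i)⁻¹ * ((Polynomial.X * Q).coeff k - x i * Q.coeff k) := by
      rw [mul_assoc, Polynomial.coeff_C_mul, sub_mul, Polynomial.coeff_sub, Polynomial.coeff_C_mul]
    rw [hc, norm_mul]
    have h1 : ‖(Polynomial.X * Q).coeff k‖ ≤ (R / δ) ^ s.card := by
      rcases k with _ | k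
      · rw [Polynomial.coeff_X_mul_zero, norm_zero]
        positivity
      · rw [Polynomial.coeff_X_mul]
        exact ih hx' hb' k
    have h2 : ‖x i * Q.coeff k‖ ≤ ‖x i‖ * (R / δ) ^ s.card := by
      rw [norm_mul]
      exact mul_le_mul_of_nonneg_left (ih hx' hb' k) (norm_nonneg _)
    calc ‖(b i)⁻¹‖ * ‖(Polynomial.X * Q).coeff k - x i * Q.coeff k‖
        ≤ 1 / δ * ((R / δ) ^ s.card + ‖x i‖ * (R / δ) ^ s.card) := by
          refine mul_le_mul hbinv ((norm_sub_le _ _).trans (add_le_add h1 h2)) (norm_nonneg _)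
            (by positivity)
      _ = (R / δ) ^ s.card * ((1 + ‖x i‖) / δ) := by ring
      _ ≤ (R / δ) ^ s.card * (R / δ) := by
          refine mul_le_mul_of_nonneg_left ?_ (by positivity)
          exact div_le_div_of_nonneg_right hxi hδ.le

/-- a polynomial which is small at separated nodes has small coefficients -/
theorem ze_interp {K : ℕ} {a : ℕ → ℂ} {x : ℕ → ℂ} {R δ ε : ℝ} (hδ : 0 < δ)
    (hx : ∀ d ≤ K, 1 + ‖x d‖ ≤ R)
    (hsep : ∀ d ≤ K, ∀ e ≤ K, d ≠ e → δ ≤ ‖x d - x e‖)
    (hε : ∀ d ≤ K, ‖∑ k ∈ Finset.range (K + 1), a k * x d ^ k‖ ≤ ε) :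
    ∀ k ≤ K, ‖a k‖ ≤ (K + 1) * ((R / δ) ^ K * ε) := by
  classical
  intro k hk
  set A : Polynomial ℂ := ∑ k ∈ Finset.range (K + 1), Polynomial.monomial k (a k) with hA
  have hAc : A.coeff k = a k := by
    rw [hA, Polynomial.finsetSum_coeff]
    simp only [Polynomial.coeff_monomial]
    rw [Finset.sum_ite_eq' (Finset.range (K + 1)) k, if_pos (Finset.mem_range.2 (by omega))]
  have hAe : ∀ z, A.eval z = ∑ k ∈ Finset.range (K + 1), a k * z ^ k := by
    intro z
    rw [hA, Polynomial.eval_finsetSum]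
    simp only [Polynomial.eval_monomial]
  have hinj : Set.InjOn x (Finset.range (K + 1) : Set ℕ) := by
    intro d hd e he hde
    by_contra hne
    have h1 := hsep d (by simpa [Nat.lt_succ_iff] using hd) e (by simpa [Nat.lt_succ_iff] using he) hne
    rw [hde, sub_self, norm_zero] at h1
    linarith
  have hdeg : A.degree < (Finset.range (K + 1)).card := by
    rw [Finset.card_range]
    refine (Polynomial.degree_sum_le _ _).trans_lt ?_
    rw [Finset.sup_lt_iff (by exact_mod_cast WithBot.bot_lt_coe (K + 1))]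
    intro j hj
    refine (Polynomial.degree_monomial_le _ _).trans_lt ?_
    exact_mod_cast Finset.mem_range.1 hj
  have hL := Lagrange.eq_interpolate hinj hdeg
  have hsum : A = ∑ d ∈ Finset.range (K + 1), Polynomial.C (A.eval (x d)) *
      ∏ e ∈ (Finset.range (K + 1)).erase d,
        (Polynomial.C (x d - x e)⁻¹ * (Polynomial.X - Polynomial.C (x e))) := by
    conv_lhs => rw [hL, Lagrange.interpolate_apply]
    rfl
  rw [← hAc, hsum, Polynomial.finsetSum_coeff]
  refine (norm_sum_le _ _).trans ?_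
  have hterm : ∀ d ∈ Finset.range (K + 1), ‖(Polynomial.C (A.eval (x d)) *
      ∏ e ∈ (Finset.range (K + 1)).erase d,
        (Polynomial.C (x d - x e)⁻¹ * (Polynomial.X - Polynomial.C (x e)))).coeff k‖ ≤
      (R / δ) ^ K * ε := by
    intro d hd
    have hdK : d ≤ K := by simpa [Nat.lt_succ_iff] using hd
    rw [Polynomial.coeff_C_mul, norm_mul, hAe]
    have h1 := ze_coeff_prod ((Finset.range (K + 1)).erase d) x (fun e => x d - x e) hδ
      (R := R) (fun e he => hx e (by
        have := Finset.mem_of_mem_erase he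
        simpa [Nat.lt_succ_iff] using this))
      (fun e he => hsep d hdK e (by
        have := Finset.mem_of_mem_erase he
        simpa [Nat.lt_succ_iff] using this) (Finset.ne_of_mem_erase he).symm) k
    rw [Finset.card_erase_of_mem hd, Finset.card_range, Nat.add_sub_cancel] at h1
    rw [mul_comm]
    exact mul_le_mul h1 (hε d hdK) (norm_nonneg _) ((norm_nonneg _).trans h1)
  refine (Finset.sum_le_card_nsmul _ _ _ hterm).trans ?_
  rw [nsmul_eq_mul, Finset.card_range]
  push_cast
  exact le_rfl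

/-- Schwarz lemma for a power series -/
theorem ze_schwarz {c : ℕ → ℂ} {F : ℂ → ℂ} (hF : ∀ z : ℂ, ‖z‖ < 1 → HasSum (fun n => c n * z ^ n) (F z))
    {M : ℕ} (hM : ∀ n < M, c n = 0) {r B : ℝ} (hr : 0 < r) (hr1 : r < 1)
    (hB : ∀ z : ℂ, ‖z‖ = r → ‖F z‖ ≤ B) {z : ℂ} (hz : ‖z‖ ≤ r) : ‖F z‖ ≤ B * (‖z‖ / r) ^ M := by
  -- the quotient
  have hsum : ∀ z : ℂ, ‖z‖ < 1 → Summable (fun n => c (n + M) * z ^ n) := by
    intro z hz
    rcases eq_or_ne z 0 with rfl | hz0
    · exact (hasSum_single (f := fun n : ℕ => c (n + M) * (0 : ℂ) ^ n) 0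
        (fun n hn => by simp [hn])).summable
    · have h1 := (summable_nat_add_iff M).mpr (hF z hz).summable
      have h2 := h1.mul_left (z ^ M)⁻¹
      refine h2.congr fun n => ?_
      rw [pow_add]
      have h3 : z ^ M ≠ 0 := pow_ne_zero _ hz0
      field_simp
  obtain ⟨G, hG⟩ : ∃ G : ℂ → ℂ, ∀ z : ℂ, ‖z‖ < 1 → HasSum (fun n => c (n + M) * z ^ n) (G z) :=
    ⟨fun z => ∑' n, c (n + M) * z ^ n, fun z hz => (hsum z hz).hasSum⟩
  have hFG : ∀ z : ℂ, ‖z‖ < 1 → F z = z ^ M * G z := by
    intro z hz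
    have h1 := (hG z hz).mul_left (z ^ M)
    have h2 := (hasSum_nat_add_iff' (f := fun n => c n * z ^ n) M).mpr (hF z hz)
    have h3 : ∑ i ∈ Finset.range M, c i * z ^ i = 0 := by
      refine Finset.sum_eq_zero fun i hi => ?_
      rw [hM i (Finset.mem_range.1 hi), zero_mul]
    rw [h3, sub_zero] at h2
    refine h2.unique ?_
    refine h1.congr_fun ?_ |> fun h => h
    intro n
    rw [pow_add]
    ring
  have hGd : DifferentiableOn ℂ G (ball 0 1) := by
    have hps : HasFPowerSeriesOnBall G (FormalMultilinearSeries.ofScalars ℂ fun n => c (n + M)) 0 1 := by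
      refine ⟨?_, by norm_num, ?_⟩
      · refine ENNReal.le_of_forall_nnreal_lt fun ρ hρ => ?_
        have hρ1 : (ρ : ℝ) < 1 := by exact_mod_cast hρ
        refine FormalMultilinearSeries.le_radius_of_summable_norm _ ?_
        have h1 := (hG (ρ : ℂ) (by simpa using hρ1)).summable.norm
        refine h1.congr fun n => ?_
        simp
      · intro y hy
        rw [zero_add]
        have hy1 : ‖y‖ < 1 := by
          rw [Metric.mem_eball, edist_zero_right, ← ofReal_norm] at hy
          have h2 : ENNReal.ofReal ‖y‖ < ENNReal.ofReal 1 := by simpa using hy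
          exact (ENNReal.ofReal_lt_ofReal_iff (by norm_num)).1 h2
        refine (hG y hy1).congr_fun ?_ |> fun h => h
        intro n
        simp [mul_comm]
    have h1 := hps.differentiableOn
    have h2 : Metric.eball (0 : ℂ) 1 = ball 0 1 := by
      rw [← ENNReal.ofReal_one, Metric.eball_ofReal]
    rw [h2] at h1
    exact h1
  have hGb : ‖G z‖ ≤ B / r ^ M := by
    have hcl : DiffContOnCl ℂ G (ball 0 r) := by
      refine (hGd.mono ?_).diffContOnCl_ball (R := r) (U := ball 0 1) ?_ |> fun h => h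
      · exact subset_rfl
      · exact closedBall_subset_ball hr1
    refine Complex.norm_le_of_forall_mem_frontier_norm_le isBounded_ball hcl ?_ ?_
    · intro w hw
      rw [frontier_ball (0 : ℂ) hr.ne', mem_sphere_zero_iff_norm] at hw
      have h1 := hB w hw
      have hw1 : ‖w‖ < 1 := by rw [hw]; exact hr1
      rw [hFG w hw1, norm_mul, norm_pow, hw] at h1
      rw [le_div_iff₀ (pow_pos hr M), mul_comm]
      exact h1
    · rw [closure_ball (0 : ℂ) hr.ne', mem_closedBall_zero_iff]
      exact hz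
  rw [hFG z (hz.trans_lt hr1), norm_mul, norm_pow, div_pow]
  calc ‖z‖ ^ M * ‖G z‖ ≤ ‖z‖ ^ M * (B / r ^ M) :=
        mul_le_mul_of_nonneg_left hGb (by positivity)
    _ = B * (‖z‖ ^ M / r ^ M) := by ring

end Pool.Agent.LGO.PA
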