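import Mathlib
import Pool.Agent.LGO.PA.Defs
import Pool.Agent.LGO.Gal.JInj
import Pool.Agent.Hhelper14.ZP.JFun

/-!
# LGO/PA: zero estimate for `Δ`, `E₄ ^ 3`: the modular forms

* `Cv A F`: the function `F` on the unit disc is the sum of the power series `A` with integral coefficients.
* `ze_growth`: `Δ(z)`, `E₄(z) ^ 3` are at most `K / (1 - |z|) ^ 15`.
* `ze_mod`: the transformation `τ ↦ - 1 / (τ + d)`.
* `ze_data`: points `τ_0, .., τ_L` on the imaginary axis between `i` and `2 i` such that the values of `j` are separated.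
-/

namespace Pool.Agent.LGO.PA

open PowerSeries Pool.Agent.Hhelper14.ZP UpperHalfPlane ModularForm MatrixGroups
  EisensteinSeries Function Finset
open scoped ArithmeticFunction.sigma Manifold

/-- the sum of a power series with integral coefficients -/
def Cv (A : ℤ⟦X⟧) (F : ℂ → ℂ) : Prop :=
  ∀ z : ℂ, ‖z‖ < 1 → HasSum (fun n => ((coeff n A : ℤ) : ℂ) * z ^ n) (F z)

theorem Cv.add {A B : ℤ⟦X⟧} {F G : ℂ → ℂ} (hA : Cv A F) (hB : Cv B G) :
    Cv (A + B) (fun z => F z + G z) := by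
  intro z hz
  refine hasSum_of_eq ((hA z hz).add (hB z hz)) fun n => ?_
  rw [map_add]
  push_cast
  ring

theorem Cv.mul {A B : ℤ⟦X⟧} {F G : ℂ → ℂ} (hA : Cv A F) (hB : Cv B G) :
    Cv (A * B) (fun z => F z * G z) := by
  intro z hz
  have h1 := (hA z hz).summable.norm
  have h2 := (hB z hz).summable.norm
  have h3 := (summable_norm_sum_mul_antidiagonal_of_summable_norm h1 h2).of_norm.hasSum
  rw [← tsum_mul_tsum_eq_tsum_sum_antidiagonal_of_summable_norm h1 h2, (hA z hz).tsum_eq,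
    (hB z hz).tsum_eq] at h3
  refine hasSum_of_eq h3 fun n => ?_
  rw [coeff_mul]
  push_cast
  rw [Finset.sum_mul]
  refine Finset.sum_congr rfl fun kl hkl => ?_
  rw [← Finset.HasAntidiagonal.mem_antidiagonal.mp hkl, pow_add]
  ring

theorem Cv.const (m : ℤ) : Cv (C m) (fun _ => (m : ℂ)) := by
  intro z _
  have h := hasSum_single (f := fun n : ℕ => ((coeff n (C m : ℤ⟦X⟧) : ℤ) : ℂ) * z ^ n) 0
    (fun n hn => by
      have h1 : coeff n (C m : ℤ⟦X⟧) = 0 := by rw [coeff_C, if_neg hn]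
      rw [h1, Int.cast_zero, zero_mul])
  have h2 : coeff 0 (C m : ℤ⟦X⟧) = m := by rw [coeff_C, if_pos rfl]
  rw [h2, pow_zero, mul_one] at h
  exact h

theorem Cv.one : Cv 1 (fun _ => (1 : ℂ)) := by
  have h := Cv.const 1
  rw [map_one] at h
  simpa using h

theorem Cv.pow {A : ℤ⟦X⟧} {F : ℂ → ℂ} (hA : Cv A F) (m : ℕ) : Cv (A ^ m) (fun z => F z ^ m) := by
  induction m with
  | zero => simpa using Cv.one
  | succ m ih =>
    have h := ih.mul hA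
    simpa [pow_succ] using h

theorem Cv.sub {A B : ℤ⟦X⟧} {F G : ℂ → ℂ} (hA : Cv A F) (hB : Cv B G) :
    Cv (A - B) (fun z => F z - G z) := by
  intro z hz
  refine hasSum_of_eq ((hA z hz).sub (hB z hz)) fun n => ?_
  rw [map_sub]
  push_cast
  ring

theorem Cv.sum {ι : Type*} (s : Finset ι) {A : ι → ℤ⟦X⟧} {F : ι → ℂ → ℂ}
    (h : ∀ i ∈ s, Cv (A i) (F i)) : Cv (∑ i ∈ s, A i) (fun z => ∑ i ∈ s, F i z) := by
  classical
  induction s using Finset.induction_on with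
  | empty =>
    have h := Cv.const 0
    rw [map_zero] at h
    simpa using h
  | insert i s hi ih =>
    have h1 := (h i (Finset.mem_insert_self i s)).add (ih fun j hj => h j (Finset.mem_insert_of_mem hj))
    simpa [Finset.sum_insert hi] using h1

theorem cv_sA : Cv sA serA := by
  intro z hz
  refine hasSum_of_eq (hasSum_serA hz) fun n => ?_
  rw [sA, coeff_mk]
  push_cast
  rfl

theorem cv_sB : Cv sB serB := by
  intro z hz
  refine hasSum_of_eq (hasSum_serB hz) fun n => ?_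
  rw [sB, coeff_mk]
  push_cast
  rfl

theorem cv_E4s : Cv E4s (fun z => 1 + 240 * serA z) := by
  have h := Cv.one.add ((Cv.const 240).mul cv_sA)
  simpa [E4s] using h

theorem cv_Ds : Cv Ds serDelta := by
  have h0 : Cv (PowerSeries.mk fun n => (5 * (σ 3 n : ℤ) + 7 * (σ 5 n : ℤ)) / 12)
      (fun z => (5 * serA z + 7 * serB z) / 12) := by
    intro z hz
    have h1 := (((hasSum_serA hz).mul_left 5).add ((hasSum_serB hz).mul_left 7)).div_const 12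
    refine hasSum_of_eq h1 fun n => ?_
    rw [coeff_mk]
    obtain ⟨m, hm⟩ := twelve_dvd n
    have h2 : (5 * (σ 3 n : ℤ) + 7 * (σ 5 n : ℤ)) / 12 = m := by omega
    rw [h2]
    have h3 : (5 * (σ 3 n : ℂ) + 7 * (σ 5 n : ℂ)) = 12 * m := by exact_mod_cast hm
    have h4 : 5 * ((σ 3 n : ℂ) * z ^ n) + 7 * ((σ 5 n : ℂ) * z ^ n) =
        (5 * (σ 3 n : ℂ) + 7 * (σ 5 n : ℂ)) * z ^ n := by ring
    rw [h4, h3]
    ring
  have h := ((h0.add ((Cv.const 100).mul (cv_sA.pow 2))).add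
    ((Cv.const 8000).mul (cv_sA.pow 3))).sub ((Cv.const 147).mul (cv_sB.pow 2))
  intro z hz
  have h1 := h z hz
  have h2 : serDelta z = (5 * serA z + 7 * serB z) / 12 + ((100 : ℤ) : ℂ) * serA z ^ 2 +
      ((8000 : ℤ) : ℂ) * serA z ^ 3 - ((147 : ℤ) : ℂ) * serB z ^ 2 := by
    rw [serDelta]
    push_cast
    ring
  rw [h2]
  exact h1

/-- `n ^ k ≤ k! (n + k choose k)` -/
private theorem ze_pow_le (k n : ℕ) : n ^ k ≤ k.factorial * (n + k).choose k := by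
  rw [← Nat.ascFactorial_eq_factorial_mul_choose]
  exact (Nat.pow_le_pow_left (Nat.le_succ n) k).trans (Nat.pow_succ_le_ascFactorial (n + 1) k)

private theorem ze_sigma {k : ℕ} {F : ℂ → ℂ}
    (hF : ∀ z : ℂ, ‖z‖ < 1 → HasSum (fun n => (σ k n : ℂ) * z ^ n) (F z)) {z : ℂ} (hz : ‖z‖ < 1) :
    ‖F z‖ ≤ ((k + 1).factorial : ℝ) * (1 / (1 - ‖z‖) ^ (k + 2)) := by
  have h1 := (hF z hz)
  have hn : ‖(‖z‖ : ℝ)‖ < 1 := by rwa [norm_norm]
  have h2 := (hasSum_choose_mul_geometric_of_norm_lt_one' (k + 1) hn).mul_left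
    ((k + 1).factorial : ℝ)
  rw [Ring.inverse_eq_inv', ← one_div] at h2
  have h0 : ((k + 1).factorial : ℝ) * (1 / (1 - ‖z‖) ^ (k + 2)) =
      ((k + 1).factorial : ℝ) * (1 / (1 - ‖z‖)) ^ (k + 1 + 1) := by
    rw [one_div, one_div, inv_pow]
  rw [h0, ← h1.tsum_eq, ← h2.tsum_eq]
  refine (norm_tsum_le_tsum_norm h1.summable.norm).trans ?_
  refine Summable.tsum_le_tsum (fun n => ?_) h1.summable.norm h2.summable
  rw [norm_mul, norm_pow, Complex.norm_natCast, ← mul_assoc]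
  refine mul_le_mul_of_nonneg_right ?_ (by positivity)
  have h3 : σ k n ≤ n ^ (k + 1) := ArithmeticFunction.sigma_le_pow_succ k n
  have h4 := ze_pow_le (k + 1) n
  exact_mod_cast h3.trans h4

/-- the growth near the boundary of the disc -/
theorem ze_growth : ∃ K : ℝ, 1 ≤ K ∧ ∀ z : ℂ, ‖z‖ < 1 →
    ‖serDelta z‖ ≤ K * (1 / (1 - ‖z‖)) ^ 15 ∧ ‖(1 + 240 * serA z) ^ 3‖ ≤ K * (1 / (1 - ‖z‖)) ^ 15 := by
  refine ⟨10 ^ 12, by norm_num, fun z hz => ?_⟩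
  have hA := ze_sigma (fun z hz => hasSum_serA hz) hz
  have hB := ze_sigma (fun z hz => hasSum_serB hz) hz
  obtain ⟨u, hu⟩ : ∃ u : ℝ, u = 1 / (1 - ‖z‖) := ⟨_, rfl⟩
  have hz0 : 0 < 1 - ‖z‖ := by linarith
  have hu1 : 1 ≤ u := by
    rw [hu, le_div_iff₀ hz0]
    linarith [norm_nonneg z]
  have hA' : ‖serA z‖ ≤ 24 * u ^ 5 := by
    rw [hu, one_div, inv_pow, ← one_div]
    refine hA.trans (le_of_eq ?_)
    norm_num [Nat.factorial]
  have hB' : ‖serB z‖ ≤ 720 * u ^ 7 := by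
    rw [hu, one_div, inv_pow, ← one_div]
    refine hB.trans (le_of_eq ?_)
    norm_num [Nat.factorial]
  rw [← hu]
  have hp : ∀ n ≤ 15, u ^ n ≤ u ^ 15 := fun n hn => pow_le_pow_right₀ hu1 hn
  have u0 : 0 ≤ u := by linarith
  obtain ⟨A, hA0⟩ : ∃ A : ℝ, A = ‖serA z‖ := ⟨_, rfl⟩
  obtain ⟨B, hB0⟩ : ∃ B : ℝ, B = ‖serB z‖ := ⟨_, rfl⟩
  have hAn : 0 ≤ A := by rw [hA0]; exact norm_nonneg _
  have hBn : 0 ≤ B := by rw [hB0]; exact norm_nonneg _
  rw [← hA0] at hA'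
  rw [← hB0] at hB'
  have a1 : A ≤ 24 * u ^ 15 := hA'.trans (by have := hp 5 (by norm_num); linarith)
  have b1 : B ≤ 720 * u ^ 15 := hB'.trans (by have := hp 7 (by norm_num); linarith)
  have a2 : A ^ 2 ≤ 576 * u ^ 15 := by
    have h := pow_le_pow_left₀ hAn hA' 2
    have h2 : (24 * u ^ 5) ^ 2 = 576 * u ^ 10 := by ring
    have := hp 10 (by norm_num)
    linarith
  have a3 : A ^ 3 ≤ 13824 * u ^ 15 := by
    have h := pow_le_pow_left₀ hAn hA' 3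
    have h2 : (24 * u ^ 5) ^ 3 = 13824 * u ^ 15 := by ring
    linarith
  have b2 : B ^ 2 ≤ 518400 * u ^ 15 := by
    have h := pow_le_pow_left₀ hBn hB' 2
    have h2 : (720 * u ^ 7) ^ 2 = 518400 * u ^ 14 := by ring
    have := hp 14 (by norm_num)
    linarith
  have one15 : 1 ≤ u ^ 15 := one_le_pow₀ hu1
  constructor
  · have h1 : ‖serDelta z‖ ≤ (5 * A + 7 * B) / 12 + 100 * A ^ 2 + 8000 * A ^ 3 + 147 * B ^ 2 := by
      rw [serDelta, hA0, hB0]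
      refine (norm_sub_le _ _).trans (add_le_add ((norm_add_le _ _).trans (add_le_add
        ((norm_add_le _ _).trans (add_le_add ?_ ?_)) ?_)) ?_)
      · rw [norm_div]
        have : ‖(12 : ℂ)‖ = 12 := by norm_num
        rw [this]
        refine div_le_div_of_nonneg_right ((norm_add_le _ _).trans (add_le_add ?_ ?_)) (by norm_num)
        · rw [norm_mul]; norm_num
        · rw [norm_mul]; norm_num
      · rw [norm_mul, norm_pow]; norm_num
      · rw [norm_mul, norm_pow]; norm_num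
      · rw [norm_mul, norm_pow]; norm_num
    refine h1.trans ?_
    norm_num
    linarith
  · have h1 : ‖1 + 240 * serA z‖ ≤ 1 + 240 * A := by
      rw [hA0]
      refine (norm_add_le _ _).trans (add_le_add ?_ ?_)
      · rw [norm_one]
      · rw [norm_mul]; norm_num
    rw [norm_pow]
    have h2 : 1 + 240 * A ≤ 5761 * u ^ 5 := by
      have : 1 ≤ u ^ 5 := one_le_pow₀ hu1
      linarith
    calc ‖1 + 240 * serA z‖ ^ 3 ≤ (5761 * u ^ 5) ^ 3 :=
          pow_le_pow_left₀ (norm_nonneg _) (h1.trans h2) 3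
      _ = 5761 ^ 3 * u ^ 15 := by ring
      _ ≤ 10 ^ 12 * u ^ 15 := by
          refine mul_le_mul_of_nonneg_right ?_ (by positivity)
          norm_num

/-- the transformation `τ ↦ - 1 / (τ + d)` -/
theorem ze_mod (d : ℕ) (τ : ℍ) : ∃ τ' : ℍ, E₄ τ' = ((τ : ℂ) + d) ^ 4 * E₄ τ ∧
    discriminant τ' = ((τ : ℂ) + d) ^ 12 * discriminant τ ∧
    τ'.im = τ.im / Complex.normSq ((τ : ℂ) + d) := by
  obtain ⟨γ, hγ⟩ : ∃ γ : SL(2, ℤ), γ.1 = !![0, -1; 1, (d : ℤ)] :=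
    ⟨⟨!![0, -1; 1, (d : ℤ)], by rw [Matrix.det_fin_two_of]; ring⟩, rfl⟩
  have hden : denom (γ : GL (Fin 2) ℝ) τ = (τ : ℂ) + d := by
    rw [ModularGroup.denom_apply, hγ]
    simp
  refine ⟨γ • τ, ?_, ?_, ?_⟩
  · rw [E4_smul, hden]
    norm_cast
  · rw [disc_smul, hden]
    norm_cast
  · rw [ModularGroup.im_smul_eq_div_normSq, hden]

/-- the points of the imaginary axis -/
private noncomputable def ze_pt (y : ℝ) : ℍ :=
  ⟨Complex.I * ((max y 1 : ℝ) : ℂ), by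
    simp⟩

private theorem ze_pt_coe {y : ℝ} (hy : 1 ≤ y) : (ze_pt y : ℂ) = Complex.I * (y : ℂ) := by
  change Complex.I * ((max y 1 : ℝ) : ℂ) = _
  rw [max_eq_left hy]

private theorem ze_pt_cont : Continuous ze_pt := by
  rw [UpperHalfPlane.isEmbedding_coe.continuous_iff]
  have h : ((fun τ : ℍ => (τ : ℂ)) ∘ ze_pt) = fun y : ℝ => Complex.I * ((max y 1 : ℝ) : ℂ) := rfl
  have h2 : Continuous fun y : ℝ => Complex.I * ((max y 1 : ℝ) : ℂ) := by fun_prop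
  exact h ▸ h2

private theorem ze_pt_im {y : ℝ} (hy : 1 ≤ y) : (ze_pt y).im = y := by
  rw [← UpperHalfPlane.coe_im, ze_pt_coe hy]
  simp

private theorem ze_ne : jInv (ze_pt 2) ≠ jInv (ze_pt 1) := by
  intro h
  obtain ⟨γ, hγ⟩ := Gal.j_inj h
  have h1 : (ze_pt 2).im = (ze_pt 1).im / Complex.normSq (denom γ (ze_pt 1)) := by
    rw [hγ, ModularGroup.im_smul_eq_div_normSq]
  rw [ze_pt_im (by norm_num), ze_pt_im le_rfl, ModularGroup.denom_apply, ze_pt_coe le_rfl] at h1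
  have h2 : Complex.normSq ((γ.1 1 0 : ℂ) * (Complex.I * ((1 : ℝ) : ℂ)) + (γ.1 1 1 : ℂ)) =
      ((γ.1 1 0 ^ 2 + γ.1 1 1 ^ 2 : ℤ) : ℝ) := by
    rw [Complex.normSq_apply]
    push_cast
    simp
    ring
  rw [h2] at h1
  have h3 : (0 : ℝ) < ((γ.1 1 0 ^ 2 + γ.1 1 1 ^ 2 : ℤ) : ℝ) := by
    by_contra hcon
    push Not at hcon
    have h4 : (1 : ℝ) / ((γ.1 1 0 ^ 2 + γ.1 1 1 ^ 2 : ℤ) : ℝ) ≤ 0 :=
      div_nonpos_of_nonneg_of_nonpos zero_le_one hcon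
    linarith
  have h4 : (1 : ℤ) ≤ γ.1 1 0 ^ 2 + γ.1 1 1 ^ 2 := by
    have : (0 : ℤ) < γ.1 1 0 ^ 2 + γ.1 1 1 ^ 2 := by exact_mod_cast h3
    omega
  have h5 : (1 : ℝ) ≤ ((γ.1 1 0 ^ 2 + γ.1 1 1 ^ 2 : ℤ) : ℝ) := by exact_mod_cast h4
  have h6 : (1 : ℝ) / ((γ.1 1 0 ^ 2 + γ.1 1 1 ^ 2 : ℤ) : ℝ) ≤ 1 := by
    rw [div_le_one h3]
    exact h5
  linarith

/-- points of the imaginary axis with separated values of `j` -/
theorem ze_data : ∃ c R δ : ℝ, 0 < c ∧ c ≤ 1 ∧ 0 < δ ∧ δ ≤ 1 ∧ 1 ≤ R ∧ ∀ L : ℕ, ∃ τ : ℕ → ℍ,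
    (∀ l ≤ L, (∃ y : ℝ, 1 ≤ y ∧ y ≤ 2 ∧ (τ l : ℂ) = Complex.I * (y : ℂ)) ∧
      c ≤ ‖discriminant (τ l)‖ ∧ 1 + ‖jInv (τ l)‖ ≤ R) ∧
    ∀ l ≤ L, ∀ m ≤ L, l ≠ m → δ / (L + 1) ≤ ‖jInv (τ l) - jInv (τ m)‖ := by
  have hjc : Continuous fun y : ℝ => jInv (ze_pt y) := jInv_mdiff.continuous.comp ze_pt_cont
  have hdc : Continuous fun y : ℝ => discriminant (ze_pt y) := by
    have h2 : MDiff (discriminant : ℍ → ℂ) := CuspForm.discriminant.holo'
    exact h2.continuous.comp ze_pt_cont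
  have hK : IsCompact (Set.Icc (1 : ℝ) 2) := isCompact_Icc
  obtain ⟨y₁, hy₁, hmin⟩ := hK.exists_isMinOn ⟨1, by simp⟩ hdc.norm.continuousOn
  obtain ⟨y₂, hy₂, hmax⟩ := hK.exists_isMaxOn ⟨1, by simp⟩ hjc.norm.continuousOn
  obtain ⟨w, hw⟩ : ∃ w : ℂ, w = jInv (ze_pt 2) - jInv (ze_pt 1) := ⟨_, rfl⟩
  have hw0 : w ≠ 0 := by rw [hw]; exact sub_ne_zero.2 ze_ne
  have hwn : 0 < ‖w‖ := norm_pos_iff.2 hw0
  have hc0 : 0 < ‖discriminant (ze_pt y₁)‖ := norm_pos_iff.2 (discriminant_ne_zero _)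
  refine ⟨min ‖discriminant (ze_pt y₁)‖ 1, 1 + ‖jInv (ze_pt y₂)‖, min ‖w‖ 1,
    lt_min hc0 one_pos, min_le_right _ _, lt_min hwn one_pos, min_le_right _ _,
    by linarith [norm_nonneg (jInv (ze_pt y₂))], fun L => ?_⟩
  -- the projection
  obtain ⟨u, hu⟩ : ∃ u : ℝ → ℝ, ∀ y, u y =
      ((jInv (ze_pt y) - jInv (ze_pt 1)) * (starRingEnd ℂ) w).re / ‖w‖ :=
    ⟨_, fun _ => rfl⟩
  have huc : Continuous u := by
    have h1 : u = fun y => ((jInv (ze_pt y) - jInv (ze_pt 1)) * (starRingEnd ℂ) w).re / ‖w‖ :=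
      funext hu
    rw [h1]
    exact (Complex.continuous_re.comp ((hjc.sub continuous_const).mul continuous_const)).div_const _
  have hu1 : u 1 = 0 := by rw [hu]; simp
  have hu2 : u 2 = ‖w‖ := by
    rw [hu, ← hw, Complex.mul_conj, Complex.ofReal_re, Complex.normSq_eq_norm_sq]
    field_simp
  have hlip : ∀ y y', |u y - u y'| ≤ ‖jInv (ze_pt y) - jInv (ze_pt y')‖ := by
    intro y y'
    have h1 : u y - u y' =
        ((jInv (ze_pt y) - jInv (ze_pt y')) * (starRingEnd ℂ) w).re / ‖w‖ := by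
      rw [hu, hu, ← sub_div, ← Complex.sub_re]
      congr 2
      ring
    rw [h1, abs_div, abs_of_pos hwn, div_le_iff₀ hwn]
    refine (Complex.abs_re_le_norm _).trans ?_
    rw [norm_mul, Complex.norm_conj]
  have hL : (0 : ℝ) < (L : ℝ) + 1 := by positivity
  have hex : ∀ l : ℕ, ∃ y : ℝ, l ≤ L → 1 ≤ y ∧ y ≤ 2 ∧ u y = l * (‖w‖ / (L + 1)) := by
    intro l
    by_cases hl : l ≤ L
    · have h1 : (l : ℝ) * (‖w‖ / (L + 1)) ∈ Set.Icc (u 1) (u 2) := by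
        rw [hu1, hu2]
        refine ⟨by positivity, ?_⟩
        have h2 : (l : ℝ) ≤ L := by exact_mod_cast hl
        rw [mul_div_assoc', div_le_iff₀ hL]
        nlinarith
      obtain ⟨y, hy, hyu⟩ := intermediate_value_Icc (by norm_num : (1 : ℝ) ≤ 2) huc.continuousOn h1
      exact ⟨y, fun _ => ⟨hy.1, hy.2, hyu⟩⟩
    · exact ⟨1, fun h => absurd h hl⟩
  choose y hy using hex
  refine ⟨fun l => ze_pt (y l), fun l hl => ?_, fun l hl m hm hlm => ?_⟩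
  · obtain ⟨h1, h2, -⟩ := hy l hl
    refine ⟨⟨y l, h1, h2, ze_pt_coe h1⟩, (min_le_left _ _).trans ?_, ?_⟩
    · exact hmin ⟨h1, h2⟩
    · have h3 : ‖jInv (ze_pt (y l))‖ ≤ ‖jInv (ze_pt y₂)‖ :=
        hmax (show y l ∈ Set.Icc (1 : ℝ) 2 from ⟨h1, h2⟩)
      exact add_le_add le_rfl h3
  · obtain ⟨-, -, h1⟩ := hy l hl
    obtain ⟨-, -, h2⟩ := hy m hm
    refine le_trans ?_ (hlip (y l) (y m))
    rw [h1, h2, ← sub_mul, abs_mul, abs_of_nonneg (by positivity : 0 ≤ ‖w‖ / ((L : ℝ) + 1))]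
    have h3 : (1 : ℝ) ≤ |(l : ℝ) - m| := by
      have h4 : (1 : ℤ) ≤ |(l : ℤ) - m| := Int.one_le_abs (by omega)
      exact_mod_cast h4
    have h5 : min ‖w‖ 1 / ((L : ℝ) + 1) ≤ ‖w‖ / (L + 1) :=
      div_le_div_of_nonneg_right (min_le_left _ _) hL.le
    have h6 : 0 ≤ ‖w‖ / ((L : ℝ) + 1) := by positivity
    nlinarith

end Pool.Agent.LGO.PA
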