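import Mathlib
import Pool.Agent.LGO.PA.ZeA
import Pool.Agent.LGO.PA.ZeB

/-!
# LGO/PA: zero estimate for `Δ`, `E₄ ^ 3`

`zest`: a non zero polynomial of degree at most `L` in each variable has, at `(Δ(z), E₄(z) ^ 3)`, a zero of order
at most `C (L + 1) ^ 4` at `z = 0`.

PROOF.  `F = ∑ a_ij Δ ^ i E₄ ^ (3 j) = ∑_(k ≤ 2 L) G_k`, `G_k` modular of weight `12 k`, `A = max |a_ij|`, `λ = L + 1`.  If the
order is at least `M`: `ze_schwarz` with `r = 1 - 1 / M` and `ze_growth`.  For `τ = i y`, `1 ≤ y ≤ 2`, `d ≤ 2 L` the value of `F` at the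
point `q(- 1 / (τ + d))` is `∑_k (τ + d) ^ (12 k) G_k(τ)`, and `Im (- 1 / (τ + d)) ≥ 1 / (4 λ ^ 2)`, so it is at most
`λ ^ 2 A (K M ^ 15) ^ (2 L) exp (2 - M / λ ^ 2)`.  `ze_interp` gives a bound for `G_k(τ) = Δ ^ k ∑_j a_(k-j, j) j(τ) ^ j`, and `ze_interp` for
the `L + 1` points of `ze_data` gives a bound for the `a_ij`, so `1 ≤ (C λ ^ 25 M ^ 30) ^ λ exp (- M / λ ^ 2)`.
-/

namespace Pool.Agent.LGO.PA

open PowerSeries Pool.Agent.Hhelper14.ZP UpperHalfPlane ModularForm MatrixGroups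
  EisensteinSeries Function Finset

/-- the function `F` -/
private noncomputable def zeF (L : ℕ) (a : ℕ → ℕ → ℤ) (x y : ℂ) : ℂ :=
  ∑ i ∈ range (L + 1), ∑ j ∈ range (L + 1), (a i j : ℂ) * (x ^ i * y ^ j)

private theorem zeF_cv (L : ℕ) (a : ℕ → ℕ → ℤ) :
    Cv (∑ i ∈ range (L + 1), ∑ j ∈ range (L + 1), C (a i j) * (Ds ^ i * (E4s ^ 3) ^ j))
      (fun z => zeF L a (serDelta z) ((1 + 240 * serA z) ^ 3)) :=
  Cv.sum _ fun i _ => Cv.sum _ fun j _ =>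
    (Cv.const (a i j)).mul ((cv_Ds.pow i).mul ((cv_E4s.pow 3).pow j))

private theorem zeF_le {L : ℕ} {a : ℕ → ℕ → ℤ} {A W : ℝ} (hA : ∀ i ≤ L, ∀ j ≤ L, |(a i j : ℝ)| ≤ A)
    (hW : 1 ≤ W) {x y : ℂ} (hx : ‖x‖ ≤ W) (hy : ‖y‖ ≤ W) :
    ‖zeF L a x y‖ ≤ ((L : ℝ) + 1) ^ 2 * (A * W ^ (2 * L)) := by
  have hA0 : 0 ≤ A := (abs_nonneg _).trans (hA 0 (Nat.zero_le _) 0 (Nat.zero_le _))
  rw [zeF]
  refine (norm_sum_le _ _).trans ?_
  have h1 : ∀ i ∈ range (L + 1), ‖∑ j ∈ range (L + 1), (a i j : ℂ) * (x ^ i * y ^ j)‖ ≤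
      ((L : ℝ) + 1) * (A * W ^ (2 * L)) := by
    intro i hi
    have hi' : i ≤ L := Nat.lt_succ_iff.1 (mem_range.1 hi)
    refine (norm_sum_le _ _).trans ?_
    refine (Finset.sum_le_card_nsmul _ _ (A * W ^ (2 * L)) fun j hj => ?_).trans ?_
    · have hj' : j ≤ L := Nat.lt_succ_iff.1 (mem_range.1 hj)
      rw [norm_mul, norm_mul, norm_pow, norm_pow, Complex.norm_intCast]
      refine mul_le_mul (hA i hi' j hj') ?_ (by positivity) hA0
      calc ‖x‖ ^ i * ‖y‖ ^ j ≤ W ^ i * W ^ j :=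
            mul_le_mul (pow_le_pow_left₀ (norm_nonneg _) hx _)
              (pow_le_pow_left₀ (norm_nonneg _) hy _) (by positivity) (by positivity)
        _ = W ^ (i + j) := (pow_add _ _ _).symm
        _ ≤ W ^ (2 * L) := pow_le_pow_right₀ hW (by omega)
    · rw [nsmul_eq_mul, card_range]
      push_cast
      exact le_rfl
  refine (Finset.sum_le_card_nsmul _ _ _ h1).trans (le_of_eq ?_)
  rw [nsmul_eq_mul, card_range]
  push_cast
  ring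

/-- the homogeneous parts -/
private noncomputable def zeG (L : ℕ) (a : ℕ → ℕ → ℤ) (x y : ℂ) (k : ℕ) : ℂ :=
  ∑ i ∈ range (L + 1), ∑ j ∈ range (L + 1), if i + j = k then (a i j : ℂ) * (x ^ i * y ^ j) else 0

private theorem zeG_sum (L : ℕ) (a : ℕ → ℕ → ℤ) (x y X : ℂ) :
    ∑ k ∈ range (2 * L + 1), zeG L a x y k * X ^ k = zeF L a (X * x) (X * y) := by
  simp only [zeG, zeF, Finset.sum_mul]
  rw [Finset.sum_comm]
  refine Finset.sum_congr rfl fun i hi => ?_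
  rw [Finset.sum_comm]
  refine Finset.sum_congr rfl fun j hj => ?_
  have hi' := mem_range.1 hi
  have hj' := mem_range.1 hj
  rw [Finset.sum_eq_single (i + j)]
  · rw [if_pos rfl, mul_pow, mul_pow, pow_add]
    ring
  · intro k _ hk
    rw [if_neg (Ne.symm hk), zero_mul]
  · intro h
    exact absurd (mem_range.2 (by omega)) h

private theorem zeG_eq (L : ℕ) (a : ℕ → ℕ → ℤ) (x w : ℂ) (k : ℕ) :
    zeG L a x (w * x) k = x ^ k * ∑ j ∈ range (L + 1),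
      (if j ≤ k ∧ k - j ≤ L then (a (k - j) j : ℂ) else 0) * w ^ j := by
  rw [zeG, Finset.sum_comm, Finset.mul_sum]
  refine Finset.sum_congr rfl fun j hj => ?_
  by_cases h : j ≤ k ∧ k - j ≤ L
  · rw [if_pos h, Finset.sum_eq_single (k - j)]
    · rw [if_pos (by omega), mul_pow]
      have h1 : x ^ k = x ^ (k - j) * x ^ j := by rw [← pow_add]; congr 1; omega
      rw [h1]
      ring
    · intro i _ hi
      rw [if_neg (by omega)]
    · intro h2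
      exact absurd (mem_range.2 (by omega)) h2
  · rw [if_neg h, zero_mul, mul_zero]
    refine Finset.sum_eq_zero fun i hi => ?_
    rw [if_neg]
    intro h1
    apply h
    have := mem_range.1 hi
    omega

private theorem ze_mul_eq (τ : ℍ) : E₄ τ ^ 3 = jInv τ * discriminant τ := by
  rw [jInv, div_mul_cancel₀ _ (discriminant_ne_zero τ)]

/-- the nodes `(i y + d) ^ 12` -/
private theorem ze_nodes {y : ℝ} (hy1 : 1 ≤ y) (hy2 : y ≤ 2) (L d : ℕ) (hd : d ≤ 2 * L) :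
    1 + ‖(Complex.I * (y : ℂ) + d) ^ 12‖ ≤ 8192 * ((L : ℝ) + 1) ^ 12 := by
  have h1 : Complex.normSq (Complex.I * (y : ℂ) + d) = y ^ 2 + (d : ℝ) ^ 2 := by
    rw [Complex.normSq_apply]
    simp
    ring
  have h2 : ‖(Complex.I * (y : ℂ) + d) ^ 12‖ = (y ^ 2 + (d : ℝ) ^ 2) ^ 6 := by
    rw [norm_pow, ← h1, Complex.normSq_eq_norm_sq]
    ring
  have hd' : (d : ℝ) ≤ 2 * L := by exact_mod_cast hd
  have hL : (0 : ℝ) ≤ L := Nat.cast_nonneg _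
  have h3 : y ^ 2 + (d : ℝ) ^ 2 ≤ 4 * ((L : ℝ) + 1) ^ 2 := by
    have : (0 : ℝ) ≤ d := Nat.cast_nonneg _
    nlinarith
  rw [h2]
  have h4 : (y ^ 2 + (d : ℝ) ^ 2) ^ 6 ≤ (4 * ((L : ℝ) + 1) ^ 2) ^ 6 :=
    pow_le_pow_left₀ (by positivity) h3 6
  have h5 : (4 * ((L : ℝ) + 1) ^ 2) ^ 6 = 4096 * ((L : ℝ) + 1) ^ 12 := by ring
  have h6 : 1 ≤ ((L : ℝ) + 1) ^ 12 := one_le_pow₀ (by linarith)
  linarith

private theorem ze_sep {y : ℝ} (hy1 : 1 ≤ y) {d e : ℕ} (hde : d ≠ e) :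
    1 ≤ ‖(Complex.I * (y : ℂ) + d) ^ 12 - (Complex.I * (y : ℂ) + e) ^ 12‖ := by
  have h1 : ∀ d : ℕ, ‖(Complex.I * (y : ℂ) + d) ^ 12‖ = (y ^ 2 + (d : ℝ) ^ 2) ^ 6 := by
    intro d
    have h1 : Complex.normSq (Complex.I * (y : ℂ) + d) = y ^ 2 + (d : ℝ) ^ 2 := by
      rw [Complex.normSq_apply]
      simp
      ring
    rw [norm_pow, ← h1, Complex.normSq_eq_norm_sq]
    ring
  have key : ∀ {d e : ℕ}, d < e →
      1 ≤ ‖(Complex.I * (y : ℂ) + e) ^ 12‖ - ‖(Complex.I * (y : ℂ) + d) ^ 12‖ := by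
    intro d e h
    rw [h1, h1]
    obtain ⟨u, hu⟩ : ∃ u : ℝ, u = y ^ 2 + (d : ℝ) ^ 2 := ⟨_, rfl⟩
    obtain ⟨v, hv⟩ : ∃ v : ℝ, v = y ^ 2 + (e : ℝ) ^ 2 := ⟨_, rfl⟩
    rw [← hu, ← hv]
    have hd0 : (0 : ℝ) ≤ d := Nat.cast_nonneg _
    have he : (d : ℝ) + 1 ≤ e := by exact_mod_cast h
    have hu1 : 1 ≤ u := by rw [hu]; nlinarith
    have huv : u + 1 ≤ v := by rw [hu, hv]; nlinarith
    have h2 : (u + 1) ^ 6 ≤ v ^ 6 := pow_le_pow_left₀ (by linarith) huv 6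
    have h3 : u ^ 6 + 1 ≤ (u + 1) ^ 6 := by
      have e1 : (u + 1) ^ 6 = u ^ 6 + 1 + (6 * u ^ 5 + 15 * u ^ 4 + 20 * u ^ 3 + 15 * u ^ 2 + 6 * u) := by
        ring
      have e2 : 0 ≤ 6 * u ^ 5 + 15 * u ^ 4 + 20 * u ^ 3 + 15 * u ^ 2 + 6 * u := by positivity
      linarith
    linarith
  rcases lt_or_gt_of_ne hde with h | h
  · rw [norm_sub_rev]
    exact (key h).trans (norm_sub_norm_le _ _)
  · exact (key h).trans (norm_sub_norm_le _ _)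

/-- `(1 - 1 / M) ^ (-M) ≤ e ^ 2` -/
private theorem ze_r {M : ℕ} (hM : 2 ≤ M) : (1 / (1 - 1 / (M : ℝ))) ^ M ≤ Real.exp 2 := by
  have hM' : (2 : ℝ) ≤ M := by exact_mod_cast hM
  have h1 : 1 / (1 - 1 / (M : ℝ)) = 1 + 1 / ((M : ℝ) - 1) := by
    have : (M : ℝ) - 1 ≠ 0 := by linarith
    have h0 : (M : ℝ) ≠ 0 := by linarith
    have h2 : (1 - 1 / (M : ℝ)) = ((M : ℝ) - 1) / M := by field_simp
    rw [h2]
    field_simp
    ring
  have h2 : 1 + 1 / ((M : ℝ) - 1) ≤ Real.exp (1 / ((M : ℝ) - 1)) := by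
    have := Real.add_one_le_exp (1 / ((M : ℝ) - 1))
    linarith
  rw [h1]
  have h0 : (0 : ℝ) < (M : ℝ) - 1 := by linarith
  calc (1 + 1 / ((M : ℝ) - 1)) ^ M ≤ Real.exp (1 / ((M : ℝ) - 1)) ^ M :=
        pow_le_pow_left₀ (by positivity) h2 M
    _ = Real.exp (M * (1 / ((M : ℝ) - 1))) := (Real.exp_nat_mul _ _).symm
    _ ≤ Real.exp 2 := by
        refine Real.exp_le_exp.2 ?_
        rw [mul_one_div, div_le_iff₀ h0]
        linarith

/-- the values of `F` near the boundary of the disc -/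
private theorem ze_small {K : ℝ} (hK : 1 ≤ K) (hgr : ∀ z : ℂ, ‖z‖ < 1 →
    ‖serDelta z‖ ≤ K * (1 / (1 - ‖z‖)) ^ 15 ∧ ‖(1 + 240 * serA z) ^ 3‖ ≤ K * (1 / (1 - ‖z‖)) ^ 15)
    {L M : ℕ} (hM : 2 * (L + 1) ^ 2 ≤ M) {a : ℕ → ℕ → ℤ} {A : ℝ}
    (hA : ∀ i ≤ L, ∀ j ≤ L, |(a i j : ℝ)| ≤ A)
    (h0 : ∀ n < M, coeff n (∑ i ∈ range (L + 1), ∑ j ∈ range (L + 1),
      C (a i j) * (Ds ^ i * (E4s ^ 3) ^ j)) = 0) {z : ℂ}
    (hz : ‖z‖ ≤ Real.exp (-(1 / ((L : ℝ) + 1) ^ 2))) :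
    ‖zeF L a (serDelta z) ((1 + 240 * serA z) ^ 3)‖ ≤
      (((L : ℝ) + 1) ^ 2 * (A * (K * (M : ℝ) ^ 15) ^ (2 * L))) *
        (Real.exp 2 * Real.exp (-(M / ((L : ℝ) + 1) ^ 2))) := by
  have hL : (0 : ℝ) ≤ L := Nat.cast_nonneg _
  have hlam : (1 : ℝ) ≤ ((L : ℝ) + 1) ^ 2 := one_le_pow₀ (by linarith)
  have hM' : 2 * ((L : ℝ) + 1) ^ 2 ≤ M := by exact_mod_cast hM
  have hM2 : (2 : ℝ) ≤ M := by linarith
  have hMn : 2 ≤ M := by exact_mod_cast hM2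
  have hM0 : (0 : ℝ) < M := by linarith
  obtain ⟨r, hr⟩ : ∃ r : ℝ, r = 1 - 1 / (M : ℝ) := ⟨_, rfl⟩
  have hr0 : 0 < r := by
    have : 1 / (M : ℝ) ≤ 1 / 2 := one_div_le_one_div_of_le (by norm_num) hM2
    rw [hr]
    linarith
  have hr1 : r < 1 := by
    have : 0 < 1 / (M : ℝ) := by positivity
    rw [hr]
    linarith
  have hu : 1 / (1 - r) = M := by
    rw [hr]
    field_simp
    ring
  have hA0 : 0 ≤ A := (abs_nonneg _).trans (hA 0 (Nat.zero_le _) 0 (Nat.zero_le _))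
  have hW : 1 ≤ K * (M : ℝ) ^ 15 :=
    one_le_mul_of_one_le_of_one_le hK (one_le_pow₀ (by linarith))
  have hB : ∀ w : ℂ, ‖w‖ = r → ‖zeF L a (serDelta w) ((1 + 240 * serA w) ^ 3)‖ ≤
      ((L : ℝ) + 1) ^ 2 * (A * (K * (M : ℝ) ^ 15) ^ (2 * L)) := by
    intro w hw
    have h1 := hgr w (by rw [hw]; exact hr1)
    rw [hw, hu] at h1
    exact zeF_le hA hW h1.1 h1.2
  have hzr : ‖z‖ ≤ r := by
    refine hz.trans ?_
    rw [Real.exp_neg, hr]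
    have h1 : 1 + 1 / ((L : ℝ) + 1) ^ 2 ≤ Real.exp (1 / ((L : ℝ) + 1) ^ 2) := by
      have := Real.add_one_le_exp (1 / ((L : ℝ) + 1) ^ 2)
      linarith
    have h2 : (Real.exp (1 / ((L : ℝ) + 1) ^ 2))⁻¹ ≤ (1 + 1 / ((L : ℝ) + 1) ^ 2)⁻¹ :=
      inv_anti₀ (by positivity) h1
    refine h2.trans ?_
    rw [inv_le_comm₀ (by positivity) (by rw [← hr]; exact hr0)]
    have h3 : (1 - 1 / (M : ℝ))⁻¹ = 1 + 1 / ((M : ℝ) - 1) := by
      have e0 : (M : ℝ) - 1 ≠ 0 := by linarith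
      have e2 : (1 - 1 / (M : ℝ)) = ((M : ℝ) - 1) / M := by field_simp
      rw [e2, inv_div]
      field_simp
      ring
    rw [h3]
    have h4 : 1 / ((M : ℝ) - 1) ≤ 1 / ((L : ℝ) + 1) ^ 2 :=
      one_div_le_one_div_of_le (by positivity) (by linarith)
    linarith
  have hsch := ze_schwarz (fun z hz => zeF_cv L a z hz) (M := M) (fun n hn => by
    rw [h0 n hn, Int.cast_zero]) hr0 hr1 hB hzr
  refine hsch.trans ?_
  refine mul_le_mul_of_nonneg_left ?_ (by positivity)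
  have h1 : (‖z‖ / r) ^ M = (1 / r) ^ M * ‖z‖ ^ M := by
    rw [← mul_pow]
    congr 1
    ring
  rw [h1, hr]
  refine mul_le_mul (ze_r hMn) ?_ (by positivity) (Real.exp_pos _).le
  calc ‖z‖ ^ M ≤ Real.exp (-(1 / ((L : ℝ) + 1) ^ 2)) ^ M :=
        pow_le_pow_left₀ (norm_nonneg _) hz M
    _ = Real.exp (M * -(1 / ((L : ℝ) + 1) ^ 2)) := (Real.exp_nat_mul _ _).symm
    _ = Real.exp (-(M / ((L : ℝ) + 1) ^ 2)) := by
        congr 1
        ring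

/-- the numerical choice -/
private theorem ze_num (C : ℝ) : ∃ T : ℕ, 146 ≤ T ∧ C * (T : ℝ) ^ 30 < Real.exp ((T : ℝ) - 145) := by
  have h1 := (Real.tendsto_pow_mul_exp_neg_atTop_nhds_zero 30).comp tendsto_natCast_atTop_atTop
  have h2 := h1.const_mul (C * Real.exp 145)
  rw [mul_zero] at h2
  have h3 := h2.eventually (gt_mem_nhds (zero_lt_one))
  obtain ⟨T, hT, hT2⟩ := (h3.and (Filter.eventually_ge_atTop 146)).exists
  refine ⟨T, hT2, ?_⟩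
  simp only [Function.comp_apply] at hT
  have h4 : C * (T : ℝ) ^ 30 * (Real.exp 145 * Real.exp (-(T : ℝ))) < 1 := by
    calc C * (T : ℝ) ^ 30 * (Real.exp 145 * Real.exp (-(T : ℝ))) =
        C * Real.exp 145 * ((T : ℝ) ^ 30 * Real.exp (-(T : ℝ))) := by ring
      _ < 1 := hT
  rw [← Real.exp_add] at h4
  have h5 : Real.exp (145 + -(T : ℝ)) * Real.exp ((T : ℝ) - 145) = 1 := by
    rw [← Real.exp_add]
    have h50 : 145 + -(T : ℝ) + ((T : ℝ) - 145) = 0 := by ring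
    rw [h50, Real.exp_zero]
  have h6 : 0 < Real.exp ((T : ℝ) - 145) := Real.exp_pos _
  calc C * (T : ℝ) ^ 30 = C * (T : ℝ) ^ 30 * (Real.exp (145 + -(T : ℝ)) * Real.exp ((T : ℝ) - 145)) := by
        rw [h5, mul_one]
    _ = C * (T : ℝ) ^ 30 * Real.exp (145 + -(T : ℝ)) * Real.exp ((T : ℝ) - 145) := by ring
    _ < 1 * Real.exp ((T : ℝ) - 145) := mul_lt_mul_of_pos_right h4 h6
    _ = Real.exp ((T : ℝ) - 145) := one_mul _

/-- the zero estimate -/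
theorem zest : ∃ C₀ : ℕ, ∀ (L : ℕ) (a : ℕ → ℕ → ℤ), (∃ i ≤ L, ∃ j ≤ L, a i j ≠ 0) →
    ∃ n ≤ C₀ * (L + 1) ^ 4, coeff n (∑ i ∈ range (L + 1), ∑ j ∈ range (L + 1),
      C (a i j) * (Ds ^ i * (E4s ^ 3) ^ j)) ≠ 0 := by
  obtain ⟨K, hK, hgr⟩ := ze_growth
  obtain ⟨c, R, δ, hc0, hc1, hδ0, hδ1, hR1, hdata⟩ := ze_data
  obtain ⟨C₃, hC₃⟩ : ∃ C₃ : ℝ, C₃ = 2 * Real.exp 2 * ((R / δ) * (1 / c) ^ 2 * 8192 ^ 2 * K ^ 2) :=
    ⟨_, rfl⟩
  obtain ⟨T, hT146, hT⟩ := ze_num C₃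
  refine ⟨T, fun L a ha => ?_⟩
  by_contra hcon
  push Not at hcon
  obtain ⟨M, hM⟩ : ∃ M : ℕ, M = T * (L + 1) ^ 4 := ⟨_, rfl⟩
  rw [← hM] at hcon
  have h0 : ∀ n < M, coeff n (∑ i ∈ range (L + 1), ∑ j ∈ range (L + 1),
      C (a i j) * (Ds ^ i * (E4s ^ 3) ^ j)) = 0 := fun n hn => hcon n hn.le
  -- the maximal coefficient
  obtain ⟨p, hp, hmax⟩ := Finset.exists_max_image ((range (L + 1)) ×ˢ (range (L + 1)))
    (fun p : ℕ × ℕ => |a p.1 p.2|) ⟨(0, 0), by simp⟩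
  rw [mem_product, mem_range, mem_range] at hp
  obtain ⟨A, hA⟩ : ∃ A : ℝ, A = |(a p.1 p.2 : ℝ)| := ⟨_, rfl⟩
  have hAmax : ∀ i ≤ L, ∀ j ≤ L, |(a i j : ℝ)| ≤ A := by
    intro i hi j hj
    have h1 := hmax (i, j) (by rw [mem_product, mem_range, mem_range]; omega)
    rw [hA]
    exact_mod_cast h1
  have hA1 : 1 ≤ A := by
    obtain ⟨i, hi, j, hj, hij⟩ := ha
    have h1 := hAmax i hi j hj
    have h2 : (1 : ℝ) ≤ |(a i j : ℝ)| := by exact_mod_cast Int.one_le_abs hij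
    linarith
  obtain ⟨lam, hlam⟩ : ∃ lam : ℝ, lam = (L : ℝ) + 1 := ⟨_, rfl⟩
  have hL0 : (0 : ℝ) ≤ L := Nat.cast_nonneg _
  have hlam1 : 1 ≤ lam := by rw [hlam]; linarith
  have hMr : (M : ℝ) = T * lam ^ 4 := by rw [hM, hlam]; push_cast; ring
  have hTr : (146 : ℝ) ≤ T := by exact_mod_cast hT146
  have hM2 : 2 * (L + 1) ^ 2 ≤ M := by
    rw [hM]
    have h1 : (L + 1) ^ 2 ≤ (L + 1) ^ 4 := Nat.pow_le_pow_right (Nat.succ_pos _) (by norm_num)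
    exact Nat.mul_le_mul (by omega) h1
  have hM1 : (1 : ℝ) ≤ M := by
    have h1 : 1 ≤ M := le_trans (by nlinarith [Nat.zero_le L]) hM2
    exact_mod_cast h1
  obtain ⟨B, hB⟩ : ∃ B : ℝ, B = (lam ^ 2 * (A * (K * (M : ℝ) ^ 15) ^ (2 * L))) *
      (Real.exp 2 * Real.exp (-(M / lam ^ 2))) := ⟨_, rfl⟩
  have hB0 : 0 ≤ B := by
    rw [hB]
    have : 0 ≤ K := by linarith
    positivity
  obtain ⟨τ, hτ, hsep⟩ := hdata L
  -- first interpolation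
  have hG : ∀ l ≤ L, ∀ k ≤ 2 * L, ‖zeG L a (discriminant (τ l)) (E₄ (τ l) ^ 3) k‖ ≤
      ((2 * L : ℕ) + 1) * ((8192 * lam ^ 12 / 1) ^ (2 * L) * B) := by
    intro l hl
    obtain ⟨⟨y, hy1, hy2, hy⟩, -, -⟩ := hτ l hl
    refine ze_interp (x := fun d : ℕ => ((τ l : ℂ) + d) ^ 12) (R := 8192 * lam ^ 12)
      (δ := 1) (ε := B) one_pos ?_ ?_ ?_
    · intro d hd
      simp only [hy]
      rw [hlam]
      exact ze_nodes hy1 hy2 L d hd
    · intro d _ e _ hde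
      simp only [hy]
      exact ze_sep hy1 hde
    · intro d hd
      rw [zeG_sum]
      obtain ⟨τ', h1, h2, h3⟩ := ze_mod d (τ l)
      have h4 : zeF L a (((τ l : ℂ) + d) ^ 12 * discriminant (τ l))
          (((τ l : ℂ) + d) ^ 12 * E₄ (τ l) ^ 3) =
          zeF L a (serDelta (Periodic.qParam 1 (τ' : ℂ)))
            ((1 + 240 * serA (Periodic.qParam 1 (τ' : ℂ))) ^ 3) := by
        rw [← disc_eq, ← E4_eq, h1, h2]
        congr 1
        ring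
      rw [h4, hB, hlam]
      refine ze_small hK hgr hM2 hAmax h0 ?_
      rw [Gal.norm_qParam]
      refine Real.exp_le_exp.2 ?_
      have h5 : Complex.normSq ((τ l : ℂ) + d) = y ^ 2 + (d : ℝ) ^ 2 := by
        rw [hy, Complex.normSq_apply]
        simp
        ring
      have h6 : (τ l).im = y := by
        rw [← UpperHalfPlane.coe_im, hy]
        simp
      have hd' : (d : ℝ) ≤ 2 * L := by exact_mod_cast hd
      have h7 : y ^ 2 + (d : ℝ) ^ 2 ≤ 4 * ((L : ℝ) + 1) ^ 2 := by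
        have : (0 : ℝ) ≤ d := Nat.cast_nonneg _
        nlinarith
      have h8 : 1 / (4 * ((L : ℝ) + 1) ^ 2) ≤ τ'.im := by
        rw [h3, h5, h6]
        rw [div_le_div_iff₀ (by positivity) (by positivity)]
        nlinarith
      have hpi := Real.pi_gt_three
      have h9 : 1 / ((L : ℝ) + 1) ^ 2 ≤ 2 * Real.pi * τ'.im := by
        have h10 : 1 / ((L : ℝ) + 1) ^ 2 = 4 * (1 / (4 * ((L : ℝ) + 1) ^ 2)) := by
          field_simp
        have h11 : 0 < 1 / (4 * ((L : ℝ) + 1) ^ 2) := by positivity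
        rw [h10]
        nlinarith
      linarith
  -- second interpolation
  obtain ⟨k₀, hk₀⟩ : ∃ k₀ : ℕ, k₀ = p.1 + p.2 := ⟨_, rfl⟩
  obtain ⟨E, hE⟩ : ∃ E : ℝ, E = ((2 * L : ℕ) + 1) * ((8192 * lam ^ 12 / 1) ^ (2 * L) * B) := ⟨_, rfl⟩
  have hE0 : 0 ≤ E := by rw [hE]; positivity
  have hcoef := ze_interp (K := L)
    (a := fun j => if j ≤ k₀ ∧ k₀ - j ≤ L then (a (k₀ - j) j : ℂ) else 0)
    (x := fun l => jInv (τ l)) (R := R) (δ := δ / (L + 1)) (ε := (1 / c) ^ (2 * L) * E)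
    (by positivity) (fun l hl => (hτ l hl).2.2) hsep (by
      intro l hl
      obtain ⟨-, h1, -⟩ := hτ l hl
      have h2 := hG l hl k₀ (by omega)
      rw [ze_mul_eq, zeG_eq, norm_mul, norm_pow, ← hE] at h2
      have hD0 : 0 < ‖discriminant (τ l)‖ := hc0.trans_le h1
      have h3 : c ^ (2 * L) ≤ ‖discriminant (τ l)‖ ^ k₀ := by
        calc c ^ (2 * L) ≤ c ^ k₀ := pow_le_pow_of_le_one hc0.le hc1 (by omega)
          _ ≤ _ := pow_le_pow_left₀ hc0.le h1 _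
      have h4 : c ^ (2 * L) * ‖∑ j ∈ range (L + 1),
          (if j ≤ k₀ ∧ k₀ - j ≤ L then (a (k₀ - j) j : ℂ) else 0) * jInv (τ l) ^ j‖ ≤ E :=
        (mul_le_mul_of_nonneg_right h3 (norm_nonneg _)).trans h2
      rw [one_div, inv_pow, ← div_eq_inv_mul, le_div_iff₀ (pow_pos hc0 _), mul_comm]
      exact h4) p.2 (by omega)
  have hfin : A ≤ (L + 1) * ((R / (δ / (L + 1))) ^ L * ((1 / c) ^ (2 * L) * E)) := by
    have h1 : (if p.2 ≤ k₀ ∧ k₀ - p.2 ≤ L then (a (k₀ - p.2) p.2 : ℂ) else 0) =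
        (a p.1 p.2 : ℂ) := by
      rw [if_pos ⟨by omega, by omega⟩]
      congr 2
      omega
    simp only [h1] at hcoef
    rw [Complex.norm_intCast, ← hA] at hcoef
    exact hcoef
  -- the numerical contradiction
  have hK0 : 0 < K := by linarith
  have hR0 : 0 < R := by linarith
  obtain ⟨Z, hZ⟩ : ∃ Z : ℝ, Z = C₃ * (lam ^ 25 * (M : ℝ) ^ 30) := ⟨_, rfl⟩
  obtain ⟨Y, hY⟩ : ∃ Y : ℝ, Y = (R / δ) * lam * (1 / c) ^ 2 * (8192 * lam ^ 12) ^ 2 *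
      (K * (M : ℝ) ^ 15) ^ 2 := ⟨_, rfl⟩
  have hY0 : 0 ≤ Y := by rw [hY]; positivity
  have he2 : (1 : ℝ) ≤ Real.exp 2 := Real.one_le_exp (by norm_num)
  have hRδ : 1 ≤ R / δ := by rw [le_div_iff₀ hδ0]; linarith
  have hcinv : 1 ≤ 1 / c := by rw [le_div_iff₀ hc0]; linarith
  have hYZ : Y ≤ Z := by
    rw [hY, hZ, hC₃]
    have e1 : R / δ * lam * (1 / c) ^ 2 * (8192 * lam ^ 12) ^ 2 * (K * (M : ℝ) ^ 15) ^ 2 =
        1 * ((R / δ) * (1 / c) ^ 2 * 8192 ^ 2 * K ^ 2 * (lam ^ 25 * (M : ℝ) ^ 30)) := by ring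
    have e2 : 2 * Real.exp 2 * (R / δ * (1 / c) ^ 2 * 8192 ^ 2 * K ^ 2) * (lam ^ 25 * (M : ℝ) ^ 30) =
        2 * Real.exp 2 * ((R / δ) * (1 / c) ^ 2 * 8192 ^ 2 * K ^ 2 * (lam ^ 25 * (M : ℝ) ^ 30)) := by
      ring
    rw [e1, e2]
    exact mul_le_mul_of_nonneg_right (by linarith) (by positivity)
  have hZ1 : 2 * Real.exp 2 * lam ^ 4 ≤ Z := by
    rw [hZ, hC₃]
    have e1 : 1 ≤ (R / δ) * (1 / c) ^ 2 * 8192 ^ 2 * K ^ 2 := by
      refine one_le_mul_of_one_le_of_one_le (one_le_mul_of_one_le_of_one_le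
        (one_le_mul_of_one_le_of_one_le hRδ (one_le_pow₀ hcinv)) (by norm_num)) (one_le_pow₀ hK)
    have e2 : lam ^ 4 ≤ lam ^ 25 * (M : ℝ) ^ 30 := by
      have f1 : lam ^ 4 ≤ lam ^ 25 := pow_le_pow_right₀ hlam1 (by norm_num)
      have f2 : 1 ≤ (M : ℝ) ^ 30 := one_le_pow₀ hM1
      have f3 : 0 ≤ lam ^ 25 := by positivity
      nlinarith
    have e3 : 2 * Real.exp 2 ≤ 2 * Real.exp 2 * ((R / δ) * (1 / c) ^ 2 * 8192 ^ 2 * K ^ 2) :=
      le_mul_of_one_le_right (by positivity) e1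
    exact mul_le_mul e3 e2 (by positivity) (by positivity)
  have hfin2 : A ≤ A * (Z ^ (L + 1) * Real.exp (-(M / lam ^ 2))) := by
    have e1 : (L + 1) * ((R / (δ / (L + 1))) ^ L * ((1 / c) ^ (2 * L) * E)) ≤
        A * ((2 * Real.exp 2 * lam ^ 4) * Y ^ L * Real.exp (-(M / lam ^ 2))) := by
      have f1 : ((2 * L : ℕ) + 1 : ℝ) ≤ 2 * lam := by rw [hlam]; push_cast; linarith
      have f2 : R / (δ / ((L : ℝ) + 1)) = R / δ * lam := by
        rw [hlam]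
        field_simp
      rw [f2, ← hlam, hE, hB, div_one]
      have f3 : lam * ((R / δ * lam) ^ L * ((1 / c) ^ (2 * L) * (((2 * L : ℕ) + 1) *
          ((8192 * lam ^ 12) ^ (2 * L) * ((lam ^ 2 * (A * (K * (M : ℝ) ^ 15) ^ (2 * L))) *
          (Real.exp 2 * Real.exp (-(M / lam ^ 2)))))))) =
          ((2 * L : ℕ) + 1) * (A * (Real.exp 2 * lam ^ 3 * Y ^ L * Real.exp (-(M / lam ^ 2)))) := by
        have g1 : Y ^ L = (R / δ * lam) ^ L * (1 / c) ^ (2 * L) * (8192 * lam ^ 12) ^ (2 * L) *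
            (K * (M : ℝ) ^ 15) ^ (2 * L) := by
          rw [hY, mul_pow, mul_pow, mul_pow, ← pow_mul, ← pow_mul, ← pow_mul]
        rw [g1]
        ring
      rw [f3]
      have f4 : 0 ≤ A * (Real.exp 2 * lam ^ 3 * Y ^ L * Real.exp (-(M / lam ^ 2))) := by positivity
      calc ((2 * L : ℕ) + 1 : ℝ) * (A * (Real.exp 2 * lam ^ 3 * Y ^ L * Real.exp (-(M / lam ^ 2))))
          ≤ 2 * lam * (A * (Real.exp 2 * lam ^ 3 * Y ^ L * Real.exp (-(M / lam ^ 2)))) :=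
            mul_le_mul_of_nonneg_right f1 f4
        _ = A * ((2 * Real.exp 2 * lam ^ 4) * Y ^ L * Real.exp (-(M / lam ^ 2))) := by ring
    refine hfin.trans (e1.trans ?_)
    refine mul_le_mul_of_nonneg_left ?_ (by linarith)
    refine mul_le_mul_of_nonneg_right ?_ (Real.exp_pos _).le
    rw [pow_succ Z L, mul_comm (Z ^ L) Z]
    exact mul_le_mul hZ1 (pow_le_pow_left₀ hY0 hYZ L) (by positivity) (by
      refine le_trans ?_ hZ1
      positivity)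
  have hfin3 : 1 ≤ Z ^ (L + 1) * Real.exp (-(M / lam ^ 2)) := by
    have h1 : A * 1 ≤ A * (Z ^ (L + 1) * Real.exp (-(M / lam ^ 2))) := by rw [mul_one]; exact hfin2
    exact le_of_mul_le_mul_left h1 (by linarith)
  have hZlt : Z < Real.exp (T * lam) := by
    have e1 : Z = C₃ * (T : ℝ) ^ 30 * lam ^ 145 := by
      rw [hZ, hMr]
      ring
    have e2 : lam ^ 145 ≤ Real.exp (145 * lam) := by
      have f1 : lam ≤ Real.exp lam := by
        have := Real.add_one_le_exp lam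
        linarith
      calc lam ^ 145 ≤ Real.exp lam ^ 145 := pow_le_pow_left₀ (by linarith) f1 _
        _ = Real.exp (145 * lam) := by
            rw [← Real.exp_nat_mul]
            norm_num
    have e3 : Real.exp ((T : ℝ) - 145) ≤ Real.exp (((T : ℝ) - 145) * lam) := by
      refine Real.exp_le_exp.2 ?_
      nlinarith
    have e4 : 0 < lam ^ 145 := by positivity
    calc Z = C₃ * (T : ℝ) ^ 30 * lam ^ 145 := e1
      _ < Real.exp ((T : ℝ) - 145) * lam ^ 145 := mul_lt_mul_of_pos_right hT e4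
      _ ≤ Real.exp (((T : ℝ) - 145) * lam) * Real.exp (145 * lam) :=
          mul_le_mul e3 e2 e4.le (Real.exp_pos _).le
      _ = Real.exp (T * lam) := by
          rw [← Real.exp_add]
          congr 1
          ring
  have hZ0 : 0 ≤ Z := hY0.trans hYZ
  have hlast : Z ^ (L + 1) < Real.exp (M / lam ^ 2) := by
    calc Z ^ (L + 1) < Real.exp (T * lam) ^ (L + 1) := pow_lt_pow_left₀ hZlt hZ0 (Nat.succ_ne_zero _)
      _ = Real.exp (M / lam ^ 2) := by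
          rw [← Real.exp_nat_mul]
          congr 1
          have : lam ≠ 0 := by linarith
          rw [hMr]
          push_cast
          rw [← hlam]
          field_simp
  have h1 : Z ^ (L + 1) * Real.exp (-(M / lam ^ 2)) < 1 := by
    calc Z ^ (L + 1) * Real.exp (-(M / lam ^ 2)) < Real.exp (M / lam ^ 2) * Real.exp (-(M / lam ^ 2)) :=
          mul_lt_mul_of_pos_right hlast (Real.exp_pos _)
      _ = 1 := by rw [← Real.exp_add]; simp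
  linarith

end Pool.Agent.LGO.PA
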